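import Pool.Agent.Work.MP_308fa9_nt.TW.ADefs
import Pool.Agent.Work.MP_308fa9_nt.Gen.ElsLocal

set_option autoImplicit false

/-!
Basic facts on the components.
-/

namespace Stoll308.TW

open Finset Polynomial Stoll308.Gen NumberTheorySymbols

variable {k : ℕ} {f : Fin k → ℤ[X]} {C₀ : ℕ}

theorem natDegree_FF (h : ∀ i, (f i).Monic) : (FF f).natDegree = ∑ i, (f i).natDegree :=
  natDegree_prod_of_monic _ _ fun i _ => h i

private lemma fp_FF (p : ℕ) : fp (FF f) p = ∏ i, fp (f i) p := Polynomial.map_prod _ _ _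

private lemma mem_R_dvd {g : ℤ[X]} {p a : ℕ} :
    a ∈ R g p ↔ a < p ∧ (p : ℤ) ∣ g.eval (a : ℤ) := by
  unfold R
  rw [mem_filter, mem_range]

namespace GB

variable (hG : GB f C₀)

include hG

theorem good (i : Fin k) : GoodBound (f i) C₀ where
  monic := hG.monic i
  irr := hG.irr i
  deg := le_trans (by norm_num) (hG.deg i)
  two := hG.two
  sep := fun p hp hpC => by
    have h := hG.sep p hp hpC
    rw [fp_FF] at h
    exact h.of_dvd (dvd_prod_of_mem _ (mem_univ i))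
  res := hG.res i

theorem monicF : (FF f).Monic := monic_prod_of_monic _ _ fun i _ => hG.monic i

/-- The roots modulo `p` of the different components are different. -/
theorem root_unique {p : ℕ} (hp : p.Prime) (hpC : C₀ < p) {i j : Fin k} {a : ℕ}
    (hi : a ∈ R (f i) p) (hj : a ∈ R (f j) p) : i = j := by
  by_contra hij
  have : Fact p.Prime := ⟨hp⟩
  have h := hG.sep p hp hpC
  rw [fp_FF] at h
  have h1 : fp (f i) p * fp (f j) p ∣ ∏ i, fp (f i) p := by
    rw [← mul_prod_erase univ _ (mem_univ i)]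
    exact mul_dvd_mul_left _ (dvd_prod_of_mem _ (mem_erase.2 ⟨Ne.symm hij, mem_univ j⟩))
  have h2 := (h.of_dvd h1).isCoprime
  obtain ⟨u, v, huv⟩ := h2
  have h3 := congrArg (eval (a : ZMod p)) huv
  rw [eval_add, eval_mul, eval_mul, (Gen.mem_R.1 hi).2, (Gen.mem_R.1 hj).2] at h3
  simp at h3

theorem mem_R {p : ℕ} (hp : p.Prime) {a : ℕ} : a ∈ R (FF f) p ↔ ∃ i, a ∈ R (f i) p := by
  have hpp : Prime (p : ℤ) := Nat.prime_iff_prime_int.1 hp
  rw [mem_R_dvd, FF, eval_prod, hpp.dvd_finsetProd_iff]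
  constructor
  · rintro ⟨h1, i, _, h2⟩
    exact ⟨i, mem_R_dvd.2 ⟨h1, h2⟩⟩
  · rintro ⟨i, h⟩
    obtain ⟨h1, h2⟩ := mem_R_dvd.1 h
    exact ⟨h1, i, mem_univ i, h2⟩

theorem card_RA {p : ℕ} (hp : p.Prime) (hpC : C₀ < p) (A : Finset (Fin k)) :
    (RA f A p).card = ∑ i ∈ A, (R (f i) p).card := by
  unfold RA
  refine card_biUnion fun i _ j _ hij => ?_
  change Disjoint (R (f i) p) (R (f j) p)
  rw [disjoint_left]
  exact fun a ha hb => hij (hG.root_unique hp hpC ha hb)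

theorem card_R_le {p : ℕ} (hp : p.Prime) (i : Fin k) : (R (f i) p).card ≤ (f i).natDegree := by
  have : Fact p.Prime := ⟨hp⟩
  exact card_R_le_deg (hG.monic i)

theorem card_RF {p : ℕ} (hp : p.Prime) (hpC : C₀ < p) :
    (R (FF f) p).card = ∑ i, (R (f i) p).card := by
  rw [← hG.card_RA hp hpC univ]
  congr 1
  ext a
  rw [hG.mem_R hp]
  unfold RA
  rw [mem_biUnion]
  simp

theorem eval_FF {p : ℕ} [Fact p.Prime] (β : ℤ_[p]) :
    (fz (FF f) p).eval β = 0 ↔ ∃ i, (fz (f i) p).eval β = 0 := by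
  have h : fz (FF f) p = ∏ i, fz (f i) p := Polynomial.map_prod _ _ _
  rw [h, eval_prod, prod_eq_zero_iff]
  simp

theorem lift_unique {p : ℕ} [Fact p.Prime] (hpC : C₀ < p) {i : Fin k} {a : ℕ} {α β : ℤ_[p]}
    (hα : Lift (f i) p a α) (hβ : Lift (f i) p a β) : α = β :=
  Lift.unique (hG.monic i) ((hG.good i).sep p (Fact.out) hpC) hα hβ

end GB

/-- All large bounds are good. -/
theorem exists_GB (hm : ∀ i, (f i).Monic) (hirr : ∀ i, Irreducible (f i))
    (hd : ∀ i, 2 ≤ (f i).natDegree) (hev : Even (∑ i, (f i).natDegree))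
    (h6 : 6 ≤ ∑ i, (f i).natDegree) (hsep : ((FF f).map (Int.castRingHom ℚ)).Separable) : ∃ B : ℕ, ∀ C₀, B ≤ C₀ → GB f C₀ := by
  obtain ⟨B₁, hB₁⟩ := exists_separable_of_map (FF f) hsep
  have h2 : ∀ i, ∃ B : ℕ, resConst (f i) ≤ B := fun i => exists_nat_ge _
  choose B₂ hB₂ using h2
  refine ⟨B₁ + 2 + (2 * ∑ i, (f i).natDegree + 2) ^ 2 + ∑ i, B₂ i, fun C₀ hC => ?_⟩
  refine { monic := hm, irr := hirr, deg := hd, even := hev, six := h6, two := by omega,
           big := by omega, sep := fun p hp hpC => hB₁ p hp (by omega), res := fun i => ?_ }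
  refine (hB₂ i).trans ?_
  have h3 : B₂ i ≤ ∑ i, B₂ i := single_le_sum (fun _ _ => Nat.zero_le _) (mem_univ i)
  exact_mod_cast h3.trans (by omega)

end Stoll308.TW
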