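import Pool.Agent.Work.MP_308fa9_nt.TW.ABas

set_option autoImplicit false

/-!
Representatives modulo squares with a common rational factor (from `Gen.exists_reps`,
`Gen.evenAt_almost`, `Gen.evenAt_of_UU`, as in `Gen.exists_relData`).
-/

namespace Stoll308.TW

open Finset Polynomial Stoll308.Gen NumberTheorySymbols

variable {k : ℕ} {f : Fin k → ℤ[X]} {C₀ : ℕ}

theorem exists_common (hG : GB f C₀) [∀ i, Fact (Irreducible (fr (f i)))] :
    ∃ S : (i : Fin k) → Set (KK (f i)), (∀ i, (S i).Finite) ∧ ∀ Δ : Fin k → ℚ[X],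
      (∀ i, AdjoinRoot.mk (fr (f i)) (Δ i) ≠ 0) →
      (∀ (p : ℕ) [Fact p.Prime], C₀ < p → ∃ e : ℤ, ∀ i, ∃ w : AdjoinRoot (fq (f i) p),
        UU (f i) p (mkq (f i) p (C ((p : ℚ_[p]) ^ e)) * mkq (f i) p (dq (Δ i) p) * w ^ 2)) →
      ∃ x : ℚ, x ≠ 0 ∧ ∀ i, ∃ ε ∈ S i, ∃ γ : KK (f i), γ ≠ 0 ∧
        AdjoinRoot.mk (fr (f i)) (C x * Δ i) = ε * γ ^ 2 := by
  classical
  choose S hS hreps using fun i => exists_reps (f := f i) (hG.monic i) C₀
  refine ⟨S, hS, fun Δ hΔ0 hU => ?_⟩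
  -- the exponents
  have hE : ∀ p : ℕ, ∃ e : ℤ, ∀ (_ : Fact p.Prime), C₀ < p →
      ∀ i, EvenAt (f i) p (C ((p : ℚ) ^ e) * Δ i) := by
    intro p
    by_cases hp : p.Prime
    · by_cases hpC : C₀ < p
      · have hpf : Fact p.Prime := ⟨hp⟩
        obtain ⟨e, h⟩ := hU p hpC
        refine ⟨e, fun _ _ i => ?_⟩
        obtain ⟨w, hw⟩ := h i
        exact evenAt_of_UU (hG.monic i) hw
      · exact ⟨0, fun _ h => absurd h hpC⟩
    · exact ⟨0, fun h _ => absurd h.out hp⟩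
  choose e he using hE
  have hirr : ∀ i, Irreducible (fr (f i)) := fun i => (inferInstance : Fact (Irreducible
    (fr (f i)))).out
  choose B hB using fun i => evenAt_almost (f := f i) (hirr i) (Δ := Δ i) (by
    rw [← AdjoinRoot.mk_eq_zero]
    exact hΔ0 i)
  set Q : Finset ℕ := (range (univ.sup B + 1)).filter Nat.Prime with hQ
  set r : ℚ := ∏ q ∈ Q, (q : ℚ) ^ (e q) with hr
  have hr0 : r ≠ 0 := by
    rw [hr, prod_ne_zero_iff]
    intro q hq
    rw [hQ, mem_filter] at hq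
    exact zpow_ne_zero _ (by exact_mod_cast hq.2.ne_zero)
  have hall : ∀ i, ∀ (p : ℕ) [Fact p.Prime], C₀ < p → EvenAt (f i) p (C r * Δ i) := by
    intro i p hpf hpC
    by_cases hpQ : p ∈ Q
    · have h1 : C r * Δ i = C (∏ q ∈ Q.erase p, (q : ℚ) ^ (e q)) *
          (C ((p : ℚ) ^ (e p)) * Δ i) := by
        rw [hr, ← mul_prod_erase Q _ hpQ, C_mul]
        ring
      rw [h1]
      apply (he p hpf hpC i).prod_mul
      · intro q hq
        have := mem_of_mem_erase hq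
        rw [hQ, mem_filter] at this
        exact this.2
      · exact notMem_erase _ _
    · apply EvenAt.prod_mul _ Q (fun q hq => by rw [hQ, mem_filter] at hq; exact hq.2) hpQ
      apply hB i
      by_contra hle
      apply hpQ
      rw [hQ, mem_filter, mem_range]
      have h2 : B i ≤ univ.sup B := le_sup (mem_univ i)
      exact ⟨by omega, hpf.out⟩
  refine ⟨r, hr0, fun i => ?_⟩
  have hrΔ0 : AdjoinRoot.mk (fr (f i)) (C r * Δ i) ≠ 0 := by
    rw [map_mul]
    refine mul_ne_zero ?_ (hΔ0 i)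
    rw [AdjoinRoot.mk_C]
    exact (_root_.map_ne_zero _).2 hr0
  exact hreps i (C r * Δ i) hrΔ0 (hall i)

end Stoll308.TW
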