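import Pool.Agent.Work.MP_308fa9_nt.Gen.SelDec
import Pool.Agent.Work.MP_308fa9_nt.HT

set_option autoImplicit false

/-!
Quadratic twists `t y² = f(x)`, `f = ∏ f_i`: systems of characters attached to labelled sets of
primes, and the parameters of the block analysis.
-/

namespace Stoll308.TW

open Finset Stoll308.Gen

/-- The labels of a prime: `o` (the prime does not divide `t`), `u` (the local point reduces to the
point at infinity), `r i a` (it reduces to the root `a` of the component `f_i`). -/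
inductive Lab (k : ℕ) where
  | o : Lab k
  | u : Lab k
  | r (i : Fin k) (a : ℕ) : Lab k
  deriving DecidableEq

/-- The root of a label. -/
def Lab.rt {k : ℕ} : Lab k → ℕ
  | .o => 0
  | .u => 0
  | .r _ a => a

variable {k : ℕ}

/-- The primes of `S` with a label. -/
def spt (S : Finset ℕ) (r : ℕ → Lab k) : Finset ℕ := S.filter fun p => r p ≠ .o

/-- The primes of `S` labelled by a root of the component `i`. -/
def cpt (i : Fin k) (S : Finset ℕ) (r : ℕ → Lab k) : Finset ℕ :=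
  S.filter fun p => r p = .r i (r p).rt

/-- The roots of a label function. -/
def rts (r : ℕ → Lab k) : ℕ → ℕ := fun p => (r p).rt

open Classical in
/-- The label function `r` without the primes `p > Z i` labelled by the components `i ∈ A`. -/
noncomputable def mask (A : Finset (Fin k)) (Z : Fin k → ℝ) (r : ℕ → Lab k) (p : ℕ) : Lab k :=
  match r p with
  | .o => .o
  | .u => .u
  | .r i a => if i ∈ A ∧ Z i < (p : ℝ) then .o else .r i a

/-- The primes `p > Z i` of `S` labelled by the component `i`. -/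
noncomputable def cut (Z : Fin k → ℝ) (i : Fin k) (S : Finset ℕ) (r : ℕ → Lab k) : Finset ℕ :=
  (cpt i S r).filter fun p : ℕ => Z i < (p : ℝ)

/-- A set of primes with roots. -/
def Vd (C₀ : ℕ) (R : ℕ → Finset ℕ) (T : Finset ℕ) (ρ : ℕ → ℕ) : Prop :=
  ∀ p ∈ T, p.Prime ∧ C₀ < p ∧ ρ p ∈ R p

/-- The admissible labels at `p` with components in `A` (`inf`: the label `u` is admissible). -/
def Lbl (inf : Bool) (Rt : Fin k → ℕ → Finset ℕ) (A : Finset (Fin k)) (p : ℕ) : Finset (Lab k) :=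
  (if inf then {.u} else ∅) ∪ A.biUnion fun i => (Rt i p).image (.r i)

/-- A system of characters. -/
structure Sys (k : ℕ) where
  n : Fin k → ℕ
  C₀ : ℕ
  m : ℕ
  K : ℕ
  inf : Bool
  Rt : Fin k → ℕ → Finset ℕ
  g : (i : Fin k) → Finset ℕ → (ℕ → ℕ) → (Fin (n i) → ℤ)
  κ : Fin k → Finset ℕ → (ℕ → ℕ) → ℤ
  J : Finset (Fin k) → ℕ → Lab k → Finset ℕ
  ψ : Finset (Fin k) → ℕ → Lab k → ℕ → ((i : Fin k) → Fin (n i) → ℤ) → ℝ
  cf : Fin m → ℤ → (ℕ → Lab k) → (Fin k → ℤ) → Finset (Fin k) → ℕ → ℕ → ℝ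
  n_pos : ∀ i, 0 < n i
  card_le : ∀ p, p.Prime → C₀ < p → ∑ i, (Rt i p).card + 1 ≤ K
  cf_le : ∀ e s r κ A p c, |cf e s r κ A p c| ≤ 1
  ψ_le : ∀ A p ℓ c g, |ψ A p ℓ c g| ≤ 1
  ψ_per : ∀ A (p : ℕ) ℓ c g g', (∀ i ∈ A, ∀ x, (p : ℤ) ∣ g i x - g' i x) →
    ψ A p ℓ c g = ψ A p ℓ c g'
  nontriv : ∀ A p ℓ, p.Prime → C₀ < p → ℓ ∈ Lbl inf Rt A p → ∀ S ⊆ J A p ℓ, S.Nonempty →
    ∃ a ∈ A, ∀ g : (i : Fin k) → Fin (n i) → ℤ, ∑ v : Fin (n a) → Fin p,
      ∏ c ∈ S, ψ A p ℓ c (Function.update g a fun x => ((v x : ℕ) : ℤ)) = 0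
  g_congr : ∀ i T ρ ρ', (∀ p ∈ T, ρ p = ρ' p) → g i T ρ = g i T ρ'
  κ_congr : ∀ i T ρ ρ', (∀ p ∈ T, ρ p = ρ' p) → κ i T ρ = κ i T ρ'
  g_le : ∀ i T ρ, Vd C₀ (Rt i) T ρ → ∀ x, |g i T ρ x| ^ n i ≤ ((∏ p ∈ T, p : ℕ) : ℤ)
  g_inj : ∀ i T ρ T' ρ', Vd C₀ (Rt i) T ρ → Vd C₀ (Rt i) T' ρ' → g i T ρ = g i T' ρ' →
    T = T' ∧ ∀ p ∈ T, ρ p = ρ' p
  κ_le : ∀ i T ρ, Vd C₀ (Rt i) T ρ → |κ i T ρ| ≤ K

namespace Sys

variable (D : Sys k)

/-- The admissible labels at `p` with components in `A`. -/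
def Lb (A : Finset (Fin k)) (p : ℕ) : Finset (Lab k) := Lbl D.inf D.Rt A p

/-- The weight of a prime at which the conditions for the active components `A` are imposed. -/
noncomputable def wt (A : Finset (Fin k)) (p : ℕ) : ℝ :=
  ∑ ℓ ∈ D.Lb A p, (1 / 2 : ℝ) ^ (D.J A p ℓ).card

open Classical in
/-- The numbers `κ` of the large primes labelled by the components of `A`. -/
noncomputable def kv (A : Finset (Fin k)) (Z : Fin k → ℝ) (S : Finset ℕ) (r : ℕ → Lab k) :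
    Fin k → ℤ :=
  fun i => if i ∈ A then D.κ i (cut Z i S r) (rts r) else 0

/-- The vectors `g` of the large primes. -/
noncomputable def gv (Z : Fin k → ℝ) (S : Finset ℕ) (r : ℕ → Lab k) :
    (i : Fin k) → Fin (D.n i) → ℤ :=
  fun i => D.g i (cut Z i S r) (rts r)

/-- `r` is a datum for `t`: the labels of the primes `> C₀` dividing `t`, such that for all sets `A`
of components and all thresholds `Z` the relations hold at all the primes with a label in `A` (after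
removing the large primes). -/
def Dt (t : ℤ) (r : ℕ → Lab k) : Prop :=
  (∀ p, r p ≠ .o ↔ p ∈ bigPrimes D.C₀ t) ∧ (∀ p, r p = .o ∨ r p ∈ D.Lb univ p) ∧
  ∀ (A : Finset (Fin k)) (Z : Fin k → ℝ), ∃ e : Fin D.m, ∀ p, mask A Z r p ∈ D.Lb A p →
    ∀ c ∈ D.J A p (mask A Z r p),
      D.cf e (sp D.C₀ t) (mask A Z r) (D.kv A Z (bigPrimes D.C₀ t) r) A p c *
        D.ψ A p (mask A Z r p) c (D.gv Z (bigPrimes D.C₀ t) r) = 1

/-- The product of the primes dividing `t` labelled by the component `i`. -/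
def XX (t : ℤ) (r : ℕ → Lab k) (i : Fin k) : ℕ := ∏ p ∈ cpt i (bigPrimes D.C₀ t) r, p

end Sys

/-! ### The scales -/

/-- The scale `exp(L^{x/Q})`. -/
noncomputable def zz (L : ℝ) (Q : ℕ) (x : ℝ) : ℝ := Real.exp (L ^ (x / (Q : ℝ)))

/-- The level vectors: values `< Q`, one of them equal to `Q - 1`. -/
def Lv (k Q : ℕ) : Finset (Fin k → ℕ) :=
  (Fintype.piFinset fun _ => range Q).filter fun μ => ∃ i, μ i + 1 = Q

section block

variable (L : ℝ) (Q : ℕ) (μ : Fin k → ℕ)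

/-- The components which are active at `p`. -/
noncomputable def AA (p : ℕ) : Finset (Fin k) :=
  univ.filter fun i => (p : ℝ) ≤ zz L Q ((μ i : ℝ) - 1)

/-- The components which can be active. -/
def Big : Finset (Fin k) := univ.filter fun i => 3 ≤ μ i

/-- The thresholds. -/
noncomputable def Zc (i : Fin k) : ℝ := zz L Q ((μ i : ℝ) - 1 / 4)

/-- The numbers at which conditions are imposed. -/
def InW (p : ℕ) : Prop :=
  zz L Q 1 < (p : ℝ) ∧ (p : ℝ) ≤ zz L Q Q ∧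
    ∀ i, (p : ℝ) ≤ zz L Q ((μ i : ℝ) - 1) ∨ zz L Q ((μ i : ℝ) + 1) < (p : ℝ)

variable (C₀ N : ℕ)

open Classical in
/-- The primes at which conditions are imposed. -/
noncomputable def WW : Finset ℕ := (PX C₀ N).filter fun p => InW L Q μ p

/-- The outer primes. -/
noncomputable def SO : Finset ℕ :=
  (PX C₀ N).filter fun p => (p : ℝ) ≤ zz L Q Q ∧ p ∉ WW L Q μ C₀ N

/-- The inner primes. -/
noncomputable def SI : Finset ℕ :=
  (PX C₀ N).filter fun p => p ∈ WW L Q μ C₀ N ∨ zz L Q Q < (p : ℝ)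

end block

/-- The level of a natural number. -/
def Lev (L : ℝ) (Q : ℕ) (m X : ℕ) : Prop :=
  (m = 0 ∨ zz L Q m ≤ (X : ℝ)) ∧ ((X : ℝ) < zz L Q ((m : ℝ) + 1) ∨ m + 1 = Q) ∧
    (X : ℝ) ≤ zz L Q Q

namespace Sys

variable (D : Sys k) (N : ℕ) (L : ℝ) (Q : ℕ) (μ : Fin k → ℕ)

open Classical in
/-- The block: the squarefree `t`, `|t| ≤ N`, with a datum such that all the products `XX` are at
most `exp L`, and one of them has the top level. -/
noncomputable def Bl : Finset ℤ :=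
  (Icc (-(N : ℤ)) N).filter fun t => Squarefree t ∧ ∃ r, D.Dt t r ∧
    (∀ i, (D.XX t r i : ℝ) ≤ Real.exp L) ∧ ∃ i, zz L Q ((Q : ℝ) - 1) ≤ (D.XX t r i : ℝ)

/-- The datum `r` of `t` has the levels `μ`, large primes for the components in `Big`, and the
products of the primes of the relevant ranges are small. -/
def Cls (t : ℤ) (r : ℕ → Lab k) : Prop :=
  D.Dt t r ∧ (∀ i, Lev L Q (μ i) (D.XX t r i)) ∧
  (∀ i ∈ Big μ, (cut (Zc L Q μ) i (bigPrimes D.C₀ t) r).Nonempty) ∧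
  ∀ i ∈ Big μ, ∏ p ∈ (bigPrimes D.C₀ t).filter (fun p : ℕ => (p : ℝ) ≤ zz L Q ((μ i : ℝ) - 1)),
    (p : ℝ) ≤ zz L Q ((μ i : ℝ) - 1 / 2)

/-- The label functions on the outer primes. -/
noncomputable def RF : Finset (ℕ → Lab k) :=
  piF (SO L Q μ D.C₀ N) (fun p => insert .o (D.Lb univ p)) .o

open Classical in
/-- The label functions on the outer primes with large primes for the components in `Big`. -/
noncomputable def RO : Finset (ℕ → Lab k) :=
  (D.RF N L Q μ).filter fun ro => ∀ i ∈ Big μ,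
    (cut (Zc L Q μ) i (SO L Q μ D.C₀ N) ro).Nonempty ∧
    ((∏ p ∈ cut (Zc L Q μ) i (SO L Q μ D.C₀ N) ro, p : ℕ) : ℝ) ≤ Real.exp L

open Classical in
/-- The label functions on the inner primes. -/
noncomputable def RI : Finset (ℕ → Lab k) :=
  (piF (SI L Q μ D.C₀ N) (fun p => insert .o (D.Lb (AA L Q μ p) p)) .o).filter fun ri =>
    ∀ i ∈ Big μ, ∏ p ∈ (spt (WW L Q μ D.C₀ N) ri).filter
      (fun p : ℕ => (p : ℝ) ≤ zz L Q ((μ i : ℝ) - 1)), (p : ℝ) ≤ zz L Q ((μ i : ℝ) - 1 / 2)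

open Classical in
/-- The label function with the outer part `ro` and the inner part `ri`. -/
noncomputable def join (ro ri : ℕ → Lab k) : ℕ → Lab k :=
  fun p => if p ∈ SI L Q μ D.C₀ N then ri p else ro p

/-- The dyadic exponent of the product of the large primes. -/
noncomputable def jl (ro : ℕ → Lab k) (i : Fin k) : ℕ :=
  Nat.log 2 (∏ p ∈ cut (Zc L Q μ) i (SO L Q μ D.C₀ N) ro, p)

/-- The relaxed size of the outer part. -/
noncomputable def VV (ro : ℕ → Lab k) : ℕ :=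
  (∏ p ∈ spt (SO L Q μ D.C₀ N) (mask (Big μ) (Zc L Q μ) ro), p) *
    2 ^ (∑ i ∈ Big μ, D.jl N L Q μ ro i)

/-- The `κ` of the outer part. -/
noncomputable def ko (ro : ℕ → Lab k) (i : Fin k) : ℤ :=
  D.κ i (cut (Zc L Q μ) i (SO L Q μ D.C₀ N) ro) (rts ro)

/-- The vectors of the outer part. -/
noncomputable def go (ro : ℕ → Lab k) : (i : Fin k) → Fin (D.n i) → ℤ :=
  D.gv (Zc L Q μ) (SO L Q μ D.C₀ N) ro

/-- The coefficients of the relations. -/
noncomputable def cI (s : ℤ) (e : Finset (Fin k) → Fin D.m) (ro ri : ℕ → Lab k) (p c : ℕ) : ℝ :=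
  D.cf (e (AA L Q μ p)) s (mask (AA L Q μ p) (Zc L Q μ) (D.join N L Q μ ro ri))
    (D.kv (AA L Q μ p) (Zc L Q μ) (SO L Q μ D.C₀ N) ro) (AA L Q μ p) p c

/-- The product of the conditions. -/
noncomputable def cond (c : (ℕ → Lab k) → ℕ → ℕ → ℝ) (ri : ℕ → Lab k)
    (g : (i : Fin k) → Fin (D.n i) → ℤ) : ℝ :=
  ∏ p ∈ spt (WW L Q μ D.C₀ N) ri, ∏ x ∈ D.J (AA L Q μ p) p (ri p),
    (1 + c ri p x * D.ψ (AA L Q μ p) p (ri p) x g) / 2

/-- The indicator of `V ∏ p ≤ N`. -/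
noncomputable def om (V : ℕ) (ri : ℕ → Lab k) : ℝ :=
  if V * ∏ p ∈ spt (SI L Q μ D.C₀ N) ri, p ≤ N then 1 else 0

/-- The factor `2^{-|J|}`. -/
noncomputable def hf (ri : ℕ → Lab k) : ℝ :=
  ∏ p ∈ spt (WW L Q μ D.C₀ N) ri, (1 / 2 : ℝ) ^ (D.J (AA L Q μ p) p (ri p)).card

/-- The choices of subsets of `J`. -/
noncomputable def Ch (ri : ℕ → Lab k) : Finset (ℕ → Finset ℕ) :=
  piF (spt (WW L Q μ D.C₀ N) ri) (fun p => (D.J (AA L Q μ p) p (ri p)).powerset) ∅

/-- The primes at which a nonempty set was chosen. -/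
noncomputable def Dd (x : Σ _ : ℕ → Lab k, ℕ → Finset ℕ) : Finset ℕ :=
  (spt (WW L Q μ D.C₀ N) x.1).filter fun p => (x.2 p).Nonempty

/-- The chosen primes with the active set `A`. -/
noncomputable def Ee (A : Finset (Fin k)) (x : Σ _ : ℕ → Lab k, ℕ → Finset ℕ) : Finset ℕ :=
  (D.Dd N L Q μ x).filter fun p => AA L Q μ p = A

/-- The character of a term at `p`. -/
noncomputable def Ff (x : Σ _ : ℕ → Lab k, ℕ → Finset ℕ) (p : ℕ)
    (g : (i : Fin k) → Fin (D.n i) → ℤ) : ℝ :=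
  ∏ y ∈ x.2 p, D.ψ (AA L Q μ p) p (x.1 p) y g

/-- The coefficient of a term. -/
noncomputable def gam (V : ℕ) (c : (ℕ → Lab k) → ℕ → ℕ → ℝ)
    (x : Σ _ : ℕ → Lab k, ℕ → Finset ℕ) : ℝ :=
  D.om N L Q μ V x.1 * D.hf N L Q μ x.1 * ∏ p ∈ D.Dd N L Q μ x, ∏ y ∈ x.2 p, c x.1 p y

open Classical in
/-- The terms such that `A` is the active set of the largest chosen prime. -/
noncomputable def Ix (A : Finset (Fin k)) : Finset (Σ _ : ℕ → Lab k, ℕ → Finset ℕ) :=
  ((D.RI N L Q μ).sigma fun ri => D.Ch N L Q μ ri).filter fun x =>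
    (D.Dd N L Q μ x).Nonempty ∧ AA L Q μ ((D.Dd N L Q μ x).sup id) = A

/-- The sum of the terms with top active set `A`. -/
noncomputable def hh (A : Finset (Fin k)) (V : ℕ) (c : (ℕ → Lab k) → ℕ → ℕ → ℝ)
    (g : (i : Fin k) → Fin (D.n i) → ℤ) : ℝ :=
  ∑ x ∈ D.Ix N L Q μ A, D.gam N L Q μ V c x * ∏ p ∈ D.Dd N L Q μ x, D.Ff L Q μ x p g

open Classical in
/-- The multiplicative weights of the main term. -/
noncomputable def HH (p : ℕ) : ℝ :=
  if p ≤ D.C₀ then 0 else if InW L Q μ p then D.wt (AA L Q μ p) p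
    else if (p : ℝ) ≤ zz L Q Q then D.K else if D.inf then 1 else 0

/-- The product of `1 + a/p` over the primes with conditions. -/
noncomputable def Pw (a : ℝ) : ℝ := ∏ p ∈ WW L Q μ D.C₀ N, (1 + a / (p : ℝ))

/-- The product of `1 + K/p` over the outer primes. -/
noncomputable def Po : ℝ := ∏ p ∈ SO L Q μ D.C₀ N, (1 + (D.K : ℝ) / (p : ℝ))

/-- The expression under the square root in the bound for the error terms. -/
noncomputable def Rr (A : Finset (Fin k)) : ℝ :=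
  D.Pw N L Q μ D.K ^ 2 * (1 / zz L Q 1 * D.Pw N L Q μ ((D.K : ℝ) ^ 2) +
    2 * ∑ a ∈ A, (D.n a : ℝ) * zz L Q ((μ a : ℝ) - 1 / 2) ^ 2 *
      Zc L Q μ a ^ (-(D.n a : ℝ)⁻¹))

end Sys

/-! ### Products of boxes -/

section pbx

variable (n : Fin k → ℕ)

open Classical in
/-- The vectors with components in the boxes `|g_i| ≤ B i` for `i ∈ A`, and equal to `w i` for
`i ∉ A`. -/
noncomputable def pbx (A : Finset (Fin k)) (w : (i : Fin k) → Fin (n i) → ℤ) (B : Fin k → ℕ) :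
    Finset ((i : Fin k) → Fin (n i) → ℤ) :=
  Fintype.piFinset fun i => if i ∈ A then bx (n i) (B i) else {w i}

/-- The function `F` depends only on the residues modulo `q`. -/
def PerV (q : ℕ) (F : ((i : Fin k) → Fin (n i) → ℤ) → ℝ) : Prop :=
  ∀ g h : (i : Fin k) → Fin (n i) → ℤ, (∀ i x, (q : ℤ) ∣ g i x - h i x) → F g = F h

end pbx

end Stoll308.TW
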