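import Pool.Agent.Work.MP_308fa9_nt.Gen.RelThm
import Pool.Agent.Work.MP_308fa9_nt.TW.Defs

set_option autoImplicit false

/-!
Quadratic twists of `y² = f₁(x) ⋯ f_k(x)`: the conditions attached to the labels (definitions).
-/

namespace Stoll308.TW

open Finset Polynomial Stoll308.Gen NumberTheorySymbols

variable {k : ℕ}

/-- The product of the components. -/
noncomputable abbrev FF (f : Fin k → ℤ[X]) : ℤ[X] := ∏ i, f i

/-- The bound `C₀` is good for the components `f`. -/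
structure GB (f : Fin k → ℤ[X]) (C₀ : ℕ) : Prop where
  monic : ∀ i, (f i).Monic
  irr : ∀ i, Irreducible (f i)
  deg : ∀ i, 2 ≤ (f i).natDegree
  even : Even (∑ i, (f i).natDegree)
  six : 6 ≤ ∑ i, (f i).natDegree
  two : 2 ≤ C₀
  big : (2 * ∑ i, (f i).natDegree + 2) ^ 2 ≤ C₀
  sep : ∀ p : ℕ, p.Prime → C₀ < p → (fp (FF f) p).Separable
  res : ∀ i, resConst (f i) ≤ C₀

/-- The labels `r` of the primes `> C₀` dividing `t`, for a local point of the twist by `t` with the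
class `δ` at all primes. -/
structure LabD (f : Fin k → ℤ[X]) (C₀ : ℕ) (t : ℤ) (δ : ℚ[X]) (r : ℕ → Lab k) : Prop where
  supp : ∀ p, r p ≠ .o ↔ p ∈ bigPrimes C₀ t
  lab : ∀ p ∈ bigPrimes C₀ t, ∃ j, r p = .r j (r p).rt ∧ (r p).rt ∈ R (f j) p
  rel : ∀ (p : ℕ) [Fact p.Prime], p ∈ bigPrimes C₀ t → ∀ j, r p = .r j (r p).rt →
    ∃ α : ℤ_[p], Lift (f j) p (r p).rt α ∧ ∀ β : ℤ_[p], (fz (FF f) p).eval β = 0 → β ≠ α →
      (dq δ p).eval (α : ℚ_[p]) ≠ 0 ∧ (dq δ p).eval (β : ℚ_[p]) ≠ 0 ∧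
      IsSquare ((dq δ p).eval (β : ℚ_[p]) * (dq δ p).eval (α : ℚ_[p]) * t *
        ((((derivative (fz (FF f) p)).eval α * (α - β) : ℤ_[p]) : ℚ_[p])))
  unit : ∀ (p : ℕ) [Fact p.Prime], C₀ < p → ∃ e : ℤ, ∀ i,
    (r p ≠ .r i (r p).rt → ∃ w : AdjoinRoot (fq (f i) p),
      UU (f i) p (mkq (f i) p (C ((p : ℚ_[p]) ^ e)) * mkq (f i) p (dq δ p) * w ^ 2)) ∧
    (r p = .r i (r p).rt → ∃ α : ℤ_[p], Lift (f i) p (r p).rt α ∧
      ∀ (q : ℤ_[p][X]) (κ : ℤ_[p]), q.Monic → fz (f i) p = (X - C α) * q → κ * q.eval α = 1 →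
        ∃ w : AdjoinRoot (fq (f i) p), ∃ u, UU (f i) p u ∧
          mkq (f i) p (C ((p : ℚ_[p]) ^ e)) * mkq (f i) p (dq δ p) * w ^ 2 =
            PP (f i) q κ (p : ℚ_[p]) * u)

/-- The known part of the relation at `p` between the roots `α` of `f j` and `β` of `f i`. -/
noncomputable def ZR (f : Fin k → ℤ[X]) (ε : Fin k → ℚ[X]) (s : ℤ) (T : Fin k → Finset ℕ)
    (ρ : ℕ → ℕ) (p : ℕ) [Fact p.Prime] (i j : Fin k) (α β : ℤ_[p]) : ℚ_[p] :=
  (dq (ε i) p).eval (β : ℚ_[p]) * (dq (ε j) p).eval (α : ℚ_[p]) *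
    (dq (tq (f i) (T i) ρ) p).eval (β : ℚ_[p]) * (dq (tq (f j) (T j) ρ) p).eval (α : ℚ_[p]) * s *
    ((∏ b, ∏ q ∈ T b, q : ℕ) : ℚ_[p]) *
    (((derivative (fz (FF f) p)).eval α * (α - β) : ℤ_[p]) : ℚ_[p])

open Classical in
/-- The sign of the relation. -/
noncomputable def cR (f : Fin k → ℤ[X]) (ε : Fin k → ℚ[X]) (s : ℤ) (T : Fin k → Finset ℕ)
    (ρ : ℕ → ℕ) (p : ℕ) (i j : Fin k) (a : ℕ) : ℤ :=
  if ∃ (_ : Fact p.Prime) (α β : ℤ_[p]), Lift (f j) p (ρ p) α ∧ Lift (f i) p a β ∧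
    IsSquare (ZR f ε s T ρ p i j α β) then 1 else -1

/-- The roots modulo `p` of the components in `A`. -/
def RA (f : Fin k → ℤ[X]) (A : Finset (Fin k)) (p : ℕ) : Finset ℕ := A.biUnion fun i => R (f i) p

open Classical in
/-- The roots modulo `p` used for the conditions at `p` for the active components `A`: all the roots
of the components in `A` except the label; one more is left out if the components in `A` split
completely, have an even number of roots, and the others have no root. -/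
noncomputable def JJ (f : Fin k → ℤ[X]) (A : Finset (Fin k)) (p : ℕ) : Lab k → Finset ℕ
  | .o => ∅
  | .u => ∅
  | .r _ ρ =>
    if RA f Aᶜ p = ∅ ∧ (RA f A p).card = ∑ i ∈ A, (f i).natDegree ∧
        Even (∑ i ∈ A, (f i).natDegree) then
      ((RA f A p).erase ρ).erase (((RA f A p).erase ρ).sup id)
    else (RA f A p).erase ρ

/-- The value at `a` of the component of `g` with the root `a`. -/
def EV (f : Fin k → ℤ[X]) (A : Finset (Fin k)) (p a : ℕ)
    (g : (i : Fin k) → Fin (f i).natDegree → ℤ) : ℤ :=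
  ∏ i ∈ A, if a ∈ R (f i) p then ev (g i) (a : ℤ) else 1

open Classical in
/-- The characters of the conditions. -/
noncomputable def ψψ (f : Fin k → ℤ[X]) (A : Finset (Fin k)) (p : ℕ) : Lab k → ℕ →
    ((i : Fin k) → Fin (f i).natDegree → ℤ) → ℝ
  | .o, _, _ => 1
  | .u, _, _ => 1
  | .r j ρ, a, g =>
    if RA f Aᶜ p = ∅ then
      ((J(EV f A p a g * (if j ∈ A then ev (g j) (ρ : ℤ) else 1) *
        ∏ b ∈ A, Nm (f b) (g b) | p) : ℤ) : ℝ)
    else ((J(EV f A p a g | p) : ℤ) : ℝ)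

open Classical in
/-- The primes with a label of the component `i`. -/
noncomputable def TT (r : ℕ → Lab k) (i : Fin k) : Finset ℕ :=
  if h : {p : ℕ | r p = .r i (r p).rt}.Finite then h.toFinset else ∅

open Classical in
/-- The sign of the relation for the label function `r`. -/
noncomputable def craw (f : Fin k → ℤ[X]) (ε : Fin k → ℚ[X]) (s : ℤ) (r : ℕ → Lab k)
    (p a : ℕ) : ℝ :=
  ∏ i, ∏ j, if a ∈ R (f i) p ∧ r p = .r j (r p).rt then
    ((cR f ε s (TT r) (rts r) p i j a : ℤ) : ℝ) else 1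

open Classical in
/-- The coefficients of the conditions. -/
noncomputable def cfA (f : Fin k → ℤ[X]) (ε : Fin k → ℚ[X]) (s : ℤ) (r : ℕ → Lab k)
    (κ : Fin k → ℤ) (A : Finset (Fin k)) (p a : ℕ) : ℝ :=
  if RA f Aᶜ p = ∅ then craw f ε s r p a * ∏ b ∈ A, ((J(κ b | p) : ℤ) : ℝ)
  else craw f ε s r p a * craw f ε s r p ((RA f Aᶜ p).sup id) *
    ((J(∏ i ∈ Aᶜ, (if (RA f Aᶜ p).sup id ∈ R (f i) p then
      ev (thue (f i) ∅ fun _ => 0) (((RA f Aᶜ p).sup id : ℕ) : ℤ) else 1) | p) : ℤ) : ℝ)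

/-- The weight of a prime at which the conditions for the active components `A` are imposed. -/
noncomputable def wA (f : Fin k → ℤ[X]) (A : Finset (Fin k)) (p : ℕ) : ℝ :=
  ∑ ℓ ∈ Lbl false (fun i p => R (f i) p) A p, (1 / 2 : ℝ) ^ (JJ f A p ℓ).card

end Stoll308.TW
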