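import Pool.Agent.Work.MP_308fa9_nt.TW.ADefs
import Pool.Agent.Work.MP_308fa9_nt.Gen.FinalCard

set_option autoImplicit false

/-!
Factorisation, and rational points.
-/

namespace Stoll308.TW

open Finset Polynomial Stoll308.Gen

private lemma exists_list (n : ℕ) : ∀ F : ℤ[X], F.Monic → F.natDegree ≤ n →
    ∃ l : List ℤ[X], (∀ g ∈ l, g.Monic ∧ Irreducible g) ∧ l.prod = F := by
  induction n with
  | zero =>
    intro F hF hn
    refine ⟨[], by simp, ?_⟩
    rw [List.prod_nil]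
    exact ((Polynomial.Monic.natDegree_eq_zero hF).1 (by omega)).symm
  | succ n ih =>
    intro F hF hn
    by_cases h1 : F = 1
    · exact ⟨[], by simp, by rw [List.prod_nil, h1]⟩
    by_cases hirr : Irreducible F
    · exact ⟨[F], by simp [hF, hirr], by simp⟩
    rw [hF.irreducible_iff_natDegree'] at hirr
    push Not at hirr
    obtain ⟨g, h, hg, hh, hgh, hmem⟩ := hirr h1
    rw [Finset.mem_Ioc] at hmem
    have hdeg : F.natDegree = g.natDegree + h.natDegree := by
      rw [← hgh, hg.natDegree_mul hh]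
    obtain ⟨l₁, hl₁, hp₁⟩ := ih g hg (by omega)
    obtain ⟨l₂, hl₂, hp₂⟩ := ih h hh (by omega)
    refine ⟨l₁ ++ l₂, ?_, by rw [List.prod_append, hp₁, hp₂, hgh]⟩
    intro q hq
    rcases List.mem_append.1 hq with hq | hq
    · exact hl₁ q hq
    · exact hl₂ q hq

/-- The factorisation of a monic separable polynomial without factors of degree `< m`. -/
theorem exists_fac (m : ℕ) (F : ℤ[X]) (hF : F.Monic) (h1 : 1 ≤ F.natDegree)
    (hsep : (F.map (Int.castRingHom ℚ)).Separable)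
    (h3 : ∀ g : ℚ[X], Irreducible g → g ∣ F.map (Int.castRingHom ℚ) → m ≤ g.natDegree) :
    ∃ (k : ℕ) (f : Fin k → ℤ[X]), 0 < k ∧ (∀ i, (f i).Monic) ∧ (∀ i, Irreducible (f i)) ∧
      (∀ i, m ≤ (f i).natDegree) ∧ F = FF f := by
  obtain ⟨l, hl, hp⟩ := exists_list F.natDegree F hF le_rfl
  have hprod : F = FF fun i : Fin l.length => l[i.1] := by
    rw [← hp]
    exact (Fin.prod_univ_getElem l).symm
  refine ⟨l.length, fun i => l[i.1], ?_, fun i => (hl _ (List.getElem_mem _)).1,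
    fun i => (hl _ (List.getElem_mem _)).2, fun i => ?_, hprod⟩
  · rw [List.length_pos_iff]
    rintro rfl
    rw [List.prod_nil] at hp
    rw [← hp, natDegree_one] at h1
    omega
  · have hm := (hl l[i.1] (List.getElem_mem _)).1
    have hi := (hl l[i.1] (List.getElem_mem _)).2
    rw [hm.irreducible_iff_irreducible_map_fraction_map (K := ℚ)] at hi
    have h2 : algebraMap ℤ ℚ = Int.castRingHom ℚ := rfl
    rw [h2] at hi
    have h4 := h3 _ hi (by
      have h5 : l[i.1] ∣ F := by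
        rw [hprod]
        exact dvd_prod_of_mem (fun i : Fin l.length => l[i.1]) (mem_univ i)
      exact Polynomial.map_dvd _ h5)
    rwa [natDegree_map_eq_of_injective Int.cast_injective] at h4

/-- The hypotheses pass from `F` to its monic version. -/
theorem mon_hyp (m : ℕ) (F : ℤ[X]) (hn : 1 ≤ F.natDegree)
    (hsep : (F.map (Int.castRingHom ℚ)).Separable)
    (h3 : ∀ g : ℚ[X], Irreducible g → g ∣ F.map (Int.castRingHom ℚ) → m ≤ g.natDegree) :
    ((Stoll308.Irr.mon F).map (Int.castRingHom ℚ)).Separable ∧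
    ∀ g : ℚ[X], Irreducible g → g ∣ (Stoll308.Irr.mon F).map (Int.castRingHom ℚ) →
      m ≤ g.natDegree := by
  have hc := Stoll308.Irr.lc_ne (K := ℚ) hn
  constructor
  · have h1 := Stoll308.Irr.map_comp_inv (F := F) (K := ℚ) hn
    have h2 : ((F.map (Int.castRingHom ℚ)).comp (C (F.leadingCoeff : ℚ)⁻¹ * X)).Separable := by
      rw [Polynomial.Separable, derivative_comp, derivative_C_mul_X]
      have h4 := IsCoprime.map hsep (compRingHom (C (F.leadingCoeff : ℚ)⁻¹ * X))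
      simp only [coe_compRingHom_apply] at h4
      refine IsCoprime.mul_right ?_ h4
      have hu : IsUnit (C (F.leadingCoeff : ℚ)⁻¹ : ℚ[X]) := by
        rw [Polynomial.isUnit_C, isUnit_iff_ne_zero]
        exact inv_ne_zero hc
      obtain ⟨w, hw⟩ := hu.exists_left_inv
      exact ⟨0, w, by rw [zero_mul, zero_add, hw]⟩
    rw [h1] at h2
    exact h2.of_dvd (dvd_mul_left _ _)
  · intro g hg hgd
    let e : ℚ[X] ≃+* ℚ[X] := RingEquiv.ofRingHom
      (compRingHom (C (F.leadingCoeff : ℚ) * X)) (compRingHom (C (F.leadingCoeff : ℚ)⁻¹ * X))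
      (by
        apply RingHom.ext
        intro q
        change (q.comp (C (F.leadingCoeff : ℚ)⁻¹ * X)).comp (C (F.leadingCoeff : ℚ) * X) = q
        rw [comp_assoc]
        have : (C (F.leadingCoeff : ℚ)⁻¹ * X : ℚ[X]).comp (C (F.leadingCoeff : ℚ) * X) = X := by
          rw [mul_comp, C_comp, X_comp, ← mul_assoc, ← C_mul, inv_mul_cancel₀ hc, C_1, one_mul]
        rw [this, comp_X])
      (by
        apply RingHom.ext
        intro q
        exact Stoll308.Irr.comp_comp_inv hn q)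
    have h5 : Irreducible (g.comp (C (F.leadingCoeff : ℚ) * X)) :=
      (MulEquiv.irreducible_iff e.toMulEquiv).2 hg
    have h6 := map_dvd (compRingHom (C (F.leadingCoeff : ℚ) * X)) hgd
    simp only [coe_compRingHom_apply] at h6
    rw [Stoll308.Irr.mon_map_comp hn] at h6
    have hu : IsUnit (C ((F.leadingCoeff : ℚ) ^ (F.natDegree - 1)) : ℚ[X]) := by
      rw [Polynomial.isUnit_C, isUnit_iff_ne_zero]
      exact pow_ne_zero _ hc
    have h7 := h3 _ h5 ((hu.dvd_mul_left).1 h6)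
    rw [natDegree_comp] at h7
    have h8 : (C (F.leadingCoeff : ℚ) * X : ℚ[X]).natDegree = 1 := natDegree_C_mul_X _ hc
    rwa [h8, mul_one] at h7

/-- A rational point gives an element of the fake Selmer set (`Irr.fakeSel_of_point` without
irreducibility). -/
theorem fakeSel_of_pt (F : ℤ[X]) (hF : F ≠ 0)
    (hroot : ∀ z : ℚ, (F.map (Int.castRingHom ℚ)).eval z ≠ 0) (t : ℤ)
    (hinf : ¬ IsSquare ((t : ℚ) * (F.leadingCoeff : ℚ)))
    (h : Stoll308.Irr.HasPoint F t ℚ) : Stoll308.Irr.FakeSel F t := by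
  rcases h with ⟨x, y, hxy⟩ | h
  swap
  · exact absurd h hinf
  have hy : y ≠ 0 := by
    rintro rfl
    apply hroot x
    rw [← hxy]; ring
  have hloc : ∀ (K : Type) [Field K] [CharZero K] [Algebra ℚ K],
      Stoll308.Irr.LocalImage F t (C x - X) K := by
    intro K _ _ _
    have hcast : ∀ q : ℚ, algebraMap ℚ K q = (q : K) := fun q => by simp
    refine ⟨(x : K), (y : K), 1, 1, by exact_mod_cast hy, one_ne_zero, ?_, ?_⟩
    · have h1 := congrArg (algebraMap ℚ K) hxy
      rw [← eval_map_apply, Stoll308.Gen.map_cast_map, hcast, hcast] at h1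
      rw [← h1]
      push_cast
      rfl
    · rw [Polynomial.map_sub, map_C, map_X, hcast, C_1, one_mul, one_pow, mul_one, sub_self]
      exact dvd_zero _
  refine ⟨C x - X, ?_, fun p _ => hloc ℚ_[p], hloc ℝ⟩
  have h1 : (C x - X : ℚ[X]) = -(X - C x) := by ring
  rw [h1, IsCoprime.neg_left_iff, (irreducible_X_sub_C x).coprime_iff_not_dvd, dvd_iff_isRoot]
  exact hroot x

/-- Rational points are taken care of by the fake Selmer set (`Irr.card_or_point` without
irreducibility). -/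
theorem card_or_pt (F : ℤ[X]) (hF : F ≠ 0)
    (hroot : ∀ z : ℚ, (F.map (Int.castRingHom ℚ)).eval z ≠ 0)
    (h1 : ∃ c : ℝ, 0 < c ∧ ∃ X₀ : ℕ, ∀ X : ℕ, X₀ ≤ X →
      c * X / Real.log X ≤ (Stoll308.Irr.cnt (Stoll308.Irr.ELS F) X : ℝ))
    (h2 : ∃ c C : ℝ, 0 < c ∧ ∃ X₀ : ℕ, ∀ X : ℕ, X₀ ≤ X →
      (Stoll308.Irr.cnt (Stoll308.Irr.FakeSel F) X : ℝ) ≤
        C * Real.log X ^ (-c) * Stoll308.Irr.cnt (Stoll308.Irr.ELS F) X) :
    ∃ c C : ℝ, 0 < c ∧ ∃ X₀ : ℕ, ∀ X : ℕ, X₀ ≤ X →
      (Stoll308.Irr.cnt (fun t => Stoll308.Irr.FakeSel F t ∨ Stoll308.Irr.HasPoint F t ℚ) X : ℝ) ≤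
        C * Real.log X ^ (-c) * Stoll308.Irr.cnt (Stoll308.Irr.ELS F) X := by
  obtain ⟨c₁, hc₁, X₁, h1⟩ := h1
  obtain ⟨c, C, hc, X₂, h2⟩ := h2
  have hc0 : F.leadingCoeff ≠ 0 := by
    rw [Ne, leadingCoeff_eq_zero]
    exact hF
  have hlog : ∀ᶠ X : ℕ in Filter.atTop, Real.log X ^ (c + 1) ≤ c₁ * X := by
    have h3 := (isLittleO_log_rpow_rpow_atTop (c + 1) (by norm_num : (0 : ℝ) < 1)).def hc₁
    have h4 := tendsto_natCast_atTop_atTop (R := ℝ) |>.eventually h3
    filter_upwards [h4, Filter.eventually_ge_atTop 1] with X hX hX1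
    rw [Real.rpow_one, Real.norm_eq_abs, Real.norm_eq_abs, Nat.abs_cast] at hX
    exact (le_abs_self _).trans hX
  obtain ⟨X₃, h3⟩ := Filter.eventually_atTop.1 hlog
  refine ⟨c, C + 1, hc, max (max X₁ X₂) (max X₃ 3), fun X hX => ?_⟩
  have hX1 : X₁ ≤ X := le_trans (le_trans (le_max_left _ _) (le_max_left _ _)) hX
  have hX2 : X₂ ≤ X := le_trans (le_trans (le_max_right _ _) (le_max_left _ _)) hX
  have hX3 : X₃ ≤ X := le_trans (le_trans (le_max_left _ _) (le_max_right _ _)) hX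
  have hX4 : 3 ≤ X := le_trans (le_trans (le_max_right _ _) (le_max_right _ _)) hX
  have hX4R : (3 : ℝ) ≤ X := by exact_mod_cast hX4
  have hlogX : 0 < Real.log X := Real.log_pos (by linarith)
  have e1 := h1 X hX1
  have e2 := h2 X hX2
  have e3 := h3 X hX3
  have e4 : (Stoll308.Irr.cnt (fun t => ¬ Stoll308.Irr.FakeSel F t ∧
      Stoll308.Irr.HasPoint F t ℚ) X : ℝ) ≤ 1 := by
    have := Stoll308.Irr.cnt_square_le (fun t => ¬ Stoll308.Irr.FakeSel F t ∧
      Stoll308.Irr.HasPoint F t ℚ) F.leadingCoeff hc0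
      (fun t ht => by
        by_contra hcon
        exact ht.1 (fakeSel_of_pt F hF hroot t hcon ht.2)) X
    exact_mod_cast this
  have e5 : (Stoll308.Irr.cnt (fun t => Stoll308.Irr.FakeSel F t ∨
      Stoll308.Irr.HasPoint F t ℚ) X : ℝ) ≤ Stoll308.Irr.cnt (Stoll308.Irr.FakeSel F) X + 1 := by
    have h5 := Stoll308.Irr.cnt_or_le (Stoll308.Irr.FakeSel F)
      (fun t => Stoll308.Irr.HasPoint F t ℚ) X
    have h6 : (Stoll308.Irr.cnt (fun t => Stoll308.Irr.FakeSel F t ∨
        Stoll308.Irr.HasPoint F t ℚ) X : ℝ) ≤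
        Stoll308.Irr.cnt (Stoll308.Irr.FakeSel F) X +
          Stoll308.Irr.cnt (fun t => ¬ Stoll308.Irr.FakeSel F t ∧
            Stoll308.Irr.HasPoint F t ℚ) X := by
      exact_mod_cast h5
    linarith
  have hp0 : 0 < Real.log X ^ (-c) := Real.rpow_pos_of_pos hlogX _
  have e6 : 1 ≤ Real.log X ^ (-c) * Stoll308.Irr.cnt (Stoll308.Irr.ELS F) X := by
    have h7 : Real.log X ^ (-c) * (c₁ * X / Real.log X) = c₁ * X / Real.log X ^ (c + 1) := by
      rw [Real.rpow_neg hlogX.le, Real.rpow_add_one hlogX.ne']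
      field_simp
    calc (1 : ℝ) ≤ c₁ * X / Real.log X ^ (c + 1) := by
          rw [le_div_iff₀ (Real.rpow_pos_of_pos hlogX _), one_mul]
          exact e3
      _ = Real.log X ^ (-c) * (c₁ * X / Real.log X) := h7.symm
      _ ≤ _ := mul_le_mul_of_nonneg_left e1 hp0.le
  calc (Stoll308.Irr.cnt (fun t => Stoll308.Irr.FakeSel F t ∨
        Stoll308.Irr.HasPoint F t ℚ) X : ℝ) ≤ Stoll308.Irr.cnt (Stoll308.Irr.FakeSel F) X + 1 := e5
    _ ≤ C * Real.log X ^ (-c) * Stoll308.Irr.cnt (Stoll308.Irr.ELS F) X +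
          Real.log X ^ (-c) * Stoll308.Irr.cnt (Stoll308.Irr.ELS F) X :=
        add_le_add e2 e6
    _ = _ := by ring

end Stoll308.TW
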