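import Pool.Agent.Work.MP_308fa9_nt.TW.ADefs

set_option autoImplicit false

/-!
From `ℚ_p[X]/F` to `ℚ_p[X]/g`, `g ∣ F`.
-/

namespace Stoll308.TW

open Finset Polynomial Stoll308.Gen NumberTheorySymbols

variable {p : ℕ} [hp : Fact p.Prime] {F g h : ℤ[X]}

lemma fq_mul (hF : F = g * h) : fq F p = fq g p * fq h p := by
  subst hF
  exact Polynomial.map_mul _

/-- The projection `ℚ_p[X]/F → ℚ_p[X]/g`. -/
noncomputable def phom (hF : F = g * h) : AdjoinRoot (fq F p) →+* AdjoinRoot (fq g p) :=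
  AdjoinRoot.lift (AdjoinRoot.of (fq g p)) (AdjoinRoot.root (fq g p)) (by
    rw [fq_mul hF, eval₂_mul, AdjoinRoot.eval₂_root, zero_mul])

theorem phom_mk (hF : F = g * h) (q : ℚ_[p][X]) : phom hF (mkq F p q) = mkq g p q := by
  unfold phom
  rw [AdjoinRoot.lift_mk, ← AdjoinRoot.algebraMap_eq, ← aeval_def, AdjoinRoot.aeval_eq]

private lemma phom_mkz (hF : F = g * h) (q : ℤ_[p][X]) : phom hF (mkz F p q) = mkz g p q :=
  phom_mk hF _

theorem UU_phom (hF : F = g * h) {z : AdjoinRoot (fq F p)} (hz : UU F p z) :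
    UU g p (phom hF z) := by
  obtain ⟨u, hu, rfl⟩ := hz
  refine ⟨u, ?_, (phom_mkz hF u).symm⟩
  have h1 : fp F p = fp g p * fp h p := by
    subst hF
    exact Polynomial.map_mul _
  rw [h1] at hu
  exact hu.of_mul_right_left

private lemma phom_PP (hF : F = g * h) (q : ℤ_[p][X]) (κ : ℤ_[p]) (c : ℚ_[p]) :
    phom hF (PP F q κ c) = 1 + (mkq g p (C c) - 1) * mkz g p (ee q κ) := by
  unfold PP
  rw [map_add, map_one, map_mul, map_sub, map_one, phom_mkz, phom_mk]

private lemma fz_mul' (hF : F = g * h) : fz F p = fz g p * fz h p := by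
  subst hF
  exact Polynomial.map_mul _

/-- The root is not a root of `g`. -/
theorem PP_phom_other (hF : F = g * h) {α : ℤ_[p]} (hg : (fz g p).eval α ≠ 0) {q : ℤ_[p][X]}
    {κ : ℤ_[p]} (hq : fz F p = (X - C α) * q) (c : ℚ_[p]) : phom hF (PP F q κ c) = 1 := by
  have h1 : (X - C α : ℤ_[p][X]) ∣ fz h p := by
    have h2 : (fz g p).eval α * (fz h p).eval α = 0 := by
      rw [← eval_mul, ← fz_mul' hF, hq, eval_mul, eval_sub, eval_X, eval_C, sub_self, zero_mul]
    rw [dvd_iff_isRoot]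
    exact (mul_eq_zero.1 h2).resolve_left hg
  obtain ⟨h', hh'⟩ := h1
  have h3 : q = fz g p * h' := by
    have h4 : (X - C α : ℤ_[p][X]) * q = (X - C α) * (fz g p * h') := by
      rw [← hq, fz_mul' hF, hh']
      ring
    exact mul_left_cancel₀ (X_sub_C_ne_zero α) h4
  rw [phom_PP]
  have h5 : mkz g p (ee q κ) = 0 := by
    unfold ee
    rw [h3, map_mul, map_mul, mkz_f, zero_mul, mul_zero]
  rw [h5, mul_zero, add_zero]

/-- The root is a root of `g`. -/
theorem PP_phom_same (hF : F = g * h) {α : ℤ_[p]} {q q' : ℤ_[p][X]} {κ κ' : ℤ_[p]}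
    (hq : fz F p = (X - C α) * q) (hκ : κ * q.eval α = 1) (hq' : fz g p = (X - C α) * q')
    (hκ' : κ' * q'.eval α = 1) (c : ℚ_[p]) : phom hF (PP F q κ c) = PP g q' κ' c := by
  have h3 : q = q' * fz h p := by
    have h4 : (X - C α : ℤ_[p][X]) * q = (X - C α) * (q' * fz h p) := by
      rw [← hq, fz_mul' hF, hq']
      ring
    exact mul_left_cancel₀ (X_sub_C_ne_zero α) h4
  rw [phom_PP]
  unfold PP
  congr 2
  have h5 := ee_ann (κ := κ') hq' (C (κ * q'.eval α) * fz h p)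
  have h6 : (C (κ * q'.eval α) * fz h p).eval α = 1 := by
    rw [eval_mul, eval_C, mul_assoc, ← eval_mul, ← h3, hκ]
  rw [h6, C_1, one_mul] at h5
  rw [← h5]
  congr 1
  unfold ee
  rw [h3, C_mul]
  have h7 : (C κ' * C (q'.eval α) : ℤ_[p][X]) = 1 := by
    rw [← C_mul, hκ', C_1]
  linear_combination (-(C κ * q' * fz h p)) * h7

end Stoll308.TW
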