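import Pool.Agent.Work.MP_308fa9_nt.TW.ABas
import Pool.Agent.Work.MP_308fa9_nt.TW.AHom

set_option autoImplicit false

/-!
The labels of the primes dividing `t` (as `Gen.exists_rho`, from `Gen.local_dvd` and
`Gen.local_not_dvd` applied to the product `FF f`).
-/

namespace Stoll308.TW

open Finset Polynomial Stoll308.Gen NumberTheorySymbols

variable {k : ℕ} {f : Fin k → ℤ[X]} {C₀ : ℕ}

private lemma FF_eq (i : Fin k) : FF f = f i * ∏ j ∈ univ.erase i, f j :=
  (mul_prod_erase univ f (mem_univ i)).symm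

/-- The label of a prime. -/
private lemma exists_label (hG : GB f C₀) {t : ℤ} (ht : Squarefree t) {δ : ℚ[X]}
    (hloc : ∀ (p : ℕ) [Fact p.Prime], Gen.LocalImage (FF f) t δ ℚ_[p]) (p : ℕ) :
    ∃ (j : ℕ) (a : ℕ), ∀ (_ : Fact p.Prime), p ∈ bigPrimes C₀ t →
      ∃ hj : j < k, a ∈ R (f ⟨j, hj⟩) p ∧ ∃ α : ℤ_[p], Lift (f ⟨j, hj⟩) p a α ∧
      (∀ β : ℤ_[p], (fz (FF f) p).eval β = 0 → β ≠ α →
        (dq δ p).eval (α : ℚ_[p]) ≠ 0 ∧ (dq δ p).eval (β : ℚ_[p]) ≠ 0 ∧
        IsSquare ((dq δ p).eval (β : ℚ_[p]) * (dq δ p).eval (α : ℚ_[p]) * t *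
          ((((derivative (fz (FF f) p)).eval α * (α - β) : ℤ_[p]) : ℚ_[p])))) ∧
      ∃ (K : ℤ_[p][X]) (κ : ℤ_[p]), fz (FF f) p = (X - C α) * K ∧ κ * K.eval α = 1 ∧
        ∃ (e : ℤ) (w : AdjoinRoot (fq (FF f) p)), ∃ u, UU (FF f) p u ∧
          mkq (FF f) p (C ((p : ℚ_[p]) ^ e)) * mkq (FF f) p (dq δ p) * w ^ 2 =
            PP (FF f) K κ (p : ℚ_[p]) * u := by
  by_cases hp : p.Prime
  · have hpf : Fact p.Prime := ⟨hp⟩
    by_cases hpb : p ∈ bigPrimes C₀ t
    · have hpb' := hpb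
      rw [mem_bigPrimes ht.ne_zero] at hpb'
      obtain ⟨-, hpt, hpC⟩ := hpb'
      have hev : Even (FF f).natDegree := by
        rw [natDegree_FF hG.monic]
        exact hG.even
      have hp2 : p ≠ 2 := by
        have := hG.two
        omega
      have hsep := hG.sep p hp hpC
      obtain ⟨α, hα, h2, h3⟩ := local_dvd hG.monicF hev hp2 hsep ht hpt (hloc p)
      obtain ⟨i, hi⟩ := (hG.eval_FF α).1 hα
      refine ⟨i.1, (rd p α).val, fun _ _ => ⟨i.2, root_mem_R hi, α, ⟨hi, ?_⟩, h2, ?_⟩⟩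
      · rw [ZMod.natCast_zmod_val]
      · obtain ⟨K, hKm, hK⟩ := exists_factor hG.monicF hα
        obtain ⟨κ, hκ⟩ := (factor_eval_unit hsep hK (x := α) rfl).exists_left_inv
        exact ⟨K, κ, hK, hκ, h3 K κ hKm hK hκ⟩
    · exact ⟨0, 0, fun _ h => absurd h hpb⟩
  · exact ⟨0, 0, fun h _ => absurd h.out hp⟩

theorem exists_labD (hG : GB f C₀) {t : ℤ} (ht : Squarefree t) {δ : ℚ[X]}
    (hloc : ∀ (p : ℕ) [Fact p.Prime], Gen.LocalImage (FF f) t δ ℚ_[p]) :
    ∃ r : ℕ → Lab k, LabD f C₀ t δ r := by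
  classical
  have h1 := exists_label hG ht hloc
  choose j a h using h1
  have hprime : ∀ p ∈ bigPrimes C₀ t, p.Prime := by
    intro p hp
    rw [mem_bigPrimes ht.ne_zero] at hp
    exact hp.1
  have hjk : ∀ p ∈ bigPrimes C₀ t, j p < k := by
    intro p hp
    obtain ⟨h2, -⟩ := h p ⟨hprime p hp⟩ hp
    exact h2
  obtain ⟨r, hr⟩ : ∃ r : ℕ → Lab k, ∀ p, r p =
      if hp : p ∈ bigPrimes C₀ t then .r ⟨j p, hjk p hp⟩ (a p) else .o := ⟨_, fun _ => rfl⟩
  have hr1 : ∀ p (hp : p ∈ bigPrimes C₀ t), r p = .r ⟨j p, hjk p hp⟩ (a p) := by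
    intro p hp
    rw [hr, dif_pos hp]
  have hr0 : ∀ p, p ∉ bigPrimes C₀ t → r p = .o := by
    intro p hp
    rw [hr, dif_neg hp]
  have hrt : ∀ p (hp : p ∈ bigPrimes C₀ t), (r p).rt = a p := by
    intro p hp
    rw [hr1 p hp]
    rfl
  -- the component of a label
  have hcomp : ∀ p (hp : p ∈ bigPrimes C₀ t) (i : Fin k), r p = .r i (r p).rt →
      i = ⟨j p, hjk p hp⟩ := by
    intro p hp i hi
    rw [hr1 p hp] at hi
    exact (Lab.r.inj hi).1.symm
  refine ⟨r, ?_, ?_, ?_, ?_⟩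
  · intro p
    constructor
    · intro h2
      by_contra h3
      exact h2 (hr0 p h3)
    · intro h2 h3
      rw [hr1 p h2] at h3
      cases h3
  · intro p hp
    obtain ⟨hj, ha, -⟩ := h p ⟨hprime p hp⟩ hp
    refine ⟨⟨j p, hjk p hp⟩, ?_, ?_⟩
    · rw [hrt p hp]
      exact hr1 p hp
    · rw [hrt p hp]
      exact ha
  · intro p hpf hp i hi
    have hi' := hcomp p hp i hi
    subst hi'
    obtain ⟨hj, ha, α, hα, h2, -⟩ := h p hpf hp
    rw [hrt p hp]
    exact ⟨α, hα, h2⟩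
  · intro p hpf hpC
    by_cases hp : p ∈ bigPrimes C₀ t
    · obtain ⟨hj, ha, α, hα, -, K, κ, hK, hκ, e, w, u, hu, hw⟩ := h p hpf hp
      refine ⟨e, fun i => ⟨fun hi => ?_, fun hi => ?_⟩⟩
      · -- another component
        have hne : i ≠ ⟨j p, hj⟩ := by
          rintro rfl
          apply hi
          rw [hrt p hp]
          exact hr1 p hp
        have hαi : (fz (f i) p).eval α ≠ 0 := by
          intro h0
          apply hne
          refine hG.root_unique hpf.out hpC (a := (rd p α).val) (root_mem_R h0) ?_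
          exact root_mem_R hα.1
        refine ⟨phom (FF_eq i) w, ?_⟩
        have h5 := congrArg (phom (FF_eq i)) hw
        rw [map_mul, map_mul, map_pow, map_mul, phom_mk, phom_mk,
          PP_phom_other (FF_eq i) hαi hK, one_mul] at h5
        rw [h5]
        exact UU_phom (FF_eq i) hu
      · have hi' := hcomp p hp i hi
        subst hi'
        rw [hrt p hp]
        refine ⟨α, hα, fun q κ' _ hq hκ' => ?_⟩
        refine ⟨phom (FF_eq _) w, phom (FF_eq _) u, UU_phom (FF_eq _) hu, ?_⟩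
        have h5 := congrArg (phom (FF_eq (f := f) ⟨j p, hjk p hp⟩)) hw
        rw [map_mul, map_mul, map_pow, map_mul, phom_mk, phom_mk,
          PP_phom_same (FF_eq (f := f) ⟨j p, hjk p hp⟩) hK hκ hq hκ'] at h5
        exact h5
    · have hpt : ¬ (p : ℤ) ∣ t := by
        intro h2
        apply hp
        rw [mem_bigPrimes ht.ne_zero]
        exact ⟨hpf.out, h2, hpC⟩
      obtain ⟨e, w, hw⟩ := local_not_dvd hG.monicF (hG.sep p hpf.out hpC) hpt (hloc p)
      refine ⟨e, fun i => ⟨fun _ => ?_, fun hi => ?_⟩⟩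
      · refine ⟨phom (FF_eq i) w, ?_⟩
        have h5 := UU_phom (FF_eq i) hw
        rw [map_mul, map_mul, map_pow, phom_mk, phom_mk] at h5
        exact h5
      · exfalso
        rw [hr0 p hp] at hi
        cases hi

end Stoll308.TW
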