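import Pool.Agent.Work.MP_308fa9_nt.TW.ABas

set_option autoImplicit false

/-!
The characters are nontrivial (as `Gen.exists_unit`, `Gen.sum_Ψ_eq_zero`).
-/

namespace Stoll308.TW

open Finset Polynomial Stoll308.Gen NumberTheorySymbols

variable {k : ℕ} {f : Fin k → ℤ[X]} {C₀ : ℕ}

/-- A unit modulo `g` whose norm to a nontrivial factor `h` is not a square. -/
theorem exists_unit_factor {p : ℕ} [hp : Fact p.Prime] {g h q : (ZMod p)[X]} (hg : g.Monic)
    (hsep : g.Separable) (hp2 : p ≠ 2) (hbig : (2 * g.natDegree + 2) ^ 2 ≤ p) (hgh : g = h * q)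
    (hh : h.Monic) (hdeg : 1 ≤ h.natDegree) :
    ∃ u : (ZMod p)[X], IsCoprime u g ∧ quadraticChar (ZMod p) (resultant h u) = -1 ∧
      q ∣ u - 1 := by
  classical
  have hqm : q.Monic := hh.of_mul_monic_left (hgh ▸ hg)
  have hdg : h.natDegree + q.natDegree = g.natDegree := by
    rw [hgh, hh.natDegree_mul hqm]
  have hc : IsCoprime h q := by
    rw [hgh] at hsep
    exact hsep.isCoprime
  have hhsep : h.Separable := by
    rw [hgh] at hsep
    exact hsep.of_mul_left
  obtain ⟨s, hs⟩ : ∃ s : ℤ, s = quadraticChar (ZMod p) ((-1) ^ h.natDegree) := ⟨_, rfl⟩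
  have hs1 : s = 1 ∨ s = -1 := by
    rw [hs]
    exact quadraticChar_dichotomy (pow_ne_zero _ (neg_ne_zero.2 one_ne_zero))
  obtain ⟨b, hb⟩ := Stoll308.Gen.exists_value (p := p) hp2 h hhsep.squarefree hdeg
      (le_trans (Nat.pow_le_pow_left (by omega) 2) hbig) (ε := -s) (by omega)
  obtain ⟨u, hu1, hu2⟩ := exists_crt hc (X - C b) 1
  have hres : resultant h u = (-1) ^ h.natDegree * h.eval b := by
    rw [res_congr _ _ _ hh hu1]
    have h1 := resultant_X_sub_C_right h h.natDegree b le_rfl
    rw [← h1, ← res_pad h (X - C b) hh 1 (natDegree_X_sub_C_le _)]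
  have hχ : quadraticChar (ZMod p) (resultant h u) = -1 := by
    rw [hres, map_mul, hb, ← hs]
    rcases hs1 with h | h <;> rw [h] <;> norm_num
  refine ⟨u, ?_, hχ, hu2⟩
  rw [hgh]
  refine IsCoprime.mul_right ?_ ?_
  · have h0 : resultant h u ≠ 0 := by
      intro h0
      rw [h0] at hχ
      simp at hχ
    exact ((isUnit_resultant_iff_isCoprime hh).1 (isUnit_iff_ne_zero.2 h0)).symm
  · obtain ⟨w, hw⟩ := hu2
    exact ⟨1, -w, by linear_combination hw⟩

section char

variable {p : ℕ} [hp : Fact p.Prime]

private lemma sum_char_eq_zero {F : ℤ[X]} (hf : F.Monic) (Φ : (ZMod p)[X] → ℤ)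
    (hmul : ∀ q r, Φ (q * r) = Φ q * Φ r) (hcongr : ∀ q r, fp F p ∣ q - r → Φ q = Φ r)
    {u : (ZMod p)[X]} (hu : IsCoprime u (fp F p)) (hΦ : Φ u = -1) :
    ∑ g : Fin F.natDegree → ZMod p, Φ (poly g) = 0 := by
  have hbij : Function.Bijective (mulMap F p u) :=
    (Finite.injective_iff_bijective).1 (mulMap_injective hf hu)
  have h1 : ∑ g : Fin F.natDegree → ZMod p, Φ (poly g) =
      ∑ g : Fin F.natDegree → ZMod p, Φ (poly (mulMap F p u g)) :=
    (Function.Bijective.sum_comp hbij fun g => Φ (poly g)).symm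
  have h2 : ∀ g : Fin F.natDegree → ZMod p, Φ (poly (mulMap F p u g)) = - Φ (poly g) := by
    intro g
    rw [poly_mulMap hf]
    have h3 : fp F p ∣ (u * poly g) %ₘ (fp F p) - u * poly g := by
      refine ⟨-((u * poly g) /ₘ (fp F p)), ?_⟩
      have := modByMonic_add_div (u * poly g) (fp F p)
      linear_combination this
    rw [hcongr _ _ h3, hmul, hΦ]
    ring
  rw [sum_congr rfl fun g _ => h2 g, sum_neg_distrib] at h1
  omega

private lemma sum_fin_eq {n : ℕ} (F : (Fin n → ZMod p) → ℤ) :
    ∑ g : Fin n → Fin p, F (fun i => ((g i : ℕ) : ZMod p)) = ∑ g : Fin n → ZMod p, F g := by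
  have hp0 : p ≠ 0 := hp.out.ne_zero
  let e : Fin p ≃ ZMod p :=
    { toFun := fun i => ((i : ℕ) : ZMod p)
      invFun := fun z => ⟨z.val, ZMod.val_lt z⟩
      left_inv := fun i => by
        apply Fin.ext
        exact ZMod.val_cast_of_lt i.2
      right_inv := fun z => ZMod.natCast_zmod_val z }
  have h := Equiv.sum_comp (Equiv.piCongrRight fun _ : Fin n => e) F
  rw [← h]
  rfl

open Classical in
/-- The factor of one component. -/
private noncomputable def Gc (F : ℤ[X]) (p : ℕ) (bA bj : Prop) (ρ c : ℕ) (q : (ZMod p)[X]) :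
    ZMod p :=
  (if c ∈ R F p then q.eval (c : ZMod p) else 1) *
    ((if bA then (if bj then q.eval (ρ : ZMod p) else 1) else 1) *
      (if bA then resultant (fp F p) q else 1))

private lemma Gc_mul {F : ℤ[X]} (hF : F.Monic) (bA bj : Prop) (ρ c : ℕ) (q r : (ZMod p)[X]) :
    Gc F p bA bj ρ c (q * r) = Gc F p bA bj ρ c q * Gc F p bA bj ρ c r := by
  have hm : (fp F p).Monic := hF.map _
  unfold Gc
  rw [res_mul_right _ _ _ hm, eval_mul, eval_mul]
  split_ifs <;> ring

private lemma eval_congr {F : ℤ[X]} {q r : (ZMod p)[X]} (h : fp F p ∣ q - r) {a : ℕ}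
    (ha : a ∈ R F p) : q.eval (a : ZMod p) = r.eval (a : ZMod p) :=
  eval_eq_of_dvd h (Stoll308.Gen.mem_R.1 ha).2

private lemma Gc_congr {F : ℤ[X]} (hF : F.Monic) (bA bj : Prop) (ρ c : ℕ)
    (hρ : bj → ρ ∈ R F p) {q r : (ZMod p)[X]} (h : fp F p ∣ q - r) :
    Gc F p bA bj ρ c q = Gc F p bA bj ρ c r := by
  have hm : (fp F p).Monic := hF.map _
  unfold Gc
  rw [res_congr _ _ _ hm h]
  congr 1
  · by_cases hc : c ∈ R F p
    · rw [if_pos hc, if_pos hc, eval_congr h hc]
    · rw [if_neg hc, if_neg hc]
  · congr 1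
    by_cases hb : bA
    · rw [if_pos hb, if_pos hb]
      by_cases hj : bj
      · rw [if_pos hj, if_pos hj, eval_congr h (hρ hj)]
      · rw [if_neg hj, if_neg hj]
    · rw [if_neg hb, if_neg hb]

private lemma ψ_eq (hm : ∀ i, (f i).Monic) {A : Finset (Fin k)} {j : Fin k} (hj : j ∈ A)
    (ρ c : ℕ) (g : (i : Fin k) → Fin (f i).natDegree → ℤ) :
    ψψ f A p (.r j ρ) c g = ((quadraticChar (ZMod p) (∏ i ∈ A, Gc (f i) p (RA f Aᶜ p = ∅)
      (i = j) ρ c (poly fun x => (g i x : ZMod p))) : ℤ) : ℝ) := by
  have hNm : ∀ i, ((Nm (f i) (g i) : ℤ) : ZMod p) =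
      resultant (fp (f i) p) (poly fun x => (g i x : ZMod p)) := by
    intro i
    have hmi : (fp (f i) p).Monic := (hm i).map _
    have hd : (fp (f i) p).natDegree = (f i).natDegree := (hm i).natDegree_map _
    rw [Nm_cast]
    unfold Nm
    rw [← res_pad (fp (f i) p) (poly fun x => (g i x : ZMod p)) hmi (f i).natDegree
      (poly_natDegree_le _), hd]
  have hev : ∀ i (a : ℕ), ((ev (g i) (a : ℤ) : ℤ) : ZMod p) =
      (poly fun x => (g i x : ZMod p)).eval (a : ZMod p) := by
    intro i a
    rw [ev_cast, poly_eval]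
    push_cast
    rfl
  have hEV : ((EV f A p c g : ℤ) : ZMod p) = ∏ i ∈ A, if c ∈ R (f i) p then
      (poly fun x => (g i x : ZMod p)).eval (c : ZMod p) else 1 := by
    unfold EV
    push_cast
    refine prod_congr rfl fun i _ => ?_
    by_cases hc : c ∈ R (f i) p
    · rw [if_pos hc, if_pos hc, hev]
    · rw [if_neg hc, if_neg hc]
  unfold ψψ
  by_cases hA : RA f Aᶜ p = ∅
  · simp only [if_pos hA, if_pos hj]
    rw [← jacobiSym.legendreSym.to_jacobiSym, legendreSym]
    congr 2
    rw [Int.cast_mul, Int.cast_mul, hEV, hev]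
    unfold Gc
    simp only [if_pos hA]
    rw [prod_mul_distrib, prod_mul_distrib, Int.cast_prod, prod_congr rfl fun i _ => hNm i]
    have h3 : (∏ i ∈ A, if i = j then (poly fun x => (g i x : ZMod p)).eval (ρ : ZMod p) else 1) =
        (poly fun x => (g j x : ZMod p)).eval (ρ : ZMod p) := by
      rw [prod_eq_single j (fun b _ hb => if_neg hb) (fun h => absurd hj h), if_pos rfl]
    rw [← h3, mul_assoc]
    refine congrArg₂ _ (prod_congr rfl fun i _ => ?_) (congrArg₂ _ (prod_congr rfl fun i _ => ?_) rfl)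
    · by_cases hc : c ∈ R (f i) p
      · rw [if_pos hc]
      · rw [if_neg hc]
    · by_cases hc : i = j
      · rw [if_pos hc, if_pos hc]
      · rw [if_neg hc, if_neg hc]
  · simp only [if_neg hA]
    rw [← jacobiSym.legendreSym.to_jacobiSym, legendreSym]
    congr 2
    rw [hEV]
    unfold Gc
    simp only [if_neg hA, mul_one]

end char

theorem nontriv_A (hG : GB f C₀) (A : Finset (Fin k)) (p : ℕ) (ℓ : Lab k) (hp : p.Prime)
    (hpC : C₀ < p) (hℓ : ℓ ∈ Lbl false (fun i p => R (f i) p) A p) (S : Finset ℕ)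
    (hS : S ⊆ JJ f A p ℓ) (hne : S.Nonempty) :
    ∃ a ∈ A, ∀ g : (i : Fin k) → Fin (f i).natDegree → ℤ,
      ∑ v : Fin (f a).natDegree → Fin p,
        ∏ c ∈ S, ψψ f A p ℓ c (Function.update g a fun x => ((v x : ℕ) : ℤ)) = 0 := by
  classical
  have : Fact p.Prime := ⟨hp⟩
  -- the label
  obtain ⟨j, hj, ρ, hρ, rfl⟩ : ∃ j ∈ A, ∃ ρ ∈ R (f j) p, ℓ = .r j ρ := by
    unfold Lbl at hℓ
    rw [mem_union] at hℓ
    rcases hℓ with h | h
    · simp at h
    · rw [mem_biUnion] at h
      obtain ⟨j, hj, h⟩ := h
      rw [mem_image] at h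
      obtain ⟨ρ, hρ, h⟩ := h
      exact ⟨j, hj, ρ, hρ, h.symm⟩
  set bA : Prop := RA f Aᶜ p = ∅ with hbA
  have hJS : JJ f A p (.r j ρ) ⊆ (RA f A p).erase ρ := by
    unfold JJ
    split_ifs
    · exact erase_subset _ _
    · exact subset_rfl
  have hSR : S ⊆ (RA f A p).erase ρ := hS.trans hJS
  have hρS : ρ ∉ S := fun h => by simpa using hSR h
  have hp2 : p ≠ 2 := by have := hG.two; omega
  have hbig : ∀ i, (2 * (fp (f i) p).natDegree + 2) ^ 2 ≤ p := by
    intro i
    have h1 : (f i).natDegree ≤ ∑ i, (f i).natDegree :=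
      single_le_sum (f := fun i => (f i).natDegree) (fun _ _ => Nat.zero_le _) (mem_univ i)
    have h2 := hG.big
    rw [(hG.monic i).natDegree_map]
    exact ((Nat.pow_le_pow_left (by omega) 2).trans h2).trans hpC.le
  -- the character of the component `b`
  let Φ : Fin k → (ZMod p)[X] → ℤ := fun b q =>
    ∏ c ∈ S, quadraticChar (ZMod p) (Gc (f b) p bA (b = j) ρ c q)
  have hsep : ∀ i, (fp (f i) p).Separable := fun i => (hG.good i).sep p hp hpC
  have hm : ∀ i, (fp (f i) p).Monic := fun i => (hG.monic i).map _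
  have hprod : ∀ (T : Finset ℕ) (u : (ZMod p)[X]),
      resultant (∏ a ∈ T, (X - C (a : ZMod p))) u = ∏ a ∈ T, u.eval (a : ZMod p) := by
    intro T u
    induction T using Finset.induction_on with
    | empty => simp
    | insert a T ha ih =>
      rw [prod_insert ha, prod_insert ha, res_mul_left _ _ _ (monic_X_sub_C _)
        (monic_prod_of_monic _ _ fun a _ => monic_X_sub_C _), res_X_sub_C, ih]
  have hQm : ∀ T : Finset ℕ, (∏ a ∈ T, (X - C (a : ZMod p))).Monic := fun T =>
    monic_prod_of_monic _ _ fun a _ => monic_X_sub_C _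
  have hQd : ∀ T : Finset ℕ, (∏ a ∈ T, (X - C (a : ZMod p))).natDegree = T.card := by
    intro T
    rw [natDegree_prod_of_monic _ _ fun a _ => monic_X_sub_C _,
      sum_congr rfl fun a _ => natDegree_X_sub_C _, sum_const]
    simp
  have key : ∃ b ∈ A, ∃ u : (ZMod p)[X], IsCoprime u (fp (f b) p) ∧ Φ b u = -1 := by
    by_cases hcase : bA ∧ Odd S.card
    · -- the odd case
      obtain ⟨hA, hodd⟩ := hcase
      have hex : ∃ b ∈ A, ((insert ρ S).filter (· ∈ R (f b) p)).card < (f b).natDegree := by
        by_contra hcon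
        push Not at hcon
        have h1 : ∀ b ∈ A, (R (f b) p).card = (f b).natDegree ∧ R (f b) p ⊆ insert ρ S := by
          intro b hb
          have h2 := hcon b hb
          have h3 : (insert ρ S).filter (· ∈ R (f b) p) ⊆ R (f b) p := fun x hx =>
            (mem_filter.1 hx).2
          have h4 := hG.card_R_le hp b
          have h5 := card_le_card h3
          refine ⟨by omega, ?_⟩
          have h6 := eq_of_subset_of_card_le h3 (by omega)
          rw [← h6]
          exact filter_subset _ _
        have h2 : (RA f A p).card = ∑ i ∈ A, (f i).natDegree := by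
          rw [hG.card_RA hp hpC]
          exact sum_congr rfl fun b hb => (h1 b hb).1
        have h3 : RA f A p = insert ρ S := by
          apply Subset.antisymm
          · intro x hx
            obtain ⟨b, hb, hx⟩ := mem_biUnion.1 hx
            exact (h1 b hb).2 hx
          · intro x hx
            rcases mem_insert.1 hx with rfl | hx
            · exact mem_biUnion.2 ⟨j, hj, hρ⟩
            · exact mem_of_mem_erase (hSR hx)
        have h4 : (RA f A p).card = S.card + 1 := by
          rw [h3, card_insert_of_notMem hρS]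
        have h5 : Even (∑ i ∈ A, (f i).natDegree) := by
          rw [← h2, h4]
          exact hodd.add_one
        have h6 : S ⊆ ((RA f A p).erase ρ).erase (((RA f A p).erase ρ).sup id) := by
          have h7 : JJ f A p (.r j ρ) =
              ((RA f A p).erase ρ).erase (((RA f A p).erase ρ).sup id) := by
            unfold JJ
            exact if_pos ⟨hA, h2, h5⟩
          rw [← h7]
          exact hS
        have h7 : ((RA f A p).erase ρ).Nonempty := hne.mono hSR
        have h8 : ((RA f A p).erase ρ).sup id ∈ (RA f A p).erase ρ := by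
          obtain ⟨b, hb, hb'⟩ := exists_mem_eq_sup ((RA f A p).erase ρ) h7 id
          rw [hb']
          exact hb
        have h9 := card_le_card h6
        have h11 : ρ ∈ RA f A p := mem_biUnion.2 ⟨j, hj, hρ⟩
        rw [card_erase_of_mem h8, card_erase_of_mem h11] at h9
        have h10 : 0 < S.card := card_pos.2 hne
        omega
      obtain ⟨b, hb, hlt⟩ := hex
      set T := (insert ρ S).filter (· ∈ R (f b) p) with hT
      obtain ⟨h, hh⟩ := prod_roots_dvd (p := p) (hG.monic b) (S := T)
        (fun x hx => (mem_filter.1 hx).2)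
      have hhm : h.Monic := (hQm T).of_mul_monic_left (hh ▸ hm b)
      have hdegh : 1 ≤ h.natDegree := by
        have h1 : T.card + h.natDegree = (f b).natDegree := by
          rw [← hQd T, ← (hQm T).natDegree_mul hhm, ← hh, (hG.monic b).natDegree_map]
        omega
      obtain ⟨u, hu, hχ, hq⟩ := exists_unit_factor (hm b) (hsep b) hp2 (hbig b)
        (hh.trans (mul_comm _ _)) hhm hdegh
      have hT1 : ∀ a ∈ T, u.eval (a : ZMod p) = 1 := by
        intro a ha
        have h1 : (∏ a ∈ T, (X - C (a : ZMod p))).eval (a : ZMod p) = 0 := by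
          rw [eval_prod]
          exact prod_eq_zero ha (by simp)
        rw [eval_eq_of_dvd hq h1]
        simp
      have hres : resultant (fp (f b) p) u = resultant h u := by
        rw [hh, res_mul_left _ _ _ (hQm T) hhm, res_congr _ _ _ (hQm T) hq, res_one (hQm T),
          one_mul]
      refine ⟨b, hb, u, hu, ?_⟩
      have h1 : ∀ c ∈ S, quadraticChar (ZMod p) (Gc (f b) p bA (b = j) ρ c u) = -1 := by
        intro c hc
        unfold Gc
        rw [if_pos hA, if_pos hA]
        have e1 : (if c ∈ R (f b) p then u.eval (c : ZMod p) else 1) = 1 := by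
          split_ifs with hcR
          · exact hT1 c (mem_filter.2 ⟨mem_insert_of_mem hc, hcR⟩)
          · rfl
        have e2 : (if b = j then u.eval (ρ : ZMod p) else 1) = 1 := by
          split_ifs with hbj
          · exact hT1 ρ (mem_filter.2 ⟨mem_insert_self _ _, hbj ▸ hρ⟩)
          · rfl
        have e3 : ((if c ∈ R (f b) p then u.eval (c : ZMod p) else 1) *
            ((if b = j then u.eval (ρ : ZMod p) else 1) * resultant (fp (f b) p) u)) =
            resultant h u := by
          rw [e1, e2, one_mul, one_mul, hres]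
        rw [← hχ, ← e3]
        congr 1
        refine congrArg₂ _ ?_ (congrArg₂ _ ?_ rfl)
        · by_cases h1 : c ∈ R (f b) p
          · simp only [if_pos h1]
          · simp only [if_neg h1]
        · by_cases h1 : b = j
          · simp only [if_pos h1]
          · simp only [if_neg h1]
      simp only [Φ]
      rw [prod_congr rfl h1, prod_const, hodd.neg_one_pow]
    · -- the other cases
      obtain ⟨c₀, hc₀⟩ := hne
      obtain ⟨b, hb, hcb⟩ := mem_biUnion.1 (mem_of_mem_erase (hSR hc₀))
      set T := S.filter (· ∈ R (f b) p) with hT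
      obtain ⟨q, hq⟩ := prod_roots_dvd (p := p) (hG.monic b) (S := T)
        (fun x hx => (mem_filter.1 hx).2)
      have hT0 : 1 ≤ (∏ a ∈ T, (X - C (a : ZMod p))).natDegree := by
        rw [hQd]
        exact card_pos.2 ⟨c₀, mem_filter.2 ⟨hc₀, hcb⟩⟩
      obtain ⟨u, hu, hχ, hqu⟩ := exists_unit_factor (hm b) (hsep b) hp2 (hbig b) hq (hQm T) hT0
      have hres0 : resultant (fp (f b) p) u ≠ 0 := by
        have := (isUnit_resultant_iff_isCoprime (hm b)).2 hu.symm
        exact this.ne_zero
      have hval : ∀ a ∈ R (f b) p, u.eval (a : ZMod p) ≠ 0 := by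
        intro a ha h0
        obtain ⟨s, t, hst⟩ := hu
        have h1 := congrArg (Polynomial.eval (a : ZMod p)) hst
        rw [eval_add, eval_mul, eval_mul, h0, (Stoll308.Gen.mem_R.1 ha).2] at h1
        simp at h1
      refine ⟨b, hb, u, hu, ?_⟩
      obtain ⟨M, hM⟩ : ∃ M : ZMod p, M = (if bA then (if b = j then u.eval (ρ : ZMod p) else 1)
        else 1) * (if bA then resultant (fp (f b) p) u else 1) := ⟨_, rfl⟩
      have hM0 : M ≠ 0 := by
        rw [hM]
        refine mul_ne_zero ?_ ?_
        · split_ifs with h1 h2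
          · exact hval ρ (h2 ▸ hρ)
          · exact one_ne_zero
          · exact one_ne_zero
        · split_ifs
          · exact hres0
          · exact one_ne_zero
      have hMS : quadraticChar (ZMod p) M ^ S.card = 1 := by
        by_cases h1 : bA
        · have h2 : Even S.card := by
            rw [← Nat.not_odd_iff_even]
            exact fun h => hcase ⟨h1, h⟩
          rcases quadraticChar_dichotomy hM0 with h3 | h3 <;> rw [h3]
          · exact one_pow _
          · exact h2.neg_one_pow
        · have h2 : M = 1 := by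
            rw [hM, if_neg h1, if_neg h1, one_mul]
          rw [h2, map_one, one_pow]
      have h1 : ∀ c ∈ S, quadraticChar (ZMod p) (Gc (f b) p bA (b = j) ρ c u) =
          quadraticChar (ZMod p) (if c ∈ R (f b) p then u.eval (c : ZMod p) else 1) *
            quadraticChar (ZMod p) M := by
        intro c _
        unfold Gc
        rw [map_mul, hM]
        refine congrArg₂ _ (congrArg _ ?_) (congrArg _ (congrArg₂ _ ?_ ?_))
        · by_cases h1 : c ∈ R (f b) p
          · simp only [if_pos h1]
          · simp only [if_neg h1]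
        · by_cases h1 : bA
          · simp only [if_pos h1]
            by_cases h2 : b = j
            · simp only [if_pos h2]
            · simp only [if_neg h2]
          · simp only [if_neg h1]
        · by_cases h1 : bA
          · simp only [if_pos h1]
          · simp only [if_neg h1]
      simp only [Φ]
      rw [prod_congr rfl h1, prod_mul_distrib, prod_const, hMS, mul_one, ← map_prod,
        ← prod_filter, ← hprod, hχ]
  obtain ⟨b, hb, u, hu, hΦ⟩ := key
  refine ⟨b, hb, fun g => ?_⟩
  have hmul : ∀ q r, Φ b (q * r) = Φ b q * Φ b r := by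
    intro q r
    simp only [Φ]
    rw [← prod_mul_distrib]
    refine prod_congr rfl fun c _ => ?_
    rw [Gc_mul (hG.monic b), map_mul]
  have hcongr : ∀ q r, fp (f b) p ∣ q - r → Φ b q = Φ b r := by
    intro q r h
    simp only [Φ]
    refine prod_congr rfl fun c _ => ?_
    rw [Gc_congr (hG.monic b) bA (b = j) ρ c (fun h => h ▸ hρ) h]
  have h0 := sum_char_eq_zero (hG.monic b) (Φ b) hmul hcongr hu hΦ
  set K : ℤ := ∏ c ∈ S, quadraticChar (ZMod p) (∏ i ∈ A.erase b, Gc (f i) p bA (i = j) ρ c
    (poly fun x => (g i x : ZMod p))) with hK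
  have h1 : ∀ v : Fin (f b).natDegree → Fin p,
      ∏ c ∈ S, ψψ f A p (.r j ρ) c (Function.update g b fun x => ((v x : ℕ) : ℤ)) =
      (((Φ b (poly fun x => ((v x : ℕ) : ZMod p)) * K : ℤ)) : ℝ) := by
    intro v
    rw [hK]
    simp only [Φ]
    rw [← prod_mul_distrib, Int.cast_prod]
    refine prod_congr rfl fun c _ => ?_
    rw [ψ_eq hG.monic hj, ← map_mul]
    congr 2
    rw [← mul_prod_erase A _ hb]
    congr 1
    · simp only [Function.update_self, Int.cast_natCast]
      rfl
    · refine prod_congr rfl fun i hi => ?_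
      rw [Function.update_of_ne (ne_of_mem_erase hi)]
  rw [sum_congr rfl fun v _ => h1 v, ← Int.cast_sum, ← sum_mul,
    sum_fin_eq (fun g => Φ b (poly g)), h0, zero_mul, Int.cast_zero]

end Stoll308.TW
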