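import Pool.Agent.Work.MP_308fa9_nt.TW.AUnit

set_option autoImplicit false

/-!
The relation between two roots (as `Gen.symbol_eq`, `Gen.main_rel`).
-/

namespace Stoll308.TW

open Finset Polynomial Stoll308.Gen NumberTheorySymbols

variable {k : ℕ} {f : Fin k → ℤ[X]} {C₀ : ℕ}

private lemma jac_eq {p : ℕ} [hp : Fact p.Prime] (z : ℤ) :
    J(z | p) = quadraticChar (ZMod p) (z : ZMod p) := by
  rw [← jacobiSym.legendreSym.to_jacobiSym, legendreSym]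

private lemma prod_jac {p : ℕ} [hp : Fact p.Prime] (c : Fin k → ℤ) :
    (∏ b, J(c b | p)) = quadraticChar (ZMod p) ((∏ b, c b : ℤ) : ZMod p) := by
  rw [prod_congr rfl fun b _ => jac_eq (c b), ← map_prod]
  push_cast
  rfl

/-- The symbol of the second Thue elements. -/
theorem symbol_tuple (hG : GB f C₀) {p : ℕ} [hp : Fact p.Prime] (hpC : C₀ < p)
    {T : Fin k → Finset ℕ} {ρ : ℕ → ℕ} (hV : ∀ i, Valid (f i) C₀ (T i) ρ)
    (hpT : ∀ i, p ∉ T i) {i j : Fin k} {α β : ℤ_[p]} {r a : ℕ} (hα : Lift (f j) p r α)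
    (hβ : Lift (f i) p a β) :
    ∃ u : ℤ_[p], IsUnit u ∧ (u : ℚ_[p]) = ((∏ b, ∏ q ∈ T b, q : ℕ) : ℚ_[p]) *
      (dq (tq (f j) (T j) ρ) p).eval (α : ℚ_[p]) * (dq (tq (f i) (T i) ρ) p).eval (β : ℚ_[p]) ∧
      ((IsSquare (u : ℚ_[p]) ∧ (∏ b, J(kap (f b) (T b) ρ | p)) *
          J(ev (thue (f i) (T i) ρ) (a : ℤ) * ev (thue (f j) (T j) ρ) (r : ℤ) *
            ∏ b, Nm (f b) (thue (f b) (T b) ρ) | p) = 1) ∨
        (¬ IsSquare (u : ℚ_[p]) ∧ (∏ b, J(kap (f b) (T b) ρ | p)) *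
          J(ev (thue (f i) (T i) ρ) (a : ℤ) * ev (thue (f j) (T j) ρ) (r : ℤ) *
            ∏ b, Nm (f b) (thue (f b) (T b) ρ) | p) = -1)) := by
  classical
  set G : (b : Fin k) → ℤ_[p][X] := fun b => poly (fun i => (thue (f b) (T b) ρ i : ℤ_[p])) with hGdef
  set N : ℕ := ∏ b, ∏ q ∈ T b, q with hN
  have hroot : ∀ {b : Fin k} {c : ℕ} {γ : ℤ_[p]}, Lift (f b) p c γ → rd p ((G b).eval γ) ≠ 0 := by
    intro b c γ hγ h0
    obtain ⟨u, v, huv⟩ := thue_coprime (hG.good b) (hV b) hp.out hpC (hpT b)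
    have h1 := congrArg (eval (rd p γ)) huv
    rw [eval_add, eval_mul, eval_mul, ← rd_poly, eval_map_apply] at h1
    change _ * rd p ((G b).eval γ) + _ = _ at h1
    rw [h0, ← fz_map, eval_map_apply, hγ.1] at h1
    simp at h1
  have hNp : (N : ZMod p) ≠ 0 := by
    rw [Ne, ZMod.natCast_eq_zero_iff, hN, hp.out.prime.dvd_finsetProd_iff]
    rintro ⟨b, _, hb⟩
    rw [hp.out.prime.dvd_finsetProd_iff] at hb
    obtain ⟨q, hq, hpq⟩ := hb
    have := (Nat.prime_dvd_prime_iff_eq hp.out (hV b q hq).1).1 hpq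
    exact hpT b (this ▸ hq)
  have hu : IsUnit ((N : ℤ_[p]) * (G j).eval α * (G i).eval β) := by
    rw [← rd_ne_zero_iff, map_mul, map_mul, map_natCast]
    exact mul_ne_zero (mul_ne_zero hNp (hroot hα)) (hroot hβ)
  refine ⟨_, hu, ?_, ?_⟩
  · rw [dq_tq_eval, dq_tq_eval]
    push_cast
    rfl
  · have h1 : (∏ b, J(kap (f b) (T b) ρ | p)) *
          J(ev (thue (f i) (T i) ρ) (a : ℤ) * ev (thue (f j) (T j) ρ) (r : ℤ) *
            ∏ b, Nm (f b) (thue (f b) (T b) ρ) | p) =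
        quadraticChar (ZMod p) (rd p ((N : ℤ_[p]) * (G j).eval α * (G i).eval β)) := by
      rw [prod_jac, jac_eq, ← map_mul]
      have h2 : ((∏ b, kap (f b) (T b) ρ : ℤ) : ZMod p) *
          ((ev (thue (f i) (T i) ρ) (a : ℤ) * ev (thue (f j) (T j) ρ) (r : ℤ) *
            ∏ b, Nm (f b) (thue (f b) (T b) ρ) : ℤ) : ZMod p) =
          ((∏ b, kap (f b) (T b) ρ : ℤ) : ZMod p) ^ 2 *
          rd p ((N : ℤ_[p]) * (G j).eval α * (G i).eval β) := by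
        have h3 : ∀ {b : Fin k} {c : ℕ} {γ : ℤ_[p]}, Lift (f b) p c γ →
            ((ev (thue (f b) (T b) ρ) (c : ℤ) : ℤ) : ZMod p) = rd p ((G b).eval γ) := by
          intro b c γ hγ
          rw [hGdef, poly_eval, ev_map, hγ.2, ev_cast]
          simp
        have h4 : ∏ b, Nm (f b) (thue (f b) (T b) ρ) =
            (∏ b, kap (f b) (T b) ρ) * ((N : ℕ) : ℤ) := by
          rw [hN, Nat.cast_prod, ← prod_mul_distrib]
          exact prod_congr rfl fun b _ => kap_mul (hG.good b) (hV b)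
        rw [h4, Int.cast_mul, Int.cast_mul, Int.cast_mul, h3 hα, h3 hβ, map_mul, map_mul,
          map_natCast, Int.cast_natCast]
        ring
      rw [h2, map_mul, map_pow]
      have hk : ((∏ b, kap (f b) (T b) ρ : ℤ) : ZMod p) ≠ 0 := by
        rw [Int.cast_prod, prod_ne_zero_iff]
        intro b _
        rw [Ne, ZMod.intCast_zmod_eq_zero_iff_dvd]
        exact not_dvd_kap (hG.good b) (hV b) hpC
      rw [quadraticChar_sq_one hk, one_mul]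
    rw [h1]
    have hu' := rd_ne_zero_iff.2 hu
    by_cases hsq : IsSquare (((N : ℤ_[p]) * (G j).eval α * (G i).eval β : ℤ_[p]) : ℚ_[p])
    · left
      exact ⟨hsq, (quadraticChar_one_iff_isSquare hu').2
        ((isSquare_coe_iff ((hG.good i).ne_two hpC) hu).1 hsq)⟩
    · right
      refine ⟨hsq, ?_⟩
      rw [quadraticChar_neg_one_iff_not_isSquare]
      exact fun h => hsq ((isSquare_coe_iff ((hG.good i).ne_two hpC) hu).2 h)

private lemma prod_big {t : ℤ} {δ : ℚ[X]} {r : ℕ → Lab k} (hD : LabD f C₀ t δ r)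
    {T₁ T₂ : Fin k → Finset ℕ} (hd : ∀ i, Disjoint (T₁ i) (T₂ i))
    (hun : ∀ i, T₁ i ∪ T₂ i = cpt i (bigPrimes C₀ t) r) :
    ∏ p ∈ bigPrimes C₀ t, p = (∏ b, ∏ q ∈ T₁ b, q) * ∏ b, ∏ q ∈ T₂ b, q := by
  classical
  have h1 : bigPrimes C₀ t = univ.biUnion fun b => cpt b (bigPrimes C₀ t) r := by
    ext p
    rw [mem_biUnion]
    constructor
    · intro hp
      obtain ⟨j, h1, _⟩ := hD.lab p hp
      exact ⟨j, mem_univ _, mem_filter.2 ⟨hp, h1⟩⟩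
    · rintro ⟨j, _, h⟩
      exact (mem_filter.1 h).1
  rw [h1, prod_biUnion, ← prod_mul_distrib]
  · refine prod_congr rfl fun b _ => ?_
    rw [← hun b, prod_union (hd b)]
  · intro i _ j _ hij
    change Disjoint (cpt i (bigPrimes C₀ t) r) (cpt j (bigPrimes C₀ t) r)
    rw [disjoint_left]
    intro p hp hp'
    have h2 := (mem_filter.1 hp).2.symm.trans (mem_filter.1 hp').2
    injection h2 with h3
    exact hij h3

private lemma mk_tq_ne {g : ℤ[X]} (hG : GoodBound g C₀) {T : Finset ℕ} {ρ : ℕ → ℕ}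
    (hV : Valid g C₀ T ρ) {p : ℕ} [hp : Fact p.Prime] {α : ℤ_[p]} (hα : (fz g p).eval α = 0) :
    (dq (tq g T ρ) p).eval (α : ℚ_[p]) ≠ 0 := by
  have hirr : Fact (Irreducible (fr g)) := ⟨fr_irr hG⟩
  rw [← evHom_mk hα]
  exact (_root_.map_ne_zero _).2 (mk_tq_ne_zero hG hV)

/-- The relation between the label `j, r p` and the root `a` of `f i`. -/
theorem raw_rel (hG : GB f C₀) {t : ℤ} (ht : Squarefree t) {δ : ℚ[X]} {r : ℕ → Lab k}
    (hD : LabD f C₀ t δ r) {T₁ T₂ : Fin k → Finset ℕ} (hd : ∀ i, Disjoint (T₁ i) (T₂ i))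
    (hun : ∀ i, T₁ i ∪ T₂ i = cpt i (bigPrimes C₀ t) r) {x : ℚ} (hx : x ≠ 0)
    {ε : Fin k → ℚ[X]} {γ : (i : Fin k) → AdjoinRoot (fr (f i))}
    (hγ : ∀ i, ¬ γ i = 0)
    (hmk : ∀ i, AdjoinRoot.mk (fr (f i)) (C x * (δ * (tq (f i) (T₁ i) (rts r) *
      tq (f i) (T₂ i) (rts r)))) = AdjoinRoot.mk (fr (f i)) (ε i) * γ i ^ 2)
    {p : ℕ} {i j : Fin k} (hpT : p ∈ T₁ j) {a : ℕ} (ha : a ∈ R (f i) p) (hne : a ≠ rts r p) :
    cR f ε (sp C₀ t) T₁ (rts r) p i j a * ((∏ b, J(kap (f b) (T₂ b) (rts r) | p)) *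
      J(ev (thue (f i) (T₂ i) (rts r)) (a : ℤ) *
        ev (thue (f j) (T₂ j) (rts r)) ((rts r p : ℕ) : ℤ) *
        ∏ b, Nm (f b) (thue (f b) (T₂ b) (rts r)) | p)) = 1 := by
  classical
  have hVc : ∀ b, Valid (f b) C₀ (T₁ b ∪ T₂ b) (rts r) := fun b => by
    rw [hun b]
    exact valid_cpt hD b
  have hV₁ : ∀ b, Valid (f b) C₀ (T₁ b) (rts r) := fun b q hq => hVc b q (mem_union_left _ hq)
  have hV₂ : ∀ b, Valid (f b) C₀ (T₂ b) (rts r) := fun b q hq => hVc b q (mem_union_right _ hq)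
  have hp : Fact p.Prime := ⟨(hV₁ j p hpT).1⟩
  have hpC := (hV₁ j p hpT).2.1
  have hcj : p ∈ cpt j (bigPrimes C₀ t) r := hun j ▸ mem_union_left _ hpT
  have hpb : p ∈ bigPrimes C₀ t := (mem_filter.1 hcj).1
  have hrp : r p = .r j (r p).rt := (mem_filter.1 hcj).2
  have hpT₂ : ∀ b, p ∉ T₂ b := by
    intro b hb
    by_cases hbj : b = j
    · subst hbj
      exact disjoint_left.1 (hd b) hpT hb
    · have h1 : p ∈ cpt b (bigPrimes C₀ t) r := hun b ▸ mem_union_right _ hb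
      have h2 := (mem_filter.1 h1).2.symm.trans hrp
      injection h2 with h3
      exact hbj h3
  obtain ⟨α, hα, hrel⟩ := hD.rel p hpb j hrp
  obtain ⟨β, hβ⟩ := exists_lift ((hG.good i).sep p hp.out hpC) ha
  have hβα : β ≠ α := by
    rintro rfl
    exact hne (cast_inj_of_lt (mem_R.1 ha).1 (mem_R.1 (hV₁ j p hpT).2.2).1 (hβ.2.symm.trans hα.2))
  obtain ⟨hAδ, hBδ, hsq⟩ := hrel β ((hG.eval_FF β).2 ⟨i, hβ.1⟩) hβα
  set ρ := rts r with hρ
  have hρp : ρ p = (r p).rt := rfl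
  rw [← hρp] at hα
  set s : ℤ := sp C₀ t with hs
  set N₁ : ℕ := ∏ b, ∏ q ∈ T₁ b, q with hN₁
  set N₂ : ℕ := ∏ b, ∏ q ∈ T₂ b, q with hN₂
  have hts : t = s * (N₁ : ℤ) * (N₂ : ℤ) := by
    have h1 : s * ((∏ p ∈ bigPrimes C₀ t, p : ℕ) : ℤ) = t :=
      Int.ediv_mul_cancel prod_bigPrimes_dvd
    rw [prod_big hD hd hun, Nat.cast_mul, ← mul_assoc] at h1
    exact h1.symm
  -- evaluate the identities in the number fields
  have hgne : ∀ {b : Fin k} {c : ℕ} {η : ℤ_[p]} (hη : Lift (f b) p c η), evHom hη.1 (γ b) ≠ 0 := by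
    intro b c η hη
    have hirr : Fact (Irreducible (fr (f b))) := ⟨fr_irr (hG.good b)⟩
    exact (_root_.map_ne_zero _).2 (hγ b)
  have hgα := hgne hα
  have hgβ := hgne hβ
  have hev : ∀ {b : Fin k} {c : ℕ} {η : ℤ_[p]} (hη : Lift (f b) p c η),
      (x : ℚ_[p]) * ((dq δ p).eval (η : ℚ_[p]) * ((dq (tq (f b) (T₁ b) ρ) p).eval (η : ℚ_[p]) *
        (dq (tq (f b) (T₂ b) ρ) p).eval (η : ℚ_[p]))) =
      (dq (ε b) p).eval (η : ℚ_[p]) * evHom hη.1 (γ b) ^ 2 := by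
    intro b c η hη
    have h1 := congrArg (evHom hη.1) (hmk b)
    rw [map_mul (evHom hη.1), map_pow, evHom_mk, evHom_mk] at h1
    rw [← h1]
    unfold dq
    rw [Polynomial.map_mul, Polynomial.map_mul, Polynomial.map_mul, map_C, eval_mul, eval_mul,
      eval_mul, eval_C]
    simp
  have hevα := hev hα
  have hevβ := hev hβ
  have hG₁α : (dq (tq (f j) (T₁ j) ρ) p).eval (α : ℚ_[p]) ≠ 0 :=
    mk_tq_ne (hG.good j) (hV₁ j) hα.1
  have hG₁β : (dq (tq (f i) (T₁ i) ρ) p).eval (β : ℚ_[p]) ≠ 0 :=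
    mk_tq_ne (hG.good i) (hV₁ i) hβ.1
  have hG₂α : (dq (tq (f j) (T₂ j) ρ) p).eval (α : ℚ_[p]) ≠ 0 :=
    mk_tq_ne (hG.good j) (hV₂ j) hα.1
  have hG₂β : (dq (tq (f i) (T₂ i) ρ) p).eval (β : ℚ_[p]) ≠ 0 :=
    mk_tq_ne (hG.good i) (hV₂ i) hβ.1
  have hx' : (x : ℚ_[p]) ≠ 0 := by exact_mod_cast hx
  have hεα : (dq (ε j) p).eval (α : ℚ_[p]) ≠ 0 := by
    intro h
    rw [h, zero_mul] at hevα
    exact mul_ne_zero hx' (mul_ne_zero hAδ (mul_ne_zero hG₁α hG₂α)) hevα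
  have hεβ : (dq (ε i) p).eval (β : ℚ_[p]) ≠ 0 := by
    intro h
    rw [h, zero_mul] at hevβ
    exact mul_ne_zero hx' (mul_ne_zero hBδ (mul_ne_zero hG₁β hG₂β)) hevβ
  obtain ⟨u, hu, huU, hsym⟩ := symbol_tuple hG hpC hV₂ hpT₂ hα hβ
  -- `Z U` is a square
  set D : ℚ_[p] := (((derivative (fz (FF f) p)).eval α * (α - β) : ℤ_[p]) : ℚ_[p]) with hDdef
  have hD0 : D ≠ 0 := by
    have hFα : (fz (FF f) p).eval α = 0 := (hG.eval_FF α).2 ⟨j, hα.1⟩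
    obtain ⟨q, hqm, hq⟩ := exists_factor hG.monicF hFα
    rw [hDdef, PadicInt.coe_ne_zero, deriv_eval hq]
    refine mul_ne_zero ?_ (sub_ne_zero.2 hβα.symm)
    have := factor_eval_unit (hG.sep p hp.out hpC) hq (x := α) rfl
    intro h0
    rw [h0] at this
    exact not_isUnit_zero this
  have ht0 : (t : ℚ_[p]) ≠ 0 := by exact_mod_cast ht.ne_zero
  have htq : (t : ℚ_[p]) = (s : ℚ_[p]) * ((N₁ : ℕ) : ℚ_[p]) * ((N₂ : ℕ) : ℚ_[p]) := by
    have := congrArg (Int.cast : ℤ → ℚ_[p]) hts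
    rw [this, Int.cast_mul, Int.cast_mul, Int.cast_natCast, Int.cast_natCast]
  have hs0 : (s : ℚ_[p]) ≠ 0 := fun h => ht0 (by rw [htq, h]; ring)
  have hT₁0 : ((N₁ : ℕ) : ℚ_[p]) ≠ 0 := fun h => ht0 (by rw [htq, h]; ring)
  obtain ⟨q, hq⟩ := hsq
  have hZU : ZR f ε s T₁ ρ p i j α β * (u : ℚ_[p]) =
      ((x : ℚ_[p]) * ((dq (tq (f j) (T₁ j) ρ) p).eval (α : ℚ_[p]) *
        (dq (tq (f i) (T₁ i) ρ) p).eval (β : ℚ_[p]) *
        (dq (tq (f j) (T₂ j) ρ) p).eval (α : ℚ_[p]) *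
        (dq (tq (f i) (T₂ i) ρ) p).eval (β : ℚ_[p])) * q /
        (evHom hα.1 (γ j) * evHom hβ.1 (γ i))) ^ 2 := by
    rw [huU]
    unfold ZR
    rw [← hDdef, ← hN₁, ← hN₂, div_pow, eq_div_iff (pow_ne_zero 2 (mul_ne_zero hgα hgβ))]
    set Eα := (dq (ε j) p).eval (α : ℚ_[p])
    set Eβ := (dq (ε i) p).eval (β : ℚ_[p])
    set A := (dq δ p).eval (α : ℚ_[p])
    set B := (dq δ p).eval (β : ℚ_[p])
    set G₁α := (dq (tq (f j) (T₁ j) ρ) p).eval (α : ℚ_[p])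
    set G₁β := (dq (tq (f i) (T₁ i) ρ) p).eval (β : ℚ_[p])
    set G₂α := (dq (tq (f j) (T₂ j) ρ) p).eval (α : ℚ_[p])
    set G₂β := (dq (tq (f i) (T₂ i) ρ) p).eval (β : ℚ_[p])
    set gα := evHom hα.1 (γ j)
    set gβ := evHom hβ.1 (γ i)
    set M₁ : ℚ_[p] := ((N₁ : ℕ) : ℚ_[p])
    set M₂ : ℚ_[p] := ((N₂ : ℕ) : ℚ_[p])
    have h1 : (Eα * gα ^ 2) * (Eβ * gβ ^ 2) = (x * (A * (G₁α * G₂α))) * (x * (B * (G₁β * G₂β))) := by
      rw [hevα, hevβ]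
    have h2 : B * A * (s * M₁ * M₂) * D = q * q := by
      rw [← htq, hq]
    linear_combination (G₁β * G₁α * s * M₁ * D * M₂ * G₂α * G₂β) * h1 +
      (x ^ 2 * (G₁α * G₁β * G₂α * G₂β) ^ 2) * h2
  have hZ0 : ZR f ε s T₁ ρ p i j α β ≠ 0 := by
    unfold ZR
    exact mul_ne_zero (mul_ne_zero (mul_ne_zero (mul_ne_zero (mul_ne_zero (mul_ne_zero hεβ hεα)
      hG₁β) hG₁α) hs0) hT₁0) hD0
  have hu0 := unit_ne_zero hu
  set Y : ℚ_[p] := ((x : ℚ_[p]) * ((dq (tq (f j) (T₁ j) ρ) p).eval (α : ℚ_[p]) *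
        (dq (tq (f i) (T₁ i) ρ) p).eval (β : ℚ_[p]) *
        (dq (tq (f j) (T₂ j) ρ) p).eval (α : ℚ_[p]) *
        (dq (tq (f i) (T₂ i) ρ) p).eval (β : ℚ_[p])) * q /
        (evHom hα.1 (γ j) * evHom hβ.1 (γ i))) with hY
  have hiff : IsSquare (ZR f ε s T₁ ρ p i j α β) ↔ IsSquare (u : ℚ_[p]) := by
    constructor
    · rintro ⟨z, hz⟩
      rw [hz] at hZU hZ0
      exact ⟨Y / z, by rw [div_mul_div_comm, ← sq, ← hZU, mul_comm (z * z), mul_div_assoc,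
        div_self hZ0, mul_one]⟩
    · rintro ⟨z, hz⟩
      rw [hz] at hZU hu0
      exact ⟨Y / z, by rw [div_mul_div_comm, ← sq, ← hZU, mul_div_assoc, div_self hu0, mul_one]⟩
  rcases hsym with ⟨hsq', hsym⟩ | ⟨hsq', hsym⟩
  · have hcc : cR f ε s T₁ ρ p i j a = 1 := by
      unfold cR
      rw [if_pos]
      exact ⟨hp, α, β, hα, hβ, hiff.2 hsq'⟩
    rw [hcc, hsym]
    norm_num
  · have hcc : cR f ε s T₁ ρ p i j a = -1 := by
      unfold cR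
      rw [if_neg]
      rintro ⟨hp', α', β', hα', hβ', hsq''⟩
      apply hsq'
      rw [← hiff]
      have e1 := hG.lift_unique hpC hα' hα
      have e2 := hG.lift_unique hpC hβ' hβ
      rw [← e1, ← e2]
      exact hsq''
    rw [hcc, hsym]
    norm_num

end Stoll308.TW
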