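import Pool.Agent.Work.MP_308fa9_nt.TW.ARaw

set_option autoImplicit false

/-!
The selected relations for the active components `A`.
-/

namespace Stoll308.TW

open Finset Polynomial Stoll308.Gen NumberTheorySymbols

variable {k : ℕ} {f : Fin k → ℤ[X]} {C₀ : ℕ}

private lemma mask_r {A : Finset (Fin k)} {Z : Fin k → ℝ} {r : ℕ → Lab k} {p : ℕ} {i : Fin k}
    {a : ℕ} (h : r p = .r i a) :
    (i ∈ A ∧ Z i < (p : ℝ) → mask A Z r p = .o) ∧
      (¬ (i ∈ A ∧ Z i < (p : ℝ)) → mask A Z r p = .r i a) := by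
  unfold mask
  rw [h]
  constructor
  · intro h'
    exact if_pos h'
  · intro h'
    exact if_neg h'

private lemma mask_o {A : Finset (Fin k)} {Z : Fin k → ℝ} {r : ℕ → Lab k} {p : ℕ}
    (h : r p = .o) : mask A Z r p = .o := by
  unfold mask
  rw [h]

private lemma mask_u {A : Finset (Fin k)} {Z : Fin k → ℝ} {r : ℕ → Lab k} {p : ℕ}
    (h : r p = .u) : mask A Z r p = .u := by
  unfold mask
  rw [h]

/-- A root label of the masked function is the label of the function. -/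
private lemma of_mask {A : Finset (Fin k)} {Z : Fin k → ℝ} {r : ℕ → Lab k} {p : ℕ} {i : Fin k}
    {a : ℕ} (h : mask A Z r p = .r i a) : r p = .r i a ∧ ¬ (i ∈ A ∧ Z i < (p : ℝ)) := by
  cases h' : r p with
  | o =>
    rw [mask_o h'] at h
    exact nomatch h
  | u =>
    rw [mask_u h'] at h
    exact nomatch h
  | r j b =>
    by_cases hj : j ∈ A ∧ Z j < (p : ℝ)
    · rw [(mask_r h').1 hj] at h
      exact nomatch h
    · rw [(mask_r h').2 hj] at h
      injection h with h1 h2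
      subst h1 h2
      exact ⟨rfl, hj⟩

private lemma mem_cut {Z : Fin k → ℝ} {i : Fin k} {S : Finset ℕ} {r : ℕ → Lab k} {p : ℕ} :
    p ∈ cut Z i S r ↔ p ∈ S ∧ (∃ a, r p = .r i a) ∧ Z i < (p : ℝ) := by
  unfold cut cpt
  rw [mem_filter, mem_filter]
  constructor
  · rintro ⟨⟨h1, h2⟩, h3⟩
    exact ⟨h1, ⟨_, h2⟩, h3⟩
  · rintro ⟨h1, ⟨a, h2⟩, h3⟩
    refine ⟨⟨h1, ?_⟩, h3⟩
    rw [h2]
    rfl

private lemma mem_cpt {i : Fin k} {S : Finset ℕ} {r : ℕ → Lab k} {p : ℕ} :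
    p ∈ cpt i S r ↔ p ∈ S ∧ ∃ a, r p = .r i a := by
  unfold cpt
  rw [mem_filter]
  constructor
  · rintro ⟨h1, h2⟩
    exact ⟨h1, ⟨_, h2⟩⟩
  · rintro ⟨h1, ⟨a, h2⟩⟩
    refine ⟨h1, ?_⟩
    rw [h2]
    rfl

/-- The primes of the masked label function. -/
theorem TT_mask {t : ℤ} {δ : ℚ[X]} {r : ℕ → Lab k} (hD : LabD f C₀ t δ r) (A : Finset (Fin k))
    (Z : Fin k → ℝ) (i : Fin k) : TT (mask A Z r) i = cpt i (bigPrimes C₀ t) (mask A Z r) := by
  have h1 : {p : ℕ | mask A Z r p = .r i (mask A Z r p).rt} =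
      ↑(cpt i (bigPrimes C₀ t) (mask A Z r)) := by
    ext p
    unfold cpt
    rw [Set.mem_ofPred_eq, mem_coe, mem_filter]
    refine ⟨fun h => ⟨?_, h⟩, fun h => h.2⟩
    refine (hD.supp p).1 ?_
    rw [(of_mask h).1]
    exact nofun
  have h2 : {p : ℕ | mask A Z r p = .r i (mask A Z r p).rt}.Finite := by
    rw [h1]
    exact finite_toSet _
  unfold TT
  rw [dif_pos h2]
  ext p
  rw [Set.Finite.mem_toFinset, h1, mem_coe]

private lemma jac_eq {p : ℕ} [hp : Fact p.Prime] (z : ℤ) :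
    J(z | p) = quadraticChar (ZMod p) (z : ZMod p) := by
  rw [← jacobiSym.legendreSym.to_jacobiSym, legendreSym]

private lemma jac_prod {ι : Type*} {p : ℕ} (hp : p.Prime) (s : Finset ι) (c : ι → ℤ) :
    J(∏ b ∈ s, c b | p) = ∏ b ∈ s, J(c b | p) := by
  have : Fact p.Prime := ⟨hp⟩
  rw [jac_eq, Int.cast_prod, map_prod]
  exact prod_congr rfl fun b _ => (jac_eq _).symm

/-- The signs only depend on the roots at the primes of `T` and at `p`. -/
private lemma cR_congr (ε : Fin k → ℚ[X]) (s : ℤ) (T : Fin k → Finset ℕ) {ρ ρ' : ℕ → ℕ}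
    (h : ∀ b, ∀ p ∈ T b, ρ p = ρ' p) {p : ℕ} (hp : ρ p = ρ' p) (i j : Fin k) (a : ℕ) :
    cR f ε s T ρ p i j a = cR f ε s T ρ' p i j a := by
  have h2 : ∀ (_ : Fact p.Prime) (α β : ℤ_[p]),
      ZR f ε s T ρ p i j α β = ZR f ε s T ρ' p i j α β := by
    intro _ α β
    unfold ZR tq
    rw [thue_congr (f i) (T i) ρ ρ' (h i), thue_congr (f j) (T j) ρ ρ' (h j)]
  have h3 : (∃ (_ : Fact p.Prime) (α β : ℤ_[p]), Lift (f j) p (ρ p) α ∧ Lift (f i) p a β ∧
      IsSquare (ZR f ε s T ρ p i j α β)) ↔ (∃ (_ : Fact p.Prime) (α β : ℤ_[p]),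
      Lift (f j) p (ρ' p) α ∧ Lift (f i) p a β ∧ IsSquare (ZR f ε s T ρ' p i j α β)) := by
    constructor
    · rintro ⟨i1, α, β, h3, h4, h5⟩
      exact ⟨i1, α, β, hp ▸ h3, h4, by rw [← h2]; exact h5⟩
    · rintro ⟨i1, α, β, h3, h4, h5⟩
      exact ⟨i1, α, β, hp.symm ▸ h3, h4, by rw [h2]; exact h5⟩
  unfold cR
  by_cases hP : (∃ (_ : Fact p.Prime) (α β : ℤ_[p]), Lift (f j) p (ρ p) α ∧ Lift (f i) p a β ∧
      IsSquare (ZR f ε s T ρ p i j α β))
  · rw [if_pos hP, if_pos (h3.1 hP)]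
  · rw [if_neg hP, if_neg (fun h => hP (h3.2 h))]

/-- The sign of the relation. -/
private lemma craw_eq (hG : GB f C₀) {t : ℤ} {δ : ℚ[X]} {r : ℕ → Lab k}
    (hD : LabD f C₀ t δ r) (A : Finset (Fin k)) (Z : Fin k → ℝ) (ε : Fin k → ℚ[X]) (s : ℤ)
    {p : ℕ} (hp : p.Prime) (hpC : C₀ < p) {i j : Fin k} {a c : ℕ} (ha : a ∈ R (f i) p)
    (hc : mask A Z r p = .r j c) :
    craw f ε s (mask A Z r) p a =
      ((cR f ε s (fun b => cpt b (bigPrimes C₀ t) (mask A Z r)) (rts r) p i j a : ℤ) : ℝ) := by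
  classical
  have hTT : TT (mask A Z r) = fun b => cpt b (bigPrimes C₀ t) (mask A Z r) := by
    funext b
    exact TT_mask hD A Z b
  have hρ : ∀ q b, mask A Z r q = .r b (mask A Z r q).rt → rts (mask A Z r) q = rts r q := by
    intro q b hq
    unfold rts
    rw [(of_mask hq).1]
    rfl
  have hcr : ∀ i j a, mask A Z r p = .r j (mask A Z r p).rt →
      cR f ε s (TT (mask A Z r)) (rts (mask A Z r)) p i j a =
      cR f ε s (fun b => cpt b (bigPrimes C₀ t) (mask A Z r)) (rts r) p i j a := by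
    intro i j a hj
    rw [hTT]
    exact cR_congr ε s _ (fun b q hq => hρ q b (mem_filter.1 hq).2) (hρ p j hj) i j a
  unfold craw
  rw [prod_eq_single i, prod_eq_single j]
  · have h1 : a ∈ R (f i) p ∧ mask A Z r p = .r j (mask A Z r p).rt := ⟨ha, by rw [hc]; rfl⟩
    rw [if_pos h1, hcr i j a h1.2]
  · intro b _ hb
    rw [if_neg]
    rintro ⟨_, h⟩
    rw [hc] at h
    injection h with h1
    exact hb h1.symm
  · exact fun h => absurd (mem_univ _) h
  · intro b _ hb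
    refine prod_eq_one fun b' _ => ?_
    rw [if_neg]
    rintro ⟨h, _⟩
    exact hb (hG.root_unique hp hpC h ha)
  · exact fun h => absurd (mem_univ _) h

theorem sel_rel (hG : GB f C₀) {t : ℤ} (ht : Squarefree t) {δ : ℚ[X]} {r : ℕ → Lab k}
    (hD : LabD f C₀ t δ r) (A : Finset (Fin k)) (Z : Fin k → ℝ) {x : ℚ} (hx : x ≠ 0)
    {ε : Fin k → ℚ[X]} {γ : (i : Fin k) → AdjoinRoot (fr (f i))} (hγ : ∀ i, ¬ γ i = 0)
    (hmk : ∀ i, AdjoinRoot.mk (fr (f i)) (C x * (δ *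
      (tq (f i) (cpt i (bigPrimes C₀ t) (mask A Z r)) (rts r) *
        tq (f i) (if i ∈ A then cut Z i (bigPrimes C₀ t) r else ∅) (rts r)))) =
      AdjoinRoot.mk (fr (f i)) (ε i) * γ i ^ 2) (p : ℕ)
    (hp : mask A Z r p ∈ Lbl false (fun i p => R (f i) p) A p) (a : ℕ)
    (ha : a ∈ JJ f A p (mask A Z r p)) :
    cfA f ε (sp C₀ t) (mask A Z r)
        (fun i => if i ∈ A then kap (f i) (cut Z i (bigPrimes C₀ t) r) (rts r) else 0) A p a *
      ψψ f A p (mask A Z r p) a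
        (fun i => thue (f i) (cut Z i (bigPrimes C₀ t) r) (rts r)) = 1 := by
  classical
  set T₁ : Fin k → Finset ℕ := fun i => cpt i (bigPrimes C₀ t) (mask A Z r) with hT₁
  set T₂ : Fin k → Finset ℕ := fun i => if i ∈ A then cut Z i (bigPrimes C₀ t) r else ∅ with hT₂
  have hT₂A : ∀ {i}, i ∈ A → T₂ i = cut Z i (bigPrimes C₀ t) r := fun h => if_pos h
  have hT₂N : ∀ {i}, i ∉ A → T₂ i = ∅ := fun h => if_neg h
  have hd : ∀ i, Disjoint (T₁ i) (T₂ i) := by
    intro i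
    rw [disjoint_left]
    intro q hq hq'
    obtain ⟨_, b, h1⟩ := mem_cpt.1 hq
    by_cases hi : i ∈ A
    · rw [hT₂A hi] at hq'
      exact (of_mask h1).2 ⟨hi, (mem_cut.1 hq').2.2⟩
    · rw [hT₂N hi] at hq'
      exact notMem_empty _ hq'
  have hun : ∀ i, T₁ i ∪ T₂ i = cpt i (bigPrimes C₀ t) r := by
    intro i
    ext q
    have hq0 : q ∈ cpt i (bigPrimes C₀ t) r ↔ q ∈ bigPrimes C₀ t ∧ ∃ a, r q = .r i a := mem_cpt
    rw [hq0, mem_union]
    constructor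
    · rintro (hq | hq)
      · obtain ⟨h1, b, h2⟩ := mem_cpt.1 hq
        exact ⟨h1, b, (of_mask h2).1⟩
      · by_cases hi : i ∈ A
        · rw [hT₂A hi] at hq
          obtain ⟨h1, h2, _⟩ := mem_cut.1 hq
          exact ⟨h1, h2⟩
        · rw [hT₂N hi] at hq
          exact absurd hq (notMem_empty _)
    · rintro ⟨h1, b, h2⟩
      by_cases hi : i ∈ A ∧ Z i < (q : ℝ)
      · right
        rw [hT₂A hi.1]
        exact mem_cut.2 ⟨h1, ⟨b, h2⟩, hi.2⟩
      · left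
        exact mem_cpt.2 ⟨h1, b, (mask_r h2).2 hi⟩
  -- the label
  obtain ⟨j, hj, c, hc, hjc⟩ : ∃ j ∈ A, ∃ c ∈ R (f j) p, mask A Z r p = .r j c := by
    unfold Lbl at hp
    rw [mem_union, mem_biUnion] at hp
    rcases hp with hp | ⟨j, hj, hp⟩
    · simp at hp
    · obtain ⟨c, hc, h⟩ := mem_image.1 hp
      exact ⟨j, hj, c, hc, h.symm⟩
  have hrp : r p = .r j c := (of_mask hjc).1
  have hpb : p ∈ bigPrimes C₀ t := (hD.supp p).1 (by rw [hrp]; exact nofun)
  have hpC : C₀ < p := by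
    unfold bigPrimes at hpb
    exact (mem_filter.1 hpb).2
  have hpp : p.Prime := by
    unfold bigPrimes at hpb
    exact Nat.prime_of_mem_primeFactors (mem_filter.1 hpb).1
  have hpf : Fact p.Prime := ⟨hpp⟩
  have hpT : p ∈ T₁ j := mem_cpt.2 ⟨hpb, c, hjc⟩
  have hrts : rts r p = c := by
    unfold rts
    rw [hrp]
    rfl
  rw [hjc] at ha ⊢
  -- the root
  have ha' : a ∈ RA f A p ∧ a ≠ c := by
    unfold JJ at ha
    simp only at ha
    split_ifs at ha
    · have := (mem_erase.1 (mem_erase.1 ha).2)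
      exact ⟨this.2, this.1⟩
    · exact ⟨(mem_erase.1 ha).2, (mem_erase.1 ha).1⟩
  obtain ⟨hRA, hac⟩ := ha'
  obtain ⟨i, hi, hai⟩ : ∃ i ∈ A, a ∈ R (f i) p := by
    unfold RA at hRA
    exact mem_biUnion.1 hRA
  have hrel := fun {i : Fin k} {a : ℕ} (ha : a ∈ R (f i) p) (hne : a ≠ rts r p) =>
    raw_rel hG ht hD hd hun hx hγ hmk hpT ha hne
  -- the values of the components
  have hEV : ∀ {B : Finset (Fin k)} {i : Fin k} {a : ℕ} (w : (i : Fin k) → ℤ), i ∈ B →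
      a ∈ R (f i) p → ∏ b ∈ B, (if a ∈ R (f b) p then w b else 1) = w i := by
    intro B i a w hi ha
    rw [prod_eq_single i]
    · rw [if_pos ha]
    · intro b _ hb
      rw [if_neg]
      exact fun h => hb (hG.root_unique hpp hpC h ha)
    · exact fun h => absurd hi h
  set g : (i : Fin k) → Fin (f i).natDegree → ℤ :=
    fun i => thue (f i) (cut Z i (bigPrimes C₀ t) r) (rts r) with hg
  have hgA : ∀ {b}, b ∈ A → thue (f b) (T₂ b) (rts r) = g b := by
    intro b hb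
    rw [hT₂A hb]
  have hEVa : EV f A p a g = ev (g i) (a : ℤ) := hEV (fun b => ev (g b) (a : ℤ)) hi hai
  have h1 := hrel hai (by rw [hrts]; exact hac)
  rw [hrts, hgA hi, hgA hj] at h1
  have hcr := fun {i : Fin k} {a : ℕ} (ha : a ∈ R (f i) p) =>
    craw_eq hG hD A Z ε (sp C₀ t) hpp hpC ha hjc
  unfold cfA ψψ
  by_cases hR : RA f Aᶜ p = ∅
  · rw [if_pos hR]
    simp only
    rw [if_pos hR, if_pos hj, hEVa, hcr hai]
    have h2 : (∏ b, J(kap (f b) (T₂ b) (rts r) | p)) *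
        J(ev (g i) (a : ℤ) * ev (g j) (c : ℤ) * ∏ b, Nm (f b) (thue (f b) (T₂ b) (rts r)) | p) =
        (∏ b ∈ A, J(kap (f b) (cut Z b (bigPrimes C₀ t) r) (rts r) | p)) *
        J(ev (g i) (a : ℤ) * ev (g j) (c : ℤ) * ∏ b ∈ A, Nm (f b) (g b) | p) := by
      rw [← prod_mul_prod_compl A, ← prod_mul_prod_compl A
        (fun b => Nm (f b) (thue (f b) (T₂ b) (rts r)))]
      have e1 : ∏ b ∈ A, J(kap (f b) (T₂ b) (rts r) | p) =
          ∏ b ∈ A, J(kap (f b) (cut Z b (bigPrimes C₀ t) r) (rts r) | p) :=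
        prod_congr rfl fun b hb => by rw [hT₂A hb]
      have e2 : ∏ b ∈ A, Nm (f b) (thue (f b) (T₂ b) (rts r)) = ∏ b ∈ A, Nm (f b) (g b) :=
        prod_congr rfl fun b hb => by rw [hgA hb]
      have e3 : (∏ b ∈ Aᶜ, J(kap (f b) (T₂ b) (rts r) | p)) *
          J(∏ b ∈ Aᶜ, Nm (f b) (thue (f b) (T₂ b) (rts r)) | p) = 1 := by
        rw [jac_prod hpp, ← prod_mul_distrib]
        refine prod_eq_one fun b hb => ?_
        have hb' : b ∉ A := mem_compl.1 hb
        have hV : Valid (f b) C₀ ∅ (rts r) := fun q hq => absurd hq (notMem_empty _)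
        rw [hT₂N hb', kap_mul (hG.good b) hV, prod_empty, Nat.cast_one, mul_one,
          ← jacobiSym.mul_left, ← pow_two, jacobiSym.pow_left]
        refine jacobiSym.sq_one ?_
        have h5 : Nat.Coprime p (kap (f b) ∅ (rts r)).natAbs :=
          (Nat.Prime.coprime_iff_not_dvd hpp).2 fun h =>
            not_dvd_kap (hG.good b) hV hpC (Int.natCast_dvd.2 h)
        exact Nat.coprime_comm.1 h5
      rw [e1, e2, ← mul_assoc (ev (g i) (a : ℤ) * ev (g j) (c : ℤ)), jacobiSym.mul_left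
        (ev (g i) (a : ℤ) * ev (g j) (c : ℤ) * ∏ b ∈ A, Nm (f b) (g b))]
      linear_combination ((∏ b ∈ A, J(kap (f b) (cut Z b (bigPrimes C₀ t) r) (rts r) | p)) *
        J(ev (g i) (a : ℤ) * ev (g j) (c : ℤ) * ∏ b ∈ A, Nm (f b) (g b) | p)) * e3
    rw [h2] at h1
    have e4 : ∏ b ∈ A, ((J((if b ∈ A then kap (f b) (cut Z b (bigPrimes C₀ t) r) (rts r) else 0) |
        p) : ℤ) : ℝ) =
        ((∏ b ∈ A, J(kap (f b) (cut Z b (bigPrimes C₀ t) r) (rts r) | p) : ℤ) : ℝ) := by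
      rw [Int.cast_prod]
      exact prod_congr rfl fun b hb => by rw [if_pos hb]
    rw [e4, mul_assoc, ← Int.cast_mul, ← Int.cast_mul, h1, Int.cast_one]
  · rw [if_neg hR]
    simp only
    rw [if_neg hR, hEVa]
    set a₀ := (RA f Aᶜ p).sup id with ha₀
    obtain ⟨i', hi', hai'⟩ : ∃ i' ∈ Aᶜ, a₀ ∈ R (f i') p := by
      obtain ⟨b, hb, hb'⟩ := exists_mem_eq_sup (RA f Aᶜ p) (nonempty_iff_ne_empty.2 hR) id
      have : a₀ ∈ RA f Aᶜ p := by
        rw [ha₀, hb']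
        exact hb
      unfold RA at this
      exact mem_biUnion.1 this
    have hi'A : i' ∉ A := mem_compl.1 hi'
    have hne : a₀ ≠ rts r p := by
      rw [hrts]
      intro h
      rw [h] at hai'
      exact hi'A (hG.root_unique hpp hpC hc hai' ▸ hj)
    have h2 := hrel hai' hne
    rw [hrts, hgA hj, hT₂N hi'A] at h2
    rw [hcr hai, hcr hai', hEV (fun b => ev (thue (f b) ∅ fun _ => 0) (a₀ : ℤ)) hi' hai']
    rw [thue_congr (f i') ∅ (rts r) (fun _ => 0) (fun q hq => absurd hq (notMem_empty _))] at h2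
    rw [jacobiSym.mul_left, jacobiSym.mul_left] at h1 h2
    set K := ∏ b, J(kap (f b) (T₂ b) (rts r) | p)
    set X₁ := J(ev (g i) (a : ℤ) | p)
    set X₂ := J(ev (thue (f i') ∅ fun _ => 0) (a₀ : ℤ) | p)
    set Y := J(ev (g j) (c : ℤ) | p)
    set W := J(∏ b, Nm (f b) (thue (f b) (T₂ b) (rts r)) | p)
    set c₁ := cR f ε (sp C₀ t) T₁ (rts r) p i j a
    set c₂ := cR f ε (sp C₀ t) T₁ (rts r) p i' j a₀
    have h3 : IsUnit (K * Y * W) := by
      refine IsUnit.of_mul_eq_one (c₁ * X₁) ?_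
      linear_combination h1
    have h4 : (K * Y * W) ^ 2 = 1 := by
      rcases Int.isUnit_iff.1 h3 with h | h <;> rw [h] <;> norm_num
    have h5 : c₁ * c₂ * X₂ * X₁ = 1 := by
      have h6 : (c₁ * (K * (X₁ * Y * W))) * (c₂ * (K * (X₂ * Y * W))) = 1 := by
        rw [h1, h2, one_mul]
      linear_combination h6 - (c₁ * c₂ * X₂ * X₁) * h4
    rw [← Int.cast_mul, ← Int.cast_mul, ← Int.cast_mul]
    rw [h5, Int.cast_one]

end Stoll308.TW
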