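import Pool.Agent.Work.MP_308fa9_nt.TW.ABas
import Pool.Agent.Work.MP_308fa9_nt.Gen.Euler

set_option autoImplicit false

/-!
The weights, and simple properties of the characters.
-/

namespace Stoll308.TW

open Finset Polynomial Stoll308.Gen NumberTheorySymbols

variable {k : ℕ} {f : Fin k → ℤ[X]} {C₀ : ℕ}

private lemma mem_lbl {A : Finset (Fin k)} {p : ℕ} {ℓ : Lab k} :
    ℓ ∈ Lbl false (fun i p => R (f i) p) A p ↔ ∃ i ∈ A, ∃ a ∈ R (f i) p, ℓ = .r i a := by
  unfold Lbl
  simp only [Bool.false_eq_true, if_false, empty_union, mem_biUnion, mem_image]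
  constructor
  · rintro ⟨i, hi, a, ha, rfl⟩
    exact ⟨i, hi, a, ha, rfl⟩
  · rintro ⟨i, hi, a, ha, rfl⟩
    exact ⟨i, hi, a, ha, rfl⟩

private lemma card_lbl (hG : GB f C₀) (A : Finset (Fin k)) {p : ℕ} (hp : p.Prime)
    (hpC : C₀ < p) :
    (Lbl false (fun i p => R (f i) p) A p).card ≤ (RA f A p).card := by
  rw [hG.card_RA hp hpC]
  unfold Lbl
  simp only [Bool.false_eq_true, if_false, empty_union]
  refine card_biUnion_le.trans ?_
  exact sum_le_sum fun i _ => card_image_le

/-- The special case. -/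
private def Spc (f : Fin k → ℤ[X]) (A : Finset (Fin k)) (p : ℕ) : Prop :=
  RA f Aᶜ p = ∅ ∧ (RA f A p).card = ∑ i ∈ A, (f i).natDegree ∧
    Even (∑ i ∈ A, (f i).natDegree)

private lemma card_JJ {A : Finset (Fin k)} {p : ℕ} (i : Fin k) (a : ℕ) (m : ℕ)
    (hm : m + 2 = (RA f A p).card ∨ (m + 1 = (RA f A p).card ∧ ¬ Spc f A p)) :
    m ≤ (JJ f A p (.r i a)).card := by
  have h1 := Finset.pred_card_le_card_erase (s := RA f A p) (a := a)
  have h2 := Finset.pred_card_le_card_erase (s := (RA f A p).erase a)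
    (a := ((RA f A p).erase a).sup id)
  unfold JJ
  dsimp only
  split_ifs with h
  · rcases hm with hm | hm
    · omega
    · exact absurd h hm.2
  · rcases hm with hm | hm <;> omega

private lemma wA_bound (hG : GB f C₀) (A : Finset (Fin k)) {p : ℕ} (hp : p.Prime)
    (hpC : C₀ < p) (m : ℕ)
    (hm : m + 2 = (RA f A p).card ∨ (m + 1 = (RA f A p).card ∧ ¬ Spc f A p)) :
    wA f A p ≤ ((RA f A p).card : ℝ) * (1 / 2) ^ m := by
  unfold wA
  have h1 : ∀ ℓ ∈ Lbl false (fun i p => R (f i) p) A p,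
      (1 / 2 : ℝ) ^ (JJ f A p ℓ).card ≤ (1 / 2) ^ m := by
    intro ℓ hℓ
    obtain ⟨i, -, a, -, rfl⟩ := mem_lbl.1 hℓ
    exact pow_le_pow_of_le_one (by norm_num) (by norm_num) (card_JJ i a m hm)
  refine (sum_le_card_nsmul _ _ _ h1).trans ?_
  rw [nsmul_eq_mul]
  refine mul_le_mul_of_nonneg_right ?_ (by positivity)
  exact_mod_cast card_lbl hG A hp hpC

private lemma wA_zero (hG : GB f C₀) (A : Finset (Fin k)) {p : ℕ} (hp : p.Prime)
    (hpC : C₀ < p) (h : (RA f A p).card = 0) : wA f A p = 0 := by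
  have h1 := card_lbl hG A hp hpC
  rw [h] at h1
  have h2 : Lbl false (fun i p => R (f i) p) A p = ∅ := card_eq_zero.1 (by omega)
  unfold wA
  rw [h2, sum_empty]

private lemma four_bound (n : ℕ) (hn : 4 ≤ n) : (n : ℝ) * (1 / 2) ^ (n - 2) ≤ 1 := by
  induction n, hn using Nat.le_induction with
  | base => norm_num
  | succ n hn ih =>
    have e : n + 1 - 2 = (n - 2) + 1 := by omega
    have hn' : (4 : ℝ) ≤ n := by exact_mod_cast hn
    have h0 : (0 : ℝ) < (1 / 2) ^ (n - 2) := by positivity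
    rw [e, pow_succ]
    push_cast
    nlinarith

private lemma three_bound (n : ℕ) (hn : 3 ≤ n) : (n : ℝ) * (1 / 2) ^ (n - 1) ≤ 3 / 4 := by
  induction n, hn using Nat.le_induction with
  | base => norm_num
  | succ n hn ih =>
    have e : n + 1 - 1 = (n - 1) + 1 := by omega
    have hn' : (3 : ℝ) ≤ n := by exact_mod_cast hn
    have h0 : (0 : ℝ) < (1 / 2) ^ (n - 1) := by positivity
    rw [e, pow_succ]
    push_cast
    nlinarith

theorem wA_le (hG : GB f C₀) (A : Finset (Fin k)) (hA : 3 ≤ ∑ i ∈ A, (f i).natDegree) {p : ℕ}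
    (hp : p.Prime) (hpC : C₀ < p) :
    wA f A p ≤ if (R (FF f) p).Nonempty then 1 else 0 := by
  classical
  by_cases hr : (RA f A p).card = 0
  · rw [wA_zero hG A hp hpC hr]
    split_ifs <;> norm_num
  · have hne : (R (FF f) p).Nonempty := by
      obtain ⟨a, ha⟩ := card_pos.1 (Nat.pos_of_ne_zero hr)
      unfold RA at ha
      rw [mem_biUnion] at ha
      obtain ⟨i, -, hi⟩ := ha
      exact ⟨a, (hG.mem_R hp).2 ⟨i, hi⟩⟩
    rw [if_pos hne]
    by_cases hs : Spc f A p
    · obtain ⟨-, h2, h3⟩ := hs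
      have h6 : 4 ≤ (RA f A p).card := by
        rw [h2]
        obtain ⟨m, hm⟩ := h3
        omega
      exact (wA_bound hG A hp hpC ((RA f A p).card - 2) (Or.inl (by omega))).trans
        (four_bound _ h6)
    · exact (wA_bound hG A hp hpC ((RA f A p).card - 1) (Or.inr ⟨by omega, hs⟩)).trans
        (n_pow_bound _ (by omega))

private lemma card_quad (hG : GB f C₀) {i : Fin k} (hi : (f i).natDegree = 2) {p : ℕ}
    (hp : p.Prime) (hpC : C₀ < p) (hne : (R (f i) p).Nonempty) : (R (f i) p).card = 2 := by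
  classical
  have : Fact p.Prime := ⟨hp⟩
  obtain ⟨a, ha⟩ := hne
  have hm : (fp (f i) p).Monic := (hG.monic i).map _
  have hd : (fp (f i) p).natDegree = 2 := by
    rw [← hi]
    exact (hG.monic i).natDegree_map _
  have hs : (fp (f i) p).Splits := Splits.of_natDegree_eq_two hd (Gen.mem_R.1 ha).2
  have hc : (fp (f i) p).roots.card = 2 := by
    rw [← hd]
    exact (splits_iff_card_roots.1 hs)
  have hnd : (fp (f i) p).roots.Nodup := nodup_roots ((hG.good i).sep p hp hpC)
  have h1 : (fp (f i) p).roots.toFinset.card ≤ (R (f i) p).card := by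
    apply card_le_card_of_injOn ZMod.val
    · intro x hx
      simp only [mem_coe, Multiset.mem_toFinset] at hx
      rw [mem_roots hm.ne_zero] at hx
      simp only [mem_coe]
      rw [Gen.mem_R]
      refine ⟨ZMod.val_lt x, ?_⟩
      rw [ZMod.natCast_zmod_val]
      exact hx
    · intro x _ y _ hxy
      exact ZMod.val_injective p hxy
  rw [Multiset.toFinset_card_of_nodup hnd, hc] at h1
  have h2 := hG.card_R_le hp i
  omega

/-- A single quadratic component: the weight is `2 - 1` if `q` splits and another component has a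
root, `2` if `q` splits and no other component has a root, `0` otherwise. -/
theorem wA_quad (hG : GB f C₀) {i : Fin k} (hi : (f i).natDegree = 2) {p : ℕ} (hp : p.Prime)
    (hpC : C₀ < p) : wA f {i} p =
      if (R (f i) p).Nonempty then (if RA f {i}ᶜ p = ∅ then 2 else 1) else 0 := by
  classical
  have h1 : Lbl false (fun i p => R (f i) p) {i} p = (R (f i) p).image (.r i) := by
    unfold Lbl
    simp only [Bool.false_eq_true, if_false, empty_union, singleton_biUnion]
  have h2 : wA f {i} p = ∑ a ∈ R (f i) p, (1 / 2 : ℝ) ^ (JJ f {i} p (.r i a)).card := by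
    unfold wA
    rw [h1, sum_image]
    intro a _ b _ hab
    injection hab
  rw [h2]
  by_cases hne : (R (f i) p).Nonempty
  · rw [if_pos hne]
    have hc := card_quad hG hi hp hpC hne
    have hRA : RA f {i} p = R (f i) p := by
      unfold RA
      rw [singleton_biUnion]
    have hev : Even (∑ j ∈ {i}, (f j).natDegree) := by
      rw [sum_singleton, hi]
      exact even_two
    have hsum : (RA f {i} p).card = ∑ j ∈ {i}, (f j).natDegree := by
      rw [sum_singleton, hi, hRA, hc]
    have h3 : ∀ a ∈ R (f i) p, (JJ f {i} p (.r i a)).card =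
        if RA f {i}ᶜ p = ∅ then 0 else 1 := by
      intro a ha
      have h4 : ((RA f {i} p).erase a).card = 1 := by
        rw [hRA, card_erase_of_mem ha, hc]
      unfold JJ
      dsimp only
      by_cases h5 : RA f {i}ᶜ p = ∅
      · rw [if_pos ⟨h5, hsum, hev⟩, if_pos h5]
        obtain ⟨b, hb⟩ := card_eq_one.1 h4
        rw [hb, sup_singleton, id, erase_singleton, card_empty]
      · rw [if_neg (fun h => h5 h.1), if_neg h5, h4]
    rw [sum_congr rfl fun a ha => by rw [h3 a ha], sum_const, hc]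
    split_ifs <;> norm_num
  · rw [if_neg hne, not_nonempty_iff_eq_empty.1 hne, sum_empty]

/-- The primes modulo which all the components split completely. -/
theorem wA_split (hG : GB f C₀) {A : Finset (Fin k)} (hA : 3 ≤ ∑ i ∈ A, (f i).natDegree) {p : ℕ}
    (hp : p.Prime) (hpC : C₀ < p) (hs : (R (FF f) p).card = (FF f).natDegree) :
    (R (FF f) p).Nonempty ∧ wA f A p ≤ 7 / 8 := by
  classical
  rw [hG.card_RF hp hpC, natDegree_FF hG.monic] at hs
  have h1 : ∀ i ∈ (univ : Finset (Fin k)), (R (f i) p).card = (f i).natDegree :=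
    (sum_eq_sum_iff_of_le fun i _ => hG.card_R_le hp i).1 hs
  have h6 := hG.six
  refine ⟨?_, ?_⟩
  · rw [← card_pos, hG.card_RF hp hpC, hs]
    omega
  · have hr : (RA f A p).card = ∑ i ∈ A, (f i).natDegree := by
      rw [hG.card_RA hp hpC]
      exact sum_congr rfl fun i _ => h1 i (mem_univ i)
    by_cases hAc : RA f Aᶜ p = ∅
    · have hAu : A = univ := by
        rw [eq_univ_iff_forall]
        intro i
        by_contra hi
        have h2 : R (f i) p = ∅ := by
          rw [← subset_empty, ← hAc]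
          unfold RA
          exact subset_biUnion_of_mem (fun i => R (f i) p) (mem_compl.2 hi)
        have h3 := h1 i (mem_univ i)
        rw [h2, card_empty] at h3
        have := hG.deg i
        omega
      have h4 : 6 ≤ (RA f A p).card := by
        rw [hr, hAu]
        exact h6
      have h5 := (wA_bound hG A hp hpC ((RA f A p).card - 2) (Or.inl (by omega))).trans
        (two_pow_bound h4)
      linarith
    · have h7 : 3 ≤ (RA f A p).card := by omega
      have h8 := (wA_bound hG A hp hpC ((RA f A p).card - 1)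
        (Or.inr ⟨by omega, fun h => hAc h.1⟩)).trans (three_bound _ h7)
      linarith

private lemma abs_jac (x : ℤ) (p : ℕ) : |((J(x | p) : ℤ) : ℝ)| ≤ 1 := by
  rcases jacobiSym.trichotomy x p with h | h | h <;> rw [h] <;> norm_num

theorem ψψ_le (A : Finset (Fin k)) (p : ℕ) (ℓ : Lab k) (a : ℕ)
    (g : (i : Fin k) → Fin (f i).natDegree → ℤ) : |ψψ f A p ℓ a g| ≤ 1 := by
  cases ℓ with
  | o => unfold ψψ; norm_num
  | u => unfold ψψ; norm_num
  | r j ρ =>
    unfold ψψ
    dsimp only
    split_ifs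
    · exact abs_jac _ _
    · exact abs_jac _ _
    · exact abs_jac _ _

private lemma jac_congr {p : ℕ} {x y : ℤ} (h : ((x : ℤ) : ZMod p) = ((y : ℤ) : ZMod p)) :
    J(x | p) = J(y | p) := by
  rw [ZMod.intCast_eq_intCast_iff] at h
  rw [jacobiSym.mod_left, h, ← jacobiSym.mod_left]

private lemma fun_cast {p n : ℕ} {g g' : Fin n → ℤ} (h : ∀ x, (p : ℤ) ∣ g x - g' x) :
    (fun i => ((g i : ℤ) : ZMod p)) = fun i => ((g' i : ℤ) : ZMod p) := by
  funext i
  have := (ZMod.intCast_zmod_eq_zero_iff_dvd (g i - g' i) p).2 (h i)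
  rw [Int.cast_sub, sub_eq_zero] at this
  exact this

private lemma EV_cast (A : Finset (Fin k)) (p a : ℕ)
    (g g' : (i : Fin k) → Fin (f i).natDegree → ℤ)
    (h : ∀ i ∈ A, ∀ x, (p : ℤ) ∣ g i x - g' i x) :
    ((EV f A p a g : ℤ) : ZMod p) = ((EV f A p a g' : ℤ) : ZMod p) := by
  unfold EV
  rw [Int.cast_prod, Int.cast_prod]
  refine prod_congr rfl fun i hi => ?_
  split_ifs
  · rw [ev_cast, ev_cast, fun_cast (h i hi)]
  · rfl

theorem ψψ_per (A : Finset (Fin k)) (p : ℕ) (ℓ : Lab k) (a : ℕ)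
    (g g' : (i : Fin k) → Fin (f i).natDegree → ℤ)
    (h : ∀ i ∈ A, ∀ x, (p : ℤ) ∣ g i x - g' i x) : ψψ f A p ℓ a g = ψψ f A p ℓ a g' := by
  cases ℓ with
  | o => rfl
  | u => rfl
  | r j ρ =>
    have h1 := EV_cast A p a g g' h
    have h2 : (((if j ∈ A then ev (g j) (ρ : ℤ) else 1 : ℤ)) : ZMod p) =
        (((if j ∈ A then ev (g' j) (ρ : ℤ) else 1 : ℤ)) : ZMod p) := by
      split_ifs with hj
      · rw [ev_cast, ev_cast, fun_cast (h j hj)]
      · rfl
    have h3 : (((∏ b ∈ A, Nm (f b) (g b) : ℤ)) : ZMod p) =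
        (((∏ b ∈ A, Nm (f b) (g' b) : ℤ)) : ZMod p) := by
      rw [Int.cast_prod, Int.cast_prod]
      refine prod_congr rfl fun i hi => ?_
      rw [Nm_cast, Nm_cast, fun_cast (h i hi)]
    unfold ψψ
    dsimp only
    by_cases hc : RA f Aᶜ p = ∅
    · rw [if_pos hc, if_pos hc]
      congr 1
      refine jac_congr ?_
      rw [Int.cast_mul, Int.cast_mul, h1, h2, h3, ← Int.cast_mul, ← Int.cast_mul]
    · rw [if_neg hc, if_neg hc]
      congr 1
      exact jac_congr h1

private lemma craw_abs (ε : Fin k → ℚ[X]) (s : ℤ) (r : ℕ → Lab k) (p a : ℕ) :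
    |craw f ε s r p a| ≤ 1 := by
  unfold craw
  rw [abs_prod]
  refine prod_le_one (fun _ _ => abs_nonneg _) fun i _ => ?_
  rw [abs_prod]
  refine prod_le_one (fun _ _ => abs_nonneg _) fun j _ => ?_
  split_ifs
  · unfold cR
    split_ifs <;> norm_num
  · norm_num

theorem cfA_le (ε : Fin k → ℚ[X]) (s : ℤ) (r : ℕ → Lab k) (κ : Fin k → ℤ)
    (A : Finset (Fin k)) (p a : ℕ) : |cfA f ε s r κ A p a| ≤ 1 := by
  unfold cfA
  split_ifs
  · rw [abs_mul]
    refine mul_le_one₀ (craw_abs ε s r p a) (abs_nonneg _) ?_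
    rw [abs_prod]
    exact prod_le_one (fun _ _ => abs_nonneg _) fun b _ => abs_jac _ _
  · rw [abs_mul, abs_mul]
    exact mul_le_one₀ (mul_le_one₀ (craw_abs ε s r p a) (abs_nonneg _) (craw_abs ε s r p _))
      (abs_nonneg _) (abs_jac _ _)

end Stoll308.TW
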