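import Pool.Agent.Work.MP_308fa9_nt.TW.ALab
import Pool.Agent.Work.MP_308fa9_nt.TW.ACom
import Pool.Agent.Work.MP_308fa9_nt.TW.ASel
import Pool.Agent.Work.MP_308fa9_nt.TW.ANon
import Pool.Agent.Work.MP_308fa9_nt.TW.AWt

set_option autoImplicit false

/-!
The system of characters of the twists of `y² = f₁(x) ⋯ f_k(x)` (as `Gen.exists_relData`).
-/

namespace Stoll308.TW

open Finset Polynomial Stoll308.Gen NumberTheorySymbols

variable {k : ℕ} {f : Fin k → ℤ[X]} {C₀ : ℕ}

/-- The primes of the masked label function and the cut ones. -/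
private lemma cpt_mask_union (A : Finset (Fin k)) (Z : Fin k → ℝ) (i : Fin k) (S : Finset ℕ)
    (r : ℕ → Lab k) :
    Disjoint (cpt i S (mask A Z r)) (if i ∈ A then cut Z i S r else ∅) ∧
      cpt i S (mask A Z r) ∪ (if i ∈ A then cut Z i S r else ∅) = cpt i S r := by
  classical
  have hm : ∀ q : ℕ, mask A Z r q = .r i (mask A Z r q).rt ↔
      (r q = .r i (r q).rt ∧ ¬ (i ∈ A ∧ Z i < (q : ℝ))) := by
    intro q
    unfold mask
    rcases hq : r q with _ | _ | ⟨j, b⟩
    · simp
    · simp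
    · simp only
      by_cases hj : j ∈ A ∧ Z j < (q : ℝ)
      · rw [if_pos hj]
        constructor
        · intro h
          cases h
        · rintro ⟨h1, h2⟩
          have h3 := (Lab.r.inj h1).1
          subst h3
          exact absurd hj h2
      · rw [if_neg hj]
        constructor
        · intro h
          have h3 := (Lab.r.inj h).1
          subst h3
          exact ⟨h, hj⟩
        · rintro ⟨h1, _⟩
          exact h1
  have h1 : ∀ q, q ∈ cpt i S (mask A Z r) ↔ q ∈ S ∧ (r q = .r i (r q).rt ∧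
      ¬ (i ∈ A ∧ Z i < (q : ℝ))) := by
    intro q
    unfold cpt
    rw [mem_filter, hm]
  have h2 : ∀ q, q ∈ (if i ∈ A then cut Z i S r else ∅) ↔ q ∈ S ∧ (r q = .r i (r q).rt ∧
      (i ∈ A ∧ Z i < (q : ℝ))) := by
    intro q
    by_cases hi : i ∈ A
    · rw [if_pos hi]
      unfold cut cpt
      rw [mem_filter, mem_filter]
      tauto
    · rw [if_neg hi]
      constructor
      · intro h
        exact absurd h (notMem_empty _)
      · rintro ⟨_, _, h, _⟩
        exact absurd h hi
  constructor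
  · rw [disjoint_left]
    intro q hq hq'
    exact ((h1 q).1 hq).2.2 ((h2 q).1 hq').2.2
  · ext q
    rw [mem_union, h1, h2]
    unfold cpt
    rw [mem_filter]
    tauto

theorem exists_sys (hG : GB f C₀) : ∃ D : Sys k, D.C₀ = C₀ ∧ D.inf = false ∧
    (∀ i p, D.Rt i p = R (f i) p) ∧ (∀ A p, D.wt A p = wA f A p) ∧
    ∀ t : ℤ, Squarefree t → Gen.Sel (FF f) t → ∃ r, D.Dt t r := by
  classical
  have hirr' : ∀ i, Fact (Irreducible (fr (f i))) := fun i => ⟨fr_irr (hG.good i)⟩
  obtain ⟨S, hS, hcom⟩ := exists_common hG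
  obtain ⟨P, hP⟩ : ∃ P : Finset ((i : Fin k) → KK (f i)),
      P = Fintype.piFinset fun i => (hS i).toFinset := ⟨_, rfl⟩
  have hlift : ∀ i, ∀ z : KK (f i), ∃ q : ℚ[X], AdjoinRoot.mk (fr (f i)) q = z :=
    fun i => AdjoinRoot.mk_surjective
  choose lf hlf using hlift
  let en := P.equivFin
  have hKle : C₀ ≤ C₀ + ∑ i, (f i).natDegree + 1 := by omega
  let D : Sys k :=
    { n := fun i => (f i).natDegree
      C₀ := C₀
      m := P.card
      K := C₀ + ∑ i, (f i).natDegree + 1
      inf := false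
      Rt := fun i p => R (f i) p
      g := fun i T ρ => thue (f i) T ρ
      κ := fun i T ρ => kap (f i) T ρ
      J := JJ f
      ψ := ψψ f
      cf := fun e s r κ A p c =>
        cfA f (fun i => lf i (((en.symm e : P) : (i : Fin k) → KK (f i)) i)) s r κ A p c
      n_pos := fun i => (hG.good i).deg
      card_le := fun p hp hpC => by
        have h1 : ∑ i, (R (f i) p).card ≤ ∑ i, (f i).natDegree :=
          sum_le_sum fun i _ => hG.card_R_le hp i
        omega
      cf_le := fun e s r κ A p c => cfA_le _ _ _ _ _ _ _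
      ψ_le := fun A p ℓ c g => ψψ_le _ _ _ _ _
      ψ_per := fun A p ℓ c g g' h => ψψ_per _ _ _ _ _ _ h
      nontriv := fun A p ℓ hp hpC hℓ S hS hne => nontriv_A hG A p ℓ hp hpC hℓ S hS hne
      g_congr := fun i T ρ ρ' h => thue_congr _ _ _ _ h
      κ_congr := fun i T ρ ρ' h => kap_congr _ _ _ _ h
      g_le := fun i T ρ hV x => (thue_spec' (hG.good i) hV).2.1 x
      g_inj := fun i T ρ T' ρ' hV hV' h => thue_inj (hG.good i) hV hV' h
      κ_le := fun i T ρ hV => (kap_le (hG.good i) hV).trans (by exact_mod_cast hKle) }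
  refine ⟨D, rfl, rfl, fun i p => rfl, fun A p => rfl, fun t ht hSel => ?_⟩
  obtain ⟨δ, hδ, hloc, -⟩ := hSel
  obtain ⟨r, hD⟩ := exists_labD hG ht hloc
  have hFF : ∀ i, f i ∣ FF f := fun i => dvd_prod_of_mem _ (mem_univ i)
  have hδ0 : ∀ i, AdjoinRoot.mk (fr (f i)) δ ≠ 0 := by
    intro i h
    rw [AdjoinRoot.mk_eq_zero] at h
    have h1 : fr (f i) ∣ (FF f).map (Int.castRingHom ℚ) := Polynomial.map_dvd _ (hFF i)
    exact (fr_irr (hG.good i)).not_isUnit (hδ.isUnit_of_dvd' h h1)
  refine ⟨r, hD.supp, ?_, ?_⟩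
  · intro p
    by_cases hp : p ∈ bigPrimes C₀ t
    · right
      obtain ⟨j, hj, hR⟩ := hD.lab p hp
      rw [hj]
      change Lab.r j (r p).rt ∈ Lbl false (fun i p => R (f i) p) univ p
      unfold Lbl
      rw [mem_union, mem_biUnion]
      exact Or.inr ⟨j, mem_univ _, mem_image.2 ⟨_, hR, rfl⟩⟩
    · left
      by_contra h
      exact hp ((hD.supp p).1 h)
  · intro A Z
    have hd := fun i => (cpt_mask_union A Z i (bigPrimes C₀ t) r).1
    have hun := fun i => (cpt_mask_union A Z i (bigPrimes C₀ t) r).2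
    have hV : ∀ i, Valid (f i) C₀ (cpt i (bigPrimes C₀ t) r) (rts r) := valid_cpt hD
    have hV₁ : ∀ i, Valid (f i) C₀ (cpt i (bigPrimes C₀ t) (mask A Z r)) (rts r) :=
      fun i q hq => hV i q (hun i ▸ mem_union_left _ hq)
    have hV₂ : ∀ i, Valid (f i) C₀ (if i ∈ A then cut Z i (bigPrimes C₀ t) r else ∅) (rts r) :=
      fun i q hq => hV i q (hun i ▸ mem_union_right _ hq)
    obtain ⟨x, hx, hε⟩ := hcom (fun i => δ * (tq (f i) (cpt i (bigPrimes C₀ t) (mask A Z r))
        (rts r) * tq (f i) (if i ∈ A then cut Z i (bigPrimes C₀ t) r else ∅) (rts r)))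
      (fun i => by
        rw [map_mul, map_mul]
        exact mul_ne_zero (hδ0 i) (mul_ne_zero (mk_tq_ne_zero (hG.good i) (hV₁ i))
          (mk_tq_ne_zero (hG.good i) (hV₂ i))))
      (fun p hpf hpC => unit_tuple hG hD hd hun p hpC)
    choose ε hεS γ hγ hmk using hε
    have hεP : (fun i => ε i) ∈ P := by
      rw [hP, Fintype.mem_piFinset]
      intro i
      rw [Set.Finite.mem_toFinset]
      exact hεS i
    refine ⟨en ⟨fun i => ε i, hεP⟩, fun p hp c hc => ?_⟩
    have h1 : ((en.symm (en ⟨fun i => ε i, hεP⟩) : P) : (i : Fin k) → KK (f i)) = ε := by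
      rw [Equiv.symm_apply_apply]
    have h2 := sel_rel hG ht hD A Z hx (ε := fun i => lf i (ε i)) (γ := γ) (fun i => hγ i)
      (fun i => by
        rw [hlf]
        exact hmk i) p hp c hc
    change cfA f (fun i => lf i (((en.symm (en ⟨fun i => ε i, hεP⟩) : P) :
      (i : Fin k) → KK (f i)) i)) (sp C₀ t) (mask A Z r) _ A p c * _ = 1
    rw [h1]
    exact h2

end Stoll308.TW
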