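import Pool.Agent.Work.MP_308fa9_nt.TW.ABas

set_option autoImplicit false

/-!
The unit statement at all good primes, with a common exponent for all components (as
`Gen.unit_mem`, `Gen.unit_all`).
-/

namespace Stoll308.TW

open Finset Polynomial Stoll308.Gen NumberTheorySymbols

variable {k : ℕ} {f : Fin k → ℤ[X]} {C₀ : ℕ}

theorem valid_cpt {t : ℤ} {δ : ℚ[X]} {r : ℕ → Lab k} (hD : LabD f C₀ t δ r) (i : Fin k) :
    Valid (f i) C₀ (cpt i (bigPrimes C₀ t) r) (rts r) := by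
  intro p hp
  unfold cpt at hp
  rw [mem_filter] at hp
  obtain ⟨h1, h2⟩ := hp
  obtain ⟨j, h3, h4⟩ := hD.lab p h1
  have h5 := h2.symm.trans h3
  injection h5 with h6
  subst h6
  unfold bigPrimes at h1
  rw [mem_filter] at h1
  exact ⟨Nat.prime_of_mem_primeFactors h1.1, h1.2, h4⟩

/-- The local statement at a prime of `T`, with the exponent `e`. -/
private lemma unit_mem_e {g : ℤ[X]} (hG : GoodBound g C₀) {p : ℕ} [hp : Fact p.Prime]
    (hpC : C₀ < p) {T T' : Finset ℕ} {ρ : ℕ → ℕ}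
    (hV : Valid g C₀ T ρ) (hV' : Valid g C₀ T' ρ) (hpT : p ∈ T) (hpT' : p ∉ T') {α : ℤ_[p]}
    (hα : Lift g p (ρ p) α) {δ : ℚ[X]} {e : ℤ}
    (h : ∀ (q : ℤ_[p][X]) (κ : ℤ_[p]), q.Monic → fz g p = (X - C α) * q → κ * q.eval α = 1 →
        ∃ w : AdjoinRoot (fq g p), ∃ u, UU g p u ∧
          mkq g p (C ((p : ℚ_[p]) ^ e)) * mkq g p (dq δ p) * w ^ 2 = PP g q κ (p : ℚ_[p]) * u) :
    ∃ w : AdjoinRoot (fq g p),
      UU g p (mkq g p (C ((p : ℚ_[p]) ^ e)) * mkq g p (dq (δ * (tq g T ρ * tq g T' ρ)) p) * w ^ 2) := by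
  obtain ⟨q, hqm, hq⟩ := exists_factor hG.monic hα.1
  obtain ⟨κ, hκ⟩ := (factor_eval_unit (hG.sep p hp.out hpC) hq (x := α) rfl).exists_left_inv
  obtain ⟨w, u, hu, h1⟩ := h q κ hqm hq hκ
  obtain ⟨u', hu', h2⟩ := PP_tq hG hV hpT hα hqm hq hκ
  have h3 := UU_tq hG hV' hpC hpT'
  refine ⟨w * PP g q κ ((p : ℚ_[p])⁻¹), ?_⟩
  have h4 : PP g q κ (p : ℚ_[p]) * PP g q κ ((p : ℚ_[p])⁻¹) = 1 := by
    rw [PP_mul hq hκ, mul_inv_cancel₀ p_ne_zero_q, PP_one]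
  have h5 : mkq g p (C ((p : ℚ_[p]) ^ e)) * mkq g p (dq (δ * (tq g T ρ * tq g T' ρ)) p) *
      (w * PP g q κ ((p : ℚ_[p])⁻¹)) ^ 2 = (u * u') * mkq g p (dq (tq g T' ρ) p) := by
    have h6 : dq (δ * (tq g T ρ * tq g T' ρ)) p =
        dq δ p * (dq (tq g T ρ) p * dq (tq g T' ρ) p) := by
      unfold dq
      rw [Polynomial.map_mul, Polynomial.map_mul]
    rw [h6, map_mul, map_mul, h2]
    linear_combination (PP g q κ (p : ℚ_[p]) * u' * mkq g p (dq (tq g T' ρ) p) *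
      PP g q κ ((p : ℚ_[p])⁻¹) ^ 2) * h1 + (u * u' * mkq g p (dq (tq g T' ρ) p) *
      (PP g q κ (p : ℚ_[p]) * PP g q κ ((p : ℚ_[p])⁻¹) + 1)) * h4
  rw [h5]
  exact (hu.mul hu').mul h3

theorem unit_tuple (hG : GB f C₀) {t : ℤ} {δ : ℚ[X]} {r : ℕ → Lab k} (hD : LabD f C₀ t δ r)
    {T₁ T₂ : Fin k → Finset ℕ} (hd : ∀ i, Disjoint (T₁ i) (T₂ i))
    (hun : ∀ i, T₁ i ∪ T₂ i = cpt i (bigPrimes C₀ t) r) (p : ℕ) [hp : Fact p.Prime]
    (hpC : C₀ < p) : ∃ e : ℤ, ∀ i, ∃ w : AdjoinRoot (fq (f i) p),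
      UU (f i) p (mkq (f i) p (C ((p : ℚ_[p]) ^ e)) *
        mkq (f i) p (dq (δ * (tq (f i) (T₁ i) (rts r) * tq (f i) (T₂ i) (rts r))) p) * w ^ 2) := by
  obtain ⟨e, he⟩ := hD.unit p hpC
  refine ⟨e, fun i => ?_⟩
  have hV := valid_cpt hD i
  rw [← hun i] at hV
  have hV₁ : Valid (f i) C₀ (T₁ i) (rts r) := fun q hq => hV q (mem_union_left _ hq)
  have hV₂ : Valid (f i) C₀ (T₂ i) (rts r) := fun q hq => hV q (mem_union_right _ hq)
  have hGi := hG.good i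
  by_cases hr : r p = .r i (r p).rt
  · obtain ⟨α, hα, h⟩ := (he i).2 hr
    have hpb : p ∈ bigPrimes C₀ t := (hD.supp p).1 (by rw [hr]; exact nofun)
    have hpc : p ∈ T₁ i ∪ T₂ i := by
      rw [hun i]
      unfold cpt
      rw [mem_filter]
      exact ⟨hpb, hr⟩
    rcases mem_union.1 hpc with hp1 | hp2
    · exact unit_mem_e hGi hpC hV₁ hV₂ hp1 (fun h => disjoint_left.1 (hd i) hp1 h) hα h
    · have := unit_mem_e hGi hpC hV₂ hV₁ hp2 (fun h' => disjoint_left.1 (hd i) h' hp2) hα h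
      rwa [mul_comm (tq (f i) (T₂ i) (rts r))] at this
  · obtain ⟨w, h⟩ := (he i).1 hr
    have hpc : p ∉ T₁ i ∪ T₂ i := by
      rw [hun i]
      unfold cpt
      rw [mem_filter]
      exact fun h' => hr h'.2
    have h1 : p ∉ T₁ i := fun h => hpc (mem_union_left _ h)
    have h2 : p ∉ T₂ i := fun h => hpc (mem_union_right _ h)
    refine ⟨w, ?_⟩
    have h3 := (h.mul (UU_tq hGi hV₁ hpC h1)).mul (UU_tq hGi hV₂ hpC h2)
    have h4 : dq (δ * (tq (f i) (T₁ i) (rts r) * tq (f i) (T₂ i) (rts r))) p =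
        dq δ p * (dq (tq (f i) (T₁ i) (rts r)) p * dq (tq (f i) (T₂ i) (rts r)) p) := by
      unfold dq
      rw [Polynomial.map_mul, Polynomial.map_mul]
    rw [h4, map_mul, map_mul]
    have h5 : mkq (f i) p (C ((p : ℚ_[p]) ^ e)) * (mkq (f i) p (dq δ p) *
        (mkq (f i) p (dq (tq (f i) (T₁ i) (rts r)) p) *
          mkq (f i) p (dq (tq (f i) (T₂ i) (rts r)) p))) * w ^ 2 =
        mkq (f i) p (C ((p : ℚ_[p]) ^ e)) * mkq (f i) p (dq δ p) * w ^ 2 *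
          mkq (f i) p (dq (tq (f i) (T₁ i) (rts r)) p) *
          mkq (f i) p (dq (tq (f i) (T₂ i) (rts r)) p) := by ring
    rw [h5]
    exact h3

end Stoll308.TW
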