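import Pool.Agent.Work.MP_308fa9_nt.TW.Defs2

set_option autoImplicit false

/-!
The twists with bad level vectors: all the large primes are labelled by one component.
-/

namespace Stoll308.TW

open Finset Stoll308.Gen Polynomial

variable {k : ℕ}

namespace Sys

variable (D : Sys k)

/-- The large primes are labelled by the component `i`. -/
theorem bad_cls (hi : D.inf = false) {L : ℝ} (hL : 1 ≤ L) {Q h : ℕ} (h2 : 2 ≤ h) (hhQ : h ≤ Q)
    {μ : Fin k → ℕ} {t : ℤ} {r : ℕ → Lab k} (hC : D.Cls L Q μ t r) {i : Fin k}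
    (hj : ∀ j, j ≠ i → μ j + h ≤ Q) {p : ℕ} (hp : p ∈ bigPrimes D.C₀ t)
    (hpz : zz L Q ((Q : ℝ) - h + 1) < (p : ℝ)) : (D.Rt i p).Nonempty := by
  classical
  obtain ⟨hDt, hLev, -, -⟩ := hC
  have h3 : r p ≠ .o := (hDt.1 p).2 hp
  have h4 : r p ∈ D.Lb univ p := (hDt.2.1 p).resolve_left h3
  unfold Lb Lbl at h4
  rw [hi, if_neg (by decide), empty_union, mem_biUnion] at h4
  obtain ⟨j, _, h5⟩ := h4
  obtain ⟨a, ha, h6⟩ := mem_image.1 h5
  by_cases hji : j = i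
  · subst hji
    exact ⟨a, ha⟩
  · exfalso
    have h7 : p ∈ cpt j (bigPrimes D.C₀ t) r := by
      unfold cpt
      rw [mem_filter]
      refine ⟨hp, ?_⟩
      rw [← h6]
      rfl
    have hpos : 0 < D.XX t r j := by
      unfold XX
      exact prod_pos fun q hq =>
        (Nat.prime_of_mem_primeFactors (mem_filter.1 (mem_filter.1 hq).1).1).pos
    have h8 : p ≤ D.XX t r j := by
      refine Nat.le_of_dvd hpos ?_
      unfold XX
      exact dvd_prod_of_mem _ h7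
    have h9 := hj j hji
    obtain ⟨_, h10, _⟩ := hLev j
    have h11 : (D.XX t r j : ℝ) < zz L Q ((μ j : ℝ) + 1) := by
      rcases h10 with h10 | h10
      · exact h10
      · omega
    have h12 : zz L Q ((μ j : ℝ) + 1) ≤ zz L Q ((Q : ℝ) - h + 1) := by
      refine scale_mono hL Q ?_
      have : (μ j : ℝ) + h ≤ Q := by exact_mod_cast h9
      linarith
    have h13 : (p : ℝ) ≤ D.XX t r j := by exact_mod_cast h8
    linarith

end Sys

/-- The weights for the twists all of whose primes are root primes of `f`, and root primes of `g`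
if they are larger than `Z`. -/
noncomputable def Wb (f g : ℤ[X]) (C₀ : ℕ) (Z : ℝ) (p : ℕ) : ℝ :=
  if p ≤ C₀ then 0 else if (p : ℝ) ≤ Z then (if (R f p).Nonempty then 1 else 0)
    else (if (R g p).Nonempty then 1 else 0)

private lemma Wb_nonneg (f g : ℤ[X]) (C₀ : ℕ) (Z : ℝ) (p : ℕ) : 0 ≤ Wb f g C₀ Z p := by
  unfold Wb
  split_ifs <;> norm_num

private lemma Wb_le (f g : ℤ[X]) (C₀ : ℕ) (Z : ℝ) (p : ℕ) : Wb f g C₀ Z p ≤ 1 := by
  unfold Wb
  split_ifs <;> norm_num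

open Classical in
/-- The number of these twists is bounded by a sum of a multiplicative function. -/
theorem card_bad_le (f g : ℤ[X]) (C₀ : ℕ) : ∃ C : ℝ, 0 ≤ C ∧ ∀ (N : ℕ) (Z : ℝ),
    (((Icc (-(N : ℤ)) N).filter fun t => Squarefree t ∧
      (∀ p ∈ bigPrimes C₀ t, (R f p).Nonempty) ∧
      ∀ p ∈ bigPrimes C₀ t, Z < (p : ℝ) → (R g p).Nonempty).card : ℝ) ≤
      C * ∑ n ∈ Icc 1 N, HT.hf (Wb f g C₀ Z) n := by
  refine ⟨2 * P0 C₀ + 1, by positivity, fun N Z => ?_⟩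
  set T : Finset ℤ := (Icc (-(N : ℤ)) N).filter fun t => Squarefree t ∧
      (∀ p ∈ bigPrimes C₀ t, (R f p).Nonempty) ∧
      ∀ p ∈ bigPrimes C₀ t, Z < (p : ℝ) → (R g p).Nonempty with hT
  have h := sum_le_of_inj T (Icc (-(P0 C₀ : ℤ)) (P0 C₀) ×ˢ Icc 1 N)
    (fun t => (sp C₀ t, ∏ p ∈ bigPrimes C₀ t, p)) (by
      intro t ht
      obtain ⟨htN, hsq, _⟩ := mem_filter.1 ht
      rw [mem_product]
      refine ⟨sp_mem C₀ hsq, ?_⟩
      rw [mem_Icc]
      refine ⟨prod_big_pos C₀ t, ?_⟩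
      have h1 : (∏ p ∈ bigPrimes C₀ t, p) ≤ t.natAbs := by
        rw [natAbs_eq C₀ hsq]
        refine Nat.le_mul_of_pos_right _ ?_
        exact prod_pos fun _ hp => (Nat.prime_of_mem_primeFactors (mem_filter.1 hp).1).pos
      rw [mem_Icc] at htN
      change ∏ p ∈ bigPrimes C₀ t, p ≤ N
      omega) (by
      intro t ht t' ht' heq
      have hsq := (mem_filter.1 ht).2.1
      have hsq' := (mem_filter.1 ht').2.1
      simp only [Prod.mk.injEq] at heq
      rw [← sp_mul C₀ hsq, ← sp_mul C₀ hsq', heq.1, heq.2])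
    (fun _ => (1 : ℝ)) (fun y => HT.hf (Wb f g C₀ Z) y.2) (by
      intro t ht
      obtain ⟨_, hsq, h1, h2⟩ := mem_filter.1 ht
      have hpr : ∀ p ∈ bigPrimes C₀ t, p.Prime := fun p hp =>
        Nat.prime_of_mem_primeFactors (mem_filter.1 hp).1
      have hsqn : Squarefree (∏ p ∈ bigPrimes C₀ t, p) := by
        have h3 : (∏ p ∈ bigPrimes C₀ t, p) ∣ t.natAbs := Dvd.intro _ (natAbs_eq C₀ hsq).symm
        exact (Int.squarefree_natAbs.2 hsq).squarefree_of_dvd h3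
      refine le_of_eq ?_
      change 1 = HT.hf (Wb f g C₀ Z) (∏ p ∈ bigPrimes C₀ t, p)
      unfold HT.hf
      rw [if_pos hsqn, Nat.primeFactors_prod hpr]
      refine (prod_eq_one fun p hp => ?_).symm
      have hpC : C₀ < p := (mem_filter.1 hp).2
      unfold Wb
      rw [if_neg (by omega)]
      by_cases hZ : (p : ℝ) ≤ Z
      · rw [if_pos hZ, if_pos (h1 p hp)]
      · rw [if_neg hZ, if_pos (h2 p hp (not_le.1 hZ))])
    (fun y _ => HT.hf_nonneg (fun p _ => Wb_nonneg f g C₀ Z p) _)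
  rw [sum_const, nsmul_eq_mul, mul_one, sum_product] at h
  have h' : (T.card : ℝ) ≤ ∑ _s ∈ Icc (-(P0 C₀ : ℤ)) (P0 C₀),
      ∑ n ∈ Icc 1 N, HT.hf (Wb f g C₀ Z) n := h
  rw [sum_const, nsmul_eq_mul, card_sp] at h'
  exact h'

open Classical in
/-- The number of the twists with bad level vectors. -/
theorem card_bad (f g : ℤ[X]) (C₀ : ℕ)
    (hM : LowMert fun p => (R f p).Nonempty ∧ ¬ (R g p).Nonempty)
    (hgf : ∀ p : ℕ, p.Prime → C₀ < p → (R g p).Nonempty → (R f p).Nonempty) (Q h : ℕ)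
    (h2 : 2 ≤ h) (hhQ : h + 1 ≤ Q) :
    ∃ (c C : ℝ) (N₀ : ℕ), 0 < c ∧ 0 ≤ C ∧ 3 ≤ N₀ ∧ ∀ N : ℕ, N₀ ≤ N →
      (((Icc (-(N : ℤ)) N).filter fun t => Squarefree t ∧
        (∀ p ∈ bigPrimes C₀ t, (R f p).Nonempty) ∧
        ∀ p ∈ bigPrimes C₀ t, zz (Real.log N) Q ((Q : ℝ) - h + 1) < (p : ℝ) →
          (R g p).Nonempty).card : ℝ) ≤
        C * (N * Real.log N ^ (-1 - c)) * ∏ p ∈ rootPrimes f N, (1 + 1 / (p : ℝ)) := by
  obtain ⟨Sp, hSp⟩ : ∃ Sp : ℕ → Prop, Sp = fun p => (R f p).Nonempty ∧ ¬ (R g p).Nonempty :=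
    ⟨_, rfl⟩
  have hSp' : ∀ p, Sp p ↔ ((R f p).Nonempty ∧ ¬ (R g p).Nonempty) := fun p => by rw [hSp]
  rw [← hSp] at hM
  obtain ⟨κ, B, hκ, hLM⟩ := hM
  obtain ⟨C₁, hC₁, hcard⟩ := card_bad_le f g C₀
  obtain ⟨L₀, hL₀, hlarge⟩ := scale_large (Q := Q) (by omega)
  have hQ0 : (0 : ℝ) < Q := by
    have : 0 < Q := by omega
    exact_mod_cast this
  have hh2 : (2 : ℝ) ≤ h := by exact_mod_cast h2
  have hhQ' : (h : ℝ) + 1 ≤ Q := by exact_mod_cast hhQ
  set c : ℝ := κ * ((h - 1) / Q) with hc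
  have hc0 : 0 < c := by
    have : 0 < ((h : ℝ) - 1) / Q := div_pos (by linarith) hQ0
    positivity
  refine ⟨c, C₁ * (3 * Real.exp (B + 1)), max 3 ⌈Real.exp L₀⌉₊, hc0, by positivity,
    le_max_left _ _, fun N hN => ?_⟩
  have hN3 : 3 ≤ N := (le_max_left _ _).trans hN
  have hNr : (3 : ℝ) ≤ N := by exact_mod_cast hN3
  have hN0 : (0 : ℝ) < N := by linarith
  have hNe : Real.exp L₀ ≤ N := (Nat.le_ceil _).trans (by exact_mod_cast (le_max_right _ _).trans hN)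
  set L : ℝ := Real.log N with hL
  have hLL : L₀ ≤ L := (Real.le_log_iff_exp_le hN0).2 hNe
  have hL1 : 1 ≤ L := hL₀.trans hLL
  have hL0 : 0 < L := by linarith
  have hexp : Real.exp L = N := Real.exp_log hN0
  set Z : ℝ := zz L Q ((Q : ℝ) - h + 1) with hZ
  refine (hcard N Z).trans ?_
  have h1 := sum_hf_le_prod (H := Wb f g C₀ Z) (K := 1) (fun p _ => Wb_nonneg f g C₀ Z p)
    (fun p _ => Wb_le f g C₀ Z p) (X := N) (by omega)
  have h3 := Gen.prod_le_exp ((Icc 1 N).filter Nat.Prime) (Wb f g C₀ Z)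
    (fun p _ => Wb_nonneg f g C₀ Z p)
  have h4 := Gen.prod_ge_exp (rootPrimes f N) (fun p hp => by
    unfold rootPrimes at hp
    rw [mem_filter] at hp
    exact hp.2.1)
  set Rp : ℝ := ∏ p ∈ rootPrimes f N, (1 + 1 / (p : ℝ)) with hRp
  have hRp0 : 0 ≤ Rp := prod_nonneg fun p _ => by positivity
  -- the lower bound for the exceptional primes
  have h5 := hLM Z (N : ℝ) (hlarge L hLL _ (by linarith)) (by
    rw [← hexp, ← scale_top L (Q := Q) (by omega)]
    exact scale_mono hL1 Q (by linarith))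
  rw [scale_loglog hL1, ← hL, Nat.floor_natCast] at h5
  have h6 : ∑ p ∈ (Icc 1 N).filter Nat.Prime, Wb f g C₀ Z p / (p : ℝ) ≤
      ∑ p ∈ rootPrimes f N, 1 / (p : ℝ) -
        ∑ p ∈ (Icc 1 N).filter (fun p : ℕ => p.Prime ∧ Z < (p : ℝ) ∧ Sp p), 1 / (p : ℝ) := by
    have e1 : ∑ p ∈ rootPrimes f N, 1 / (p : ℝ) =
        ∑ p ∈ (Icc 1 N).filter Nat.Prime, (if (R f p).Nonempty then 1 / (p : ℝ) else 0) := by
      unfold rootPrimes
      rw [← filter_filter, sum_filter _ (fun p : ℕ => 1 / (p : ℝ))]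
    have e2 : ∑ p ∈ (Icc 1 N).filter (fun p : ℕ => p.Prime ∧ Z < (p : ℝ) ∧ Sp p),
          1 / (p : ℝ) =
        ∑ p ∈ (Icc 1 N).filter Nat.Prime, (if Z < (p : ℝ) ∧ Sp p then 1 / (p : ℝ) else 0) := by
      rw [← filter_filter, sum_filter _ (fun p : ℕ => 1 / (p : ℝ))]
    rw [e1, e2, ← sum_sub_distrib]
    refine sum_le_sum fun p hp => ?_
    have hpp : p.Prime := (mem_filter.1 hp).2
    have hp0 : (0 : ℝ) ≤ 1 / p := by positivity
    unfold Wb
    by_cases hpC : p ≤ C₀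
    · rw [if_pos hpC, zero_div]
      split_ifs with g1 g2 g2
      · linarith
      · linarith
      · exact absurd ((hSp' p).1 g2.2).1 g1
      · linarith
    · rw [if_neg hpC]
      by_cases hpZ : (p : ℝ) ≤ Z
      · rw [if_pos hpZ]
        have g2 : ¬ (Z < (p : ℝ) ∧ Sp p) :=
          fun h => absurd h.1 (not_lt.2 hpZ)
        rw [if_neg g2]
        split_ifs <;> simp
      · rw [if_neg hpZ]
        by_cases g3 : (R g p).Nonempty
        · have g4 : (R f p).Nonempty := hgf p hpp (by omega) g3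
          have g2 : ¬ (Z < (p : ℝ) ∧ Sp p) :=
            fun h => ((hSp' p).1 h.2).2 g3
          rw [if_pos g3, if_pos g4, if_neg g2]
          linarith
        · rw [if_neg g3, zero_div]
          by_cases g4 : (R f p).Nonempty
          · have g2 : Z < (p : ℝ) ∧ Sp p := ⟨not_le.1 hpZ, (hSp' p).2 ⟨g4, g3⟩⟩
            rw [if_pos g4, if_pos g2]
            linarith
          · have g2 : ¬ (Z < (p : ℝ) ∧ Sp p) :=
              fun h => g4 ((hSp' p).1 h.2).1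
            rw [if_neg g4, if_neg g2]
            linarith
  have h7 : ∑ p ∈ (Icc 1 N).filter Nat.Prime, Wb f g C₀ Z p / (p : ℝ) ≤
      ∑ p ∈ rootPrimes f N, 1 / (p : ℝ) - c * Real.log L + B := by
    have e3 : κ * (Real.log L - ((Q : ℝ) - h + 1) / Q * Real.log L) = c * Real.log L := by
      rw [hc]
      field_simp
      ring
    rw [e3] at h5
    linarith
  have h8 : ∏ p ∈ (Icc 1 N).filter Nat.Prime, (1 + Wb f g C₀ Z p / (p : ℝ)) ≤
      Real.exp (B + 1) * L ^ (-c) * Rp := by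
    refine h3.trans ?_
    refine le_trans ?_ (mul_le_mul_of_nonneg_left h4 (by positivity))
    rw [Real.rpow_def_of_pos hL0, ← Real.exp_add, ← Real.exp_add]
    refine Real.exp_le_exp.2 ?_
    linarith
  have hLc : L ^ (-1 - c) = L ^ (-1 : ℝ) * L ^ (-c) := by
    rw [← Real.rpow_add hL0]
    congr 1
  have hNL : (N : ℝ) / Real.log N = N * L ^ (-1 : ℝ) := by
    rw [Real.rpow_neg_one, ← hL, div_eq_mul_inv]
  rw [hNL] at h1
  have h9 : ∑ n ∈ Icc 1 N, HT.hf (Wb f g C₀ Z) n ≤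
      3 * (N * L ^ (-1 : ℝ)) * (Real.exp (B + 1) * L ^ (-c) * Rp) := by
    refine h1.trans ?_
    have e4 : (2 * (1 : ℝ) + 1) = 3 := by norm_num
    rw [e4]
    exact mul_le_mul_of_nonneg_left h8 (by positivity)
  refine (mul_le_mul_of_nonneg_left h9 hC₁).trans (le_of_eq ?_)
  rw [hLc]
  ring

end Stoll308.TW
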