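import Pool.Agent.Work.MP_308fa9_nt.TW.FibB
import Pool.Agent.Work.MP_308fa9_nt.Gen.NatMain

set_option autoImplicit false

/-!
The main class (as `Gen.nclass_c`).
-/

namespace Stoll308.TW

open Finset Stoll308.Gen

variable {k : ℕ}

private lemma zz_mono' {L : ℝ} (hL : 1 ≤ L) (Q : ℕ) {x y : ℝ} (hxy : x ≤ y) :
    zz L Q x ≤ zz L Q y := by
  unfold zz
  refine Real.exp_le_exp.2 ?_
  refine Real.rpow_le_rpow_of_exponent_le hL ?_
  exact div_le_div_of_nonneg_right hxy (Nat.cast_nonneg _)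

private lemma zz_top' (L : ℝ) {Q : ℕ} (hQ : 0 < Q) : zz L Q Q = Real.exp L := by
  unfold zz
  rw [div_self (by exact_mod_cast hQ.ne'), Real.rpow_one]

namespace Sys

variable (D : Sys k) (N : ℕ) (L : ℝ) (Q : ℕ) (μ : Fin k → ℕ)

theorem cond_nonneg {c : (ℕ → Lab k) → ℕ → ℕ → ℝ} (hc : ∀ r p x, |c r p x| ≤ 1)
    (ri : ℕ → Lab k) (g : (i : Fin k) → Fin (D.n i) → ℤ) : 0 ≤ D.cond N L Q μ c ri g := by
  unfold cond
  refine prod_nonneg fun p _ => prod_nonneg fun x _ => ?_
  have h1 : |c ri p x * D.ψ (AA L Q μ p) p (ri p) x g| ≤ 1 := by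
    rw [abs_mul]
    exact mul_le_one₀ (hc ri p x) (abs_nonneg _) (D.ψ_le _ _ _ _ _)
  have := (abs_le.1 h1).1
  linarith

section one

variable {D L Q μ} {t : ℤ} {r : ℕ → Lab k}

/-- The primes with a label are at most the product. -/
private lemma le_XX (h : D.Cls L Q μ t r) {p : ℕ} {i : Fin k} {a : ℕ} (hp : r p = .r i a) :
    p ∈ bigPrimes D.C₀ t ∧ (p : ℝ) ≤ D.XX t r i := by
  have h1 : p ∈ bigPrimes D.C₀ t := by
    rw [← h.1.1 p, hp]
    intro hh
    cases hh
  refine ⟨h1, ?_⟩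
  have h2 : p ∈ cpt i (bigPrimes D.C₀ t) r := by
    unfold cpt
    rw [mem_filter]
    refine ⟨h1, ?_⟩
    rw [hp]
    rfl
  have h3 : p ≤ D.XX t r i := by
    unfold XX
    refine Nat.le_of_dvd (prod_pos fun q hq => ?_) (dvd_prod_of_mem (fun q => q) h2)
    exact (prime_of_big (mem_filter.1 hq).1).pos
  exact_mod_cast h3

private lemma le_exp (h : D.Cls L Q μ t r) {p : ℕ} {i : Fin k} {a : ℕ} (hp : r p = .r i a) :
    (p : ℝ) ≤ zz L Q Q := (le_XX h hp).2.trans (h.2.1 i).2.2

/-- A prime labelled by `i` is at most `zz (μ i + 1)`. -/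
private lemma not_gt (h : D.Cls L Q μ t r) {p : ℕ} {i : Fin k} {a : ℕ} (hp : r p = .r i a) :
    ¬ zz L Q ((μ i : ℝ) + 1) < (p : ℝ) := by
  intro h1
  rcases (h.2.1 i).2.1 with h2 | h2
  · have := (le_XX h hp).2
    linarith
  · have h3 := le_exp h hp
    have h4 : ((μ i : ℝ) + 1) = (Q : ℝ) := by exact_mod_cast h2
    rw [h4] at h1
    linarith

private lemma mem_AA_of_W {C₀ N : ℕ} (h : D.Cls L Q μ t r) {p : ℕ} {i : Fin k} {a : ℕ}
    (hp : r p = .r i a) (hW : p ∈ WW L Q μ C₀ N) : i ∈ AA L Q μ p := by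
  classical
  unfold AA
  rw [mem_filter]
  refine ⟨mem_univ _, ?_⟩
  unfold WW at hW
  rw [mem_filter] at hW
  rcases hW.2.2.2 i with h1 | h1
  · exact h1
  · exact absurd h1 (not_gt h hp)

private lemma mem_PX (ht : t ∈ Icc (-(N : ℤ)) N) (hsq : Squarefree t) (h : D.Cls L Q μ t r)
    {p : ℕ} (hp : r p ≠ .o) : p ∈ PX D.C₀ N :=
  big_subset D.C₀ ht hsq.ne_zero ((h.1.1 p).1 hp)

private lemma mem_SO_of_gt (ht : t ∈ Icc (-(N : ℤ)) N) (hsq : Squarefree t)
    (h : D.Cls L Q μ t r) {p : ℕ} {i : Fin k} {a : ℕ} (hp : r p = .r i a)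
    (hZ : zz L Q ((μ i : ℝ) - 1) < (p : ℝ)) : p ∈ SO L Q μ D.C₀ N := by
  unfold SO
  rw [mem_filter]
  refine ⟨mem_PX N ht hsq h (by rw [hp]; intro hh; cases hh), le_exp h hp, ?_⟩
  intro hW
  have h1 := mem_AA_of_W h hp hW
  unfold AA at h1
  exact absurd (mem_filter.1 h1).2 (not_le.2 hZ)

end one

variable {D L Q μ} {t : ℤ} {r : ℕ → Lab k}

open Classical in
/-- The restriction of a label function. -/
private noncomputable def res (S : Finset ℕ) (r : ℕ → Lab k) (p : ℕ) : Lab k :=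
  if p ∈ S then r p else .o

private lemma spt_res {S S' : Finset ℕ} (h : S' ⊆ S) (r : ℕ → Lab k) :
    spt S' (res S r) = spt S' r := by
  unfold spt
  refine filter_congr fun p hp => ?_
  unfold res
  rw [if_pos (h hp)]

/-- The cuts of the outer part. -/
private lemma cut_eq (hL : 1 ≤ L) (ht : t ∈ Icc (-(N : ℤ)) N) (hsq : Squarefree t)
    (h : D.Cls L Q μ t r) (i : Fin k) :
    cut (Zc L Q μ) i (SO L Q μ D.C₀ N) (res (SO L Q μ D.C₀ N) r) =
      cut (Zc L Q μ) i (bigPrimes D.C₀ t) r := by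
  ext p
  unfold cut cpt
  rw [mem_filter, mem_filter, mem_filter, mem_filter]
  constructor
  · rintro ⟨⟨h1, h2⟩, h3⟩
    unfold res at h2
    rw [if_pos h1] at h2
    exact ⟨⟨(le_XX h h2).1, h2⟩, h3⟩
  · rintro ⟨⟨h1, h2⟩, h3⟩
    have h4 : zz L Q ((μ i : ℝ) - 1) < (p : ℝ) := by
      refine lt_of_le_of_lt ?_ h3
      unfold Zc
      exact zz_mono' hL Q (by linarith)
    have h5 := mem_SO_of_gt N ht hsq h h2 h4
    refine ⟨⟨h5, ?_⟩, h3⟩
    unfold res
    rw [if_pos h5]
    exact h2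

private lemma cut_sub {Z : Fin k → ℝ} {i : Fin k} {S : Finset ℕ} {r : ℕ → Lab k} :
    cut Z i S r ⊆ S := by
  unfold cut cpt
  exact (filter_subset _ _).trans (filter_subset _ _)

private lemma rts_res {S : Finset ℕ} {r : ℕ → Lab k} {p : ℕ} (hp : p ∈ S) :
    rts (res S r) p = rts r p := by
  unfold rts res
  rw [if_pos hp]

/-- The size of the outer part is at least `VV`. -/
private lemma VV_le (hS : ∀ p ∈ SO L Q μ D.C₀ N, 0 < p) (ro : ℕ → Lab k) :
    D.VV N L Q μ ro ≤ ∏ p ∈ spt (SO L Q μ D.C₀ N) ro, p := by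
  classical
  have h1 : spt (SO L Q μ D.C₀ N) (mask (Big μ) (Zc L Q μ) ro) ∪
      (Big μ).biUnion (fun i => cut (Zc L Q μ) i (SO L Q μ D.C₀ N) ro) ⊆
        spt (SO L Q μ D.C₀ N) ro := by
    intro p hp
    unfold spt
    rw [mem_filter]
    rcases mem_union.1 hp with h | h
    · unfold spt at h
      rw [mem_filter] at h
      refine ⟨h.1, fun h0 => h.2 ?_⟩
      unfold mask
      rw [h0]
    · obtain ⟨i, _, hi⟩ := mem_biUnion.1 h
      refine ⟨cut_sub hi, ?_⟩
      have h2 := (mem_filter.1 (mem_filter.1 hi).1).2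
      rw [h2]
      intro hh
      cases hh
  have hd1 : Disjoint (spt (SO L Q μ D.C₀ N) (mask (Big μ) (Zc L Q μ) ro))
      ((Big μ).biUnion (fun i => cut (Zc L Q μ) i (SO L Q μ D.C₀ N) ro)) := by
    rw [disjoint_left]
    intro p hp hp'
    obtain ⟨i, hiB, hi⟩ := mem_biUnion.1 hp'
    unfold spt at hp
    rw [mem_filter] at hp
    apply hp.2
    have h2 := (mem_filter.1 (mem_filter.1 hi).1).2
    have h3 := (mem_filter.1 hi).2
    unfold mask
    rw [h2]
    simp only
    rw [if_pos ⟨hiB, h3⟩]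
  have hd2 : ∀ i ∈ Big μ, ∀ j ∈ Big μ, i ≠ j →
      Disjoint (cut (Zc L Q μ) i (SO L Q μ D.C₀ N) ro) (cut (Zc L Q μ) j (SO L Q μ D.C₀ N) ro) := by
    intro i _ j _ hij
    rw [disjoint_left]
    intro p hp hp'
    have h2 := (mem_filter.1 (mem_filter.1 hp).1).2
    have h3 := (mem_filter.1 (mem_filter.1 hp').1).2
    rw [h2] at h3
    exact hij (Lab.r.inj h3).1
  unfold VV
  rw [← prod_pow_eq_pow_sum]
  refine le_trans (Nat.mul_le_mul_left _ (prod_le_prod' (g := fun i =>
    ∏ p ∈ cut (Zc L Q μ) i (SO L Q μ D.C₀ N) ro, p) fun i _ => ?_)) ?_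
  · unfold jl
    exact Nat.pow_log_le_self 2 (prod_pos fun p hp => hS p (cut_sub hp)).ne'
  · rw [← prod_biUnion hd2, ← prod_union hd1]
    exact prod_le_prod_of_subset_of_one_le' h1 fun p hp _ => hS p (mem_filter.1 hp).1

variable (D L Q μ)

theorem cls_c (hQ : 4 ≤ Q) (hμ : ∀ i, μ i < Q) (hL : 1 ≤ L) (T : Finset ℤ)
    (hT : ∀ t ∈ T, t ∈ Icc (-(N : ℤ)) N ∧ Squarefree t ∧ ∃ r, D.Cls L Q μ t r) :
    (T.card : ℝ) ≤ ∑ s ∈ Icc (-(P0 D.C₀ : ℤ)) (P0 D.C₀), ∑ e : Finset (Fin k) → Fin D.m,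
      ∑ ro ∈ D.RO N L Q μ, ∑ ri ∈ D.RI N L Q μ, D.om N L Q μ (D.VV N L Q μ ro) ri *
        D.cond N L Q μ (D.cI N L Q μ s e ro) ri (D.go N L Q μ ro) := by
  classical
  have hom0 : ∀ V ri, 0 ≤ D.om N L Q μ V ri := by
    intro V ri
    unfold om
    split_ifs <;> norm_num
  have hcI : ∀ s e ro (r : ℕ → Lab k) p x, |D.cI N L Q μ s e ro r p x| ≤ 1 := by
    intro s e ro r p x
    unfold cI
    exact D.cf_le _ _ _ _ _ _ _
  have hterm : ∀ s e ro ri, 0 ≤ D.om N L Q μ (D.VV N L Q μ ro) ri *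
      D.cond N L Q μ (D.cI N L Q μ s e ro) ri (D.go N L Q μ ro) := fun s e ro ri =>
    mul_nonneg (hom0 _ _) (cond_nonneg D N L Q μ (hcI s e ro) _ _)
  have hPX : ∀ p ∈ PX D.C₀ N, p.Prime := by
    intro p hp
    unfold PX at hp
    exact (mem_filter.1 hp).2.1
  have hSOpos : ∀ p ∈ SO L Q μ D.C₀ N, 0 < p := by
    intro p hp
    unfold SO at hp
    exact (hPX p (mem_filter.1 hp).1).pos
  -- choices
  have hch : ∀ t ∈ T, ∃ (r : ℕ → Lab k) (e : Finset (Fin k) → Fin D.m), D.Cls L Q μ t r ∧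
      ∀ A, ∀ p, mask A (Zc L Q μ) r p ∈ D.Lb A p → ∀ c ∈ D.J A p (mask A (Zc L Q μ) r p),
        D.cf (e A) (sp D.C₀ t) (mask A (Zc L Q μ) r)
          (D.kv A (Zc L Q μ) (bigPrimes D.C₀ t) r) A p c *
          D.ψ A p (mask A (Zc L Q μ) r p) c (D.gv (Zc L Q μ) (bigPrimes D.C₀ t) r) = 1 := by
    intro t ht
    obtain ⟨h1, h2, r, hr⟩ := hT t ht
    have h3 := fun A => hr.1.2.2 A (Zc L Q μ)
    choose e he using h3
    exact ⟨r, e, hr, he⟩
  rcases T.eq_empty_or_nonempty with hTe | ⟨t₀, ht₀⟩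
  · rw [hTe, card_empty, Nat.cast_zero]
    exact sum_nonneg fun s _ => sum_nonneg fun e _ => sum_nonneg fun ro _ =>
      sum_nonneg fun ri _ => hterm s e ro ri
  have hne : Nonempty (Finset (Fin k) → Fin D.m) := by
    obtain ⟨_, e₀, _⟩ := hch t₀ ht₀
    exact ⟨e₀⟩
  have hneL : Nonempty (ℕ → Lab k) := ⟨fun _ => .o⟩
  choose! r e hcls hrel using hch
  have hjoin : ∀ t ∈ T, ∀ p, p ∉ SI L Q μ D.C₀ N → p ∉ SO L Q μ D.C₀ N → r t p = .o := by
    intro t ht p h1 h2
    obtain ⟨h3, h4, _⟩ := hT t ht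
    by_contra h5
    have h6 := mem_PX N h3 h4 (hcls t ht) h5
    by_cases h7 : p ∈ WW L Q μ D.C₀ N
    · apply h1
      unfold SI
      rw [mem_filter]
      exact ⟨h6, Or.inl h7⟩
    · by_cases h8 : (p : ℝ) ≤ zz L Q Q
      · apply h2
        unfold SO
        rw [mem_filter]
        exact ⟨h6, h8, h7⟩
      · apply h1
        unfold SI
        rw [mem_filter]
        exact ⟨h6, Or.inr (not_le.1 h8)⟩
  have hdisj : Disjoint (SO L Q μ D.C₀ N) (SI L Q μ D.C₀ N) := by
    rw [disjoint_left]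
    intro p h1 h2
    unfold SO at h1
    unfold SI at h2
    rw [mem_filter] at h1 h2
    rcases h2.2 with h | h
    · exact h1.2.2 h
    · exact absurd h1.2.1 (not_le.2 h)
  have hWsub : WW L Q μ D.C₀ N ⊆ SI L Q μ D.C₀ N := by
    intro p hp
    unfold SI
    rw [mem_filter]
    refine ⟨?_, Or.inl hp⟩
    unfold WW at hp
    exact (mem_filter.1 hp).1
  have hbig : ∀ t ∈ T, spt (SO L Q μ D.C₀ N) (r t) ∪ spt (SI L Q μ D.C₀ N) (r t) =
      bigPrimes D.C₀ t := by
    intro t ht
    ext p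
    unfold spt
    rw [mem_union, mem_filter, mem_filter, ← (hcls t ht).1.1 p]
    constructor
    · rintro (h | h)
      · exact h.2
      · exact h.2
    · intro h
      by_contra h1
      push Not at h1
      exact h (hjoin t ht p (fun h2 => h (h1.2 h2)) fun h2 => h (h1.1 h2))
  have hbigprod : ∀ t ∈ T, (∏ p ∈ spt (SO L Q μ D.C₀ N) (r t), p) *
      ∏ p ∈ spt (SI L Q μ D.C₀ N) (r t), p ≤ N := by
    intro t ht
    obtain ⟨h3, h4, _⟩ := hT t ht
    rw [← prod_union, hbig t ht]
    · exact prod_big_le h3 h4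
    · unfold spt
      exact disjoint_filter_filter hdisj
  have h := sum_le_of_inj T (Icc (-(P0 D.C₀ : ℤ)) (P0 D.C₀) ×ˢ
      ((univ : Finset (Finset (Fin k) → Fin D.m)) ×ˢ (D.RO N L Q μ ×ˢ D.RI N L Q μ)))
    (fun t => (sp D.C₀ t, e t, res (SO L Q μ D.C₀ N) (r t), res (SI L Q μ D.C₀ N) (r t))) ?_ ?_
    (fun _ => (1 : ℝ))
    (fun y => D.om N L Q μ (D.VV N L Q μ y.2.2.1) y.2.2.2 *
        D.cond N L Q μ (D.cI N L Q μ y.1 y.2.1 y.2.2.1) y.2.2.2 (D.go N L Q μ y.2.2.1)) ?_ ?_
  · rw [sum_const, nsmul_eq_mul, mul_one] at h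
    refine h.trans (le_of_eq ?_)
    rw [sum_product]
    refine sum_congr rfl fun s _ => ?_
    rw [sum_product]
    refine sum_congr rfl fun e' _ => ?_
    rw [sum_product]
  · intro t ht
    obtain ⟨h1, h2, _⟩ := hT t ht
    have hc := hcls t ht
    simp only [mem_product, mem_univ, true_and]
    refine ⟨sp_mem D.C₀ h2, ?_, ?_⟩
    · unfold RO
      rw [mem_filter]
      constructor
      · unfold RF
        rw [mem_piF]
        constructor
        · intro p hp
          unfold res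
          rw [if_pos hp, mem_insert]
          exact hc.1.2.1 p
        · intro p hp
          unfold res
          rw [if_neg hp]
      · intro i hi
        rw [cut_eq N hL h1 h2 hc i]
        refine ⟨hc.2.2.1 i hi, ?_⟩
        rw [← zz_top' L (show 0 < Q by omega)]
        refine le_trans ?_ (hc.2.1 i).2.2
        have h5 : ∏ p ∈ cut (Zc L Q μ) i (bigPrimes D.C₀ t) (r t), p ≤ D.XX t (r t) i := by
          unfold XX
          refine prod_le_prod_of_subset_of_one_le' ?_ fun p hp _ => ?_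
          · unfold cut
            exact filter_subset _ _
          · exact (prime_of_big (mem_filter.1 hp).1).one_lt.le
        exact_mod_cast h5
    · unfold RI
      rw [mem_filter]
      constructor
      · rw [mem_piF]
        constructor
        · intro p hp
          unfold res
          rw [if_pos hp, mem_insert]
          rcases hc.1.2.1 p with h0 | h0
          · exact Or.inl h0
          · right
            unfold Lb Lbl at h0 ⊢
            rw [mem_union] at h0 ⊢
            rcases h0 with h0 | h0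
            · exact Or.inl h0
            · right
              rw [mem_biUnion] at h0 ⊢
              obtain ⟨i, _, hi⟩ := h0
              obtain ⟨a, _, ha⟩ := mem_image.1 hi
              refine ⟨i, ?_, hi⟩
              have hW : p ∈ WW L Q μ D.C₀ N := by
                unfold SI at hp
                rcases (mem_filter.1 hp).2 with h6 | h6
                · exact h6
                · exact absurd (le_exp hc ha.symm) (not_le.2 h6)
              exact mem_AA_of_W hc ha.symm hW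
        · intro p hp
          unfold res
          rw [if_neg hp]
      · intro i hi
        refine le_trans ?_ (hc.2.2.2 i hi)
        rw [spt_res hWsub]
        have h5 : ∏ p ∈ (spt (WW L Q μ D.C₀ N) (r t)).filter
              (fun p : ℕ => (p : ℝ) ≤ zz L Q ((μ i : ℝ) - 1)), p ≤
            ∏ p ∈ (bigPrimes D.C₀ t).filter
              (fun p : ℕ => (p : ℝ) ≤ zz L Q ((μ i : ℝ) - 1)), p := by
          refine prod_le_prod_of_subset_of_one_le' ?_ fun p hp _ => ?_
          · intro p hp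
            rw [mem_filter] at hp ⊢
            refine ⟨?_, hp.2⟩
            rw [← (hcls t ht).1.1 p]
            exact (mem_filter.1 hp.1).2
          · exact (prime_of_big (mem_filter.1 hp).1).one_lt.le
        have h6 := (Nat.cast_le (α := ℝ)).2 h5
        rw [Nat.cast_prod, Nat.cast_prod] at h6
        exact h6
  · intro t ht t' ht' htt
    simp only [Prod.mk.injEq] at htt
    obtain ⟨e1, _, e2, e3⟩ := htt
    refine sp_inj D.C₀ (hT t ht).2.1 (hT t' ht').2.1 e1 ?_
    rw [← hbig t ht, ← hbig t' ht', ← spt_res (subset_refl _) (r t),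
      ← spt_res (subset_refl (SI L Q μ D.C₀ N)) (r t), e2, e3, spt_res (subset_refl _),
      spt_res (subset_refl _)]
  · intro t ht
    obtain ⟨h1, h2, _⟩ := hT t ht
    have hc := hcls t ht
    obtain ⟨ro, hro⟩ : ∃ ro, ro = res (SO L Q μ D.C₀ N) (r t) := ⟨_, rfl⟩
    obtain ⟨ri, hri⟩ : ∃ ri, ri = res (SI L Q μ D.C₀ N) (r t) := ⟨_, rfl⟩
    have ejoin : D.join N L Q μ ro ri = r t := by
      funext p
      unfold join
      rw [hro, hri]
      unfold res
      by_cases hp : p ∈ SI L Q μ D.C₀ N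
      · rw [if_pos hp, if_pos hp]
      · rw [if_neg hp]
        by_cases hp' : p ∈ SO L Q μ D.C₀ N
        · rw [if_pos hp']
        · rw [if_neg hp', hjoin t ht p hp hp']
    have eg : D.go N L Q μ ro = D.gv (Zc L Q μ) (bigPrimes D.C₀ t) (r t) := by
      unfold go gv
      funext i
      rw [hro, cut_eq N hL h1 h2 hc i]
      refine D.g_congr i _ _ _ fun p hp => rts_res ?_
      rw [← cut_eq N hL h1 h2 hc i] at hp
      exact cut_sub hp
    have ek : ∀ A, D.kv A (Zc L Q μ) (SO L Q μ D.C₀ N) ro =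
        D.kv A (Zc L Q μ) (bigPrimes D.C₀ t) (r t) := by
      intro A
      unfold kv
      funext i
      by_cases hi : i ∈ A
      · rw [if_pos hi, if_pos hi, hro, cut_eq N hL h1 h2 hc i]
        refine D.κ_congr i _ _ _ fun p hp => rts_res ?_
        rw [← cut_eq N hL h1 h2 hc i] at hp
        exact cut_sub hp
      · rw [if_neg hi, if_neg hi]
    have hone : D.cond N L Q μ (D.cI N L Q μ (sp D.C₀ t) (e t) ro) ri (D.go N L Q μ ro) = 1 := by
      unfold cond
      refine prod_eq_one fun p hp => prod_eq_one fun x hx => ?_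
      have hpW : p ∈ WW L Q μ D.C₀ N := (mem_filter.1 hp).1
      have hrp : ri p = r t p := by
        rw [hri]
        unfold res
        rw [if_pos (hWsub hpW)]
      have hp0 : r t p ≠ .o := by
        rw [← hrp]
        exact (mem_filter.1 hp).2
      have hmask : mask (AA L Q μ p) (Zc L Q μ) (r t) p = r t p := by
        unfold mask
        rcases hl : r t p with _ | _ | ⟨i, a⟩
        · rfl
        · rfl
        · simp only
          rw [if_neg]
          rintro ⟨h5, h6⟩
          unfold AA at h5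
          have h7 := (mem_filter.1 h5).2
          have h8 : zz L Q ((μ i : ℝ) - 1) ≤ Zc L Q μ i := by
            unfold Zc
            exact zz_mono' hL Q (by linarith)
          linarith
      have hLb : r t p ∈ D.Lb (AA L Q μ p) p := by
        rcases hc.1.2.1 p with h0 | h0
        · exact absurd h0 hp0
        · unfold Lb Lbl at h0 ⊢
          rw [mem_union] at h0 ⊢
          rcases h0 with h0 | h0
          · exact Or.inl h0
          · right
            rw [mem_biUnion] at h0 ⊢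
            obtain ⟨i, _, hi⟩ := h0
            obtain ⟨a, _, ha⟩ := mem_image.1 hi
            exact ⟨i, mem_AA_of_W hc ha.symm hpW, hi⟩
      have h9 := hrel t ht (AA L Q μ p) p (by rw [hmask]; exact hLb) x (by
        rw [hmask, ← hrp]
        exact hx)
      unfold cI
      rw [ejoin, eg, ek, hrp]
      rw [hmask] at h9
      rw [h9]
      norm_num
    have hom : D.om N L Q μ (D.VV N L Q μ ro) ri = 1 := by
      unfold om
      rw [if_pos]
      have h5 := VV_le N hSOpos (D := D) ro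
      have h6 := hbigprod t ht
      rw [hro, spt_res (subset_refl _), ← hro] at h5
      rw [hri, spt_res (subset_refl _)]
      exact (Nat.mul_le_mul_right _ h5).trans h6
    simp only
    rw [← hro, ← hri, hone, hom, mul_one]
  · intro y _
    exact hterm _ _ _ _

end Sys

end Stoll308.TW
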