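import Pool.Agent.Work.MP_308fa9_nt.TW.FibB
import Pool.Agent.Work.MP_308fa9_nt.Gen.NatMain

set_option autoImplicit false

/-!
The main term is bounded by a sum of a multiplicative function (as `Gen.main_nat`).
-/

namespace Stoll308.TW

open Finset Stoll308.Gen

variable {k : ℕ}

/-! ### Sums over label functions grouped by the support -/

private lemma sum_lab_fib {S T : Finset ℕ} (hT : T ⊆ S) (t : ℕ → Finset (Lab k))
    (ht : ∀ p, Lab.o ∉ t p) (v : ℕ → Lab k → ℝ) :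
    ∑ r ∈ (piF S (fun p => insert .o (t p)) .o).filter (fun r => spt S r = T),
      ∏ p ∈ T, v p (r p) = ∏ p ∈ T, ∑ a ∈ t p, v p a := by
  classical
  have h := sum_prod_piF S (fun p => insert .o (t p)) (Lab.o : Lab k)
    (fun p x => if x = .o then (if p ∈ T then 0 else (1 : ℝ)) else
      (if p ∈ T then v p x else 0))
  have e1 : ∑ r ∈ (piF S (fun p => insert .o (t p)) .o).filter (fun r => spt S r = T),
      ∏ p ∈ T, v p (r p) =
      ∑ r ∈ piF S (fun p => insert .o (t p)) .o, ∏ p ∈ S,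
        (if r p = .o then (if p ∈ T then 0 else (1 : ℝ)) else
        (if p ∈ T then v p (r p) else 0)) := by
    rw [sum_filter]
    refine sum_congr rfl fun r _ => ?_
    by_cases hr : spt S r = T
    · rw [if_pos hr]
      have e2 : ∏ p ∈ T, v p (r p) = ∏ p ∈ S, (if p ∈ T then v p (r p) else 1) := by
        rw [prod_ite_mem, inter_eq_right.2 hT]
      rw [e2]
      refine prod_congr rfl fun p hp => ?_
      by_cases h0 : r p = .o
      · have : p ∉ T := by
          rw [← hr]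
          exact fun h => (mem_filter.1 h).2 h0
        rw [if_neg this, if_pos h0, if_neg this]
      · have : p ∈ T := by
          rw [← hr]
          exact mem_filter.2 ⟨hp, h0⟩
        rw [if_pos this, if_neg h0, if_pos this]
    · rw [if_neg hr]
      symm
      have : ∃ p ∈ S, ¬ (r p ≠ .o ↔ p ∈ T) := by
        by_contra hcon
        push Not at hcon
        apply hr
        ext p
        unfold spt
        rw [mem_filter]
        constructor
        · rintro ⟨h1, h2⟩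
          exact (hcon p h1).1 h2
        · intro hp
          exact ⟨hT hp, (hcon p (hT hp)).2 hp⟩
      obtain ⟨p, hp, hpn⟩ := this
      refine prod_eq_zero hp ?_
      by_cases h0 : r p = .o
      · have : p ∈ T := by
          by_contra hpT
          exact hpn ⟨fun h => absurd h0 h, fun h => absurd h hpT⟩
        rw [if_pos h0, if_pos this]
      · have : p ∉ T := fun hpT => hpn ⟨fun _ => hpT, fun _ => h0⟩
        rw [if_neg h0, if_neg this]
  rw [e1, h]
  have e3 : ∏ p ∈ T, ∑ a ∈ t p, v p a =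
      ∏ p ∈ S, (if p ∈ T then ∑ a ∈ t p, v p a else 1) := by
    rw [prod_ite_mem, inter_eq_right.2 hT]
  rw [e3]
  refine prod_congr rfl fun p _ => ?_
  rw [sum_insert (ht p), if_pos rfl]
  have e4 : ∑ x ∈ t p, (if x = Lab.o then (if p ∈ T then 0 else (1 : ℝ)) else
      (if p ∈ T then v p x else 0)) = ∑ x ∈ t p, (if p ∈ T then v p x else 0) := by
    refine sum_congr rfl fun x hx => ?_
    rw [if_neg]
    rintro rfl
    exact ht p hx
  rw [e4]
  by_cases hp : p ∈ T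
  · simp only [hp, if_true, zero_add]
  · simp only [hp, if_false, sum_const_zero, add_zero]

private lemma sum_lab_spt (S : Finset ℕ) (t : ℕ → Finset (Lab k)) (ht : ∀ p, Lab.o ∉ t p)
    (F : Finset ℕ → ℝ) (v : ℕ → Lab k → ℝ) :
    ∑ r ∈ piF S (fun p => insert .o (t p)) .o, F (spt S r) * ∏ p ∈ spt S r, v p (r p) =
      ∑ T ∈ S.powerset, F T * ∏ p ∈ T, ∑ a ∈ t p, v p a := by
  classical
  rw [← sum_fiberwise_of_maps_to (s := piF S (fun p => insert .o (t p)) .o) (t := S.powerset)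
    (g := fun r => spt S r)]
  · refine sum_congr rfl fun T hT => ?_
    rw [← sum_lab_fib (mem_powerset.1 hT) t ht v, mul_sum]
    refine sum_congr rfl fun r hr => ?_
    rw [(mem_filter.1 hr).2]
  · intro r _
    exact mem_powerset.2 (filter_subset _ _)

namespace Sys

variable (D : Sys k) (N : ℕ) (L : ℝ) (Q : ℕ) (μ : Fin k → ℕ)

private lemma o_notMem (A : Finset (Fin k)) (p : ℕ) : Lab.o ∉ D.Lb A p := by
  unfold Lb Lbl
  rw [mem_union, mem_biUnion]
  rintro (h | ⟨i, _, h⟩)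
  · split_ifs at h
    · rw [mem_singleton] at h
      cases h
    · exact absurd h (notMem_empty _)
  · obtain ⟨a, _, ha⟩ := mem_image.1 h
    cases ha

private lemma card_Lb_le (A : Finset (Fin k)) {p : ℕ} (hp : p.Prime) (hp0 : D.C₀ < p) :
    (D.Lb A p).card ≤ D.K := by
  refine le_trans ?_ (D.card_le p hp hp0)
  unfold Lb Lbl
  refine (card_union_le _ _).trans ?_
  rw [add_comm]
  refine add_le_add ?_ ?_
  · refine card_biUnion_le.trans ?_
    refine (sum_le_sum fun i _ => card_image_le).trans ?_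
    exact sum_le_sum_of_subset (subset_univ _)
  · split_ifs <;> simp

theorem HH_nonneg (p : ℕ) : 0 ≤ D.HH L Q μ p := by
  unfold HH
  split_ifs
  · exact le_rfl
  · unfold wt
    exact sum_nonneg fun _ _ => by positivity
  · exact Nat.cast_nonneg _
  · exact zero_le_one
  · exact le_rfl

private lemma zz_lt {L : ℝ} (hL : 1 ≤ L) {Q : ℕ} (hQ : 0 < Q) {x y : ℝ} (hxy : x ≤ y) :
    zz L Q x ≤ zz L Q y := by
  unfold zz
  refine Real.exp_le_exp.2 ?_
  refine Real.rpow_le_rpow_of_exponent_le hL ?_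
  exact div_le_div_of_nonneg_right hxy (Nat.cast_nonneg _)

private lemma AA_empty {L : ℝ} (hL : 1 ≤ L) {Q : ℕ} (hQ : 0 < Q) {μ : Fin k → ℕ}
    (hμ : ∀ i, μ i < Q) {p : ℕ} (hp : zz L Q Q < (p : ℝ)) : AA L Q μ p = ∅ := by
  unfold AA
  rw [filter_eq_empty_iff]
  intro i _ h
  have h1 : zz L Q ((μ i : ℝ) - 1) ≤ zz L Q Q := by
    refine zz_lt hL hQ ?_
    have : (μ i : ℝ) ≤ Q := by exact_mod_cast (hμ i).le
    linarith
  linarith

theorem main_le (hQ : 0 < Q) (hμ : ∀ i, μ i < Q) (hL : 1 ≤ L) :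
    ∑ ro ∈ D.RO N L Q μ, ∑ ri ∈ D.RI N L Q μ,
      D.om N L Q μ (D.VV N L Q μ ro) ri * D.hf N L Q μ ri ≤
      ∑ n ∈ Icc 1 (2 ^ k * N), HT.hf (D.HH L Q μ) n := by
  classical
  obtain ⟨S₁, hS₁⟩ : ∃ S₁, S₁ = SI L Q μ D.C₀ N := ⟨_, rfl⟩
  obtain ⟨S₂, hS₂⟩ : ∃ S₂, S₂ = SO L Q μ D.C₀ N := ⟨_, rfl⟩
  obtain ⟨U, hU⟩ : ∃ U, U = WW L Q μ D.C₀ N := ⟨_, rfl⟩
  have hPX : ∀ p ∈ PX D.C₀ N, p.Prime ∧ D.C₀ < p := by
    intro p hp
    unfold PX at hp
    exact (mem_filter.1 hp).2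
  have hUsub : U ⊆ PX D.C₀ N := by
    rw [hU]
    unfold WW
    exact filter_subset _ _
  have hS1sub : S₁ ⊆ PX D.C₀ N := by
    rw [hS₁]
    unfold SI
    exact filter_subset _ _
  have hS2sub : S₂ ⊆ PX D.C₀ N := by
    rw [hS₂]
    unfold SO
    exact filter_subset _ _
  have hmem1 : ∀ p, p ∈ S₁ ↔ p ∈ PX D.C₀ N ∧ (p ∈ U ∨ zz L Q Q < (p : ℝ)) := by
    intro p
    rw [hS₁, hU]
    unfold SI
    rw [mem_filter]
  have hmem2 : ∀ p, p ∈ S₂ ↔ p ∈ PX D.C₀ N ∧ ((p : ℝ) ≤ zz L Q Q ∧ p ∉ U) := by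
    intro p
    rw [hS₂, hU]
    unfold SO
    rw [mem_filter]
  have hmemU : ∀ p, p ∈ U ↔ p ∈ PX D.C₀ N ∧ InW L Q μ p := by
    intro p
    rw [hU]
    unfold WW
    rw [mem_filter]
  have hU1 : U ⊆ S₁ := fun p hp => (hmem1 p).2 ⟨hUsub hp, Or.inl hp⟩
  have hdisj : Disjoint S₁ S₂ := by
    rw [disjoint_left]
    intro p h1 h2
    have h3 := (hmem1 p).1 h1
    have h4 := (hmem2 p).1 h2
    rcases h3.2 with h | h
    · exact h4.2.2 h
    · exact absurd h4.2.1 (not_le.2 h)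
  -- the values of `HH`
  have hH2 : ∀ p ∈ S₂, (((D.Lb univ p).card : ℕ) : ℝ) ≤ D.HH L Q μ p := by
    intro p hp
    have h1 := (hmem2 p).1 hp
    have h2 := hPX p h1.1
    unfold HH
    rw [if_neg (not_le.2 h2.2), if_neg (fun h => h1.2.2 ((hmemU p).2 ⟨h1.1, h⟩)),
      if_pos h1.2.1]
    exact_mod_cast card_Lb_le D _ h2.1 h2.2
  have hH1 : ∀ p ∈ S₁, ∑ ℓ ∈ D.Lb (AA L Q μ p) p,
      (if p ∈ U then (1 / 2 : ℝ) ^ (D.J (AA L Q μ p) p ℓ).card else 1) ≤ D.HH L Q μ p := by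
    intro p hp
    have h1 := (hmem1 p).1 hp
    have h2 := hPX p h1.1
    unfold HH
    rw [if_neg (not_le.2 h2.2)]
    by_cases hpU : p ∈ U
    · rw [if_pos ((hmemU p).1 hpU).2]
      unfold wt
      refine le_of_eq (sum_congr rfl fun ℓ _ => ?_)
      rw [if_pos hpU]
    · have h3 : zz L Q Q < (p : ℝ) := by
        rcases h1.2 with h | h
        · exact absurd h hpU
        · exact h
      rw [if_neg (fun h => hpU ((hmemU p).2 ⟨h1.1, h⟩)), if_neg (not_le.2 h3),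
        AA_empty hL hQ hμ h3]
      unfold Lb Lbl
      rw [biUnion_empty, union_empty]
      cases D.inf
      · simp
      · simp [hpU]
  have hmem_sptU : ∀ ri : ℕ → Lab k, spt S₁ ri ∩ U = spt U ri := by
    intro ri
    ext p
    unfold spt
    rw [mem_inter, mem_filter, mem_filter]
    constructor
    · rintro ⟨⟨_, h2⟩, h3⟩
      exact ⟨h3, h2⟩
    · rintro ⟨h1, h2⟩
      exact ⟨⟨hU1 h1, h2⟩, h1⟩
  have hhf : ∀ ri, D.hf N L Q μ ri =
      ∏ p ∈ spt S₁ ri, (if p ∈ U then (1 / 2 : ℝ) ^ (D.J (AA L Q μ p) p (ri p)).card else 1) := by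
    intro ri
    unfold hf
    rw [← hU, prod_ite_mem, hmem_sptU]
  have hhf0 : ∀ ri, 0 ≤ D.hf N L Q μ ri := by
    intro ri
    unfold hf
    exact prod_nonneg fun _ _ => by positivity
  have hom0 : ∀ V ri, 0 ≤ D.om N L Q μ V ri := by
    intro V ri
    unfold om
    split_ifs <;> norm_num
  -- relax the conditions
  have h1 : ∑ ro ∈ D.RO N L Q μ, ∑ ri ∈ D.RI N L Q μ,
      D.om N L Q μ (D.VV N L Q μ ro) ri * D.hf N L Q μ ri ≤
      ∑ ro ∈ D.RF N L Q μ, ∑ ri ∈ piF S₁ (fun p => insert .o (D.Lb (AA L Q μ p) p)) .o,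
      (if (∏ p ∈ spt S₁ ri, p) * (∏ p ∈ spt S₂ ro, p) ≤ 2 ^ k * N then (1 : ℝ) else 0) *
        D.hf N L Q μ ri := by
    refine (sum_le_sum fun ro hro => ?_).trans
      (sum_le_sum_of_subset_of_nonneg (filter_subset _ _) fun ro _ _ => sum_nonneg fun ri _ => ?_)
    · unfold RI
      rw [← hS₁]
      refine (sum_le_sum_of_subset_of_nonneg (filter_subset _ _) fun ri _ _ =>
        mul_nonneg (hom0 _ _) (hhf0 ri)).trans (sum_le_sum fun ri _ => ?_)
      refine mul_le_mul_of_nonneg_right ?_ (hhf0 ri)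
      unfold om
      rw [← hS₁]
      by_cases h : D.VV N L Q μ ro * ∏ p ∈ spt S₁ ri, p ≤ N
      · rw [if_pos h, if_pos]
        have h2 := size_ge hro
        rw [← hS₂] at h2
        calc (∏ p ∈ spt S₁ ri, p) * (∏ p ∈ spt S₂ ro, p) ≤
              (∏ p ∈ spt S₁ ri, p) * (2 ^ k * D.VV N L Q μ ro) := Nat.mul_le_mul_left _ h2
          _ = 2 ^ k * (D.VV N L Q μ ro * ∏ p ∈ spt S₁ ri, p) := by ring
          _ ≤ 2 ^ k * N := Nat.mul_le_mul_left _ h
      · rw [if_neg h]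
        split_ifs <;> norm_num
    · refine mul_nonneg ?_ (hhf0 ri)
      split_ifs <;> norm_num
  refine h1.trans ?_
  have h2 : ∀ ro ∈ D.RF N L Q μ, ∑ ri ∈ piF S₁ (fun p => insert .o (D.Lb (AA L Q μ p) p)) .o,
      (if (∏ p ∈ spt S₁ ri, p) * (∏ p ∈ spt S₂ ro, p) ≤ 2 ^ k * N then (1 : ℝ) else 0) *
        D.hf N L Q μ ri ≤
      ∑ T ∈ S₁.powerset, (if (∏ p ∈ T, p) * (∏ p ∈ spt S₂ ro, p) ≤ 2 ^ k * N then (1 : ℝ) else 0) *
        ∏ p ∈ T, D.HH L Q μ p := by
    intro ro _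
    have h3 := sum_lab_spt S₁ (fun p => D.Lb (AA L Q μ p) p) (fun p => o_notMem D _ p)
      (fun T => if (∏ p ∈ T, p) * (∏ p ∈ spt S₂ ro, p) ≤ 2 ^ k * N then (1 : ℝ) else 0)
      (fun p ℓ => if p ∈ U then (1 / 2 : ℝ) ^ (D.J (AA L Q μ p) p ℓ).card else 1)
    rw [sum_congr rfl fun ri _ => by rw [hhf ri], h3]
    refine sum_le_sum fun T hT => ?_
    refine mul_le_mul_of_nonneg_left ?_ (by split_ifs <;> norm_num)
    refine prod_le_prod (fun p _ => sum_nonneg fun _ _ => ?_) fun p hp =>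
      hH1 p (mem_powerset.1 hT hp)
    split_ifs <;> positivity
  refine (sum_le_sum h2).trans ?_
  rw [sum_comm]
  have h3 : ∀ T ∈ S₁.powerset, ∑ ro ∈ D.RF N L Q μ,
      (if (∏ p ∈ T, p) * (∏ p ∈ spt S₂ ro, p) ≤ 2 ^ k * N then (1 : ℝ) else 0) *
        ∏ p ∈ T, D.HH L Q μ p ≤
      ∑ T' ∈ S₂.powerset, (if (∏ p ∈ T, p) * (∏ p ∈ T', p) ≤ 2 ^ k * N then
        ∏ p ∈ T ∪ T', D.HH L Q μ p else 0) := by
    intro T hT
    have h4 := sum_lab_spt S₂ (fun p => D.Lb univ p) (fun p => o_notMem D _ p)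
      (fun T' => (if (∏ p ∈ T, p) * (∏ p ∈ T', p) ≤ 2 ^ k * N then (1 : ℝ) else 0) *
        ∏ p ∈ T, D.HH L Q μ p) (fun _ _ => 1)
    simp only [prod_const_one, mul_one, sum_const, nsmul_eq_mul] at h4
    unfold RF
    rw [← hS₂, h4]
    refine sum_le_sum fun T' hT' => ?_
    have hd : Disjoint T T' := disjoint_of_subset_left (mem_powerset.1 hT)
      (disjoint_of_subset_right (mem_powerset.1 hT') hdisj)
    have hT0 : 0 ≤ ∏ p ∈ T, D.HH L Q μ p := prod_nonneg fun p _ => HH_nonneg D L Q μ p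
    have e1 : ∏ p ∈ T', (((D.Lb univ p).card : ℕ) : ℝ) ≤ ∏ p ∈ T', D.HH L Q μ p :=
      prod_le_prod (fun p _ => Nat.cast_nonneg _) fun p hp => hH2 p (mem_powerset.1 hT' hp)
    rw [prod_union hd]
    split_ifs
    · rw [one_mul]
      exact mul_le_mul_of_nonneg_left e1 hT0
    · rw [zero_mul, zero_mul]
  refine (sum_le_sum h3).trans ?_
  rw [← sum_product']
  rw [← sum_filter]
  refine sum_le_of_inj _ (Icc 1 (2 ^ k * N)) (fun y : Finset ℕ × Finset ℕ =>
    (∏ p ∈ y.1, p) * ∏ p ∈ y.2, p) ?_ ?_ _ (HT.hf (D.HH L Q μ)) ?_ ?_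
  · intro y hy
    rw [mem_filter, mem_product, mem_powerset, mem_powerset] at hy
    rw [mem_Icc]
    refine ⟨?_, hy.2⟩
    exact Nat.mul_pos (prod_pos fun p hp => (hPX p (hS1sub (hy.1.1 hp))).1.pos)
      (prod_pos fun p hp => (hPX p (hS2sub (hy.1.2 hp))).1.pos)
  · intro y hy y' hy' hyy
    rw [mem_coe, mem_filter, mem_product, mem_powerset, mem_powerset] at hy hy'
    simp only at hyy
    have hu : ∀ y : Finset ℕ × Finset ℕ, y.1 ⊆ S₁ → y.2 ⊆ S₂ →
        ((∏ p ∈ y.1, p) * ∏ p ∈ y.2, p).primeFactors = y.1 ∪ y.2 := by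
      intro y h1 h2
      rw [← prod_union (disjoint_of_subset_left h1 (disjoint_of_subset_right h2 hdisj))]
      refine Nat.primeFactors_prod fun p hp => ?_
      rcases mem_union.1 hp with h | h
      · exact (hPX p (hS1sub (h1 h))).1
      · exact (hPX p (hS2sub (h2 h))).1
    have hun : y.1 ∪ y.2 = y'.1 ∪ y'.2 := by
      rw [← hu y hy.1.1 hy.1.2, ← hu y' hy'.1.1 hy'.1.2, hyy]
    have hp1 : ∀ y : Finset ℕ × Finset ℕ, y.1 ⊆ S₁ → y.2 ⊆ S₂ → (y.1 ∪ y.2) ∩ S₁ = y.1 := by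
      intro y h1 h2
      ext p
      rw [mem_inter, mem_union]
      constructor
      · rintro ⟨h | h, h'⟩
        · exact h
        · exact absurd (h2 h) (disjoint_left.1 hdisj h')
      · intro h
        exact ⟨Or.inl h, h1 h⟩
    have hp2 : ∀ y : Finset ℕ × Finset ℕ, y.1 ⊆ S₁ → y.2 ⊆ S₂ → (y.1 ∪ y.2) ∩ S₂ = y.2 := by
      intro y h1 h2
      ext p
      rw [mem_inter, mem_union]
      constructor
      · rintro ⟨h | h, h'⟩
        · exact absurd h' (disjoint_left.1 hdisj (h1 h))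
        · exact h
      · intro h
        exact ⟨Or.inr h, h2 h⟩
    refine Prod.ext ?_ ?_
    · rw [← hp1 y hy.1.1 hy.1.2, ← hp1 y' hy'.1.1 hy'.1.2, hun]
    · rw [← hp2 y hy.1.1 hy.1.2, ← hp2 y' hy'.1.1 hy'.1.2, hun]
  · intro y hy
    rw [mem_filter, mem_product, mem_powerset, mem_powerset] at hy
    have hd := disjoint_of_subset_left hy.1.1 (disjoint_of_subset_right hy.1.2 hdisj)
    have hpr : ∀ p ∈ y.1 ∪ y.2, p.Prime := by
      intro p hp
      rcases mem_union.1 hp with h | h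
      · exact (hPX p (hS1sub (hy.1.1 h))).1
      · exact (hPX p (hS2sub (hy.1.2 h))).1
    unfold HT.hf
    rw [← prod_union hd, if_pos (squarefree_prod_primes hpr), Nat.primeFactors_prod hpr]
  · intro n _
    exact HT.hf_nonneg (fun p _ => HH_nonneg D L Q μ p) n

end Sys

end Stoll308.TW
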