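import Pool.Agent.Work.MP_308fa9_nt.TW.Defs
import Pool.Agent.Work.MP_308fa9_nt.Gen.SelUpper

set_option autoImplicit false

/-!
The sizes of the error terms.
-/

namespace Stoll308.TW

open Finset Stoll308.Gen Filter Topology

variable {k : ℕ}

lemma decay_real (K : ℝ) {a b : ℝ} (ha : 0 < a) (hb : 0 < b) : ∃ L₀ : ℝ, 1 ≤ L₀ ∧
    ∀ L : ℝ, L₀ ≤ L → L ^ K * Real.exp (-(b * L ^ a)) ≤ 1 := by
  have h1 : Tendsto (fun x : ℝ => x ^ (K / a) * Real.exp (-b * x)) atTop (𝓝 0) :=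
    tendsto_rpow_mul_exp_neg_mul_atTop_nhds_zero (K / a) b hb
  have h2 : Tendsto (fun L : ℝ => L ^ a) atTop atTop := tendsto_rpow_atTop ha
  have h3 := (h1.comp h2).eventually_le_const (show (0 : ℝ) < 1 by norm_num)
  obtain ⟨L₀, hL₀⟩ := eventually_atTop.1 h3
  refine ⟨max L₀ 1, le_max_right _ _, fun L hL => ?_⟩
  have h4 := hL₀ L ((le_max_left _ _).trans hL)
  have hL1 : 1 ≤ L := (le_max_right _ _).trans hL
  simp only [Function.comp] at h4
  rw [← Real.rpow_mul (by linarith), mul_div_cancel₀ _ ha.ne', neg_mul] at h4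
  exact h4

lemma rpow_large {a : ℝ} (ha : 0 < a) (M : ℝ) : ∃ L₀ : ℝ, 1 ≤ L₀ ∧
    ∀ L : ℝ, L₀ ≤ L → M ≤ L ^ a := by
  obtain ⟨L₀, hL₀⟩ := eventually_atTop.1 ((tendsto_rpow_atTop ha).eventually_ge_atTop M)
  exact ⟨max L₀ 1, le_max_right _ _, fun L hL => hL₀ L ((le_max_left _ _).trans hL)⟩

lemma log_zz (L : ℝ) (Q : ℕ) (x : ℝ) : Real.log (zz L Q x) = L ^ (x / (Q : ℝ)) :=
  Real.log_exp _

lemma zz_pos (L : ℝ) (Q : ℕ) (x : ℝ) : 0 < zz L Q x := Real.exp_pos _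

lemma zz_top (L : ℝ) {Q : ℕ} (hQ : 1 ≤ Q) : zz L Q (Q : ℝ) = Real.exp L := by
  have hQ0 : (Q : ℝ) ≠ 0 := by
    have : (0 : ℝ) < Q := by exact_mod_cast hQ
    exact this.ne'
  unfold zz
  rw [div_self hQ0, Real.rpow_one]

lemma zz_mono {L : ℝ} (hL : 1 ≤ L) (Q : ℕ) {x y : ℝ} (hxy : x ≤ y) : zz L Q x ≤ zz L Q y :=
  Real.exp_le_exp.2 (Real.rpow_le_rpow_of_exponent_le hL
    (div_le_div_of_nonneg_right hxy (Nat.cast_nonneg _)))

lemma prod_subset_le (A : ℝ) (hA : 0 ≤ A) : ∃ C : ℝ, 0 < C ∧ ∀ L : ℝ, 2 ≤ L → ∀ s : Finset ℕ,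
    (∀ p ∈ s, p.Prime ∧ (p : ℝ) ≤ Real.exp L) → ∏ p ∈ s, (1 + A / (p : ℝ)) ≤ C * L ^ A := by
  obtain ⟨C, hC, h⟩ := euler_const A hA
  refine ⟨C, hC, fun L hL s hs => ?_⟩
  set X : ℕ := ⌊Real.exp L⌋₊ with hX
  have h3 : (3 : ℝ) ≤ Real.exp L := three_le_exp_two.trans (Real.exp_le_exp.2 hL)
  have hX3 : 3 ≤ X := Nat.le_floor (by exact_mod_cast h3)
  have hXr : (3 : ℝ) ≤ X := by exact_mod_cast hX3
  have hXL : (X : ℝ) ≤ Real.exp L := Nat.floor_le (Real.exp_pos _).le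
  have hsub : s ⊆ (Icc 1 X).filter Nat.Prime := by
    intro p hp
    obtain ⟨h1, h2⟩ := hs p hp
    rw [mem_filter, mem_Icc]
    exact ⟨⟨h1.one_lt.le, Nat.le_floor h2⟩, h1⟩
  have h1 : ∏ p ∈ s, (1 + A / (p : ℝ)) ≤ ∏ p ∈ (Icc 1 X).filter Nat.Prime, (1 + A / (p : ℝ)) := by
    rw [← prod_sdiff hsub]
    have h0 := prod_le_prod (s := (Icc 1 X).filter Nat.Prime \ s) (f := fun _ => (1 : ℝ))
      (g := fun p : ℕ => 1 + A / (p : ℝ)) (fun _ _ => zero_le_one) fun p _ => by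
        have : 0 ≤ A / (p : ℝ) := by positivity
        linarith
    rw [prod_const_one] at h0
    exact le_mul_of_one_le_left (prod_nonneg fun p _ => by positivity) h0
  have hlog0 : 0 ≤ Real.log X := Real.log_nonneg (by linarith)
  have hlog : Real.log X ≤ L := by
    have := Real.log_le_log (by linarith) hXL
    rwa [Real.log_exp] at this
  exact (h1.trans (h X hX3)).trans
    (mul_le_mul_of_nonneg_left (Real.rpow_le_rpow hlog0 hlog hA) hC.le)

namespace Sys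

variable (D : Sys k)

/-- The factor in `err_le`. -/
theorem numer (Q : ℕ) (hQ : 4 ≤ Q) : ∃ L₀ : ℝ, 1 ≤ L₀ ∧ ∀ L : ℝ, L₀ ≤ L → ∀ (N : ℕ)
    (μ : Fin k → ℕ), (∀ i, μ i < Q) → ∀ A ⊆ Big μ,
    2 ^ k * D.Po N L Q μ * ((3 * L) ^ k * (2 * D.K + 1) ^ k) *
      (∏ i, (2 * 3 ^ D.n i : ℝ)) * Real.sqrt (D.Rr N L Q μ A) ≤ L ^ (-(3 : ℝ)) := by
  classical
  have hQr : (4 : ℝ) ≤ Q := by exact_mod_cast hQ
  have hQ0 : (0 : ℝ) < Q := by linarith
  obtain ⟨Cn, hCn, hcn⟩ := prod_subset_le D.K (Nat.cast_nonneg _)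
  obtain ⟨Cq, hCq, hcq⟩ := prod_subset_le ((D.K : ℝ) ^ 2) (by positivity)
  -- the constants
  set M : ℝ := ∑ i, (D.n i : ℝ) + 1 with hM
  have hM1 : 1 ≤ M := by
    have : 0 ≤ ∑ i, (D.n i : ℝ) := sum_nonneg fun i _ => Nat.cast_nonneg _
    linarith
  have hM0 : 0 < M := by linarith
  have hnM : ∀ i, (D.n i : ℝ) ≤ M := fun i => by
    have := single_le_sum (f := fun i => (D.n i : ℝ)) (fun i _ => Nat.cast_nonneg _) (mem_univ i)
    linarith
  have hn0 : ∀ i, (1 : ℝ) ≤ D.n i := fun i => by exact_mod_cast D.n_pos i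
  set b : ℝ := 1 / (2 * M) with hb
  have hb0 : 0 < b := by positivity
  have hb1 : b ≤ 1 := by
    rw [hb, div_le_one (by positivity)]
    linarith
  set E : ℝ := 2 ^ k * Cn * (3 ^ k * (2 * D.K + 1) ^ k) * ∏ i, (2 * 3 ^ D.n i : ℝ) with hE
  have hP0 : 0 < ∏ i, (2 * 3 ^ D.n i : ℝ) := prod_pos fun i _ => by positivity
  have hE0 : 0 < E := by positivity
  set W : ℝ := Cn ^ 2 * (Cq + 2 * (k * M)) * E ^ 2 with hW
  have hW0 : 0 ≤ W := by positivity
  set e : ℕ := 2 * D.K + D.K ^ 2 + 2 * (D.K + k + 3) with he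
  obtain ⟨L1, hL11, hL1⟩ := decay_real ((e + 1 : ℕ) : ℝ) (a := 1 / (Q : ℝ)) (b := b)
    (by positivity) hb0
  obtain ⟨L2, hL21, hL2⟩ := rpow_large (a := 1 / 4 / (Q : ℝ)) (by positivity) (4 * M)
  refine ⟨max (max L1 L2) (max 2 W), hL11.trans ((le_max_left _ _).trans (le_max_left _ _)),
    fun L hL N μ hμ A hA => ?_⟩
  have hLL1 := hL1 L ((le_max_left _ _).trans ((le_max_left _ _).trans hL))
  have hLL2 := hL2 L ((le_max_right _ _).trans ((le_max_left _ _).trans hL))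
  have hL2' : 2 ≤ L := (le_max_left _ _).trans ((le_max_right _ _).trans hL)
  have hLW : W ≤ L := (le_max_right _ _).trans ((le_max_right _ _).trans hL)
  have hL1' : 1 ≤ L := by linarith
  have hL0 : 0 < L := by linarith
  -- the products
  have hPo : D.Po N L Q μ ≤ Cn * L ^ D.K := by
    rw [← Real.rpow_natCast]
    refine hcn L hL2' _ fun p hp => ?_
    unfold SO PX at hp
    rw [mem_filter, mem_filter] at hp
    refine ⟨hp.1.2.1, ?_⟩
    have := hp.2.1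
    rwa [zz_top L (by omega)] at this
  have hPo0 : 0 ≤ D.Po N L Q μ := prod_nonneg fun p _ => by positivity
  have hWW : ∀ p ∈ WW L Q μ D.C₀ N, p.Prime ∧ (p : ℝ) ≤ Real.exp L := fun p hp => by
    unfold WW PX at hp
    rw [mem_filter, mem_filter] at hp
    refine ⟨hp.1.2.1, ?_⟩
    have := hp.2.2.1
    rwa [zz_top L (by omega)] at this
  have hPn : D.Pw N L Q μ D.K ≤ Cn * L ^ D.K := by
    rw [← Real.rpow_natCast]
    exact hcn L hL2' _ hWW
  have hPn0 : 0 ≤ D.Pw N L Q μ D.K := prod_nonneg fun p _ => by positivity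
  have hPq : D.Pw N L Q μ ((D.K : ℝ) ^ 2) ≤ Cq * L ^ (D.K ^ 2) := by
    have := hcq L hL2' _ hWW
    have h2 : L ^ ((D.K : ℝ) ^ 2) = L ^ (D.K ^ 2) := by
      rw [← Real.rpow_natCast L (D.K ^ 2), Nat.cast_pow]
    rw [h2] at this
    exact this
  have hPq0 : 0 ≤ D.Pw N L Q μ ((D.K : ℝ) ^ 2) := prod_nonneg fun p _ => by positivity
  set x : ℝ := Real.exp (-(b * L ^ (1 / (Q : ℝ)))) with hx
  have hx0 : 0 < x := Real.exp_pos _
  have h1Q : 0 ≤ L ^ (1 / (Q : ℝ)) := by positivity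
  -- the first term
  have hz1 : 1 / zz L Q 1 ≤ x := by
    unfold zz
    rw [one_div, ← Real.exp_neg, hx]
    refine Real.exp_le_exp.2 ?_
    nlinarith
  have hz10 : 0 ≤ 1 / zz L Q 1 := by
    have := zz_pos L Q 1
    positivity
  -- the other terms
  have hterm : ∀ a ∈ A, (D.n a : ℝ) * zz L Q ((μ a : ℝ) - 1 / 2) ^ 2 *
      Zc L Q μ a ^ (-(D.n a : ℝ)⁻¹) ≤ M * x := by
    intro a ha
    have hμ3 : 3 ≤ μ a := by
      have := hA ha
      unfold Big at this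
      exact (mem_filter.1 this).2
    have hμ3' : (3 : ℝ) ≤ μ a := by exact_mod_cast hμ3
    have hna : (1 : ℝ) ≤ D.n a := hn0 a
    have hna0 : (0 : ℝ) < D.n a := by linarith
    have h1 : zz L Q ((μ a : ℝ) - 1 / 2) ^ 2 * Zc L Q μ a ^ (-(D.n a : ℝ)⁻¹) ≤ x := by
      unfold Zc zz
      rw [← Real.exp_nat_mul, ← Real.exp_mul, ← Real.exp_add, hx]
      refine Real.exp_le_exp.2 ?_
      have e3 : L ^ (((μ a : ℝ) - 1 / 4) / (Q : ℝ)) =
          L ^ (((μ a : ℝ) - 1 / 2) / (Q : ℝ)) * L ^ (1 / 4 / (Q : ℝ)) := by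
        rw [← Real.rpow_add hL0]
        congr 1
        ring
      set u : ℝ := L ^ (((μ a : ℝ) - 1 / 2) / (Q : ℝ)) with hu
      have hu0 : 0 ≤ u := by positivity
      have h5 : L ^ (1 / (Q : ℝ)) ≤ L ^ (((μ a : ℝ) - 1 / 4) / (Q : ℝ)) := by
        refine Real.rpow_le_rpow_of_exponent_le hL1' ?_
        refine div_le_div_of_nonneg_right ?_ hQ0.le
        linarith
      set v : ℝ := L ^ (((μ a : ℝ) - 1 / 4) / (Q : ℝ)) with hv
      have h6 : 4 * M * u ≤ v := by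
        rw [e3, mul_comm]
        exact mul_le_mul_of_nonneg_left hLL2 hu0
      have h7 : 4 * D.n a * u ≤ v := by
        refine le_trans ?_ h6
        have := hnM a
        nlinarith
      have h8 : 2 * u + b * L ^ (1 / (Q : ℝ)) ≤ v / D.n a := by
        rw [le_div_iff₀ hna0]
        have h9 : b * L ^ (1 / (Q : ℝ)) * D.n a ≤ v / 2 := by
          have h10 : b * D.n a ≤ 1 / 2 := by
            rw [hb, div_mul_eq_mul_div, one_mul, div_le_iff₀ (by positivity)]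
            have := hnM a
            linarith
          calc b * L ^ (1 / (Q : ℝ)) * D.n a = (b * D.n a) * L ^ (1 / (Q : ℝ)) := by ring
            _ ≤ 1 / 2 * v := mul_le_mul h10 h5 h1Q (by norm_num)
            _ = v / 2 := by ring
        nlinarith
      have h11 : v * (-(D.n a : ℝ)⁻¹) = -(v / D.n a) := by
        rw [mul_neg, div_eq_mul_inv]
      rw [h11]
      push_cast
      linarith
    rw [mul_assoc]
    exact mul_le_mul (hnM a) h1 (by
      have := zz_pos L Q ((μ a : ℝ) - 1 / 2)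
      have h2 : 0 < Zc L Q μ a := zz_pos _ _ _
      positivity) hM0.le
  have hsum : ∑ a ∈ A, (D.n a : ℝ) * zz L Q ((μ a : ℝ) - 1 / 2) ^ 2 *
      Zc L Q μ a ^ (-(D.n a : ℝ)⁻¹) ≤ k * M * x := by
    refine (sum_le_sum hterm).trans ?_
    rw [sum_const, nsmul_eq_mul, mul_assoc]
    refine mul_le_mul_of_nonneg_right ?_ (by positivity)
    have : A.card ≤ k := by
      have := card_le_univ A
      rwa [Fintype.card_fin] at this
    exact_mod_cast this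
  have hsum0 : 0 ≤ ∑ a ∈ A, (D.n a : ℝ) * zz L Q ((μ a : ℝ) - 1 / 2) ^ 2 *
      Zc L Q μ a ^ (-(D.n a : ℝ)⁻¹) := by
    refine sum_nonneg fun a _ => ?_
    have := zz_pos L Q ((μ a : ℝ) - 1 / 2)
    have h2 : 0 < Zc L Q μ a := zz_pos _ _ _
    positivity
  have hLK1 : (1 : ℝ) ≤ L ^ (D.K ^ 2) := one_le_pow₀ hL1'
  -- the bound for `Rr`
  have hR : D.Rr N L Q μ A ≤ Cn ^ 2 * (Cq + 2 * (k * M)) * (L ^ (2 * D.K + D.K ^ 2) * x) := by
    unfold Rr
    have h1 : D.Pw N L Q μ D.K ^ 2 ≤ (Cn * L ^ D.K) ^ 2 := pow_le_pow_left₀ hPn0 hPn 2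
    have h2 : 1 / zz L Q 1 * D.Pw N L Q μ ((D.K : ℝ) ^ 2) +
        2 * ∑ a ∈ A, (D.n a : ℝ) * zz L Q ((μ a : ℝ) - 1 / 2) ^ 2 *
          Zc L Q μ a ^ (-(D.n a : ℝ)⁻¹) ≤ (Cq + 2 * (k * M)) * (L ^ (D.K ^ 2) * x) := by
      have h3 : 1 / zz L Q 1 * D.Pw N L Q μ ((D.K : ℝ) ^ 2) ≤ x * (Cq * L ^ (D.K ^ 2)) :=
        mul_le_mul hz1 hPq hPq0 hx0.le
      have h4 : (k : ℝ) * M * x ≤ k * M * x * L ^ (D.K ^ 2) :=
        le_mul_of_one_le_right (by positivity) hLK1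
      nlinarith
    calc _ ≤ (Cn * L ^ D.K) ^ 2 * ((Cq + 2 * (k * M)) * (L ^ (D.K ^ 2) * x)) :=
          mul_le_mul h1 h2 (by positivity) (by positivity)
      _ = _ := by
          rw [pow_add, pow_mul']
          ring
  -- conclusion
  set y : ℝ := 1 / (E * L ^ (D.K + k + 3)) with hy
  have hy0 : 0 < y := by positivity
  have hsq : Real.sqrt (D.Rr N L Q μ A) ≤ y := by
    rw [Real.sqrt_le_left hy0.le]
    refine hR.trans ?_
    rw [hy, div_pow, one_pow, le_div_iff₀ (by positivity)]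
    have e1 : Cn ^ 2 * (Cq + 2 * (k * M)) * (L ^ (2 * D.K + D.K ^ 2) * x) *
        (E * L ^ (D.K + k + 3)) ^ 2 = W * (L ^ e * x) := by
      rw [hW, he, pow_add L (2 * D.K + D.K ^ 2), pow_mul']
      ring
    rw [e1]
    calc W * (L ^ e * x) ≤ L * (L ^ e * x) := mul_le_mul_of_nonneg_right hLW (by positivity)
      _ = L ^ ((e + 1 : ℕ) : ℝ) * x := by
          rw [Real.rpow_natCast, pow_succ]
          ring
      _ ≤ 1 := hLL1
  have hfin : 2 ^ k * D.Po N L Q μ * ((3 * L) ^ k * (2 * D.K + 1) ^ k) *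
      (∏ i, (2 * 3 ^ D.n i : ℝ)) ≤ E * L ^ (D.K + k) := by
    calc 2 ^ k * D.Po N L Q μ * ((3 * L) ^ k * (2 * D.K + 1) ^ k) *
        (∏ i, (2 * 3 ^ D.n i : ℝ)) ≤ 2 ^ k * (Cn * L ^ D.K) * ((3 * L) ^ k * (2 * D.K + 1) ^ k) *
        (∏ i, (2 * 3 ^ D.n i : ℝ)) := by gcongr
      _ = E * L ^ (D.K + k) := by
          rw [hE, mul_pow, pow_add]
          ring
  calc _ ≤ E * L ^ (D.K + k) * y := mul_le_mul hfin hsq (Real.sqrt_nonneg _) (by positivity)
    _ = L ^ (-(3 : ℝ)) := by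
        rw [hy, Real.rpow_neg hL0.le, show (3 : ℝ) = ((3 : ℕ) : ℝ) by norm_num,
          Real.rpow_natCast, pow_add L (D.K + k) 3]
        field_simp

end Sys

/-- The bound in `smooth_small`. -/
theorem numer_smooth (C : ℝ) (Q : ℕ) (hQ : 4 ≤ Q) : ∃ L₀ : ℝ, 1 ≤ L₀ ∧ ∀ L : ℝ, L₀ ≤ L →
    ∀ (m : ℕ), 3 ≤ m → m < Q →
      C * Real.log (zz L Q ((m : ℝ) - 1 / 4)) ^ C *
        Real.exp (-(Real.log (zz L Q m) / Real.log (zz L Q ((m : ℝ) - 1 / 4)))) ≤
          L ^ (-(3 : ℝ)) ∧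
      C * Real.log (zz L Q ((m : ℝ) - 1)) ^ C *
        Real.exp (-(Real.log (zz L Q ((m : ℝ) - 1 / 2)) / Real.log (zz L Q ((m : ℝ) - 1)))) ≤
          L ^ (-(3 : ℝ)) ∧ 3 ≤ zz L Q ((m : ℝ) - 1) := by
  have hQr : (4 : ℝ) ≤ Q := by exact_mod_cast hQ
  have hQ0 : (0 : ℝ) < Q := by linarith
  obtain ⟨L1, hL11, hL1⟩ := decay_real (C + 4) (a := 1 / 4 / (Q : ℝ)) (b := 1)
    (by positivity) one_pos
  obtain ⟨L2, hL21, hL2⟩ := rpow_large (a := 1 / 4 / (Q : ℝ)) (by positivity) 2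
  refine ⟨max (max L1 L2) (max 1 C), hL11.trans ((le_max_left _ _).trans (le_max_left _ _)),
    fun L hL m hm hmQ => ?_⟩
  have hLL1 := hL1 L ((le_max_left _ _).trans ((le_max_left _ _).trans hL))
  have hLL2 := hL2 L ((le_max_right _ _).trans ((le_max_left _ _).trans hL))
  have hL1' : 1 ≤ L := (le_max_left _ _).trans ((le_max_right _ _).trans hL)
  have hLC : C ≤ L := (le_max_right _ _).trans ((le_max_right _ _).trans hL)
  have hL0 : 0 < L := by linarith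
  have hm3 : (3 : ℝ) ≤ m := by exact_mod_cast hm
  have hmQ' : (m : ℝ) ≤ Q := by exact_mod_cast hmQ.le
  have key : ∀ x y : ℝ, 0 ≤ x → x ≤ Q → x + 1 / 4 ≤ y →
      C * Real.log (zz L Q x) ^ C * Real.exp (-(Real.log (zz L Q y) / Real.log (zz L Q x))) ≤
        L ^ (-(3 : ℝ)) := by
    intro x y hx0 hxQ hxy
    rw [log_zz, log_zz]
    rcases le_or_gt C 0 with hC | hC
    · have h1 : C * (L ^ (x / (Q : ℝ))) ^ C *
          Real.exp (-(L ^ (y / (Q : ℝ)) / L ^ (x / (Q : ℝ)))) ≤ 0 := by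
        have h2 : 0 ≤ (L ^ (x / (Q : ℝ))) ^ C *
          Real.exp (-(L ^ (y / (Q : ℝ)) / L ^ (x / (Q : ℝ)))) := by positivity
        rw [mul_assoc]
        exact mul_nonpos_of_nonpos_of_nonneg hC h2
      exact h1.trans (by positivity)
    · have h1 : (L ^ (x / (Q : ℝ))) ^ C ≤ L ^ C := by
        rw [← Real.rpow_mul hL0.le]
        refine Real.rpow_le_rpow_of_exponent_le hL1' ?_
        have : x / (Q : ℝ) ≤ 1 := (div_le_one hQ0).2 hxQ
        nlinarith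
      have h2 : Real.exp (-(L ^ (y / (Q : ℝ)) / L ^ (x / (Q : ℝ)))) ≤
          Real.exp (-(1 * L ^ (1 / 4 / (Q : ℝ)))) := by
        refine Real.exp_le_exp.2 ?_
        rw [← Real.rpow_sub hL0, one_mul, neg_le_neg_iff]
        refine Real.rpow_le_rpow_of_exponent_le hL1' ?_
        rw [← sub_div]
        exact div_le_div_of_nonneg_right (by linarith) hQ0.le
      have e1 : L * L ^ C = L ^ (C + 4) * L ^ (-(3 : ℝ)) := by
        rw [← Real.rpow_add hL0, mul_comm, ← Real.rpow_add_one hL0.ne']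
        congr 1
        ring
      calc C * (L ^ (x / (Q : ℝ))) ^ C * Real.exp (-(L ^ (y / (Q : ℝ)) / L ^ (x / (Q : ℝ)))) ≤
            L * L ^ C * Real.exp (-(1 * L ^ (1 / 4 / (Q : ℝ)))) := by
            refine mul_le_mul ?_ h2 (Real.exp_pos _).le (by positivity)
            exact mul_le_mul hLC h1 (by positivity) hL0.le
        _ = (L ^ (C + 4) * Real.exp (-(1 * L ^ (1 / 4 / (Q : ℝ))))) * L ^ (-(3 : ℝ)) := by
            rw [e1]
            ring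
        _ ≤ 1 * L ^ (-(3 : ℝ)) := mul_le_mul_of_nonneg_right hLL1 (by positivity)
        _ = _ := one_mul _
  refine ⟨key _ _ (by linarith) (by linarith) (by linarith),
    key _ _ (by linarith) (by linarith) (by linarith), ?_⟩
  unfold zz
  refine three_le_exp_two.trans (Real.exp_le_exp.2 (hLL2.trans ?_))
  refine Real.rpow_le_rpow_of_exponent_le hL1' ?_
  exact div_le_div_of_nonneg_right (by linarith) hQ0.le

end Stoll308.TW
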