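import Pool.Agent.Work.MP_308fa9_nt.TW.Defs
import Pool.Agent.Work.MP_308fa9_nt.Gen.Euler

set_option autoImplicit false

/-!
Few integers have a large divisor composed of small primes (Rankin's method).
-/

namespace Stoll308.TW

open Finset Stoll308.Gen

theorem rankin_sum : ∃ C : ℝ, 0 < C ∧ ∀ x y : ℝ, 3 ≤ x → 0 < y →
    ∑ T ∈ ((Icc 1 ⌊x⌋₊).filter Nat.Prime).powerset.filter
      (fun T : Finset ℕ => y ≤ ∏ p ∈ T, (p : ℝ)), ∏ p ∈ T, 1 / (p : ℝ) ≤
      C * Real.log x ^ C * Real.exp (-(Real.log y / Real.log x)) := by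
  obtain ⟨C₁, hC₁, h4⟩ := euler_const (Real.exp 1) (by positivity)
  refine ⟨max C₁ (Real.exp 1), lt_of_lt_of_le hC₁ (le_max_left _ _), fun x y hx hy => ?_⟩
  have hX3 : 3 ≤ ⌊x⌋₊ := Nat.le_floor (by exact_mod_cast hx)
  have hX1 : (3 : ℝ) ≤ ⌊x⌋₊ := by exact_mod_cast hX3
  have hxf : (⌊x⌋₊ : ℝ) ≤ x := Nat.floor_le (by linarith)
  have hE := h4 _ hX3
  set L := Real.log x with hL
  have hL1 : 1 ≤ L := by
    rw [hL, Real.le_log_iff_exp_le (by linarith)]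
    have := Real.exp_one_lt_d9
    linarith
  have hL0 : 0 < L := by linarith
  set S := (Icc 1 ⌊x⌋₊).filter Nat.Prime with hS
  have hterm : ∀ T ∈ S.powerset.filter (fun T : Finset ℕ => y ≤ ∏ p ∈ T, (p : ℝ)),
      ∏ p ∈ T, 1 / (p : ℝ) ≤
        Real.exp (-(Real.log y / L)) * ∏ p ∈ T, (Real.exp 1 / (p : ℝ)) := by
    intro T hT
    rw [mem_filter, mem_powerset] at hT
    obtain ⟨hTS, hT2⟩ := hT
    have hp0 : ∀ p ∈ T, (0 : ℝ) < p := fun p hp => by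
      have := hTS hp
      rw [hS, mem_filter] at this
      exact_mod_cast this.2.pos
    have hm0 : (0 : ℝ) < ∏ p ∈ T, (p : ℝ) := lt_of_lt_of_le hy hT2
    have h1 : Real.log y ≤ ∑ p ∈ T, Real.log (p : ℝ) := by
      rw [← Real.log_prod fun p hp => (hp0 p hp).ne']
      exact Real.log_le_log hy hT2
    have h2 : ∑ p ∈ T, Real.log (p : ℝ) ≤ T.card * L := by
      rw [← nsmul_eq_mul, ← sum_const]
      refine sum_le_sum fun p hp => ?_
      have := hTS hp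
      rw [hS, mem_filter, mem_Icc] at this
      exact Real.log_le_log (hp0 p hp) ((by exact_mod_cast this.1.2 : (p : ℝ) ≤ ⌊x⌋₊).trans hxf)
    have h3 : (1 : ℝ) ≤ Real.exp (-(Real.log y / L)) * Real.exp 1 ^ T.card := by
      rw [← Real.exp_nat_mul, ← Real.exp_add, mul_one]
      refine Real.one_le_exp ?_
      have : Real.log y / L ≤ T.card := by
        rw [div_le_iff₀ hL0]
        exact h1.trans h2
      linarith
    have h5 : ∏ p ∈ T, (Real.exp 1 / (p : ℝ)) = Real.exp 1 ^ T.card * ∏ p ∈ T, 1 / (p : ℝ) := by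
      rw [← prod_const, ← prod_mul_distrib]
      exact prod_congr rfl fun p _ => by ring
    rw [h5, ← mul_assoc]
    exact le_mul_of_one_le_left (prod_nonneg fun p _ => by positivity) h3
  refine (sum_le_sum hterm).trans ?_
  rw [← mul_sum]
  have h6 : ∑ T ∈ S.powerset.filter (fun T : Finset ℕ => y ≤ ∏ p ∈ T, (p : ℝ)),
      ∏ p ∈ T, (Real.exp 1 / (p : ℝ)) ≤ ∏ p ∈ S, (1 + Real.exp 1 / (p : ℝ)) := by
    rw [prod_one_add]
    refine sum_le_sum_of_subset_of_nonneg (filter_subset _ _) fun T _ _ =>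
      prod_nonneg fun p _ => by positivity
  have h7 : ∏ p ∈ S, (1 + Real.exp 1 / (p : ℝ)) ≤
      max C₁ (Real.exp 1) * L ^ (max C₁ (Real.exp 1)) := by
    refine hE.trans ?_
    have h8 : 0 ≤ Real.log (⌊x⌋₊ : ℝ) := Real.log_nonneg (by linarith)
    have h9 : Real.log (⌊x⌋₊ : ℝ) ^ Real.exp 1 ≤ L ^ Real.exp 1 :=
      Real.rpow_le_rpow h8 (Real.log_le_log (by linarith) hxf) (Real.exp_pos _).le
    have h10 : L ^ Real.exp 1 ≤ L ^ (max C₁ (Real.exp 1)) :=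
      Real.rpow_le_rpow_of_exponent_le hL1 (le_max_right _ _)
    exact mul_le_mul (le_max_left _ _) (h9.trans h10) (by positivity)
      (le_trans hC₁.le (le_max_left _ _))
  calc Real.exp (-(Real.log y / L)) * ∑ T ∈ S.powerset.filter
        (fun T : Finset ℕ => y ≤ ∏ p ∈ T, (p : ℝ)), ∏ p ∈ T, (Real.exp 1 / (p : ℝ)) ≤
      Real.exp (-(Real.log y / L)) * (max C₁ (Real.exp 1) * L ^ (max C₁ (Real.exp 1))) :=
        mul_le_mul_of_nonneg_left (h6.trans h7) (Real.exp_pos _).le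
    _ = _ := by ring

private lemma card_mult (N d : ℕ) (hd : 0 < d) :
    (((Icc (-(N : ℤ)) N).filter fun t => t ≠ 0 ∧ (d : ℤ) ∣ t).card : ℝ) ≤ 2 * N / d := by
  classical
  have h1 : ((Icc (-(N : ℤ)) N).filter fun t => t ≠ 0 ∧ (d : ℤ) ∣ t) ⊆
      ((Icc (-((N / d : ℕ) : ℤ)) (N / d : ℕ)).erase 0).image fun t => (d : ℤ) * t := by
    intro t ht
    rw [mem_filter, mem_Icc] at ht
    obtain ⟨⟨h1, h2⟩, h3, s, hs⟩ := ht
    rw [mem_image]
    refine ⟨s, ?_, hs.symm⟩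
    rw [mem_erase, mem_Icc]
    refine ⟨?_, ?_⟩
    · rintro rfl
      exact h3 (by rw [hs, mul_zero])
    · have h4 : s.natAbs ≤ N / d := by
        rw [Nat.le_div_iff_mul_le hd]
        have h5 : t.natAbs = d * s.natAbs := by
          rw [hs, Int.natAbs_mul, Int.natAbs_natCast]
        rw [mul_comm, ← h5]
        omega
      generalize N / d = q at h4
      omega
  have h2 := (card_le_card h1).trans card_image_le
  have h4 : ((N / d : ℕ) : ℝ) ≤ (N : ℝ) / d := Nat.cast_div_le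
  have h3 : ((Icc (-(N : ℤ)) N).filter fun t => t ≠ 0 ∧ (d : ℤ) ∣ t).card ≤ 2 * (N / d) := by
    refine h2.trans ?_
    generalize N / d = q
    rw [card_erase_of_mem (by rw [mem_Icc]; omega), Int.card_Icc]
    omega
  calc (((Icc (-(N : ℤ)) N).filter fun t => t ≠ 0 ∧ (d : ℤ) ∣ t).card : ℝ) ≤
        ((2 * (N / d) : ℕ) : ℝ) := by exact_mod_cast h3
    _ = 2 * ((N / d : ℕ) : ℝ) := by push_cast; ring
    _ ≤ 2 * ((N : ℝ) / d) := by linarith
    _ = _ := by ring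

open Classical in
theorem smooth_small (C₀ : ℕ) : ∃ C : ℝ, 0 < C ∧ ∀ (N : ℕ) (x y : ℝ), 3 ≤ x → 0 < y →
    (((Icc (-(N : ℤ)) N).filter fun t => t ≠ 0 ∧ ∃ T : Finset ℕ, T ⊆ bigPrimes C₀ t ∧
      (∀ p ∈ T, (p : ℝ) ≤ x) ∧ y ≤ ∏ p ∈ T, (p : ℝ)).card : ℝ) ≤
      C * N * Real.log x ^ C * Real.exp (-(Real.log y / Real.log x)) := by
  obtain ⟨C, hC, h⟩ := rankin_sum
  refine ⟨2 * C, by linarith, fun N x y hx hy => ?_⟩
  set 𝒯 := ((Icc 1 ⌊x⌋₊).filter Nat.Prime).powerset.filter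
      (fun T : Finset ℕ => y ≤ ∏ p ∈ T, (p : ℝ)) with h𝒯
  have h1 : ((Icc (-(N : ℤ)) N).filter fun t => t ≠ 0 ∧ ∃ T : Finset ℕ, T ⊆ bigPrimes C₀ t ∧
      (∀ p ∈ T, (p : ℝ) ≤ x) ∧ y ≤ ∏ p ∈ T, (p : ℝ)) ⊆
      𝒯.biUnion fun T => (Icc (-(N : ℤ)) N).filter fun t => t ≠ 0 ∧ ((∏ p ∈ T, p : ℕ) : ℤ) ∣ t := by
    intro t ht
    rw [mem_filter] at ht
    obtain ⟨ht, h0, T, hT, hTx, hTy⟩ := ht
    have hpr : ∀ p ∈ T, p.Prime ∧ p ∣ t.natAbs := fun p hp => by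
      have := hT hp
      rw [bigPrimes, mem_filter, Nat.mem_primeFactors] at this
      exact ⟨this.1.1, this.1.2.1⟩
    rw [mem_biUnion]
    refine ⟨T, ?_, ?_⟩
    · rw [h𝒯, mem_filter, mem_powerset]
      refine ⟨fun p hp => ?_, hTy⟩
      rw [mem_filter, mem_Icc]
      exact ⟨⟨(hpr p hp).1.one_le, Nat.le_floor (hTx p hp)⟩, (hpr p hp).1⟩
    · rw [mem_filter]
      refine ⟨ht, h0, ?_⟩
      rw [Int.natCast_dvd]
      exact Finset.prod_primes_dvd _ (fun p hp => (hpr p hp).1.prime) fun p hp => (hpr p hp).2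
  have h2 : (((Icc (-(N : ℤ)) N).filter fun t => t ≠ 0 ∧ ∃ T : Finset ℕ, T ⊆ bigPrimes C₀ t ∧
      (∀ p ∈ T, (p : ℝ) ≤ x) ∧ y ≤ ∏ p ∈ T, (p : ℝ)).card : ℝ) ≤
      ∑ T ∈ 𝒯, 2 * (N : ℝ) * ∏ p ∈ T, 1 / (p : ℝ) := by
    have h5 := (card_le_card h1).trans card_biUnion_le
    refine (Nat.cast_le (α := ℝ).2 h5).trans ?_
    rw [Nat.cast_sum]
    refine sum_le_sum fun T hT => ?_
    rw [h𝒯, mem_filter, mem_powerset] at hT
    have hpos : 0 < ∏ p ∈ T, p := prod_pos fun p hp => (mem_filter.1 (hT.1 hp)).2.pos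
    refine le_trans ?_ ((card_mult N _ hpos).trans (le_of_eq ?_))
    · push_cast
      exact le_rfl
    · push_cast
      rw [prod_div_distrib, prod_const_one]
      ring
  refine h2.trans ?_
  rw [← mul_sum]
  have h3 := h x y hx hy
  have hL1 : 1 ≤ Real.log x := by
    rw [Real.le_log_iff_exp_le (by linarith)]
    have := Real.exp_one_lt_d9
    linarith
  have h4 : Real.log x ^ C ≤ Real.log x ^ (2 * C) :=
    Real.rpow_le_rpow_of_exponent_le hL1 (by linarith)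
  calc 2 * (N : ℝ) * ∑ T ∈ 𝒯, ∏ p ∈ T, 1 / (p : ℝ) ≤
      2 * (N : ℝ) * (C * Real.log x ^ C * Real.exp (-(Real.log y / Real.log x))) :=
        mul_le_mul_of_nonneg_left h3 (by positivity)
    _ = 2 * C * N * Real.exp (-(Real.log y / Real.log x)) * Real.log x ^ C := by ring
    _ ≤ 2 * C * N * Real.exp (-(Real.log y / Real.log x)) * Real.log x ^ (2 * C) :=
        mul_le_mul_of_nonneg_left h4 (by positivity)
    _ = _ := by ring

end Stoll308.TW
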