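import Pool.Agent.Work.MP_308fa9_nt.TW.Err
import Pool.Agent.Work.MP_308fa9_nt.TW.Smooth
import Pool.Agent.Work.MP_308fa9_nt.TW.ClsC
import Pool.Agent.Work.MP_308fa9_nt.TW.MainT
import Pool.Agent.Work.MP_308fa9_nt.TW.Numer

set_option autoImplicit false

/-!
The number of twists in a block.
-/

namespace Stoll308.TW

open Finset Stoll308.Gen

variable {k : ℕ}

private lemma zz_monoB {L : ℝ} (hL : 1 ≤ L) (Q : ℕ) {x y : ℝ} (hxy : x ≤ y) :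
    zz L Q x ≤ zz L Q y := by
  unfold zz
  refine Real.exp_le_exp.2 ?_
  refine Real.rpow_le_rpow_of_exponent_le hL ?_
  exact div_le_div_of_nonneg_right hxy (Nat.cast_nonneg _)

private lemma zz_topB (L : ℝ) {Q : ℕ} (hQ : 0 < Q) : zz L Q Q = Real.exp L := by
  unfold zz
  rw [div_self (by exact_mod_cast hQ.ne'), Real.rpow_one]

/-- The level of a number. -/
private lemma exists_lev (Q : ℕ) (hQ : 0 < Q) {L : ℝ} {X : ℕ} (hX : (X : ℝ) ≤ Real.exp L) :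
    ∃ m, m < Q ∧ Lev L Q m X ∧ (zz L Q ((Q : ℝ) - 1) ≤ (X : ℝ) → m + 1 = Q) := by
  classical
  obtain ⟨F, hF⟩ : ∃ F, F = (range Q).filter (fun m : ℕ => m = 0 ∨ zz L Q m ≤ (X : ℝ)) := ⟨_, rfl⟩
  have h0 : 0 ∈ F := by
    rw [hF, mem_filter, mem_range]
    exact ⟨hQ, Or.inl rfl⟩
  have hm := F.max'_mem ⟨0, h0⟩
  set m := F.max' ⟨0, h0⟩ with hmdef
  have hm1 : m < Q ∧ (m = 0 ∨ zz L Q m ≤ (X : ℝ)) := by
    have h1 := hm
    rw [hF, mem_filter, mem_range] at h1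
    exact h1
  refine ⟨m, hm1.1, ⟨hm1.2, ?_, ?_⟩, ?_⟩
  · by_contra hcon
    push Not at hcon
    have h2 : m + 1 ∈ F := by
      rw [hF, mem_filter, mem_range]
      refine ⟨by omega, Or.inr ?_⟩
      push_cast
      exact hcon.1
    have h3 := F.le_max' (m + 1) h2
    omega
  · rw [zz_topB L hQ]
    exact hX
  · intro hz
    have h2 : Q - 1 ∈ F := by
      rw [hF, mem_filter, mem_range]
      refine ⟨by omega, Or.inr ?_⟩
      rw [Nat.cast_sub (by omega), Nat.cast_one]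
      exact hz
    have h3 := F.le_max' (Q - 1) h2
    omega

namespace Sys

variable (D : Sys k)

/-- Every element of the block is in `Cls` for one of the level vectors, or has a large divisor
composed of small primes. -/
theorem block_split (Q : ℕ) (hQ : 4 ≤ Q) {L : ℝ} (hL : 1 ≤ L) {N : ℕ} {t : ℤ}
    (ht : t ∈ D.Bl N L Q) : ∃ μ ∈ Lv k Q, (∃ r, D.Cls L Q μ t r) ∨ ∃ m : ℕ, 3 ≤ m ∧ m < Q ∧
      ∃ T : Finset ℕ, T ⊆ bigPrimes D.C₀ t ∧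
        (((∀ p ∈ T, (p : ℝ) ≤ zz L Q ((m : ℝ) - 1 / 4)) ∧ zz L Q m ≤ ∏ p ∈ T, (p : ℝ)) ∨
        ((∀ p ∈ T, (p : ℝ) ≤ zz L Q ((m : ℝ) - 1)) ∧
          zz L Q ((m : ℝ) - 1 / 2) ≤ ∏ p ∈ T, (p : ℝ))) := by
  classical
  have hQ0 : 0 < Q := by omega
  unfold Bl at ht
  rw [mem_filter] at ht
  obtain ⟨hN, hsq, r, hr, hX, i₀, hi₀⟩ := ht
  have h1 := fun i => exists_lev Q hQ0 (hX i)
  choose μ hμ using h1
  refine ⟨μ, ?_, ?_⟩
  · unfold Lv
    rw [mem_filter, Fintype.mem_piFinset]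
    exact ⟨fun i => mem_range.2 (hμ i).1, i₀, (hμ i₀).2.2 hi₀⟩
  · by_cases hA : ∀ i ∈ Big μ, (cut (Zc L Q μ) i (bigPrimes D.C₀ t) r).Nonempty
    · by_cases hB : ∀ i ∈ Big μ, ∏ p ∈ (bigPrimes D.C₀ t).filter
          (fun p : ℕ => (p : ℝ) ≤ zz L Q ((μ i : ℝ) - 1)), (p : ℝ) ≤
            zz L Q ((μ i : ℝ) - 1 / 2)
      · exact Or.inl ⟨r, hr, fun i => (hμ i).2.1, hA, hB⟩
      · push Not at hB
        obtain ⟨i, hi, hB⟩ := hB
        right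
        have h3 : 3 ≤ μ i := by
          unfold Big at hi
          exact (mem_filter.1 hi).2
        refine ⟨μ i, h3, (hμ i).1, _, filter_subset _ _, Or.inr ⟨?_, hB.le⟩⟩
        intro p hp
        exact (mem_filter.1 hp).2
    · push Not at hA
      obtain ⟨i, hi, hA⟩ := hA
      right
      have h3 : 3 ≤ μ i := by
        unfold Big at hi
        exact (mem_filter.1 hi).2
      refine ⟨μ i, h3, (hμ i).1, cpt i (bigPrimes D.C₀ t) r, filter_subset _ _,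
        Or.inl ⟨?_, ?_⟩⟩
      · intro p hp
        by_contra hcon
        push Not at hcon
        have h4 : p ∈ cut (Zc L Q μ) i (bigPrimes D.C₀ t) r := by
          unfold cut
          rw [mem_filter]
          exact ⟨hp, hcon⟩
        rw [hA] at h4
        exact absurd h4 (notMem_empty _)
      · have h4 := (hμ i).2.1.1
        rcases h4 with h4 | h4
        · omega
        · unfold XX at h4
          rw [Nat.cast_prod] at h4
          exact h4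

open Classical in
/-- The elements in `Cls`. -/
lemma card_cls_le (Q : ℕ) (hQ : 4 ≤ Q) : ∃ C L₀ : ℝ, 0 ≤ C ∧ 1 ≤ L₀ ∧
    ∀ (N : ℕ) (L : ℝ), L₀ ≤ L → ∀ μ ∈ Lv k Q,
      (((Icc (-(N : ℤ)) N).filter fun t => Squarefree t ∧ ∃ r, D.Cls L Q μ t r).card : ℝ) ≤
        C * (∑ n ∈ Icc 1 (2 ^ k * N), HT.hf (D.HH L Q μ) n + N * L ^ (-(3 : ℝ))) := by
  obtain ⟨L₀, hL₀, hnum⟩ := D.numer Q hQ
  refine ⟨((Icc (-(P0 D.C₀ : ℤ)) (P0 D.C₀)).card : ℝ) *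
    (Fintype.card (Finset (Fin k) → Fin D.m) : ℝ) * (1 + Fintype.card (Finset (Fin k))), L₀,
    by positivity, hL₀, ?_⟩
  intro N L hL μ hμ
  have hL1 : 1 ≤ L := hL₀.trans hL
  have hμ' : ∀ i, μ i < Q := by
    unfold Lv at hμ
    rw [mem_filter, Fintype.mem_piFinset] at hμ
    exact fun i => mem_range.1 (hμ.1 i)
  have h1 := D.cls_c N L Q μ hQ hμ' hL1
    ((Icc (-(N : ℤ)) N).filter fun t => Squarefree t ∧ ∃ r, D.Cls L Q μ t r) (fun t ht => by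
      rw [mem_filter] at ht
      exact ⟨ht.1, ht.2.1, ht.2.2⟩)
  refine h1.trans ?_
  set S := ∑ n ∈ Icc 1 (2 ^ k * N), HT.hf (D.HH L Q μ) n with hS
  have hS0 : 0 ≤ S := sum_nonneg fun n _ => HT.hf_nonneg (fun p _ => HH_nonneg D L Q μ p) n
  have hN0 : 0 ≤ (N : ℝ) * L ^ (-(3 : ℝ)) :=
    mul_nonneg (Nat.cast_nonneg _) (Real.rpow_nonneg (by linarith) _)
  have h2 : ∀ s ∈ Icc (-(P0 D.C₀ : ℤ)) (P0 D.C₀), ∀ e : Finset (Fin k) → Fin D.m,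
      ∑ ro ∈ D.RO N L Q μ, ∑ ri ∈ D.RI N L Q μ, D.om N L Q μ (D.VV N L Q μ ro) ri *
        D.cond N L Q μ (D.cI N L Q μ s e ro) ri (D.go N L Q μ ro) ≤
      S + Fintype.card (Finset (Fin k)) * (N * L ^ (-(3 : ℝ))) := by
    intro s _ e
    rw [sum_congr rfl fun ro _ => sum_cond D N L Q μ (D.VV N L Q μ ro) (D.cI N L Q μ s e ro)
      (D.go N L Q μ ro), sum_add_distrib]
    refine add_le_add (main_le D N L Q μ (by omega) hμ' hL1) ?_
    rw [sum_comm]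
    have h3 : ∀ A ∈ (univ : Finset (Finset (Fin k))), ∑ ro ∈ D.RO N L Q μ,
        D.hh N L Q μ A (D.VV N L Q μ ro) (D.cI N L Q μ s e ro) (D.go N L Q μ ro) ≤
        N * L ^ (-(3 : ℝ)) := by
      intro A _
      by_cases hA : A ⊆ Big μ
      · refine (sum_le_sum fun ro _ => le_abs_self _).trans ?_
        refine (err_le D N L Q μ (by omega) hμ' hL1 A s e).trans ?_
        exact mul_le_mul_of_nonneg_left (hnum L hL N μ hμ' A hA) (Nat.cast_nonneg _)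
      · rw [sum_eq_zero fun ro _ => hh_eq_zero D N L Q μ (by omega) hL1 hA _ _ _]
        exact hN0
    refine (sum_le_sum h3).trans (le_of_eq ?_)
    rw [sum_const, nsmul_eq_mul, card_univ]
  refine (sum_le_sum fun s hs => sum_le_sum fun e _ => h2 s hs e).trans ?_
  rw [sum_const, sum_const, nsmul_eq_mul, nsmul_eq_mul, card_univ]
  have h4 : S + Fintype.card (Finset (Fin k)) * (N * L ^ (-(3 : ℝ))) ≤
      (1 + Fintype.card (Finset (Fin k))) * (S + N * L ^ (-(3 : ℝ))) := by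
    have h5 : (0 : ℝ) ≤ Fintype.card (Finset (Fin k)) := Nat.cast_nonneg _
    nlinarith [mul_nonneg h5 hS0]
  calc ((Icc (-(P0 D.C₀ : ℤ)) (P0 D.C₀)).card : ℝ) *
        ((Fintype.card (Finset (Fin k) → Fin D.m) : ℝ) *
          (S + Fintype.card (Finset (Fin k)) * (N * L ^ (-(3 : ℝ))))) ≤
      ((Icc (-(P0 D.C₀ : ℤ)) (P0 D.C₀)).card : ℝ) *
        ((Fintype.card (Finset (Fin k) → Fin D.m) : ℝ) *
          ((1 + Fintype.card (Finset (Fin k))) * (S + N * L ^ (-(3 : ℝ))))) := by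
        refine mul_le_mul_of_nonneg_left ?_ (Nat.cast_nonneg _)
        exact mul_le_mul_of_nonneg_left h4 (Nat.cast_nonneg _)
    _ = _ := by ring

theorem block_le (Q : ℕ) (hQ : 4 ≤ Q) : ∃ C L₀ : ℝ, 0 ≤ C ∧ 1 ≤ L₀ ∧ ∀ (N : ℕ) (L : ℝ),
    L₀ ≤ L → Real.exp L ≤ N → ((D.Bl N L Q).card : ℝ) ≤
      C * (∑ μ ∈ Lv k Q, ∑ n ∈ Icc 1 (2 ^ k * N), HT.hf (D.HH L Q μ) n +
        N * L ^ (-(2 : ℝ))) := by
  classical
  obtain ⟨C₁, L₁, hC₁, hL₁, hcls⟩ := card_cls_le D Q hQ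
  obtain ⟨C₂, hC₂, hsm⟩ := smooth_small D.C₀
  obtain ⟨L₂, hL₂, hns⟩ := numer_smooth C₂ Q hQ
  refine ⟨C₁ + C₁ * (Lv k Q).card + 2 * Q, max L₁ L₂, by positivity,
    hL₁.trans (le_max_left _ _), ?_⟩
  intro N L hL _
  have hL1 : 1 ≤ L := hL₁.trans ((le_max_left _ _).trans hL)
  have hLpos : 0 < L := by linarith
  -- the classes
  set Tc : (Fin k → ℕ) → Finset ℤ := fun μ => (Icc (-(N : ℤ)) N).filter fun t =>
    Squarefree t ∧ ∃ r, D.Cls L Q μ t r with hTc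
  set Sm : ℝ → ℝ → Finset ℤ := fun x y => (Icc (-(N : ℤ)) N).filter fun t => t ≠ 0 ∧
    ∃ T : Finset ℕ, T ⊆ bigPrimes D.C₀ t ∧ (∀ p ∈ T, (p : ℝ) ≤ x) ∧ y ≤ ∏ p ∈ T, (p : ℝ) with hSm
  have hsub : D.Bl N L Q ⊆ (Lv k Q).biUnion Tc ∪
      ((Icc 3 (Q - 1)).biUnion fun m => Sm (zz L Q ((m : ℝ) - 1 / 4)) (zz L Q m) ∪
        Sm (zz L Q ((m : ℝ) - 1)) (zz L Q ((m : ℝ) - 1 / 2))) := by
    intro t ht
    have ht' := ht
    unfold Bl at ht'
    rw [mem_filter] at ht'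
    obtain ⟨hN, hsq, -⟩ := ht'
    obtain ⟨μ, hμ, h | ⟨m, hm3, hmQ, T, hT, h | h⟩⟩ := D.block_split Q hQ hL1 ht
    · rw [mem_union]
      left
      rw [mem_biUnion]
      refine ⟨μ, hμ, ?_⟩
      rw [hTc]
      simp only
      rw [mem_filter]
      exact ⟨hN, hsq, h⟩
    · rw [mem_union]
      right
      rw [mem_biUnion]
      refine ⟨m, mem_Icc.2 ⟨hm3, by omega⟩, ?_⟩
      rw [mem_union]
      left
      rw [hSm]
      simp only
      rw [mem_filter]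
      exact ⟨hN, hsq.ne_zero, T, hT, h.1, h.2⟩
    · rw [mem_union]
      right
      rw [mem_biUnion]
      refine ⟨m, mem_Icc.2 ⟨hm3, by omega⟩, ?_⟩
      rw [mem_union]
      right
      rw [hSm]
      simp only
      rw [mem_filter]
      exact ⟨hN, hsq.ne_zero, T, hT, h.1, h.2⟩
  have h1 : ((D.Bl N L Q).card : ℝ) ≤ ∑ μ ∈ Lv k Q, ((Tc μ).card : ℝ) +
      ∑ m ∈ Icc 3 (Q - 1), (((Sm (zz L Q ((m : ℝ) - 1 / 4)) (zz L Q m)).card : ℝ) +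
        ((Sm (zz L Q ((m : ℝ) - 1)) (zz L Q ((m : ℝ) - 1 / 2))).card : ℝ)) := by
    have h2 : (D.Bl N L Q).card ≤ ∑ μ ∈ Lv k Q, (Tc μ).card +
        ∑ m ∈ Icc 3 (Q - 1), ((Sm (zz L Q ((m : ℝ) - 1 / 4)) (zz L Q m)).card +
          (Sm (zz L Q ((m : ℝ) - 1)) (zz L Q ((m : ℝ) - 1 / 2))).card) := by
      refine (card_le_card hsub).trans ((card_union_le _ _).trans ?_)
      refine add_le_add card_biUnion_le (card_biUnion_le.trans ?_)
      exact sum_le_sum fun m _ => card_union_le _ _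
    exact_mod_cast h2
  have hpow : L ^ (-(3 : ℝ)) ≤ L ^ (-(2 : ℝ)) :=
    Real.rpow_le_rpow_of_exponent_le hL1 (by norm_num)
  have hpow0 : 0 ≤ L ^ (-(2 : ℝ)) := Real.rpow_nonneg hLpos.le _
  have hNn : (0 : ℝ) ≤ N := Nat.cast_nonneg _
  -- the smooth parts
  have h3 : ∀ m ∈ Icc 3 (Q - 1), (((Sm (zz L Q ((m : ℝ) - 1 / 4)) (zz L Q m)).card : ℝ) +
        ((Sm (zz L Q ((m : ℝ) - 1)) (zz L Q ((m : ℝ) - 1 / 2))).card : ℝ)) ≤
        2 * (N * L ^ (-(2 : ℝ))) := by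
    intro m hm
    rw [mem_Icc] at hm
    obtain ⟨g1, g2, g3⟩ := hns L ((le_max_right _ _).trans hL) m hm.1 (by omega)
    have h4 : (3 : ℝ) ≤ zz L Q ((m : ℝ) - 1 / 4) := g3.trans (zz_monoB hL1 Q (by linarith))
    have hz : ∀ x, 0 < zz L Q x := fun x => Real.exp_pos _
    have h5 := hsm N (zz L Q ((m : ℝ) - 1 / 4)) (zz L Q m) h4 (hz _)
    have h6 := hsm N (zz L Q ((m : ℝ) - 1)) (zz L Q ((m : ℝ) - 1 / 2)) g3 (hz _)
    have h7 : ∀ a b : ℝ, C₂ * a * b ≤ L ^ (-(3 : ℝ)) →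
        C₂ * N * a * b ≤ N * L ^ (-(2 : ℝ)) := by
      intro a b hab
      calc C₂ * N * a * b = N * (C₂ * a * b) := by ring
        _ ≤ N * L ^ (-(2 : ℝ)) := mul_le_mul_of_nonneg_left (hab.trans hpow) hNn
    have h8 := h5.trans (h7 _ _ g1)
    have h9 := h6.trans (h7 _ _ g2)
    have h10 : ((Sm (zz L Q ((m : ℝ) - 1 / 4)) (zz L Q m)).card : ℝ) ≤ N * L ^ (-(2 : ℝ)) := h8
    have h11 : ((Sm (zz L Q ((m : ℝ) - 1)) (zz L Q ((m : ℝ) - 1 / 2))).card : ℝ) ≤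
      N * L ^ (-(2 : ℝ)) := h9
    linarith
  have h4 : ∀ μ ∈ Lv k Q, ((Tc μ).card : ℝ) ≤
      C₁ * (∑ n ∈ Icc 1 (2 ^ k * N), HT.hf (D.HH L Q μ) n + N * L ^ (-(2 : ℝ))) := by
    intro μ hμ
    refine (hcls N L ((le_max_left _ _).trans hL) μ hμ).trans ?_
    refine mul_le_mul_of_nonneg_left ?_ hC₁
    have := mul_le_mul_of_nonneg_left hpow hNn
    linarith
  refine h1.trans ((add_le_add (sum_le_sum h4) (sum_le_sum h3)).trans ?_)
  rw [← mul_sum, sum_add_distrib, sum_const, sum_const, nsmul_eq_mul, nsmul_eq_mul]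
  have hS0 : 0 ≤ ∑ μ ∈ Lv k Q, ∑ n ∈ Icc 1 (2 ^ k * N), HT.hf (D.HH L Q μ) n :=
    sum_nonneg fun μ _ => sum_nonneg fun n _ =>
      HT.hf_nonneg (fun p _ => HH_nonneg D L Q μ p) n
  set S := ∑ μ ∈ Lv k Q, ∑ n ∈ Icc 1 (2 ^ k * N), HT.hf (D.HH L Q μ) n with hS
  have hcard : ((Icc 3 (Q - 1)).card : ℝ) ≤ Q := by
    have : (Icc 3 (Q - 1)).card ≤ Q := by
      rw [Nat.card_Icc]
      omega
    exact_mod_cast this
  have hY0 : 0 ≤ (N : ℝ) * L ^ (-(2 : ℝ)) := mul_nonneg hNn hpow0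
  have h12 : ((Icc 3 (Q - 1)).card : ℝ) * (2 * (N * L ^ (-(2 : ℝ)))) ≤
      Q * (2 * (N * L ^ (-(2 : ℝ)))) := mul_le_mul_of_nonneg_right hcard (by positivity)
  have h13 : (0 : ℝ) ≤ (Lv k Q).card := Nat.cast_nonneg _
  have h14 : (0 : ℝ) ≤ Q := Nat.cast_nonneg _
  nlinarith [mul_nonneg (mul_nonneg hC₁ h13) hS0, mul_nonneg h14 hS0, mul_nonneg hC₁ hY0,
    mul_nonneg (mul_nonneg hC₁ h13) hY0]

end Sys

end Stoll308.TW
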