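import Pool.Agent.Work.MP_308fa9_nt.TW.Block

set_option autoImplicit false

/-!
The number of twists in a block: the level vectors in two groups (as `block_le`; make
`card_cls_le` of `Block` public for the proof).
-/

namespace Stoll308.TW

open Finset Stoll308.Gen

variable {k : ℕ}

private lemma zz_monoB {L : ℝ} (hL : 1 ≤ L) (Q : ℕ) {x y : ℝ} (hxy : x ≤ y) :
    zz L Q x ≤ zz L Q y := by
  unfold zz
  refine Real.exp_le_exp.2 ?_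
  refine Real.rpow_le_rpow_of_exponent_le hL ?_
  exact div_le_div_of_nonneg_right hxy (Nat.cast_nonneg _)

namespace Sys

variable (D : Sys k)

open Classical in
theorem block_le2 (Q : ℕ) (hQ : 4 ≤ Q) : ∃ C L₀ : ℝ, 0 ≤ C ∧ 1 ≤ L₀ ∧ ∀ (N : ℕ) (L : ℝ),
    L₀ ≤ L → Real.exp L ≤ N → ∀ G : (Fin k → ℕ) → Prop, ((D.Bl N L Q).card : ℝ) ≤
      C * (∑ μ ∈ (Lv k Q).filter G, ∑ n ∈ Icc 1 (2 ^ k * N), HT.hf (D.HH L Q μ) n +
        N * L ^ (-(2 : ℝ))) +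
      ∑ μ ∈ (Lv k Q).filter (fun μ => ¬ G μ),
        (((Icc (-(N : ℤ)) N).filter fun t => Squarefree t ∧ ∃ r, D.Cls L Q μ t r).card : ℝ) := by
  obtain ⟨C₁, L₁, hC₁, hL₁, hcls⟩ := card_cls_le D Q hQ
  obtain ⟨C₂, hC₂, hsm⟩ := smooth_small D.C₀
  obtain ⟨L₂, hL₂, hns⟩ := numer_smooth C₂ Q hQ
  refine ⟨C₁ + C₁ * (Lv k Q).card + 2 * Q, max L₁ L₂, by positivity,
    hL₁.trans (le_max_left _ _), ?_⟩
  intro N L hL _ G
  have hL1 : 1 ≤ L := hL₁.trans ((le_max_left _ _).trans hL)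
  have hLpos : 0 < L := by linarith
  -- the classes
  set Tc : (Fin k → ℕ) → Finset ℤ := fun μ => (Icc (-(N : ℤ)) N).filter fun t =>
    Squarefree t ∧ ∃ r, D.Cls L Q μ t r with hTc
  set Sm : ℝ → ℝ → Finset ℤ := fun x y => (Icc (-(N : ℤ)) N).filter fun t => t ≠ 0 ∧
    ∃ T : Finset ℕ, T ⊆ bigPrimes D.C₀ t ∧ (∀ p ∈ T, (p : ℝ) ≤ x) ∧ y ≤ ∏ p ∈ T, (p : ℝ) with hSm
  have hsub : D.Bl N L Q ⊆ (Lv k Q).biUnion Tc ∪
      ((Icc 3 (Q - 1)).biUnion fun m => Sm (zz L Q ((m : ℝ) - 1 / 4)) (zz L Q m) ∪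
        Sm (zz L Q ((m : ℝ) - 1)) (zz L Q ((m : ℝ) - 1 / 2))) := by
    intro t ht
    have ht' := ht
    unfold Bl at ht'
    rw [mem_filter] at ht'
    obtain ⟨hN, hsq, -⟩ := ht'
    obtain ⟨μ, hμ, h | ⟨m, hm3, hmQ, T, hT, h | h⟩⟩ := D.block_split Q hQ hL1 ht
    · rw [mem_union]
      left
      rw [mem_biUnion]
      refine ⟨μ, hμ, ?_⟩
      rw [hTc]
      simp only
      rw [mem_filter]
      exact ⟨hN, hsq, h⟩
    · rw [mem_union]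
      right
      rw [mem_biUnion]
      refine ⟨m, mem_Icc.2 ⟨hm3, by omega⟩, ?_⟩
      rw [mem_union]
      left
      rw [hSm]
      simp only
      rw [mem_filter]
      exact ⟨hN, hsq.ne_zero, T, hT, h.1, h.2⟩
    · rw [mem_union]
      right
      rw [mem_biUnion]
      refine ⟨m, mem_Icc.2 ⟨hm3, by omega⟩, ?_⟩
      rw [mem_union]
      right
      rw [hSm]
      simp only
      rw [mem_filter]
      exact ⟨hN, hsq.ne_zero, T, hT, h.1, h.2⟩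
  have h1 : ((D.Bl N L Q).card : ℝ) ≤ ∑ μ ∈ Lv k Q, ((Tc μ).card : ℝ) +
      ∑ m ∈ Icc 3 (Q - 1), (((Sm (zz L Q ((m : ℝ) - 1 / 4)) (zz L Q m)).card : ℝ) +
        ((Sm (zz L Q ((m : ℝ) - 1)) (zz L Q ((m : ℝ) - 1 / 2))).card : ℝ)) := by
    have h2 : (D.Bl N L Q).card ≤ ∑ μ ∈ Lv k Q, (Tc μ).card +
        ∑ m ∈ Icc 3 (Q - 1), ((Sm (zz L Q ((m : ℝ) - 1 / 4)) (zz L Q m)).card +
          (Sm (zz L Q ((m : ℝ) - 1)) (zz L Q ((m : ℝ) - 1 / 2))).card) := by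
      refine (card_le_card hsub).trans ((card_union_le _ _).trans ?_)
      refine add_le_add card_biUnion_le (card_biUnion_le.trans ?_)
      exact sum_le_sum fun m _ => card_union_le _ _
    exact_mod_cast h2
  have hpow : L ^ (-(3 : ℝ)) ≤ L ^ (-(2 : ℝ)) :=
    Real.rpow_le_rpow_of_exponent_le hL1 (by norm_num)
  have hpow0 : 0 ≤ L ^ (-(2 : ℝ)) := Real.rpow_nonneg hLpos.le _
  have hNn : (0 : ℝ) ≤ N := Nat.cast_nonneg _
  -- the smooth parts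
  have h3 : ∀ m ∈ Icc 3 (Q - 1), (((Sm (zz L Q ((m : ℝ) - 1 / 4)) (zz L Q m)).card : ℝ) +
        ((Sm (zz L Q ((m : ℝ) - 1)) (zz L Q ((m : ℝ) - 1 / 2))).card : ℝ)) ≤
        2 * (N * L ^ (-(2 : ℝ))) := by
    intro m hm
    rw [mem_Icc] at hm
    obtain ⟨g1, g2, g3⟩ := hns L ((le_max_right _ _).trans hL) m hm.1 (by omega)
    have h4 : (3 : ℝ) ≤ zz L Q ((m : ℝ) - 1 / 4) := g3.trans (zz_monoB hL1 Q (by linarith))
    have hz : ∀ x, 0 < zz L Q x := fun x => Real.exp_pos _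
    have h5 := hsm N (zz L Q ((m : ℝ) - 1 / 4)) (zz L Q m) h4 (hz _)
    have h6 := hsm N (zz L Q ((m : ℝ) - 1)) (zz L Q ((m : ℝ) - 1 / 2)) g3 (hz _)
    have h7 : ∀ a b : ℝ, C₂ * a * b ≤ L ^ (-(3 : ℝ)) →
        C₂ * N * a * b ≤ N * L ^ (-(2 : ℝ)) := by
      intro a b hab
      calc C₂ * N * a * b = N * (C₂ * a * b) := by ring
        _ ≤ N * L ^ (-(2 : ℝ)) := mul_le_mul_of_nonneg_left (hab.trans hpow) hNn
    have h8 := h5.trans (h7 _ _ g1)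
    have h9 := h6.trans (h7 _ _ g2)
    have h10 : ((Sm (zz L Q ((m : ℝ) - 1 / 4)) (zz L Q m)).card : ℝ) ≤ N * L ^ (-(2 : ℝ)) := h8
    have h11 : ((Sm (zz L Q ((m : ℝ) - 1)) (zz L Q ((m : ℝ) - 1 / 2))).card : ℝ) ≤
      N * L ^ (-(2 : ℝ)) := h9
    linarith
  have h4 : ∀ μ ∈ Lv k Q, ((Tc μ).card : ℝ) ≤
      C₁ * (∑ n ∈ Icc 1 (2 ^ k * N), HT.hf (D.HH L Q μ) n + N * L ^ (-(2 : ℝ))) := by
    intro μ hμ
    refine (hcls N L ((le_max_left _ _).trans hL) μ hμ).trans ?_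
    refine mul_le_mul_of_nonneg_left ?_ hC₁
    have := mul_le_mul_of_nonneg_left hpow hNn
    linarith
  have h15 := sum_filter_add_sum_filter_not (Lv k Q) G fun μ => ((Tc μ).card : ℝ)
  rw [← h15] at h1
  refine h1.trans ?_
  set SG : ℝ := ∑ μ ∈ (Lv k Q).filter G, ((Tc μ).card : ℝ) with hSG
  have h16 : SG ≤ ∑ μ ∈ (Lv k Q).filter G,
      C₁ * (∑ n ∈ Icc 1 (2 ^ k * N), HT.hf (D.HH L Q μ) n + N * L ^ (-(2 : ℝ))) :=
    sum_le_sum fun μ hμ => h4 μ (mem_filter.1 hμ).1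
  rw [← mul_sum, sum_add_distrib, sum_const, nsmul_eq_mul] at h16
  have h17 := sum_le_sum h3
  rw [sum_const, nsmul_eq_mul] at h17
  have hS0 : 0 ≤ ∑ μ ∈ (Lv k Q).filter G, ∑ n ∈ Icc 1 (2 ^ k * N), HT.hf (D.HH L Q μ) n :=
    sum_nonneg fun μ _ => sum_nonneg fun n _ =>
      HT.hf_nonneg (fun p _ => HH_nonneg D L Q μ p) n
  set S := ∑ μ ∈ (Lv k Q).filter G, ∑ n ∈ Icc 1 (2 ^ k * N), HT.hf (D.HH L Q μ) n with hS
  have hcard : ((Icc 3 (Q - 1)).card : ℝ) ≤ Q := by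
    have : (Icc 3 (Q - 1)).card ≤ Q := by
      rw [Nat.card_Icc]
      omega
    exact_mod_cast this
  have hY0 : 0 ≤ (N : ℝ) * L ^ (-(2 : ℝ)) := mul_nonneg hNn hpow0
  have h12 : ((Icc 3 (Q - 1)).card : ℝ) * (2 * (N * L ^ (-(2 : ℝ)))) ≤
      Q * (2 * (N * L ^ (-(2 : ℝ)))) := mul_le_mul_of_nonneg_right hcard (by positivity)
  have h13 : (0 : ℝ) ≤ (Lv k Q).card := Nat.cast_nonneg _
  have h14 : (0 : ℝ) ≤ Q := Nat.cast_nonneg _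
  have h18 : (((Lv k Q).filter G).card : ℝ) ≤ (Lv k Q).card :=
    Nat.cast_le.2 (card_le_card (filter_subset _ _))
  have h19 : C₁ * (S + ((Lv k Q).filter G).card * (N * L ^ (-(2 : ℝ)))) ≤
      C₁ * (S + (Lv k Q).card * (N * L ^ (-(2 : ℝ)))) := by
    refine mul_le_mul_of_nonneg_left ?_ hC₁
    have := mul_le_mul_of_nonneg_right h18 hY0
    linarith
  set Y : ℝ := (N : ℝ) * L ^ (-(2 : ℝ)) with hY
  set M : ℝ := ((Lv k Q).card : ℝ) with hM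
  set SB : ℝ := ∑ μ ∈ (Lv k Q).filter (fun μ => ¬ G μ), ((Tc μ).card : ℝ) with hSB
  have h20 : (C₁ + C₁ * M + 2 * Q) * (S + Y) = C₁ * (S + M * Y) + Q * (2 * Y) +
      (C₁ * Y + C₁ * M * S + 2 * Q * S) := by ring
  have h21 : 0 ≤ C₁ * Y + C₁ * M * S + 2 * Q * S := by positivity
  linarith

end Sys

end Stoll308.TW
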