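import Pool.Agent.Work.MP_308fa9_nt.TW.Defs

set_option autoImplicit false

/-!
Sums over products of boxes of products of periodic functions (several components).
-/

namespace Stoll308.TW

open Finset Stoll308.Gen

variable {k : ℕ} {n : Fin k → ℕ}

lemma mem_pbx {A : Finset (Fin k)} {w : (i : Fin k) → Fin (n i) → ℤ} {B : Fin k → ℕ}
    {g : (i : Fin k) → Fin (n i) → ℤ} :
    g ∈ pbx n A w B ↔ (∀ a ∈ A, g a ∈ bx (n a) (B a)) ∧ ∀ i, i ∉ A → g i = w i := by
  unfold pbx
  rw [Fintype.mem_piFinset]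
  constructor
  · intro h
    refine ⟨fun a ha => ?_, fun i hi => ?_⟩
    · have := h a
      rwa [if_pos ha] at this
    · have := h i
      rwa [if_neg hi, mem_singleton] at this
  · rintro ⟨h1, h2⟩ i
    by_cases hi : i ∈ A
    · rw [if_pos hi]
      exact h1 i hi
    · rw [if_neg hi, mem_singleton]
      exact h2 i hi

lemma card_pbx (A : Finset (Fin k)) (w : (i : Fin k) → Fin (n i) → ℤ) (B : Fin k → ℕ) :
    (pbx n A w B).card = ∏ a ∈ A, (2 * B a + 1) ^ n a := by
  unfold pbx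
  rw [Fintype.card_piFinset]
  have h : ∀ i : Fin k, (if i ∈ A then bx (n i) (B i) else {w i}).card =
      if i ∈ A then (2 * B i + 1) ^ n i else 1 := by
    intro i
    by_cases hi : i ∈ A
    · rw [if_pos hi, if_pos hi, card_bx]
    · rw [if_neg hi, if_neg hi, card_singleton]
  have h2 : (∏ i : Fin k, (if i ∈ A then bx (n i) (B i) else {w i}).card) =
      ∏ i : Fin k, if i ∈ A then (2 * B i + 1) ^ n i else 1 :=
    prod_congr rfl fun i _ => h i
  refine Eq.trans ?_ (h2.trans ?_)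
  · exact prod_congr rfl fun i _ => by congr
  · rw [prod_ite_mem, univ_inter]

/-- Split off the component `a`. -/
private lemma sum_split (A : Finset (Fin k)) (w : (i : Fin k) → Fin (n i) → ℤ) (B : Fin k → ℕ)
    {a : Fin k} (ha : a ∈ A) {M : Type*} [AddCommMonoid M]
    (f : ((i : Fin k) → Fin (n i) → ℤ) → M) :
    ∑ g ∈ pbx n A w B, f g = ∑ g ∈ pbx n (A.erase a) (Function.update w a 0) B,
      ∑ x ∈ bx (n a) (B a), f (Function.update g a x) := by
  rw [← sum_product']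
  symm
  refine sum_bij' (fun z _ => Function.update z.1 a z.2)
    (fun g _ => (Function.update g a 0, g a)) ?_ ?_ ?_ ?_ ?_
  · rintro ⟨g, x⟩ h
    rw [mem_product, mem_pbx] at h
    obtain ⟨⟨h1, h2⟩, h3⟩ := h
    rw [mem_pbx]
    refine ⟨fun b hb => ?_, fun i hi => ?_⟩
    · by_cases hab : b = a
      · subst hab
        simpa using h3
      · rw [Function.update_of_ne hab]
        exact h1 b (mem_erase.2 ⟨hab, hb⟩)
    · have hia : i ≠ a := fun h => hi (h ▸ ha)
      rw [Function.update_of_ne hia]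
      have := h2 i (fun h => hi (mem_erase.1 h).2)
      rwa [Function.update_of_ne hia] at this
  · intro g h
    rw [mem_pbx] at h
    obtain ⟨h1, h2⟩ := h
    rw [mem_product, mem_pbx]
    refine ⟨⟨fun b hb => ?_, fun i hi => ?_⟩, h1 a ha⟩
    · rw [mem_erase] at hb
      change Function.update g a 0 b ∈ _
      rw [Function.update_of_ne hb.1]
      exact h1 b hb.2
    · by_cases hia : i = a
      · subst hia
        simp
      · change Function.update g a 0 i = _
        rw [Function.update_of_ne hia, Function.update_of_ne hia]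
        exact h2 i (fun h => hi (mem_erase.2 ⟨hia, h⟩))
  · rintro ⟨g, x⟩ h
    rw [mem_product, mem_pbx] at h
    obtain ⟨⟨h1, h2⟩, h3⟩ := h
    have := h2 a (fun h => (mem_erase.1 h).1 rfl)
    rw [Function.update_self] at this
    simp only [Function.update_idem, Function.update_self, Prod.mk.injEq, and_true]
    rw [← this, Function.update_eq_self]
  · intro g h
    simp
  · intro z h
    rfl

private lemma sum_comp_le (A : Finset (Fin k)) (w : (i : Fin k) → Fin (n i) → ℤ) (B : Fin k → ℕ)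
    {a : Fin k} (ha : a ∈ A) (hn : 0 < n a) {p q : ℕ} (hp : p.Prime) (hq : q ≠ 0)
    (hpq : Nat.Coprime p q) (F H : ((i : Fin k) → Fin (n i) → ℤ) → ℝ) (hF : PerV n p F)
    (hH : PerV n q H) (hF1 : ∀ g, |F g| ≤ 1) (hH1 : ∀ g, |H g| ≤ 1)
    (h0 : ∀ g : (i : Fin k) → Fin (n i) → ℤ,
      ∑ v : Fin (n a) → Fin p, F (Function.update g a fun x => ((v x : ℕ) : ℤ)) = 0) :
    |∑ g ∈ pbx n A w B, F g * H g| ≤
      2 * (pbx n A w B).card * ((n a : ℝ) * (p * q) / (2 * B a + 1)) := by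
  rw [sum_split A w B ha]
  have hcard : ((pbx n A w B).card : ℝ) =
      (pbx n (A.erase a) (Function.update w a 0) B).card * (2 * B a + 1) ^ n a := by
    rw [card_pbx, card_pbx, ← mul_prod_erase A _ ha]
    push_cast
    ring
  have hper : ∀ (q' : ℕ) (G : ((i : Fin k) → Fin (n i) → ℤ) → ℝ) (g : (i : Fin k) → Fin (n i) → ℤ),
      PerV n q' G → Per q' (fun x => G (Function.update g a x)) := by
    intro q' G g hG x y hxy
    refine hG _ _ fun i z => ?_
    by_cases hia : i = a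
    · subst hia
      simpa using hxy z
    · rw [Function.update_of_ne hia, Function.update_of_ne hia, sub_self]
      exact dvd_zero _
  refine (abs_sum_le_sum_abs _ _).trans ((sum_le_sum (g := fun _ =>
    2 * ((n a : ℝ) * (p * q) * (2 * B a + 1) ^ (n a - 1))) fun g _ => ?_).trans ?_)
  · exact bx_sum hp hq hpq (fun x => F (Function.update g a x)) (fun x => H (Function.update g a x))
      (hper p F g hF) (hper q H g hH) (fun x => hF1 _) (fun x => hH1 _) (h0 g) (B a)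
  · rw [sum_const, nsmul_eq_mul, hcard]
    have h2 : (2 * (B a : ℝ) + 1) ^ n a = (2 * B a + 1) * (2 * B a + 1) ^ (n a - 1) := by
      rw [← pow_succ']
      congr 1
      omega
    have h3 : (0 : ℝ) < 2 * B a + 1 := by positivity
    rw [h2]
    refine le_of_eq ?_
    field_simp

private lemma PerV.prod {D : Finset ℕ} {F : ℕ → ((i : Fin k) → Fin (n i) → ℤ) → ℝ}
    (hF : ∀ p ∈ D, PerV n p (F p)) : PerV n (∏ p ∈ D, p) (fun g => ∏ p ∈ D, F p g) := by
  intro g h hgh
  refine prod_congr rfl fun p hp => hF p hp g h fun i x => ?_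
  exact dvd_trans (by exact_mod_cast dvd_prod_of_mem (fun p => p) hp) (hgh i x)

private lemma PerV.mul {q q' : ℕ} {F G : ((i : Fin k) → Fin (n i) → ℤ) → ℝ} (hF : PerV n q F)
    (hG : PerV n q' G) : PerV n (q * q') (fun g => F g * G g) := by
  intro g h hgh
  have h1 : F g = F h :=
    hF g h fun i x => dvd_trans (by push_cast; exact dvd_mul_right _ _) (hgh i x)
  have h2 : G g = G h :=
    hG g h fun i x => dvd_trans (by push_cast; exact dvd_mul_left _ _) (hgh i x)
  simp only [h1, h2]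

private lemma abs_prod_le_one' {X : Type*} {D : Finset ℕ} {F : ℕ → X → ℝ}
    (hF : ∀ p ∈ D, ∀ g, |F p g| ≤ 1) (g : X) : |∏ p ∈ D, F p g| ≤ 1 := by
  rw [abs_prod]
  exact prod_le_one (fun _ _ => abs_nonneg _) fun p hp => hF p hp g

/-- Two products of functions modulo the primes of two sets. -/
private lemma pbx_pair (A : Finset (Fin k)) (w : (i : Fin k) → Fin (n i) → ℤ) (B : Fin k → ℕ)
    {a : Fin k} (ha : a ∈ A) (hn : 0 < n a) {D D' : Finset ℕ} (hD : ∀ p ∈ D, p.Prime)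
    (hD' : ∀ p ∈ D', p.Prime) (F F' : ℕ → ((i : Fin k) → Fin (n i) → ℤ) → ℝ)
    (hF : ∀ p ∈ D, PerV n p (F p)) (hF' : ∀ p ∈ D', PerV n p (F' p))
    (h1 : ∀ p ∈ D, ∀ g, |F p g| ≤ 1) (h1' : ∀ p ∈ D', ∀ g, |F' p g| ≤ 1)
    {p : ℕ} (hp : p ∈ D) (hp' : p ∉ D')
    (h0 : ∀ g : (i : Fin k) → Fin (n i) → ℤ,
      ∑ v : Fin (n a) → Fin p, F p (Function.update g a fun x => ((v x : ℕ) : ℤ)) = 0) :
    |∑ g ∈ pbx n A w B, (∏ p ∈ D, F p g) * ∏ p ∈ D', F' p g| ≤
      2 * (pbx n A w B).card *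
        ((n a : ℝ) * ((∏ p ∈ D, (p : ℝ)) * ∏ p ∈ D', (p : ℝ)) / (2 * B a + 1)) := by
  classical
  have hcop : Nat.Coprime p ((∏ p ∈ D.erase p, p) * ∏ p ∈ D', p) := by
    refine Nat.Coprime.mul_right ?_ ?_
    · refine Nat.Coprime.prod_right fun x hx => ?_
      rw [mem_erase] at hx
      exact (Nat.coprime_primes (hD p hp) (hD x hx.2)).2 (Ne.symm hx.1)
    · refine Nat.Coprime.prod_right fun x hx => ?_
      refine (Nat.coprime_primes (hD p hp) (hD' x hx)).2 ?_
      rintro rfl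
      exact hp' hx
  have hne : (∏ p ∈ D.erase p, p) * ∏ p ∈ D', p ≠ 0 := by
    refine mul_ne_zero ?_ ?_
    · exact prod_ne_zero_iff.2 fun x hx => (hD x (mem_erase.1 hx).2).ne_zero
    · exact prod_ne_zero_iff.2 fun x hx => (hD' x hx).ne_zero
  have h := sum_comp_le A w B ha hn (hD p hp) hne hcop (F p)
    (fun g => (∏ p ∈ D.erase p, F p g) * ∏ p ∈ D', F' p g) (hF p hp)
    (PerV.mul (PerV.prod fun x hx => hF x (mem_erase.1 hx).2) (PerV.prod hF')) (h1 p hp)
    (fun g => by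
      rw [abs_mul]
      exact mul_le_one₀ (abs_prod_le_one' (fun x hx => h1 x (mem_erase.1 hx).2) g)
        (abs_nonneg _) (abs_prod_le_one' h1' g)) h0
  refine le_trans (le_of_eq ?_) (h.trans (le_of_eq ?_))
  · congr 1
    refine sum_congr rfl fun g _ => ?_
    rw [← mul_assoc, mul_prod_erase D (fun x => F x g) hp]
  · have e : (∏ p ∈ D, (p : ℝ)) = p * ∏ p ∈ D.erase p, (p : ℝ) :=
      (mul_prod_erase D (fun x => (x : ℝ)) hp).symm
    rw [e]
    push_cast
    ring

/-- Mean square over a product of boxes of a linear combination of products of periodic functions: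
as `Gen.bx_sq`, but each of the functions `F i p`, `p ∈ E i`, has mean value `0` with respect to one
of the components `a ∈ A` only. -/
theorem pbx_sq {ι : Type*} (A : Finset (Fin k)) (I : Finset ι) (γ : ι → ℝ)
    (Df E : ι → Finset ℕ) (F : ι → ℕ → ((i : Fin k) → Fin (n i) → ℤ) → ℝ)
    (hn : ∀ a ∈ A, 0 < n a) (hE : ∀ i ∈ I, E i ⊆ Df i)
    (hDE : ∀ i ∈ I, ∀ j ∈ I, ∀ p ∈ E i, p ∈ Df j → p ∈ E j)
    (hD : ∀ i ∈ I, ∀ p ∈ Df i, p.Prime) (hF : ∀ i ∈ I, ∀ p ∈ Df i, PerV n p (F i p))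
    (h1 : ∀ i ∈ I, ∀ p ∈ Df i, ∀ g, |F i p g| ≤ 1)
    (h0 : ∀ i ∈ I, ∀ p ∈ E i, ∃ a ∈ A, ∀ g : (i : Fin k) → Fin (n i) → ℤ,
      ∑ v : Fin (n a) → Fin p, F i p (Function.update g a fun x => ((v x : ℕ) : ℤ)) = 0)
    (M : Fin k → ℝ) (hM : ∀ i ∈ I, ∀ a ∈ A, ∏ p ∈ Df i, (p : ℝ) ≤ M a)
    (w : (i : Fin k) → Fin (n i) → ℤ) (B : Fin k → ℕ) :
    ∑ g ∈ pbx n A w B, (∑ i ∈ I, γ i * ∏ p ∈ Df i, F i p g) ^ 2 ≤
      ∑ i ∈ I, ∑ j ∈ I, |γ i| * |γ j| * (if E i = E j then ((pbx n A w B).card : ℝ) else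
        2 * (pbx n A w B).card * ∑ a ∈ A, (n a : ℝ) * M a ^ 2 / (2 * B a + 1)) := by
  classical
  have e1 : ∑ g ∈ pbx n A w B, (∑ i ∈ I, γ i * ∏ p ∈ Df i, F i p g) ^ 2 =
      ∑ i ∈ I, ∑ j ∈ I, γ i * γ j *
        ∑ g ∈ pbx n A w B, (∏ p ∈ Df i, F i p g) * ∏ p ∈ Df j, F j p g := by
    have e0 : ∀ g ∈ pbx n A w B, (∑ i ∈ I, γ i * ∏ p ∈ Df i, F i p g) ^ 2 =
        ∑ i ∈ I, ∑ j ∈ I, (γ i * ∏ p ∈ Df i, F i p g) * (γ j * ∏ p ∈ Df j, F j p g) := by
      intro g _
      rw [pow_two, sum_mul_sum]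
    rw [sum_congr rfl e0, sum_comm]
    refine sum_congr rfl fun i _ => ?_
    rw [sum_comm]
    refine sum_congr rfl fun j _ => ?_
    rw [mul_sum]
    refine sum_congr rfl fun g _ => ?_
    ring
  rw [e1]
  -- the bound for two different sets
  have key : ∀ i ∈ I, ∀ j ∈ I, ∀ p ∈ E i, p ∉ E j →
      |∑ g ∈ pbx n A w B, (∏ p ∈ Df i, F i p g) * ∏ p ∈ Df j, F j p g| ≤
        2 * (pbx n A w B).card * ∑ a ∈ A, (n a : ℝ) * M a ^ 2 / (2 * B a + 1) := by
    intro i hi j hj p hp hp'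
    obtain ⟨a, ha, h0a⟩ := h0 i hi p hp
    have hpj : p ∉ Df j := fun h => hp' (hDE i hi j hj p hp h)
    refine (pbx_pair A w B ha (hn a ha) (hD i hi) (hD j hj) (F i) (F j) (hF i hi) (hF j hj)
      (h1 i hi) (h1 j hj) (hE i hi hp) hpj h0a).trans ?_
    refine mul_le_mul_of_nonneg_left ?_ (by positivity)
    have hle : (n a : ℝ) * ((∏ p ∈ Df i, (p : ℝ)) * ∏ p ∈ Df j, (p : ℝ)) / (2 * B a + 1) ≤
        (n a : ℝ) * M a ^ 2 / (2 * B a + 1) := by
      refine div_le_div_of_nonneg_right ?_ (by positivity)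
      refine mul_le_mul_of_nonneg_left ?_ (by positivity)
      rw [pow_two]
      have hi0 : (0 : ℝ) ≤ ∏ p ∈ Df i, (p : ℝ) := prod_nonneg fun _ _ => by positivity
      have hj0 : (0 : ℝ) ≤ ∏ p ∈ Df j, (p : ℝ) := prod_nonneg fun _ _ => by positivity
      exact mul_le_mul (hM i hi a ha) (hM j hj a ha) hj0 (hi0.trans (hM i hi a ha))
    refine hle.trans ?_
    exact single_le_sum (f := fun a => (n a : ℝ) * M a ^ 2 / (2 * B a + 1))
      (fun b _ => by positivity) ha
  refine sum_le_sum fun i hi => sum_le_sum fun j hj => ?_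
  refine (le_abs_self _).trans ?_
  rw [abs_mul, abs_mul]
  refine mul_le_mul_of_nonneg_left ?_ (mul_nonneg (abs_nonneg _) (abs_nonneg _))
  by_cases hij : E i = E j
  · rw [if_pos hij]
    refine (abs_sum_le_sum_abs _ _).trans ((sum_le_sum (g := fun _ => (1 : ℝ))
      fun g _ => ?_).trans ?_)
    · rw [abs_mul]
      exact mul_le_one₀ (abs_prod_le_one' (h1 i hi) g) (abs_nonneg _)
        (abs_prod_le_one' (h1 j hj) g)
    · rw [sum_const, nsmul_eq_mul, mul_one]
  · rw [if_neg hij]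
    by_cases hsub : E i ⊆ E j
    · obtain ⟨p, hp, hp'⟩ : ∃ p ∈ E j, p ∉ E i := by
        by_contra hcon
        push Not at hcon
        exact hij (Subset.antisymm hsub hcon)
      have h := key j hj i hi p hp hp'
      refine le_trans (le_of_eq ?_) h
      congr 1
      exact sum_congr rfl fun g _ => mul_comm _ _
    · obtain ⟨p, hp, hp'⟩ := not_subset.1 hsub
      exact key i hi j hj p hp hp'

end Stoll308.TW
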