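import Pool.Agent.Work.MP_308fa9_nt.TW.Bx

set_option autoImplicit false

/-!
Cauchy's inequality over products of boxes (as `Gen.cauchy_piece`).
-/

namespace Stoll308.TW

open Finset Stoll308.Gen

variable {k : ℕ} {n : Fin k → ℕ}

theorem cauchy_fiber {ι : Type*} (A : Finset (Fin k)) (hn : ∀ a ∈ A, 0 < n a) (S : Finset ι)
    (G : ι → (i : Fin k) → Fin (n i) → ℤ) (hinj : Set.InjOn G S)
    (w : (i : Fin k) → Fin (n i) → ℤ) (hw : ∀ x ∈ S, ∀ i, i ∉ A → G x i = w i) (j : Fin k → ℕ)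
    (hj : ∀ x ∈ S, ∀ a ∈ A, ∀ y, |G x a y| ^ n a ≤ 2 ^ (j a + 1))
    (h : ((i : Fin k) → Fin (n i) → ℤ) → ℝ) {α : ℝ} (hα : 0 ≤ α) {β : Fin k → ℝ}
    (hβ : ∀ a ∈ A, 0 ≤ β a)
    (hh : ∀ B : Fin k → ℕ, ∑ g ∈ pbx n A w B, h g ^ 2 ≤
      (pbx n A w B).card * (α + ∑ a ∈ A, β a / (2 * B a + 1))) :
    ∑ x ∈ S, |h (G x)| ≤ (∏ a ∈ A, (2 * 3 ^ n a) * (2 : ℝ) ^ j a) *
      Real.sqrt (α + ∑ a ∈ A, β a * ((2 : ℝ) ^ (j a + 1)) ^ (-(n a : ℝ)⁻¹)) := by
  classical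
  set Y : Fin k → ℝ := fun a => ((2 : ℝ) ^ (j a + 1)) ^ ((n a : ℝ)⁻¹) with hY
  have hYn : ∀ a ∈ A, Y a ^ n a = 2 ^ (j a + 1) := fun a ha =>
    Real.rpow_inv_natCast_pow (by positivity) (hn a ha).ne'
  have hY0 : ∀ a, 0 < Y a := fun a => by positivity
  have hY1 : ∀ a, 1 ≤ Y a := fun a =>
    Real.one_le_rpow (one_le_pow₀ (by norm_num)) (by positivity)
  set B : Fin k → ℕ := fun a => ⌊Y a⌋₊ with hB
  have hBY : ∀ a, (B a : ℝ) ≤ Y a := fun a => Nat.floor_le (hY0 a).le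
  have hYB : ∀ a, Y a < B a + 1 := fun a => Nat.lt_floor_add_one _
  have hbox : ∀ x ∈ S, G x ∈ pbx n A w B := by
    intro x hx
    rw [mem_pbx]
    refine ⟨fun a ha => ?_, hw x hx⟩
    rw [mem_bx]
    intro y
    have h1 : ((|G x a y| : ℤ) : ℝ) ^ n a ≤ Y a ^ n a := by
      rw [hYn a ha]
      exact_mod_cast hj x hx a ha y
    have h2 : ((|G x a y| : ℤ) : ℝ) ≤ Y a := le_of_pow_le_pow_left₀ (hn a ha).ne' (hY0 a).le h1
    have h3 : ((G x a y).natAbs : ℝ) ≤ Y a := by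
      rw [Int.abs_eq_natAbs, Int.cast_natCast] at h2
      exact h2
    have h4 : (G x a y).natAbs ≤ B a := Nat.le_floor h3
    rw [Int.abs_eq_natAbs]
    exact_mod_cast h4
  have hc1 : ((pbx n A w B).card : ℝ) ≤ ∏ a ∈ A, (2 * 3 ^ n a) * (2 : ℝ) ^ j a := by
    rw [card_pbx]
    push_cast
    refine prod_le_prod (fun a _ => by positivity) fun a ha => ?_
    have h3Y : (2 * B a + 1 : ℝ) ≤ 3 * Y a := by linarith [hBY a, hY1 a]
    calc (2 * (B a : ℝ) + 1) ^ n a ≤ (3 * Y a) ^ n a := pow_le_pow_left₀ (by positivity) h3Y _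
      _ = 2 * 3 ^ n a * 2 ^ j a := by
        rw [mul_pow, hYn a ha, pow_succ]
        ring
  set T : ℝ := α + ∑ a ∈ A, β a * ((2 : ℝ) ^ (j a + 1)) ^ (-(n a : ℝ)⁻¹) with hT
  have hT0 : 0 ≤ T := add_nonneg hα (sum_nonneg fun a ha =>
    mul_nonneg (hβ a ha) (by positivity))
  have hTle : α + ∑ a ∈ A, β a / (2 * B a + 1) ≤ T := by
    rw [hT]
    refine add_le_add_right (sum_le_sum fun a ha => ?_) α
    rw [div_eq_mul_inv]
    refine mul_le_mul_of_nonneg_left ?_ (hβ a ha)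
    rw [Real.rpow_neg (by positivity)]
    refine inv_anti₀ (hY0 a) ?_
    have := hYB a
    have h0 : (0 : ℝ) ≤ B a := by positivity
    linarith
  have hsq : ∑ g ∈ pbx n A w B, h g ^ 2 ≤ (pbx n A w B).card * T :=
    (hh B).trans (mul_le_mul_of_nonneg_left hTle (by positivity))
  have hsum : ∑ g ∈ pbx n A w B, |h g| ≤ (pbx n A w B).card * Real.sqrt T := by
    have h1 : (∑ g ∈ pbx n A w B, |h g|) ^ 2 ≤ ((pbx n A w B).card * Real.sqrt T) ^ 2 := by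
      have h2 := sq_sum_le_card_mul_sum_sq (s := pbx n A w B) (f := fun g => |h g|)
      simp only [sq_abs] at h2
      refine h2.trans ?_
      rw [mul_pow, Real.sq_sqrt hT0, pow_two, mul_assoc]
      exact mul_le_mul_of_nonneg_left hsq (by positivity)
    exact le_of_sq_le_sq h1 (by positivity)
  have h2 : ∑ x ∈ S, |h (G x)| ≤ ∑ g ∈ pbx n A w B, |h g| := by
    rw [← sum_image (f := fun g => |h g|) hinj]
    refine sum_le_sum_of_subset_of_nonneg ?_ fun _ _ _ => abs_nonneg _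
    intro g hg
    obtain ⟨x, hx, rfl⟩ := mem_image.1 hg
    exact hbox x hx
  exact (h2.trans hsum).trans (mul_le_mul_of_nonneg_right hc1 (Real.sqrt_nonneg _))

end Stoll308.TW
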