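import Pool.Agent.Work.MP_308fa9_nt.TW.MainT
import Pool.Agent.Work.MP_308fa9_nt.Gen.NatUpper

set_option autoImplicit false

/-!
Sums over the primes of the ranges of the block analysis.
-/

namespace Stoll308.TW

open Finset Stoll308.Gen Stoll308.MeanSum Filter Topology

variable {k : ℕ}

/-- The lower Mertens bound for the primes with the property `Sp`. -/
def LowMert (Sp : ℕ → Prop) : Prop :=
  open Classical in
  ∃ κ B : ℝ, 0 < κ ∧ ∀ x y : ℝ, 3 ≤ x → x ≤ y →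
    κ * (Real.log (Real.log y) - Real.log (Real.log x)) - B ≤
      ∑ p ∈ (Icc 1 ⌊y⌋₊).filter (fun p : ℕ => p.Prime ∧ x < (p : ℝ) ∧ Sp p), 1 / (p : ℝ)

lemma scale_loglog {L : ℝ} (hL : 1 ≤ L) (Q : ℕ) (x : ℝ) :
    Real.log (Real.log (zz L Q x)) = x / Q * Real.log L := by
  unfold zz
  rw [Real.log_exp, Real.log_rpow (by linarith)]

lemma scale_mono {L : ℝ} (hL : 1 ≤ L) (Q : ℕ) {x y : ℝ} (hxy : x ≤ y) :
    zz L Q x ≤ zz L Q y :=
  Real.exp_le_exp.2 (Real.rpow_le_rpow_of_exponent_le hL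
    (div_le_div_of_nonneg_right hxy (Nat.cast_nonneg _)))

lemma scale_top (L : ℝ) {Q : ℕ} (hQ : 1 ≤ Q) : zz L Q (Q : ℝ) = Real.exp L := by
  have hQ0 : (Q : ℝ) ≠ 0 := by
    have : (0 : ℝ) < Q := by exact_mod_cast hQ
    exact this.ne'
  unfold zz
  rw [div_self hQ0, Real.rpow_one]

/-- The number `L` is so large that the scales with a positive index are at least `3`. -/
lemma scale_large {Q : ℕ} (hQ : 1 ≤ Q) : ∃ L₀ : ℝ, 1 ≤ L₀ ∧ ∀ L : ℝ, L₀ ≤ L → ∀ x : ℝ, 1 ≤ x →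
    3 ≤ zz L Q x := by
  have hQ0 : (0 : ℝ) < Q := by exact_mod_cast hQ
  obtain ⟨L₀, hL₀⟩ := eventually_atTop.1
    ((tendsto_rpow_atTop (show 0 < 1 / (Q : ℝ) by positivity)).eventually_ge_atTop (2 : ℝ))
  refine ⟨max L₀ 1, le_max_right _ _, fun L hL x hx => ?_⟩
  have h2 := hL₀ L ((le_max_left _ _).trans hL)
  have hL1 : 1 ≤ L := (le_max_right _ _).trans hL
  refine three_le_exp_two.trans (Real.exp_le_exp.2 (h2.trans ?_))
  exact Real.rpow_le_rpow_of_exponent_le hL1 (div_le_div_of_nonneg_right hx hQ0.le)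

/-- The sum over the primes of a range of scales. -/
lemma scale_range {Q : ℕ} (hQ : 1 ≤ Q) : ∃ C L₀ : ℝ, 0 ≤ C ∧ 1 ≤ L₀ ∧ ∀ L : ℝ, L₀ ≤ L →
    (∀ s : Finset ℕ, ∀ b : ℝ, 1 ≤ b → (∀ p ∈ s, p.Prime ∧ (p : ℝ) ≤ zz L Q b) →
      ∑ p ∈ s, 1 / (p : ℝ) ≤ b / Q * Real.log L + C) ∧
    (∀ s : Finset ℕ, ∀ a b : ℝ, 1 ≤ a → a ≤ b →
      (∀ p ∈ s, p.Prime ∧ zz L Q a < (p : ℝ) ∧ (p : ℝ) ≤ zz L Q b) →
      ∑ p ∈ s, 1 / (p : ℝ) ≤ (b - a) / Q * Real.log L + C) := by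
  classical
  obtain ⟨C, hC, h⟩ := mertens_real
  obtain ⟨L₀, hL₀, hlarge⟩ := scale_large hQ
  refine ⟨2 * C, L₀, by positivity, hL₀, fun L hL => ?_⟩
  have hL1 : 1 ≤ L := hL₀.trans hL
  have hup : ∀ b : ℝ, 1 ≤ b → ∑ p ∈ PR ⌊zz L Q b⌋₊, 1 / (p : ℝ) ≤ b / Q * Real.log L + C := by
    intro b hb
    have h1 := (abs_le.1 (h _ (hlarge L hL b hb))).2
    rw [scale_loglog hL1] at h1
    linarith
  have hlo : ∀ b : ℝ, 1 ≤ b → b / Q * Real.log L - C ≤ ∑ p ∈ PR ⌊zz L Q b⌋₊, 1 / (p : ℝ) := by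
    intro b hb
    have h1 := (abs_le.1 (h _ (hlarge L hL b hb))).1
    rw [scale_loglog hL1] at h1
    linarith
  constructor
  · intro s b hb hs
    have hsub : s ⊆ PR ⌊zz L Q b⌋₊ := fun p hp => by
      rw [mem_PR]
      exact ⟨(hs p hp).1, Nat.le_floor (hs p hp).2⟩
    have h1 := sum_le_sum_of_subset_of_nonneg (f := fun p : ℕ => 1 / (p : ℝ)) hsub
      fun p _ _ => by positivity
    linarith [hup b hb]
  · intro s a b ha hab hs
    have hdis : Disjoint s (PR ⌊zz L Q a⌋₊) := by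
      rw [Finset.disjoint_left]
      intro p hp hp'
      rw [mem_PR] at hp'
      have h1 := (hs p hp).2.1
      have h2 : (p : ℝ) ≤ zz L Q a :=
        (Nat.cast_le.2 hp'.2).trans (Nat.floor_le (Real.exp_pos _).le)
      linarith
    have hsub : s ∪ PR ⌊zz L Q a⌋₊ ⊆ PR ⌊zz L Q b⌋₊ := by
      intro p hp
      rw [mem_union] at hp
      rw [mem_PR]
      rcases hp with hp | hp
      · exact ⟨(hs p hp).1, Nat.le_floor (hs p hp).2.2⟩
      · rw [mem_PR] at hp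
        exact ⟨hp.1, hp.2.trans (Nat.floor_le_floor (scale_mono hL1 Q hab))⟩
    have h1 := sum_le_sum_of_subset_of_nonneg (f := fun p : ℕ => 1 / (p : ℝ)) hsub
      fun p _ _ => by positivity
    rw [sum_union hdis] at h1
    have e1 : (b - a) / Q * Real.log L = b / Q * Real.log L - a / Q * Real.log L := by ring
    rw [e1]
    linarith [hup b (ha.trans hab), hlo a ha]

lemma scale_sum_biUnion {ι : Type*} [DecidableEq ι] (s : Finset ι) (t : ι → Finset ℕ)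
    (f : ℕ → ℝ) (hf : ∀ p, 0 ≤ f p) : ∑ p ∈ s.biUnion t, f p ≤ ∑ i ∈ s, ∑ p ∈ t i, f p := by
  induction s using Finset.induction_on with
  | empty => simp
  | insert a s ha ih =>
    rw [biUnion_insert, sum_insert ha]
    have h1 : ∑ p ∈ t a ∪ s.biUnion t, f p ≤ ∑ p ∈ t a, f p + ∑ p ∈ s.biUnion t, f p := by
      rw [← sum_union_inter]
      exact le_add_of_nonneg_right (sum_nonneg fun p _ => hf p)
    linarith

open Classical in
/-- The primes up to `exp L` at which no condition is imposed: the sum of their inverses. -/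
theorem sum_unused (Q : ℕ) (hQ : 4 ≤ Q) : ∃ C L₀ : ℝ, 1 ≤ L₀ ∧ ∀ L : ℝ, L₀ ≤ L →
    ∀ μ ∈ Lv k Q, ∑ p ∈ (Icc 1 ⌊Real.exp L⌋₊).filter (fun p : ℕ => p.Prime ∧ ¬ InW L Q μ p),
      1 / (p : ℝ) ≤ (2 * k + 1) / Q * Real.log L + C := by
  obtain ⟨C, L₀, hC, hL₀, h⟩ := scale_range (Q := Q) (by omega)
  refine ⟨C + k * C, L₀, hL₀, fun L hL μ hμ => ?_⟩
  obtain ⟨h1, h2⟩ := h L hL
  have hL1 : 1 ≤ L := hL₀.trans hL
  have hlog : 0 ≤ Real.log L := Real.log_nonneg hL1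
  have hQ0 : (0 : ℝ) < Q := by
    have : 0 < Q := by omega
    exact_mod_cast this
  set F : Finset ℕ := (Icc 1 ⌊Real.exp L⌋₊).filter
    (fun p : ℕ => p.Prime ∧ ¬ InW L Q μ p) with hF
  set F0 : Finset ℕ := F.filter fun p : ℕ => (p : ℝ) ≤ zz L Q 1 with hF0
  set F1 : Fin k → Finset ℕ := fun i => F.filter fun p : ℕ =>
    zz L Q ((μ i : ℝ) - 1) < (p : ℝ) ∧ (p : ℝ) ≤ zz L Q ((μ i : ℝ) + 1) with hF1
  have hprime : ∀ p ∈ F, p.Prime := fun p hp => (mem_filter.1 hp).2.1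
  have hsub : F ⊆ F0 ∪ univ.biUnion F1 := by
    intro p hp
    have hp' := mem_filter.1 hp
    rw [mem_union, mem_biUnion]
    by_cases hp1 : (p : ℝ) ≤ zz L Q 1
    · exact Or.inl (mem_filter.2 ⟨hp, hp1⟩)
    · right
      have hnot := hp'.2.2
      unfold InW at hnot
      have hple : (p : ℝ) ≤ zz L Q Q := by
        rw [scale_top L (by omega)]
        exact (Nat.cast_le.2 (mem_Icc.1 hp'.1).2).trans (Nat.floor_le (Real.exp_pos _).le)
      have : ¬ ∀ i, (p : ℝ) ≤ zz L Q ((μ i : ℝ) - 1) ∨ zz L Q ((μ i : ℝ) + 1) < (p : ℝ) :=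
        fun hall => hnot ⟨not_le.1 hp1, hple, hall⟩
      push Not at this
      obtain ⟨i, hi1, hi2⟩ := this
      exact ⟨i, mem_univ _, mem_filter.2 ⟨hp, hi1, hi2⟩⟩
  have hs0 : ∑ p ∈ F0, 1 / (p : ℝ) ≤ 1 / Q * Real.log L + C :=
    h1 F0 1 le_rfl fun p hp => ⟨hprime p (mem_filter.1 hp).1, (mem_filter.1 hp).2⟩
  have hs1 : ∀ i, ∑ p ∈ F1 i, 1 / (p : ℝ) ≤ 2 / Q * Real.log L + C := by
    intro i
    rcases Nat.lt_or_ge (μ i) 2 with hi | hi
    · have hb : ((μ i : ℝ) + 1) / Q * Real.log L ≤ 2 / Q * Real.log L := by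
        refine mul_le_mul_of_nonneg_right ?_ hlog
        refine div_le_div_of_nonneg_right ?_ hQ0.le
        have : (μ i : ℝ) ≤ 1 := by exact_mod_cast (by omega : μ i ≤ 1)
        linarith
      have := h1 (F1 i) ((μ i : ℝ) + 1) (by
        have : (0 : ℝ) ≤ μ i := Nat.cast_nonneg _
        linarith) fun p hp => ⟨hprime p (mem_filter.1 hp).1, (mem_filter.1 hp).2.2⟩
      linarith
    · have hi2 : (2 : ℝ) ≤ μ i := by exact_mod_cast hi
      have := h2 (F1 i) ((μ i : ℝ) - 1) ((μ i : ℝ) + 1) (by linarith) (by linarith)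
        fun p hp => ⟨hprime p (mem_filter.1 hp).1, (mem_filter.1 hp).2⟩
      have e1 : ((μ i : ℝ) + 1 - ((μ i : ℝ) - 1)) / Q = 2 / Q := by ring
      rw [e1] at this
      exact this
  have hU : ∑ p ∈ univ.biUnion F1, 1 / (p : ℝ) ≤ ∑ i : Fin k, ∑ p ∈ F1 i, 1 / (p : ℝ) :=
    scale_sum_biUnion univ F1 (fun p : ℕ => 1 / (p : ℝ)) fun p => by positivity
  calc ∑ p ∈ F, 1 / (p : ℝ) ≤ ∑ p ∈ F0 ∪ univ.biUnion F1, 1 / (p : ℝ) :=
        sum_le_sum_of_subset_of_nonneg hsub fun p _ _ => by positivity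
    _ ≤ ∑ p ∈ F0, 1 / (p : ℝ) + ∑ p ∈ univ.biUnion F1, 1 / (p : ℝ) := by
        rw [← sum_union_inter]
        exact le_add_of_nonneg_right (sum_nonneg fun p _ => by positivity)
    _ ≤ (1 / Q * Real.log L + C) + ∑ i : Fin k, (2 / Q * Real.log L + C) :=
        add_le_add hs0 (hU.trans (sum_le_sum fun i _ => hs1 i))
    _ = _ := by
        rw [sum_const, card_univ, Fintype.card_fin, nsmul_eq_mul]
        ring

open Classical in
/-- The primes with the property `Sp` at which conditions are imposed. -/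
theorem sum_used (Sp : ℕ → Prop) (hS : LowMert Sp) : ∃ κ : ℝ, 0 < κ ∧ κ ≤ 1 ∧
    ∀ Q : ℕ, 4 ≤ Q → ∃ C L₀ : ℝ, 1 ≤ L₀ ∧ ∀ L : ℝ, L₀ ≤ L → ∀ μ ∈ Lv k Q,
      (κ - (2 * k + 2) / Q) * Real.log L - C ≤
        ∑ p ∈ (Icc 1 ⌊Real.exp L⌋₊).filter (fun p : ℕ => p.Prime ∧ InW L Q μ p ∧ Sp p),
          1 / (p : ℝ) := by
  obtain ⟨κ, B, hκ, h⟩ := hS
  refine ⟨min κ 1, lt_min hκ one_pos, min_le_right _ _, fun Q hQ => ?_⟩
  obtain ⟨C, L1, hL1, hun⟩ := sum_unused (k := k) Q hQ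
  obtain ⟨L2, hL2, hlarge⟩ := scale_large (Q := Q) (by omega)
  refine ⟨B + C, max L1 L2, hL1.trans (le_max_left _ _), fun L hL μ hμ => ?_⟩
  have hLL1 : L1 ≤ L := (le_max_left _ _).trans hL
  have hLL2 : L2 ≤ L := (le_max_right _ _).trans hL
  have hL1' : 1 ≤ L := hL1.trans hLL1
  have hlog : 0 ≤ Real.log L := Real.log_nonneg hL1'
  have hQ1 : 1 ≤ Q := by omega
  have hQ0 : (0 : ℝ) < Q := by exact_mod_cast hQ1
  have h1 := hun L hLL1 μ hμ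
  have h2 := h (zz L Q 1) (zz L Q Q) (hlarge L hLL2 1 le_rfl)
    (scale_mono hL1' Q (by exact_mod_cast hQ1))
  rw [scale_loglog hL1', scale_loglog hL1', scale_top L hQ1, div_self hQ0.ne', one_mul] at h2
  have hsub : (Icc 1 ⌊Real.exp L⌋₊).filter (fun p : ℕ => p.Prime ∧ zz L Q 1 < (p : ℝ) ∧ Sp p) ⊆
      (Icc 1 ⌊Real.exp L⌋₊).filter (fun p : ℕ => p.Prime ∧ InW L Q μ p ∧ Sp p) ∪
      (Icc 1 ⌊Real.exp L⌋₊).filter (fun p : ℕ => p.Prime ∧ ¬ InW L Q μ p) := by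
    intro p hp
    obtain ⟨hp1, hp2, hp3, hp4⟩ := mem_filter.1 hp
    rw [mem_union]
    by_cases hI : InW L Q μ p
    · exact Or.inl (mem_filter.2 ⟨hp1, hp2, hI, hp4⟩)
    · exact Or.inr (mem_filter.2 ⟨hp1, hp2, hI⟩)
  have h3 := sum_le_sum_of_subset_of_nonneg (f := fun p : ℕ => 1 / (p : ℝ)) hsub
    fun p _ _ => by positivity
  have h4 : ∑ p ∈ (Icc 1 ⌊Real.exp L⌋₊).filter (fun p : ℕ => p.Prime ∧ InW L Q μ p ∧ Sp p) ∪
      (Icc 1 ⌊Real.exp L⌋₊).filter (fun p : ℕ => p.Prime ∧ ¬ InW L Q μ p), 1 / (p : ℝ) ≤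
      ∑ p ∈ (Icc 1 ⌊Real.exp L⌋₊).filter (fun p : ℕ => p.Prime ∧ InW L Q μ p ∧ Sp p),
        1 / (p : ℝ) +
      ∑ p ∈ (Icc 1 ⌊Real.exp L⌋₊).filter (fun p : ℕ => p.Prime ∧ ¬ InW L Q μ p),
        1 / (p : ℝ) := by
    rw [← sum_union_inter]
    exact le_add_of_nonneg_right (sum_nonneg fun p _ => by positivity)
  have h5 : (min κ 1 - 1 / Q) * Real.log L ≤ κ * (Real.log L - 1 / Q * Real.log L) := by
    have e1 : κ * (Real.log L - 1 / Q * Real.log L) = κ * (1 - 1 / Q) * Real.log L := by ring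
    rw [e1]
    refine mul_le_mul_of_nonneg_right ?_ hlog
    have hQ4 : 1 / (Q : ℝ) ≤ 1 := by
      rw [div_le_one hQ0]
      exact_mod_cast hQ1
    have hQ5 : 0 ≤ 1 / (Q : ℝ) := by positivity
    have h6 : min κ 1 ≤ κ := min_le_left _ _
    have h7 : min κ 1 ≤ 1 := min_le_right _ _
    have h8 : min κ 1 * (1 - 1 / Q) ≤ κ * (1 - 1 / Q) :=
      mul_le_mul_of_nonneg_right h6 (by linarith)
    nlinarith
  have e2 : (min κ 1 - (2 * k + 2) / Q) * Real.log L =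
      (min κ 1 - 1 / Q) * Real.log L - (2 * k + 1) / Q * Real.log L := by ring
  rw [e2]
  linarith

/-- A component is active at all the primes at which conditions are imposed. -/
theorem AA_nonempty {L : ℝ} {Q : ℕ} {μ : Fin k → ℕ} (hμ : μ ∈ Lv k Q) {p : ℕ}
    (hp : InW L Q μ p) : (AA L Q μ p).Nonempty := by
  obtain ⟨-, i, hi⟩ := mem_filter.1 hμ
  obtain ⟨-, hp2, hp3⟩ := hp
  refine ⟨i, mem_filter.2 ⟨mem_univ _, ?_⟩⟩
  rcases hp3 i with h | h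
  · exact h
  · exfalso
    have e1 : (μ i : ℝ) + 1 = Q := by exact_mod_cast hi
    rw [e1] at h
    linarith

end Stoll308.TW
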