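import Pool.Agent.Work.MP_308fa9_nt.ChebE
import Pool.Agent.Work.MP_308fa9_nt.TW.Scale

set_option autoImplicit false

/-!
The primes modulo which `F` has a root and a quadratic factor `q` of `F` has none.
-/

namespace Stoll308.TW

open Finset Polynomial Stoll308.Gen NumberField

/-- An automorphism which fixes a root of `F` and moves the roots of `q`. -/
theorem exists_aut {L : Type} [Field L] [NumberField L] [IsGalois ℚ L] {q g : ℚ[X]}
    (hqi : Irreducible q) (hq2 : q.natDegree = 2) (hqL : (q.map (algebraMap ℚ L)).Splits)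
    (hg : Irreducible g) (hgL : (g.map (algebraMap ℚ L)).Splits)
    (hno : ∀ z : AdjoinRoot g, aeval z q ≠ 0) :
    ∃ σ : L ≃ₐ[ℚ] L, (∃ x : L, aeval x g = 0 ∧ σ x = x) ∧
      ∀ y : L, aeval y q = 0 → σ y ≠ y := by
  classical
  have hfact : Fact (Irreducible g) := ⟨hg⟩
  -- a root of `g`
  obtain ⟨x, hx⟩ : ∃ x : L, aeval x g = 0 := by
    have hdeg : (g.map (algebraMap ℚ L)).degree ≠ 0 := by
      rw [degree_map]
      exact (degree_pos_of_irreducible hg).ne'
    obtain ⟨x, hx⟩ := hgL.exists_eval_eq_zero hdeg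
    exact ⟨x, by rwa [eval_map_algebraMap] at hx⟩
  -- a root of `q`
  obtain ⟨y, hy⟩ : ∃ y : L, aeval y q = 0 := by
    have hdeg : (q.map (algebraMap ℚ L)).degree ≠ 0 := by
      rw [degree_map]
      exact (degree_pos_of_irreducible hqi).ne'
    obtain ⟨y, hy⟩ := hqL.exists_eval_eq_zero hdeg
    exact ⟨y, by rwa [eval_map_algebraMap] at hy⟩
  -- the embedding of the stem field
  let ψ : AdjoinRoot g →ₐ[ℚ] L := AdjoinRoot.liftAlgHom g (Algebra.ofId ℚ L) x hx
  have hψ : ψ (AdjoinRoot.root g) = x := AdjoinRoot.liftAlgHom_root ..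
  have hyK : y ∉ ψ.fieldRange := by
    rintro ⟨z, hz⟩
    apply hno z
    apply ψ.toRingHom.injective
    change ψ (aeval z q) = ψ 0
    rw [map_zero, ← aeval_algHom_apply]
    have : ψ z = y := hz
    rw [this, hy]
  obtain ⟨σ, hσ, hσy⟩ : ∃ σ ∈ ψ.fieldRange.fixingSubgroup, σ y ≠ y := by
    by_contra hcon
    push Not at hcon
    apply hyK
    rw [← IsGalois.fixedField_fixingSubgroup ψ.fieldRange, IntermediateField.mem_fixedField_iff]
    exact hcon
  refine ⟨σ, ⟨x, hx, ?_⟩, ?_⟩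
  · rw [IntermediateField.mem_fixingSubgroup_iff] at hσ
    exact hσ x ⟨AdjoinRoot.root g, hψ⟩
  · intro y' hy' hfix
    by_cases h1 : y' = y
    · exact hσy (h1 ▸ hfix)
    · -- three roots
      have h2 : aeval (σ y) q = 0 := by
        have := aeval_algHom_apply (σ : L →ₐ[ℚ] L) y q
        change aeval (σ y) q = σ (aeval y q) at this
        rw [this, hy, map_zero]
      have h3 : σ y ≠ y' := by
        intro h4
        rw [← hfix] at h4
        exact h1 (σ.injective h4).symm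
      have hq0 : q.map (algebraMap ℚ L) ≠ 0 := (Polynomial.map_ne_zero_iff
        (algebraMap ℚ L).injective).2 hqi.ne_zero
      have hmem : ∀ z : L, aeval z q = 0 → z ∈ (q.map (algebraMap ℚ L)).roots.toFinset := by
        intro z hz
        rw [Multiset.mem_toFinset, mem_roots hq0, IsRoot.def, eval_map_algebraMap]
        exact hz
      have hsub : ({y, y', σ y} : Finset L) ⊆ (q.map (algebraMap ℚ L)).roots.toFinset := by
        intro z hz
        rw [mem_insert, mem_insert, mem_singleton] at hz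
        rcases hz with rfl | rfl | rfl
        · exact hmem _ hy
        · exact hmem _ hy'
        · exact hmem _ h2
      have hc := card_le_card hsub
      have hc3 : ({y, y', σ y} : Finset L).card = 3 := by
        rw [card_insert_of_notMem, card_insert_of_notMem, card_singleton]
        · rw [mem_singleton]; exact h3.symm
        · rw [mem_insert, mem_singleton]
          rintro (h | h)
          · exact h1 h.symm
          · exact hσy h.symm
      have hc4 : (q.map (algebraMap ℚ L)).roots.toFinset.card ≤ 2 := by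
        refine (Multiset.toFinset_card_le _).trans ?_
        refine (card_roots' _).trans ?_
        rw [natDegree_map, hq2]
      omega

open Stoll308.Cheb Stoll308.MeanSum Pool.Agent.Work.MP_2b9663_nt in
/-- Mertens from below, from the mean value of a function of the primes. -/
private theorem lowMert_of_MV {c : Nat.Primes → ℝ} {κ : ℝ} (hκ0 : 0 < κ) (hMV : MV c κ)
    (hc1 : ∀ p, c p ≤ 1) {N : ℕ} (hN : N ≠ 0) (Sp : ℕ → Prop)
    (hgood : ∀ p : Nat.Primes, ¬ (p : ℕ) ∣ N → 0 < c p → Sp p) : LowMert Sp := by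
  classical
  obtain ⟨C, hC, hM⟩ := mertens hMV
  refine ⟨κ, 2 * C + ∑ p ∈ N.primeFactors, 1 / (p : ℝ) + 1 + κ, hκ0, fun x y hx hxy => ?_⟩
  have hy : 3 ≤ y := hx.trans hxy
  have hX3 : 3 ≤ ⌊x⌋₊ := Nat.le_floor (by exact_mod_cast hx)
  have hY3 : 3 ≤ ⌊y⌋₊ := Nat.le_floor (by exact_mod_cast hy)
  have h1 := (abs_le.1 (hM ⌊x⌋₊ hX3)).2
  have h2 := (abs_le.1 (hM ⌊y⌋₊ hY3)).1
  have hXY : ⌊x⌋₊ ≤ ⌊y⌋₊ := Nat.floor_mono hxy
  -- the sum over the interval
  have h3 : ∑ p ∈ PR ⌊y⌋₊, ex c p / p - ∑ p ∈ PR ⌊x⌋₊, ex c p / p =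
      ∑ p ∈ (PR ⌊y⌋₊) \ (PR ⌊x⌋₊), ex c p / p := by
    rw [sum_sdiff_eq_sub]
    intro p hp
    rw [mem_PR] at hp ⊢
    exact ⟨hp.1, hp.2.trans hXY⟩
  have h4 : ∑ p ∈ (PR ⌊y⌋₊) \ (PR ⌊x⌋₊), ex c p / p ≤
      (∑ p ∈ (Icc 1 ⌊y⌋₊).filter (fun p : ℕ => p.Prime ∧ x < (p : ℝ) ∧ Sp p), 1 / (p : ℝ)) +
        ∑ p ∈ N.primeFactors, 1 / (p : ℝ) := by
    rw [← sum_filter_add_sum_filter_not ((PR ⌊y⌋₊) \ (PR ⌊x⌋₊)) (fun p : ℕ => ¬ p ∣ N)]
    apply add_le_add
    · have h5 : ∀ p ∈ ((PR ⌊y⌋₊) \ (PR ⌊x⌋₊)).filter (fun p : ℕ => ¬ p ∣ N),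
          ex c p / p ≤ if Sp p then 1 / (p : ℝ) else 0 := by
        intro p hp
        rw [mem_filter, mem_sdiff, mem_PR] at hp
        have hpp := hp.1.1.1
        have h6 : ex c p = c ⟨p, hpp⟩ := ex_apply c ⟨p, hpp⟩
        rw [h6]
        by_cases h7 : 0 < c ⟨p, hpp⟩
        · rw [if_pos (hgood ⟨p, hpp⟩ hp.2 h7)]
          exact div_le_div_of_nonneg_right (hc1 _) (Nat.cast_nonneg p)
        · have h8 : c ⟨p, hpp⟩ / (p : ℝ) ≤ 0 :=
            div_nonpos_of_nonpos_of_nonneg (not_lt.1 h7) (Nat.cast_nonneg p)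
          refine h8.trans ?_
          split_ifs
          · positivity
          · exact le_rfl
      refine (sum_le_sum h5).trans ?_
      rw [← sum_filter]
      apply sum_le_sum_of_subset_of_nonneg
      · intro p hp
        rw [mem_filter, mem_filter, mem_sdiff, mem_PR, mem_PR] at hp
        obtain ⟨⟨⟨⟨hpp, hpy⟩, hpx⟩, _⟩, hR⟩ := hp
        rw [mem_filter, mem_Icc]
        refine ⟨⟨hpp.one_le, hpy⟩, hpp, ?_, hR⟩
        by_contra hcon
        push Not at hcon
        exact hpx ⟨hpp, Nat.le_floor hcon⟩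
      · intro p _ _
        positivity
    · have h5 : ∀ p ∈ ((PR ⌊y⌋₊) \ (PR ⌊x⌋₊)).filter (fun p : ℕ => ¬ ¬ p ∣ N),
          ex c p / p ≤ 1 / (p : ℝ) := by
        intro p hp
        rw [mem_filter, mem_sdiff, mem_PR] at hp
        have hpp := hp.1.1.1
        have h6 : ex c p = c ⟨p, hpp⟩ := ex_apply c ⟨p, hpp⟩
        rw [h6]
        exact div_le_div_of_nonneg_right (hc1 _) (Nat.cast_nonneg p)
      refine (sum_le_sum h5).trans ?_
      apply sum_le_sum_of_subset_of_nonneg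
      · intro p hp
        rw [mem_filter, mem_sdiff, mem_PR, not_not] at hp
        rw [Nat.mem_primeFactors]
        exact ⟨hp.1.1.1, hp.2, hN⟩
      · intro p _ _
        positivity
  -- comparison of the double logarithms
  have hx1 : (3 : ℝ) ≤ ⌊x⌋₊ := by exact_mod_cast hX3
  have hy1 : (3 : ℝ) ≤ ⌊y⌋₊ := by exact_mod_cast hY3
  have hlog3 : 1 ≤ Real.log 3 := by
    have : Real.log (Real.exp 1) ≤ Real.log 3 :=
      Real.log_le_log (Real.exp_pos 1) (Real.exp_one_lt_d9.le.trans (by norm_num))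
    rwa [Real.log_exp] at this
  have h5 : Real.log (Real.log ⌊x⌋₊) ≤ Real.log (Real.log x) := by
    apply Real.log_le_log
    · exact Real.log_pos (by linarith)
    · exact Real.log_le_log (by linarith) (Nat.floor_le (by linarith))
  have h6 : Real.log (Real.log y) - 1 ≤ Real.log (Real.log ⌊y⌋₊) := by
    have h7 : y ≤ 2 * ⌊y⌋₊ := by
      have := Nat.lt_floor_add_one y
      linarith
    have h8 : 1 ≤ Real.log ⌊y⌋₊ := hlog3.trans (Real.log_le_log (by norm_num) hy1)
    have h9 : Real.log y ≤ 2 * Real.log ⌊y⌋₊ := by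
      have h10 : Real.log y ≤ Real.log (2 * ⌊y⌋₊) := Real.log_le_log (by linarith) h7
      rw [Real.log_mul (by norm_num) (by linarith)] at h10
      have h11 : Real.log 2 ≤ 1 := by
        have := Real.log_two_lt_d9
        linarith
      linarith
    have h12 : Real.log (Real.log y) ≤ Real.log (2 * Real.log ⌊y⌋₊) :=
      Real.log_le_log (Real.log_pos (by linarith)) h9
    rw [Real.log_mul (by norm_num) (by linarith)] at h12
    have h11 : Real.log 2 ≤ 1 := by
      have := Real.log_two_lt_d9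
      linarith
    linarith
  have h13 := mul_le_mul_of_nonneg_left h5 hκ0.le
  have h14 := mul_le_mul_of_nonneg_left h6 hκ0.le
  have h15 : κ * (Real.log (Real.log y) - 1) = κ * Real.log (Real.log y) - κ := by ring
  have h16 : κ * (Real.log (Real.log y) - Real.log (Real.log x)) =
    κ * Real.log (Real.log y) - κ * Real.log (Real.log x) := by ring
  rw [h16]
  linarith

/-- The roots of a monic polynomial over `ℤ` in the ring of integers, if it splits. -/
private theorem exists_roots_int {L : Type} [Field L] [NumberField L] {f : ℤ[X]} (hf : f.Monic)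
    (hs : (f.map (Int.castRingHom L)).Splits) (hsep : (f.map (Int.castRingHom L)).Separable) :
    ∃ s : Finset (𝓞 L), (∀ x, x ∈ s ↔ eval₂ (Int.castRingHom (𝓞 L)) x f = 0) ∧
      f.map (Int.castRingHom (𝓞 L)) = ∏ x : s, (X - C x.1) := by
  classical
  have hmon' : (f.map (Int.castRingHom (𝓞 L))).Monic := hf.map _
  have hmem : ∀ x, x ∈ (f.map (Int.castRingHom (𝓞 L))).roots.toFinset ↔
      eval₂ (Int.castRingHom (𝓞 L)) x f = 0 := by
    intro x
    rw [Multiset.mem_toFinset, mem_roots hmon'.ne_zero, IsRoot.def, eval_map]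
  exact ⟨_, hmem, Cheb.factor_of_splits hf hs hsep _ hmem⟩

/-- The Galois group acts on the roots. -/
private theorem smul_root {L : Type} [Field L] [NumberField L] {f : ℤ[X]} (σ : L ≃ₐ[ℚ] L)
    {x : 𝓞 L} (hx : eval₂ (Int.castRingHom (𝓞 L)) x f = 0) :
    eval₂ (Int.castRingHom (𝓞 L)) (σ • x) f = 0 := by
  have h4 := congrArg (MulSemiringAction.toRingHom (L ≃ₐ[ℚ] L) (𝓞 L) σ) hx
  rw [hom_eval₂, map_zero] at h4
  have h5 : (MulSemiringAction.toRingHom (L ≃ₐ[ℚ] L) (𝓞 L) σ).comp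
    (Int.castRingHom (𝓞 L)) = Int.castRingHom (𝓞 L) := RingHom.ext_int _ _
  rw [h5] at h4
  exact h4

open Stoll308.Cheb Stoll308.MeanSum Pool.Agent.Work.MP_2b9663_nt in
open Classical in
/-- The primes modulo which `F` has a root and the quadratic factor `q` has none. -/
theorem lowMert_quad (F q : ℤ[X]) (hF : F.Monic) (hsep : (F.map (Int.castRingHom ℚ)).Separable)
    (hq : q.Monic) (hq2 : q.natDegree = 2) (hqi : Irreducible (q.map (Int.castRingHom ℚ)))
    (hqF : q ∣ F) {g : ℚ[X]} (hg : Irreducible g) (hgF : g ∣ F.map (Int.castRingHom ℚ))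
    (hno : ∀ z : AdjoinRoot g, aeval z (q.map (Int.castRingHom ℚ)) ≠ 0) :
    LowMert fun p => (R F p).Nonempty ∧ ¬ (R q p).Nonempty := by
  obtain ⟨L, _, _, hG, hs0⟩ := exists_splitting (F.map (Int.castRingHom ℚ)) hsep
  have hcomp : ∀ f : ℤ[X], f.map (Int.castRingHom L) =
      (f.map (Int.castRingHom ℚ)).map (algebraMap ℚ L) := by
    intro f
    rw [Polynomial.map_map]
    congr 1
    exact RingHom.ext_int _ _
  have hF0 : F.map (Int.castRingHom ℚ) ≠ 0 := (hF.map _).ne_zero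
  have hF0L : (F.map (Int.castRingHom ℚ)).map (algebraMap ℚ L) ≠ 0 := ((hF.map _).map _).ne_zero
  have hqFQ : q.map (Int.castRingHom ℚ) ∣ F.map (Int.castRingHom ℚ) := Polynomial.map_dvd _ hqF
  have hqL : ((q.map (Int.castRingHom ℚ)).map (algebraMap ℚ L)).Splits :=
    hs0.of_dvd hF0L (Polynomial.map_dvd _ hqFQ)
  have hgL : (g.map (algebraMap ℚ L)).Splits := hs0.of_dvd hF0L (Polynomial.map_dvd _ hgF)
  have hsepq : (q.map (Int.castRingHom ℚ)).Separable := hsep.of_dvd hqFQ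
  obtain ⟨s, hs, hfac⟩ := exists_roots_int (L := L) hF (by rw [hcomp]; exact hs0)
    (by rw [hcomp]; exact Polynomial.Separable.map hsep)
  obtain ⟨s', hs', hfac'⟩ := exists_roots_int (L := L) hq (by rw [hcomp]; exact hqL)
    (by rw [hcomp]; exact Polynomial.Separable.map hsepq)
  obtain ⟨N, hN, hbad⟩ := exists_bad (L := L) (ι := s) (θ := fun x => x.1)
    Subtype.val_injective
  obtain ⟨N', hN', hbad'⟩ := exists_bad (L := L) (ι := s') (θ := fun x => x.1)
    Subtype.val_injective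
  -- the class function
  set φ : (L ≃ₐ[ℚ] L) → ℝ := fun σ =>
    if (∃ x ∈ s, σ • x = x) ∧ ∀ y ∈ s', σ • y ≠ y then 1 else 0 with hφ
  have hstab : ∀ (σ : L ≃ₐ[ℚ] L), ∀ x ∈ s, σ • x ∈ s := fun σ x hx =>
    (hs _).2 (smul_root σ ((hs x).1 hx))
  have hstab' : ∀ (σ : L ≃ₐ[ℚ] L), ∀ x ∈ s', σ • x ∈ s' := fun σ x hx =>
    (hs' _).2 (smul_root σ ((hs' x).1 hx))
  have hconj : ∀ g σ, φ (g * σ * g⁻¹) = φ σ := by
    intro g σ
    have key : ∀ x : 𝓞 L, (g * σ * g⁻¹) • x = x ↔ σ • (g⁻¹ • x) = g⁻¹ • x := by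
      intro x
      rw [mul_smul, mul_smul, smul_eq_iff_eq_inv_smul]
    have h1 : ((∃ x ∈ s, (g * σ * g⁻¹) • x = x) ∧ ∀ y ∈ s', (g * σ * g⁻¹) • y ≠ y) ↔
        ((∃ x ∈ s, σ • x = x) ∧ ∀ y ∈ s', σ • y ≠ y) := by
      constructor
      · rintro ⟨⟨x, hx, hx'⟩, hy⟩
        refine ⟨⟨g⁻¹ • x, hstab _ _ hx, (key x).1 hx'⟩, fun y hy' hc => ?_⟩
        apply hy (g • y) (hstab' _ _ hy')
        rw [key, inv_smul_smul]
        exact hc
      · rintro ⟨⟨x, hx, hx'⟩, hy⟩
        refine ⟨⟨g • x, hstab _ _ hx, ?_⟩, fun y hy' hc => ?_⟩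
        · rw [key, inv_smul_smul]
          exact hx'
        · exact hy (g⁻¹ • y) (hstab' _ _ hy') ((key y).1 hc)
    simp only [hφ, h1]
  have hdiv : ∀ σ τ, Subgroup.zpowers σ = Subgroup.zpowers τ → φ σ = φ τ := by
    intro σ τ h
    have key : ∀ (σ τ : L ≃ₐ[ℚ] L), Subgroup.zpowers σ = Subgroup.zpowers τ → ∀ x : 𝓞 L,
        σ • x = x → τ • x = x := by
      intro σ τ h x hx
      have h1 : τ ∈ MulAction.stabilizer (L ≃ₐ[ℚ] L) x := by
        have h2 : Subgroup.zpowers σ ≤ MulAction.stabilizer (L ≃ₐ[ℚ] L) x := by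
          rw [Subgroup.zpowers_le]
          exact hx
        rw [h] at h2
        exact h2 (Subgroup.mem_zpowers τ)
      exact h1
    have key2 : ∀ x : 𝓞 L, σ • x = x ↔ τ • x = x := fun x =>
      ⟨key σ τ h x, key τ σ h.symm x⟩
    simp only [hφ, ne_eq, key2]
  have hMV := MV_class L φ hconj hdiv
  -- the mean value is positive
  obtain ⟨σ₀, ⟨x₀, hx₀, hx₀'⟩, hy₀⟩ := exists_aut (L := L) hqi
    (by rw [hq.natDegree_map, hq2]) hqL hg hgL hno
  have hφ0 : φ σ₀ = 1 := by
    simp only [hφ]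
    rw [if_pos]
    refine ⟨?_, ?_⟩
    · have hFx : aeval x₀ (F.map (Int.castRingHom ℚ)) = 0 := by
        obtain ⟨u, hu⟩ := hgF
        rw [hu, map_mul, hx₀, zero_mul]
      have hFx' : eval₂ (Int.castRingHom L) x₀ F = 0 := by
        rw [← eval_map, hcomp, eval_map_algebraMap]
        exact hFx
      have hint : IsIntegral ℤ x₀ := ⟨F, hF, hFx'⟩
      obtain ⟨z, hz⟩ : ∃ z : 𝓞 L, algebraMap (𝓞 L) L z = x₀ := ⟨⟨x₀, hint⟩, rfl⟩
      refine ⟨z, ?_, ?_⟩
      · rw [hs]
        apply RingOfIntegers.coe_injective (K := L)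
        have h1 : (algebraMap (𝓞 L) L).comp (Int.castRingHom (𝓞 L)) = Int.castRingHom L :=
          RingHom.ext_int _ _
        rw [map_zero, hom_eval₂, h1, hz]
        exact hFx'
      · apply RingOfIntegers.coe_injective (K := L)
        change σ₀ (algebraMap (𝓞 L) L z) = algebraMap (𝓞 L) L z
        rw [hz, hx₀']
    · intro y hy hc
      apply hy₀ (algebraMap (𝓞 L) L y)
      · have h1 : (algebraMap (𝓞 L) L).comp (Int.castRingHom (𝓞 L)) = Int.castRingHom L :=
          RingHom.ext_int _ _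
        have h2 := congrArg (algebraMap (𝓞 L) L) ((hs' y).1 hy)
        rw [hom_eval₂, h1, map_zero, ← eval_map, hcomp, eval_map_algebraMap] at h2
        exact h2
      · have := congrArg (algebraMap (𝓞 L) L) hc
        exact this
  have hsum : 0 < ∑ σ, φ σ := by
    have h1 : φ σ₀ ≤ ∑ σ, φ σ := single_le_sum (f := φ) (fun σ _ => by
      simp only [hφ]
      split_ifs <;> norm_num) (mem_univ σ₀)
    rw [hφ0] at h1
    linarith
  have hκ : 0 < (∑ σ, φ σ) / Fintype.card (L ≃ₐ[ℚ] L) := by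
    have : 0 < Fintype.card (L ≃ₐ[ℚ] L) := Fintype.card_pos
    positivity
  refine lowMert_of_MV hκ hMV (fun p => ?_) (mul_ne_zero hN hN') _ ?_
  · simp only [hφ]
    split_ifs <;> norm_num
  · intro p hp hpos
    have hpF : Fact (p : ℕ).Prime := ⟨p.2⟩
    have hp1 : ¬ (p : ℕ) ∣ N := fun h => hp (h.mul_right N')
    have hp2 : ¬ (p : ℕ) ∣ N' := fun h => hp (h.mul_left N)
    have hcond : (∃ x ∈ s, frob L p • x = x) ∧ ∀ y ∈ s', frob L p • y ≠ y := by
      by_contra hcon
      simp only [hφ] at hpos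
      rw [if_neg hcon] at hpos
      exact lt_irrefl _ hpos
    obtain ⟨⟨x, hx, hx'⟩, hy⟩ := hcond
    constructor
    · rw [← card_pos, card_R, (frob_spec L p).nroots_eq hfac (hbad p hp1 _ _ (frob_spec L p))]
      have : Nonempty {i : s // frob L p • i.1 = i.1} := ⟨⟨⟨x, hx⟩, hx'⟩⟩
      exact Nat.card_pos
    · rw [not_nonempty_iff_eq_empty, ← card_eq_zero, card_R,
        (frob_spec L p).nroots_eq hfac' (hbad' p hp2 _ _ (frob_spec L p))]
      have : IsEmpty {i : s' // frob L p • i.1 = i.1} := ⟨fun i => hy i.1.1 i.1.2 i.2⟩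
      exact Nat.card_of_isEmpty

end Stoll308.TW
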