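import Pool.Agent.Work.MP_308fa9_nt.TW.Scale

set_option autoImplicit false

/-!
Components of degree two: the level vectors for which a range of scales with a single active
component of degree two is short.
-/

namespace Stoll308.TW

open Finset Stoll308.Gen

variable {k : ℕ}

/-- At most `h` levels between the largest level and the second largest one, if the component with
the largest level is in `E`. -/
def GoodV (E : Finset (Fin k)) (h Q : ℕ) (μ : Fin k → ℕ) : Prop :=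
  ∀ i ∈ E, μ i + 1 = Q → ∃ j, j ≠ i ∧ Q < μ j + h

/-- A single active component `i ∈ E` at `p`: then `i` has the top level and `p` is large. -/
theorem goodV_large {E : Finset (Fin k)} {h Q : ℕ} {μ : Fin k → ℕ} (hμ : μ ∈ Lv k Q)
    (hg : GoodV E h Q μ) {L : ℝ} (hL : 1 ≤ L) {p : ℕ} (hp : InW L Q μ p) {i : Fin k} (hi : i ∈ E)
    (hA : AA L Q μ p = {i}) : zz L Q ((Q : ℝ) - h) < (p : ℝ) := by
  classical
  obtain ⟨-, i₀, hi₀⟩ := mem_filter.1 hμ
  obtain ⟨-, hp2, hp3⟩ := hp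
  have h1 : i₀ ∈ AA L Q μ p := by
    refine mem_filter.2 ⟨mem_univ _, ?_⟩
    rcases hp3 i₀ with h | h
    · exact h
    · exfalso
      have e1 : (μ i₀ : ℝ) + 1 = Q := by exact_mod_cast hi₀
      rw [e1] at h
      linarith
  rw [hA, mem_singleton] at h1
  subst h1
  obtain ⟨j, hj, hjQ⟩ := hg i₀ hi hi₀
  have h2 : j ∉ AA L Q μ p := by
    rw [hA, mem_singleton]
    exact hj
  have h3 : zz L Q ((μ j : ℝ) + 1) < (p : ℝ) := by
    rcases hp3 j with h | h
    · refine absurd ?_ h2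
      exact mem_filter.2 ⟨mem_univ _, h⟩
    · exact h
  refine lt_of_le_of_lt (scale_mono hL Q ?_) h3
  have h4 : (Q : ℝ) < (μ j : ℝ) + h := by exact_mod_cast hjQ
  linarith

open Classical in
/-- The primes with a single active component `i ∈ E`. -/
theorem sum_exc (E : Finset (Fin k)) (h Q : ℕ) (hQ : 4 ≤ Q) (hh : h + 1 ≤ Q) : ∃ C L₀ : ℝ,
    1 ≤ L₀ ∧ ∀ L : ℝ, L₀ ≤ L → ∀ μ ∈ Lv k Q, GoodV E h Q μ →
      ∑ p ∈ (Icc 1 ⌊Real.exp L⌋₊).filter
        (fun p : ℕ => p.Prime ∧ InW L Q μ p ∧ ∃ i ∈ E, AA L Q μ p = {i}), 1 / (p : ℝ) ≤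
        h / Q * Real.log L + C := by
  obtain ⟨C, L₀, hC, hL₀, hr⟩ := scale_range (Q := Q) (by omega)
  refine ⟨C, L₀, hL₀, fun L hL μ hμ hg => ?_⟩
  have hL1 : 1 ≤ L := hL₀.trans hL
  have hh' : (h : ℝ) + 1 ≤ Q := by exact_mod_cast hh
  have h1 := (hr L hL).2 ((Icc 1 ⌊Real.exp L⌋₊).filter
        (fun p : ℕ => p.Prime ∧ InW L Q μ p ∧ ∃ i ∈ E, AA L Q μ p = {i})) ((Q : ℝ) - h) Q
    (by linarith) (by
      have : (0 : ℝ) ≤ h := Nat.cast_nonneg _
      linarith) (fun p hp => by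
      obtain ⟨_, h2, h3, i, hi, h4⟩ := mem_filter.1 hp
      exact ⟨h2, goodV_large hμ hg hL1 h3 hi h4, h3.2.1⟩)
  have e1 : ((Q : ℝ) - ((Q : ℝ) - h)) / Q = h / Q := by ring
  rw [e1] at h1
  exact h1

end Stoll308.TW
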