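import Pool.Agent.Work.MP_308fa9_nt.TW.Exp

set_option autoImplicit false

/-!
The fibres of the outer label functions: the labels outside the large primes of the components
`i ∈ A`, the dyadic sizes and the `κ` determine the coefficients.
-/

namespace Stoll308.TW

open Finset Stoll308.Gen

variable {k : ℕ}

private lemma mask_r {A : Finset (Fin k)} {Z : Fin k → ℝ} {r : ℕ → Lab k} {p : ℕ} {i : Fin k}
    {a : ℕ} (h : r p = .r i a) :
    (i ∈ A ∧ Z i < (p : ℝ) → mask A Z r p = .o) ∧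
      (¬ (i ∈ A ∧ Z i < (p : ℝ)) → mask A Z r p = .r i a) := by
  unfold mask
  rw [h]
  constructor
  · intro h'
    exact if_pos h'
  · intro h'
    exact if_neg h'

private lemma mask_o {A : Finset (Fin k)} {Z : Fin k → ℝ} {r : ℕ → Lab k} {p : ℕ}
    (h : r p = .o) : mask A Z r p = .o := by
  unfold mask
  rw [h]

private lemma mask_u {A : Finset (Fin k)} {Z : Fin k → ℝ} {r : ℕ → Lab k} {p : ℕ}
    (h : r p = .u) : mask A Z r p = .u := by
  unfold mask
  rw [h]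

private lemma mem_cut {Z : Fin k → ℝ} {i : Fin k} {S : Finset ℕ} {r : ℕ → Lab k} {p : ℕ} :
    p ∈ cut Z i S r ↔ p ∈ S ∧ (∃ a, r p = .r i a) ∧ Z i < (p : ℝ) := by
  unfold cut cpt
  rw [mem_filter, mem_filter]
  constructor
  · rintro ⟨⟨h1, h2⟩, h3⟩
    exact ⟨h1, ⟨_, h2⟩, h3⟩
  · rintro ⟨h1, ⟨a, h2⟩, h3⟩
    refine ⟨⟨h1, ?_⟩, h3⟩
    rw [h2]
    rfl

/-- Masking depends only on the value at the point. -/
private lemma mask_congr (A : Finset (Fin k)) (Z : Fin k → ℝ) {r r' : ℕ → Lab k} {p : ℕ}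
    (h : r p = r' p) : mask A Z r p = mask A Z r' p := by
  unfold mask
  rw [h]

private lemma mask_mask {A B : Finset (Fin k)} (hAB : A ⊆ B) (Z : Fin k → ℝ) (r : ℕ → Lab k) :
    mask B Z (mask A Z r) = mask B Z r := by
  funext p
  cases h : r p with
  | o => rw [mask_o h, mask_o (mask_o h)]
  | u => rw [mask_u h, mask_u (mask_u h)]
  | r i a =>
    by_cases hi : i ∈ A ∧ Z i < (p : ℝ)
    · rw [mask_o ((mask_r h).1 hi), (mask_r h).1 ⟨hAB hi.1, hi.2⟩]
    · have h1 := (mask_r h).2 hi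
      by_cases hB : i ∈ B ∧ Z i < (p : ℝ)
      · rw [(mask_r h1).1 hB, (mask_r h).1 hB]
      · rw [(mask_r h1).2 hB, (mask_r h).2 hB]

/-- The large primes of a component outside `A` are not masked. -/
private lemma mask_cut {A : Finset (Fin k)} {i : Fin k} (hi : i ∉ A) (Z : Fin k → ℝ)
    (r : ℕ → Lab k) (p : ℕ) (a : ℕ) : mask A Z r p = .r i a ↔ r p = .r i a := by
  constructor
  · intro h
    cases h' : r p with
    | o =>
      rw [mask_o h'] at h
      exact nomatch h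
    | u =>
      rw [mask_u h'] at h
      exact nomatch h
    | r j b =>
      by_cases hj : j ∈ A ∧ Z j < (p : ℝ)
      · rw [(mask_r h').1 hj] at h
        exact nomatch h
      · rw [(mask_r h').2 hj] at h
        exact h
  · intro h
    exact (mask_r h).2 fun h' => hi h'.1

namespace Sys

variable {D : Sys k} {N : ℕ} {L : ℝ} {Q : ℕ} {μ : Fin k → ℕ}

/-- Two outer label functions in the same fibre. -/
structure Same (D : Sys k) (N : ℕ) (L : ℝ) (Q : ℕ) (μ : Fin k → ℕ) (A : Finset (Fin k))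
    (ro ro' : ℕ → Lab k) : Prop where
  mask : mask A (Zc L Q μ) ro = mask A (Zc L Q μ) ro'
  j : ∀ i ∈ Big μ, D.jl N L Q μ ro i = D.jl N L Q μ ro' i
  κ : ∀ i, D.ko N L Q μ ro i = D.ko N L Q μ ro' i

variable {A : Finset (Fin k)} {ro ro' : ℕ → Lab k}

theorem Same.VV (h : Same D N L Q μ A ro ro') (hA : A ⊆ Big μ) :
    D.VV N L Q μ ro = D.VV N L Q μ ro' := by
  unfold Sys.VV
  rw [sum_congr rfl h.j]
  congr 1
  rw [← mask_mask hA (Zc L Q μ) ro, ← mask_mask hA (Zc L Q μ) ro', h.mask]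

theorem Same.go (h : Same D N L Q μ A ro ro') {i : Fin k} (hi : i ∉ A) :
    D.go N L Q μ ro i = D.go N L Q μ ro' i := by
  unfold Sys.go gv
  have key : ∀ p a, ro p = .r i a ↔ ro' p = .r i a := by
    intro p a
    rw [← mask_cut hi (Zc L Q μ) ro p a, ← mask_cut hi (Zc L Q μ) ro' p a, h.mask]
  have h1 : cut (Zc L Q μ) i (SO L Q μ D.C₀ N) ro = cut (Zc L Q μ) i (SO L Q μ D.C₀ N) ro' := by
    ext p
    rw [mem_cut, mem_cut]
    constructor
    · rintro ⟨h1, ⟨a, h2⟩, h3⟩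
      exact ⟨h1, ⟨a, (key p a).1 h2⟩, h3⟩
    · rintro ⟨h1, ⟨a, h2⟩, h3⟩
      exact ⟨h1, ⟨a, (key p a).2 h2⟩, h3⟩
  rw [← h1]
  refine D.g_congr i _ _ _ fun p hp => ?_
  obtain ⟨_, ⟨a, h2⟩, _⟩ := mem_cut.1 hp
  unfold rts
  rw [h2, (key p a).1 h2]

theorem Same.cI (h : Same D N L Q μ A ro ro') (s : ℤ) (e : Finset (Fin k) → Fin D.m)
    (ri : ℕ → Lab k) {p : ℕ} (hp : A ⊆ AA L Q μ p) (c : ℕ) :
    D.cI N L Q μ s e ro ri p c = D.cI N L Q μ s e ro' ri p c := by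
  unfold Sys.cI
  have h1 : Stoll308.TW.mask (AA L Q μ p) (Zc L Q μ) (D.join N L Q μ ro ri) =
      Stoll308.TW.mask (AA L Q μ p) (Zc L Q μ) (D.join N L Q μ ro' ri) := by
    funext q
    by_cases hq : q ∈ SI L Q μ D.C₀ N
    · refine mask_congr _ _ ?_
      unfold join
      rw [if_pos hq, if_pos hq]
    · have e1 : ∀ r, Stoll308.TW.mask (AA L Q μ p) (Zc L Q μ) (D.join N L Q μ r ri) q =
          Stoll308.TW.mask (AA L Q μ p) (Zc L Q μ) r q := by
        intro r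
        refine mask_congr _ _ ?_
        unfold join
        rw [if_neg hq]
      rw [e1, e1, ← mask_mask hp (Zc L Q μ) ro, ← mask_mask hp (Zc L Q μ) ro', h.mask]
  have h2 : D.kv (AA L Q μ p) (Zc L Q μ) (SO L Q μ D.C₀ N) ro =
      D.kv (AA L Q μ p) (Zc L Q μ) (SO L Q μ D.C₀ N) ro' := by
    funext i
    unfold kv
    by_cases hi : i ∈ AA L Q μ p
    · rw [if_pos hi, if_pos hi]
      exact h.κ i
    · rw [if_neg hi, if_neg hi]
  rw [h1, h2]

/-- The sums of the terms with top active set `A` are the same functions. -/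
theorem Same.hh (h : Same D N L Q μ A ro ro') (hL : 1 ≤ L) (hQ : 0 < Q) (s : ℤ)
    (e : Finset (Fin k) → Fin D.m) (g : (i : Fin k) → Fin (D.n i) → ℤ) :
    D.hh N L Q μ A (D.VV N L Q μ ro) (D.cI N L Q μ s e ro) g =
      D.hh N L Q μ A (D.VV N L Q μ ro') (D.cI N L Q μ s e ro') g := by
  unfold Sys.hh
  refine sum_congr rfl fun x hx => ?_
  obtain ⟨_, _, _, hA, h1, _⟩ := Ix_spec hL hQ hx
  rw [h.VV hA]
  congr 1
  unfold gam
  congr 1
  refine prod_congr rfl fun p hp => ?_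
  refine prod_congr rfl fun y _ => ?_
  exact h.cI s e x.1 (h1 p hp).2.2.2.1 y

private lemma mem_SO {L : ℝ} {Q : ℕ} {μ : Fin k → ℕ} {C₀ N p : ℕ} (hp : p ∈ SO L Q μ C₀ N) :
    p.Prime ∧ C₀ < p := by
  classical
  unfold SO at hp
  rw [mem_filter] at hp
  obtain ⟨hp1, hp2⟩ := hp
  unfold PX at hp1
  rw [mem_filter, mem_Icc] at hp1
  exact hp1.2

private lemma mem_RO (hro : ro ∈ D.RO N L Q μ) :
    ∀ p, (p ∈ SO L Q μ D.C₀ N → ro p = .o ∨ ro p ∈ D.Lb univ p) ∧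
      (p ∉ SO L Q μ D.C₀ N → ro p = .o) := by
  classical
  intro p
  unfold RO at hro
  have hro := (mem_filter.1 hro).1
  unfold RF at hro
  rw [mem_piF] at hro
  refine ⟨fun hp => ?_, fun hp => hro.2 p hp⟩
  have := hro.1 p hp
  rw [mem_insert] at this
  exact this

private lemma Vd_cut (hro : ro ∈ D.RO N L Q μ) (a : Fin k) :
    Vd D.C₀ (D.Rt a) (cut (Zc L Q μ) a (SO L Q μ D.C₀ N) ro) (rts ro) := by
  intro p hp
  obtain ⟨h1, ⟨b, h2⟩, h3⟩ := mem_cut.1 hp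
  refine ⟨(mem_SO h1).1, (mem_SO h1).2, ?_⟩
  have h4 := (mem_RO hro p).1 h1
  rw [h2] at h4
  rcases h4 with h4 | h4
  · exact nomatch h4
  · unfold Lb Lbl at h4
    rw [mem_union, mem_biUnion] at h4
    unfold rts
    rw [h2]
    change b ∈ D.Rt a p
    rcases h4 with h4 | ⟨i, _, h4⟩
    · split_ifs at h4
      · rw [mem_singleton] at h4
        exact nomatch h4
      · exact absurd h4 (notMem_empty _)
    · obtain ⟨b', hb', hb⟩ := mem_image.1 h4
      injection hb with h5 h6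
      rw [← h5, ← h6]
      exact hb'

theorem Same.inj (h : Same D N L Q μ A ro ro') (hro : ro ∈ D.RO N L Q μ)
    (hro' : ro' ∈ D.RO N L Q μ) (hg : ∀ a ∈ A, D.go N L Q μ ro a = D.go N L Q μ ro' a) :
    ro = ro' := by
  have key : ∀ i ∈ A, cut (Zc L Q μ) i (SO L Q μ D.C₀ N) ro =
      cut (Zc L Q μ) i (SO L Q μ D.C₀ N) ro' ∧
      ∀ p ∈ cut (Zc L Q μ) i (SO L Q μ D.C₀ N) ro, rts ro p = rts ro' p := by
    intro i hi
    exact D.g_inj i _ _ _ _ (Vd_cut hro i) (Vd_cut hro' i) (hg i hi)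
  -- the masked primes
  have key2 : ∀ i ∈ A, ∀ p, p ∈ cut (Zc L Q μ) i (SO L Q μ D.C₀ N) ro → ro p = ro' p := by
    intro i hi p hp
    obtain ⟨h1, h2⟩ := key i hi
    have h3 := h2 p hp
    have h4 := hp
    rw [h1] at h4
    obtain ⟨_, ⟨a, h5⟩, _⟩ := mem_cut.1 hp
    obtain ⟨_, ⟨b, h6⟩, _⟩ := mem_cut.1 h4
    unfold rts at h3
    rw [h5, h6] at h3 ⊢
    change a = b at h3
    rw [h3]
  funext p
  by_cases hp : p ∈ SO L Q μ D.C₀ N
  · by_cases h1 : ∃ i ∈ A, p ∈ cut (Zc L Q μ) i (SO L Q μ D.C₀ N) ro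
    · obtain ⟨i, hi, h2⟩ := h1
      exact key2 i hi p h2
    · by_cases h1' : ∃ i ∈ A, p ∈ cut (Zc L Q μ) i (SO L Q μ D.C₀ N) ro'
      · obtain ⟨i, hi, h2⟩ := h1'
        rw [← (key i hi).1] at h2
        exact key2 i hi p h2
      · have e1 : ∀ r : ℕ → Lab k, (¬ ∃ i ∈ A, p ∈ cut (Zc L Q μ) i (SO L Q μ D.C₀ N) r) →
            Stoll308.TW.mask A (Zc L Q μ) r p = r p := by
          intro r hr
          cases h' : r p with
          | o => exact mask_o h'
          | u => exact mask_u h'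
          | r i a =>
            refine (mask_r h').2 fun hi => hr ⟨i, hi.1, ?_⟩
            exact mem_cut.2 ⟨hp, ⟨a, h'⟩, hi.2⟩
        rw [← e1 ro h1, ← e1 ro' h1', h.mask]
  · rw [(mem_RO hro p).2 hp, (mem_RO hro' p).2 hp]

end Sys

end Stoll308.TW
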