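import Pool.Agent.Work.MP_308fa9_nt.TW.Defs

set_option autoImplicit false

/-!
The sizes of the parts of the outer label functions.
-/

namespace Stoll308.TW

open Finset Stoll308.Gen

variable {k : ℕ}

private lemma mask_r {A : Finset (Fin k)} {Z : Fin k → ℝ} {r : ℕ → Lab k} {p : ℕ} {i : Fin k}
    {a : ℕ} (h : r p = .r i a) :
    (i ∈ A ∧ Z i < (p : ℝ) → mask A Z r p = .o) ∧
      (¬ (i ∈ A ∧ Z i < (p : ℝ)) → mask A Z r p = .r i a) := by
  unfold mask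
  rw [h]
  constructor
  · intro h'
    exact if_pos h'
  · intro h'
    exact if_neg h'

private lemma mask_o {A : Finset (Fin k)} {Z : Fin k → ℝ} {r : ℕ → Lab k} {p : ℕ}
    (h : r p = .o) : mask A Z r p = .o := by
  unfold mask
  rw [h]

private lemma mask_u {A : Finset (Fin k)} {Z : Fin k → ℝ} {r : ℕ → Lab k} {p : ℕ}
    (h : r p = .u) : mask A Z r p = .u := by
  unfold mask
  rw [h]

private lemma mem_cut {Z : Fin k → ℝ} {i : Fin k} {S : Finset ℕ} {r : ℕ → Lab k} {p : ℕ} :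
    p ∈ cut Z i S r ↔ p ∈ S ∧ (∃ a, r p = .r i a) ∧ Z i < (p : ℝ) := by
  unfold cut cpt
  rw [mem_filter, mem_filter]
  constructor
  · rintro ⟨⟨h1, h2⟩, h3⟩
    exact ⟨h1, ⟨_, h2⟩, h3⟩
  · rintro ⟨h1, ⟨a, h2⟩, h3⟩
    refine ⟨⟨h1, ?_⟩, h3⟩
    rw [h2]
    rfl

private lemma mask_empty (Z : Fin k → ℝ) (r : ℕ → Lab k) : mask ∅ Z r = r := by
  funext p
  cases h : r p with
  | o => rw [mask_o h]
  | u => rw [mask_u h]
  | r i a => rw [(mask_r h).2 (fun h' => notMem_empty _ h'.1)]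

/-- The support of `mask A` splits into the support of `mask B` and the large primes of the
components of `B \ A`. -/
private lemma prod_mask {A B : Finset (Fin k)} (hAB : A ⊆ B) (Z : Fin k → ℝ) (S : Finset ℕ)
    (r : ℕ → Lab k) (w : ℕ → ℝ) :
    ∏ p ∈ spt S (mask A Z r), w p =
      (∏ p ∈ spt S (mask B Z r), w p) * ∏ i ∈ B \ A, ∏ p ∈ cut Z i S r, w p := by
  classical
  rw [← prod_biUnion, ← prod_union]
  · refine prod_congr ?_ fun _ _ => rfl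
    ext p
    unfold spt
    rw [mem_union, mem_filter, mem_filter, mem_biUnion]
    constructor
    · rintro ⟨h1, h2⟩
      cases h : r p with
      | o => exact absurd (mask_o h) h2
      | u =>
        left
        refine ⟨h1, ?_⟩
        rw [mask_u h]
        exact nofun
      | r i a =>
        by_cases hi : i ∈ B ∧ Z i < (p : ℝ)
        · right
          refine ⟨i, ?_, mem_cut.2 ⟨h1, ⟨a, h⟩, hi.2⟩⟩
          rw [mem_sdiff]
          exact ⟨hi.1, fun hA => h2 ((mask_r h).1 ⟨hA, hi.2⟩)⟩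
        · left
          refine ⟨h1, ?_⟩
          rw [(mask_r h).2 hi]
          exact nofun
    · rintro (⟨h1, h2⟩ | ⟨i, hi, hp⟩)
      · refine ⟨h1, ?_⟩
        cases h : r p with
        | o => exact absurd (mask_o h) h2
        | u =>
          rw [mask_u h]
          exact nofun
        | r i a =>
          have h3 : ¬ (i ∈ A ∧ Z i < (p : ℝ)) := fun h' => h2 ((mask_r h).1 ⟨hAB h'.1, h'.2⟩)
          rw [(mask_r h).2 h3]
          exact nofun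
      · obtain ⟨h1, ⟨a, h2⟩, h3⟩ := mem_cut.1 hp
        refine ⟨h1, ?_⟩
        rw [(mask_r h2).2 (fun h' => (mem_sdiff.1 hi).2 h'.1)]
        exact nofun
  · rw [disjoint_left]
    intro p hp hp'
    obtain ⟨i, hi, hpi⟩ := mem_biUnion.1 hp'
    obtain ⟨h1, ⟨a, h2⟩, h3⟩ := mem_cut.1 hpi
    exact (mem_filter.1 hp).2 ((mask_r h2).1 ⟨(mem_sdiff.1 hi).1, h3⟩)
  · intro i _ j _ hij
    change Disjoint (cut Z i S r) (cut Z j S r)
    rw [disjoint_left]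
    intro p hp hp'
    obtain ⟨_, ⟨a, h2⟩, _⟩ := mem_cut.1 hp
    obtain ⟨_, ⟨b, h3⟩, _⟩ := mem_cut.1 hp'
    rw [h2] at h3
    injection h3 with h4 h5
    exact hij h4

private lemma mem_SO {L : ℝ} {Q : ℕ} {μ : Fin k → ℕ} {C₀ N p : ℕ} (hp : p ∈ SO L Q μ C₀ N) :
    p.Prime ∧ C₀ < p := by
  classical
  unfold SO at hp
  rw [mem_filter] at hp
  obtain ⟨hp1, hp2⟩ := hp
  unfold PX at hp1
  rw [mem_filter, mem_Icc] at hp1
  exact hp1.2

namespace Sys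

variable {D : Sys k} {N : ℕ} {L : ℝ} {Q : ℕ} {μ : Fin k → ℕ} {A : Finset (Fin k)}
  {ro : ℕ → Lab k}

private lemma mem_RF (hro : ro ∈ D.RF N L Q μ) :
    ∀ p, (p ∈ SO L Q μ D.C₀ N → ro p = .o ∨ ro p ∈ D.Lb univ p) ∧
      (p ∉ SO L Q μ D.C₀ N → ro p = .o) := by
  intro p
  unfold RF at hro
  rw [mem_piF] at hro
  refine ⟨fun hp => ?_, fun hp => hro.2 p hp⟩
  have := hro.1 p hp
  rw [mem_insert] at this
  exact this

private lemma RO_RF (hro : ro ∈ D.RO N L Q μ) : ro ∈ D.RF N L Q μ := by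
  classical
  unfold RO at hro
  exact (mem_filter.1 hro).1

private lemma Vd_cut (hro : ro ∈ D.RF N L Q μ) (a : Fin k) :
    Vd D.C₀ (D.Rt a) (cut (Zc L Q μ) a (SO L Q μ D.C₀ N) ro) (rts ro) := by
  intro p hp
  obtain ⟨h1, ⟨b, h2⟩, h3⟩ := mem_cut.1 hp
  refine ⟨(mem_SO h1).1, (mem_SO h1).2, ?_⟩
  have h4 := (mem_RF hro p).1 h1
  rw [h2] at h4
  rcases h4 with h4 | h4
  · exact nomatch h4
  · unfold Lb Lbl at h4
    rw [mem_union, mem_biUnion] at h4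
    unfold rts
    rw [h2]
    change b ∈ D.Rt a p
    rcases h4 with h4 | ⟨i, _, h4⟩
    · split_ifs at h4
      · rw [mem_singleton] at h4
        exact nomatch h4
      · exact absurd h4 (notMem_empty _)
    · obtain ⟨b', hb', hb⟩ := mem_image.1 h4
      injection hb with h5 h6
      rw [← h5, ← h6]
      exact hb'

private lemma prod_cut_pos (a : Fin k) :
    0 < ∏ p ∈ cut (Zc L Q μ) a (SO L Q μ D.C₀ N) ro, p :=
  prod_pos fun _ hp => (mem_SO (mem_cut.1 hp).1).1.pos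

private lemma prod_cut_lt (a : Fin k) :
    ∏ p ∈ cut (Zc L Q μ) a (SO L Q μ D.C₀ N) ro, p < 2 ^ (D.jl N L Q μ ro a + 1) :=
  Nat.lt_pow_succ_log_self (by norm_num) _

private lemma prod_cut_real (a : Fin k) :
    ∏ p ∈ cut (Zc L Q μ) a (SO L Q μ D.C₀ N) ro, (p : ℝ) ≤ 2 ^ (D.jl N L Q μ ro a + 1) := by
  have h := (Nat.cast_le (α := ℝ)).2 (prod_cut_lt (D := D) (N := N) (L := L) (Q := Q) (μ := μ)
    (ro := ro) a).le
  push_cast at h
  exact h

theorem go_le (hro : ro ∈ D.RO N L Q μ) (a : Fin k) (y : Fin (D.n a)) :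
    |D.go N L Q μ ro a y| ^ D.n a ≤ 2 ^ (D.jl N L Q μ ro a + 1) := by
  refine (D.g_le a _ _ (Vd_cut (RO_RF hro) a) y).trans ?_
  exact_mod_cast (prod_cut_lt (D := D) (N := N) (L := L) (Q := Q) (μ := μ) (ro := ro) a).le

theorem VV_pos (ro : ℕ → Lab k) : 0 < D.VV N L Q μ ro := by
  unfold VV
  exact Nat.mul_pos (prod_pos fun p hp => (mem_SO (mem_filter.1 hp).1).1.pos) (by positivity)

/-- The large primes are larger than the threshold. -/
theorem Zc_le (hro : ro ∈ D.RO N L Q μ) {a : Fin k} (ha : a ∈ Big μ) :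
    Zc L Q μ a ≤ 2 ^ (D.jl N L Q μ ro a + 1) := by
  classical
  have h := hro
  unfold RO at h
  obtain ⟨p, hp⟩ := ((mem_filter.1 h).2 a ha).1
  have h1 := (mem_cut.1 hp).2.2
  have h2 : p ≤ ∏ p ∈ cut (Zc L Q μ) a (SO L Q μ D.C₀ N) ro, p :=
    Nat.le_of_dvd (prod_cut_pos a) (dvd_prod_of_mem _ hp)
  have h3 : (p : ℝ) ≤ 2 ^ (D.jl N L Q μ ro a + 1) := by
    exact_mod_cast h2.trans (prod_cut_lt a).le
  linarith

theorem jl_le (hL : 1 ≤ L) (hro : ro ∈ D.RO N L Q μ) {a : Fin k} (ha : a ∈ Big μ) :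
    (D.jl N L Q μ ro a : ℝ) + 1 ≤ 3 * L := by
  classical
  have h := hro
  unfold RO at h
  have h1 := ((mem_filter.1 h).2 a ha).2
  have h2 : 2 ^ D.jl N L Q μ ro a ≤ ∏ p ∈ cut (Zc L Q μ) a (SO L Q μ D.C₀ N) ro, p :=
    Nat.pow_log_le_self 2 (prod_cut_pos a).ne'
  have h3 : (2 : ℝ) ^ D.jl N L Q μ ro a ≤ Real.exp L :=
    le_trans (by exact_mod_cast h2) h1
  have h4 := Real.log_le_log (by positivity) h3
  rw [Real.log_pow, Real.log_exp] at h4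
  have h5 := Real.log_two_gt_d9
  have h6 : (0 : ℝ) ≤ D.jl N L Q μ ro a := Nat.cast_nonneg _
  nlinarith

/-- The size of the outer part without the large primes of the components `a ∈ A`. -/
theorem size_le (hro : ro ∈ D.RO N L Q μ) (hA : A ⊆ Big μ) :
    1 / (D.VV N L Q μ ro : ℝ) * ∏ a ∈ A, (2 : ℝ) ^ D.jl N L Q μ ro a ≤
      2 ^ k * ∏ p ∈ spt (SO L Q μ D.C₀ N) (mask A (Zc L Q μ) ro), 1 / (p : ℝ) := by
  classical
  rw [prod_mask hA (Zc L Q μ) (SO L Q μ D.C₀ N) ro (fun p => 1 / (p : ℝ))]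
  have h1 : (D.VV N L Q μ ro : ℝ) =
      (∏ p ∈ spt (SO L Q μ D.C₀ N) (mask (Big μ) (Zc L Q μ) ro), (p : ℝ)) *
        ((∏ a ∈ A, (2 : ℝ) ^ D.jl N L Q μ ro a) *
          ∏ a ∈ Big μ \ A, (2 : ℝ) ^ D.jl N L Q μ ro a) := by
    unfold VV
    push_cast
    rw [← prod_pow_eq_pow_sum, ← prod_sdiff hA]
    ring
  set P : ℝ := ∏ p ∈ spt (SO L Q μ D.C₀ N) (mask (Big μ) (Zc L Q μ) ro), (p : ℝ) with hP
  have hP0 : 0 < P := prod_pos fun p hp => Nat.cast_pos.2 (mem_SO (mem_filter.1 hp).1).1.pos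
  have h2 : ∏ p ∈ spt (SO L Q μ D.C₀ N) (mask (Big μ) (Zc L Q μ) ro), 1 / (p : ℝ) = 1 / P := by
    rw [prod_div_distrib, prod_const_one]
  have hTA : (0 : ℝ) < ∏ a ∈ A, (2 : ℝ) ^ D.jl N L Q μ ro a := prod_pos fun _ _ => by positivity
  have hTB : (0 : ℝ) < ∏ a ∈ Big μ \ A, (2 : ℝ) ^ D.jl N L Q μ ro a :=
    prod_pos fun _ _ => by positivity
  have h3 : ∏ a ∈ Big μ \ A, 1 / (2 : ℝ) ^ (D.jl N L Q μ ro a + 1) ≤
      ∏ a ∈ Big μ \ A, ∏ p ∈ cut (Zc L Q μ) a (SO L Q μ D.C₀ N) ro, 1 / (p : ℝ) := by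
    refine prod_le_prod (fun _ _ => by positivity) fun a _ => ?_
    rw [prod_div_distrib, prod_const_one]
    refine one_div_le_one_div_of_le ?_ ?_
    · exact prod_pos fun p hp => Nat.cast_pos.2 (mem_SO (mem_cut.1 hp).1).1.pos
    · exact prod_cut_real a
  have h4 : ∏ a ∈ Big μ \ A, 1 / (2 : ℝ) ^ (D.jl N L Q μ ro a + 1) =
      1 / ((2 : ℝ) ^ (Big μ \ A).card * ∏ a ∈ Big μ \ A, (2 : ℝ) ^ D.jl N L Q μ ro a) := by
    rw [← prod_const, ← prod_mul_distrib, prod_div_distrib, prod_const_one]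
    congr 1
    refine prod_congr rfl fun a _ => ?_
    rw [pow_succ, mul_comm]
  have h5 : (2 : ℝ) ^ (Big μ \ A).card ≤ 2 ^ k := by
    refine pow_le_pow_right₀ (by norm_num) ?_
    exact (card_le_univ _).trans (le_of_eq (Fintype.card_fin k))
  rw [h1, h2]
  rw [h4] at h3
  have h6 : 1 / ((2 : ℝ) ^ k * ∏ a ∈ Big μ \ A, (2 : ℝ) ^ D.jl N L Q μ ro a) ≤
      1 / ((2 : ℝ) ^ (Big μ \ A).card * ∏ a ∈ Big μ \ A, (2 : ℝ) ^ D.jl N L Q μ ro a) :=
    one_div_le_one_div_of_le (by positivity) (mul_le_mul_of_nonneg_right h5 hTB.le)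
  have h7 := h6.trans h3
  calc 1 / (P * ((∏ a ∈ A, (2 : ℝ) ^ D.jl N L Q μ ro a) *
          ∏ a ∈ Big μ \ A, (2 : ℝ) ^ D.jl N L Q μ ro a)) *
        ∏ a ∈ A, (2 : ℝ) ^ D.jl N L Q μ ro a =
        2 ^ k * (1 / P * (1 / ((2 : ℝ) ^ k * ∏ a ∈ Big μ \ A, (2 : ℝ) ^ D.jl N L Q μ ro a))) := by
        field_simp
    _ ≤ _ := by
        refine mul_le_mul_of_nonneg_left ?_ (by positivity)
        exact mul_le_mul_of_nonneg_left h7 (by positivity)

theorem size_ge (hro : ro ∈ D.RO N L Q μ) :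
    ∏ p ∈ spt (SO L Q μ D.C₀ N) ro, p ≤ 2 ^ k * D.VV N L Q μ ro := by
  classical
  have h1 := prod_mask (empty_subset (Big μ)) (Zc L Q μ) (SO L Q μ D.C₀ N) ro (fun p => (p : ℝ))
  rw [mask_empty, sdiff_empty] at h1
  have h2 : (∏ p ∈ spt (SO L Q μ D.C₀ N) ro, (p : ℝ)) ≤ 2 ^ k * (D.VV N L Q μ ro : ℝ) := by
    rw [h1]
    unfold VV
    push_cast
    have h3 : ∏ a ∈ Big μ, ∏ p ∈ cut (Zc L Q μ) a (SO L Q μ D.C₀ N) ro, (p : ℝ) ≤
        ∏ a ∈ Big μ, (2 : ℝ) ^ (D.jl N L Q μ ro a + 1) := by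
      refine prod_le_prod (fun _ _ => prod_nonneg fun _ _ => Nat.cast_nonneg _) fun a _ => ?_
      exact prod_cut_real a
    have h4 : ∏ a ∈ Big μ, (2 : ℝ) ^ (D.jl N L Q μ ro a + 1) =
        2 ^ (Big μ).card * 2 ^ (∑ i ∈ Big μ, D.jl N L Q μ ro i) := by
      rw [← prod_const, ← prod_pow_eq_pow_sum, ← prod_mul_distrib]
      refine prod_congr rfl fun a _ => ?_
      rw [pow_succ, mul_comm]
    have h5 : (2 : ℝ) ^ (Big μ).card ≤ 2 ^ k := by
      refine pow_le_pow_right₀ (by norm_num) ?_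
      exact (card_le_univ _).trans (le_of_eq (Fintype.card_fin k))
    rw [h4] at h3
    have hP0 : (0 : ℝ) ≤ ∏ p ∈ spt (SO L Q μ D.C₀ N) (mask (Big μ) (Zc L Q μ) ro), (p : ℝ) :=
      prod_nonneg fun _ _ => Nat.cast_nonneg _
    calc _ ≤ (∏ p ∈ spt (SO L Q μ D.C₀ N) (mask (Big μ) (Zc L Q μ) ro), (p : ℝ)) *
          (2 ^ (Big μ).card * 2 ^ (∑ i ∈ Big μ, D.jl N L Q μ ro i)) :=
          mul_le_mul_of_nonneg_left h3 hP0
      _ ≤ (∏ p ∈ spt (SO L Q μ D.C₀ N) (mask (Big μ) (Zc L Q μ) ro), (p : ℝ)) *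
          (2 ^ k * 2 ^ (∑ i ∈ Big μ, D.jl N L Q μ ro i)) := by
          refine mul_le_mul_of_nonneg_left ?_ hP0
          exact mul_le_mul_of_nonneg_right h5 (by positivity)
      _ = _ := by ring
  have h6 : ((∏ p ∈ spt (SO L Q μ D.C₀ N) ro, p : ℕ) : ℝ) ≤
      ((2 ^ k * D.VV N L Q μ ro : ℕ) : ℝ) := by
    push_cast
    exact h2
  exact Nat.cast_le.1 h6

theorem mask_mem (hro : ro ∈ D.RF N L Q μ) (A : Finset (Fin k)) :
    mask A (Zc L Q μ) ro ∈ D.RF N L Q μ := by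
  have h := mem_RF hro
  unfold RF
  rw [mem_piF]
  refine ⟨fun p hp => ?_, fun p hp => mask_o ((h p).2 hp)⟩
  rw [mem_insert]
  cases h' : ro p with
  | o => exact Or.inl (mask_o h')
  | u =>
    rw [mask_u h', ← h']
    exact (h p).1 hp
  | r i a =>
    by_cases hi : i ∈ A ∧ Zc L Q μ i < (p : ℝ)
    · exact Or.inl ((mask_r h').1 hi)
    · rw [(mask_r h').2 hi, ← h']
      exact (h p).1 hp

theorem ko_mem (hro : ro ∈ D.RF N L Q μ) (i : Fin k) :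
    D.ko N L Q μ ro i ∈ Icc (-(D.K : ℤ)) D.K := by
  rw [mem_Icc, ← abs_le]
  exact D.κ_le i _ _ (Vd_cut hro i)

end Sys

end Stoll308.TW
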