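import Pool.Agent.Work.MP_308fa9_nt.TW.Exp

set_option autoImplicit false

/-!
The total mass of the coefficients (as `Gen.sum_gam`, `Gen.sum_gam_D`).
-/

namespace Stoll308.TW

open Finset Stoll308.Gen

variable {k : ℕ}

private lemma zz_mono {L : ℝ} (hL : 1 ≤ L) {Q : ℕ} (hQ : 0 < Q) {x y : ℝ} (h : x ≤ y) :
    zz L Q x ≤ zz L Q y := by
  unfold zz
  have hQ' : (0 : ℝ) < Q := Nat.cast_pos.2 hQ
  exact Real.exp_le_exp.2
    (Real.rpow_le_rpow_of_exponent_le hL (div_le_div_of_nonneg_right h hQ'.le))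

private lemma mem_WW {L : ℝ} {Q : ℕ} {μ : Fin k → ℕ} {C₀ N p : ℕ} (hp : p ∈ WW L Q μ C₀ N) :
    p.Prime ∧ C₀ < p ∧ p ≤ N ∧ InW L Q μ p := by
  classical
  unfold WW at hp
  rw [mem_filter] at hp
  obtain ⟨hp1, hp2⟩ := hp
  unfold PX at hp1
  rw [mem_filter, mem_Icc] at hp1
  exact ⟨hp1.2.1, hp1.2.2, hp1.1.2, hp2⟩

private lemma mem_SI {L : ℝ} {Q : ℕ} {μ : Fin k → ℕ} {C₀ N p : ℕ} (hp : p ∈ SI L Q μ C₀ N) :
    p.Prime ∧ (p ∉ WW L Q μ C₀ N → zz L Q Q < (p : ℝ)) := by
  unfold SI at hp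
  rw [mem_filter] at hp
  obtain ⟨hp1, hp2⟩ := hp
  unfold PX at hp1
  rw [mem_filter, mem_Icc] at hp1
  exact ⟨hp1.2.1, fun h => hp2.resolve_left h⟩

private lemma WW_sub {L : ℝ} {Q : ℕ} {μ : Fin k → ℕ} {C₀ N : ℕ} :
    WW L Q μ C₀ N ⊆ SI L Q μ C₀ N := by
  classical
  intro p hp
  unfold SI
  rw [mem_filter]
  refine ⟨?_, Or.inl hp⟩
  unfold WW at hp
  exact (mem_filter.1 hp).1

namespace Sys

variable (D : Sys k) (N : ℕ) (L : ℝ) (Q : ℕ) (μ : Fin k → ℕ)

private lemma o_notMem (A : Finset (Fin k)) (p : ℕ) : (Lab.o : Lab k) ∉ D.Lb A p := by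
  unfold Lb Lbl
  rw [mem_union, mem_biUnion]
  rintro (h | ⟨i, _, h⟩)
  · split_ifs at h with hi
    · rw [mem_singleton] at h
      exact nomatch h
    · exact notMem_empty _ h
  · obtain ⟨a, _, ha⟩ := mem_image.1 h
    exact nomatch ha

private lemma card_Lb_le (A : Finset (Fin k)) {p : ℕ} (hp : p.Prime) (hC : D.C₀ < p) :
    (D.Lb A p).card ≤ D.K := by
  classical
  refine le_trans ?_ (D.card_le p hp hC)
  unfold Lb Lbl
  refine (card_union_le _ _).trans ?_
  rw [add_comm]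
  refine add_le_add ?_ ?_
  · refine (card_biUnion_le).trans ?_
    refine (sum_le_sum fun i _ => card_image_le).trans ?_
    exact sum_le_sum_of_subset (subset_univ _)
  · split_ifs <;> simp

private lemma sum_lab (S : Finset ℕ) (A : ℕ → Finset (Fin k)) (w : ℕ → Lab k → ℝ) :
    ∑ r ∈ piF S (fun p => insert .o (D.Lb (A p) p)) .o, ∏ p ∈ S, w p (r p) =
      ∏ p ∈ S, (w p .o + ∑ ℓ ∈ D.Lb (A p) p, w p ℓ) := by
  rw [sum_prod_piF]
  refine prod_congr rfl fun p _ => ?_
  rw [sum_insert (o_notMem D _ _)]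

private lemma sum_Ch (r : ℕ → Lab k) :
    ∑ _S ∈ D.Ch N L Q μ r, D.hf N L Q μ r = 1 := by
  rw [sum_const, nsmul_eq_mul]
  unfold Ch hf
  rw [card_piF]
  push_cast
  rw [← prod_mul_distrib]
  refine prod_eq_one fun p _ => ?_
  rw [card_powerset]
  push_cast
  rw [← mul_pow]
  norm_num

private lemma om_nonneg (V : ℕ) (r : ℕ → Lab k) : 0 ≤ D.om N L Q μ V r := by
  unfold om
  split_ifs <;> norm_num

private lemma hf_nonneg (r : ℕ → Lab k) : 0 ≤ D.hf N L Q μ r :=
  prod_nonneg fun p _ => by positivity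

private lemma label_u (hQ : 0 < Q) (hμ : ∀ i, μ i < Q) (hL : 1 ≤ L) {r : ℕ → Lab k}
    (hr : r ∈ piF (SI L Q μ D.C₀ N) (fun p => insert .o (D.Lb (AA L Q μ p) p)) .o) {p : ℕ}
    (hp : p ∈ SI L Q μ D.C₀ N) (hpW : p ∉ WW L Q μ D.C₀ N) : r p = .o ∨ r p = .u := by
  have h1 := (mem_piF.1 hr).1 p hp
  have hAA : AA L Q μ p = ∅ := by
    unfold AA
    refine filter_eq_empty_iff.2 fun i _ h => ?_
    have h2 := (mem_SI hp).2 hpW
    have h3 : (μ i : ℝ) - 1 ≤ (Q : ℝ) := by
      have : (μ i : ℝ) ≤ Q := by exact_mod_cast (hμ i).le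
      linarith
    have h4 := zz_mono hL hQ h3
    linarith
  rw [hAA, mem_insert] at h1
  rcases h1 with h1 | h1
  · exact Or.inl h1
  · right
    unfold Lb Lbl at h1
    rw [biUnion_empty, union_empty] at h1
    split_ifs at h1
    · exact mem_singleton.1 h1
    · exact absurd h1 (notMem_empty _)

open Classical in
/-- The number of the inner label functions with a given part on `WW`. -/
private lemma fibre_le (hQ : 0 < Q) (hμ : ∀ i, μ i < Q) (hL : 1 ≤ L) {V : ℕ} (hV : 0 < V)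
    (rw' : ℕ → Lab k) :
    ∑ r ∈ (piF (SI L Q μ D.C₀ N) (fun p => insert .o (D.Lb (AA L Q μ p) p)) .o).filter
        (fun r => (fun p => if p ∈ WW L Q μ D.C₀ N then r p else .o) = rw'),
      D.om N L Q μ V r ≤
      (N : ℝ) / V * ∏ p ∈ spt (WW L Q μ D.C₀ N) rw', 1 / (p : ℝ) := by
  set W := WW L Q μ D.C₀ N with hW
  set S := SI L Q μ D.C₀ N with hS
  set P : ℕ := ∏ p ∈ spt W rw', p with hP
  have hWS : W ⊆ S := WW_sub
  have hP0 : 0 < P := prod_pos fun p hp => (mem_WW (mem_filter.1 hp).1).1.pos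
  have e1 : ∑ r ∈ (piF S (fun p => insert .o (D.Lb (AA L Q μ p) p)) .o).filter
        (fun r => (fun p => if p ∈ W then r p else .o) = rw'), D.om N L Q μ V r =
      ((((piF S (fun p => insert .o (D.Lb (AA L Q μ p) p)) .o).filter
        (fun r => (fun p => if p ∈ W then r p else .o) = rw')).filter
        (fun r => V * ∏ p ∈ spt S r, p ≤ N)).card : ℝ) := by
    rw [card_filter]
    push_cast
    refine sum_congr rfl fun r _ => ?_
    unfold om
    rfl
  rw [e1]
  have e2 : (((piF S (fun p => insert .o (D.Lb (AA L Q μ p) p)) .o).filter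
        (fun r => (fun p => if p ∈ W then r p else .o) = rw')).filter
        (fun r => V * ∏ p ∈ spt S r, p ≤ N)).card ≤ (Icc 1 (N / (V * P))).card := by
    refine card_le_card_of_injOn (fun r => ∏ p ∈ spt (S \ W) r, p) ?_ ?_
    · intro r hr
      rw [mem_coe, mem_filter, mem_filter] at hr
      obtain ⟨⟨hr1, hr2⟩, hr3⟩ := hr
      have h1 : spt S r = spt W rw' ∪ spt (S \ W) r := by
        ext p
        unfold spt
        rw [mem_union, mem_filter, mem_filter, mem_filter, mem_sdiff]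
        rw [← hr2]
        by_cases hp : p ∈ W
        · simp only [hp, if_true, true_and, not_true_eq_false, and_false, false_and, or_false]
          exact ⟨fun h => h.2, fun h => ⟨hWS hp, h⟩⟩
        · simp only [hp, if_false, false_and, not_false_eq_true, and_true, false_or]
      have h2 : Disjoint (spt W rw') (spt (S \ W) r) := by
        rw [disjoint_left]
        intro p hp hp'
        exact (mem_sdiff.1 (mem_filter.1 hp').1).2 (mem_filter.1 hp).1
      rw [h1, prod_union h2] at hr3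
      rw [mem_coe, mem_Icc]
      constructor
      · exact prod_pos fun p hp => (mem_SI (mem_sdiff.1 (mem_filter.1 hp).1).1).1.pos
      · rw [Nat.le_div_iff_mul_le (Nat.mul_pos hV hP0)]
        calc (∏ p ∈ spt (S \ W) r, p) * (V * P) = V * (P * ∏ p ∈ spt (S \ W) r, p) := by ring
          _ ≤ N := hr3
    · intro r hr r' hr' h
      rw [mem_coe, mem_filter, mem_filter] at hr hr'
      obtain ⟨⟨hr1, hr2⟩, hr3⟩ := hr
      obtain ⟨⟨hr1', hr2'⟩, hr3'⟩ := hr'
      have h1 : spt (S \ W) r = spt (S \ W) r' := by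
        rw [← Nat.primeFactors_prod (s := spt (S \ W) r), ← Nat.primeFactors_prod
          (s := spt (S \ W) r')]
        · exact congrArg Nat.primeFactors h
        · exact fun p hp => (mem_SI (mem_sdiff.1 (mem_filter.1 hp).1).1).1
        · exact fun p hp => (mem_SI (mem_sdiff.1 (mem_filter.1 hp).1).1).1
      funext p
      by_cases hpS : p ∈ S
      · by_cases hpW : p ∈ W
        · have h2 := congrFun hr2 p
          have h3 := congrFun hr2' p
          simp only [hpW, if_true] at h2 h3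
          rw [h2, h3]
        · have h2 := label_u D N L Q μ hQ hμ hL hr1 hpS hpW
          have h3 := label_u D N L Q μ hQ hμ hL hr1' hpS hpW
          have h4 : p ∈ spt (S \ W) r ↔ p ∈ spt (S \ W) r' := by rw [h1]
          unfold spt at h4
          rw [mem_filter, mem_filter, mem_sdiff] at h4
          have h5 : r p ≠ .o ↔ r' p ≠ .o :=
            ⟨fun h => (h4.1 ⟨⟨hpS, hpW⟩, h⟩).2, fun h => (h4.2 ⟨⟨hpS, hpW⟩, h⟩).2⟩
          rcases h2 with h2 | h2
          · rcases h3 with h3 | h3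
            · rw [h2, h3]
            · exact absurd h2 (h5.2 (by rw [h3]; exact nofun))
          · rcases h3 with h3 | h3
            · exact absurd h3 (h5.1 (by rw [h2]; exact nofun))
            · rw [h2, h3]
      · rw [(mem_piF.1 hr1).2 p hpS, (mem_piF.1 hr1').2 p hpS]
  rw [Nat.card_Icc, Nat.add_sub_cancel] at e2
  refine (Nat.cast_le.2 e2).trans (Nat.cast_div_le.trans (le_of_eq ?_))
  rw [hP]
  push_cast
  rw [prod_div_distrib, prod_const_one]
  have hP1 : (0 : ℝ) < ∏ p ∈ spt W rw', (p : ℝ) := by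
    have : ((P : ℕ) : ℝ) = ∏ p ∈ spt W rw', (p : ℝ) := by
      rw [hP]
      push_cast
      rfl
    rw [← this]
    exact Nat.cast_pos.2 hP0
  have hV1 : (0 : ℝ) < V := Nat.cast_pos.2 hV
  field_simp

/-- The mass of the inner label functions whose support contains `E`. The primes `> exp L` carry
only the label `u`: their product is `≤ N / (V ∏ ...)`, so that there is no loss of a power of
`log N`. -/
theorem mass_le (hQ : 0 < Q) (hμ : ∀ i, μ i < Q) (hL : 1 ≤ L) {V : ℕ} (hV : 0 < V)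
    {E : Finset ℕ} (hE : E ⊆ WW L Q μ D.C₀ N) :
    ∑ x ∈ ((D.RI N L Q μ).sigma fun ri => D.Ch N L Q μ ri).filter
        (fun x => E ⊆ spt (WW L Q μ D.C₀ N) x.1), D.om N L Q μ V x.1 * D.hf N L Q μ x.1 ≤
      (N : ℝ) / V * ((∏ p ∈ E, ((D.K : ℝ) / p)) * D.Pw N L Q μ D.K) := by
  classical
  set W := WW L Q μ D.C₀ N with hW
  set S := SI L Q μ D.C₀ N with hS
  set T := piF S (fun p => insert .o (D.Lb (AA L Q μ p) p)) .o with hT
  have hNV : 0 ≤ (N : ℝ) / V := by positivity
  -- remove the choices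
  have e1 : ∑ x ∈ ((D.RI N L Q μ).sigma fun ri => D.Ch N L Q μ ri).filter
        (fun x => E ⊆ spt W x.1), D.om N L Q μ V x.1 * D.hf N L Q μ x.1 =
      ∑ r ∈ D.RI N L Q μ, if E ⊆ spt W r then D.om N L Q μ V r else 0 := by
    rw [sum_filter, sum_sigma]
    refine sum_congr rfl fun r _ => ?_
    by_cases h : E ⊆ spt W r
    · simp only [h, if_true]
      rw [← mul_sum, sum_Ch, mul_one]
    · simp only [h, if_false, sum_const_zero]
  have e2 : ∑ r ∈ D.RI N L Q μ, (if E ⊆ spt W r then D.om N L Q μ V r else 0) ≤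
      ∑ r ∈ T, if E ⊆ spt W r then D.om N L Q μ V r else 0 := by
    refine sum_le_sum_of_subset_of_nonneg ?_ fun r _ _ => ?_
    · unfold RI
      exact filter_subset _ _
    · split_ifs
      · exact om_nonneg D N L Q μ V r
      · exact le_refl _
  -- group according to the part on `W`
  have hmaps : ∀ r ∈ T, (fun p => if p ∈ W then r p else .o) ∈
      piF W (fun p => insert .o (D.Lb (AA L Q μ p) p)) .o := by
    intro r hr
    rw [hT, mem_piF] at hr
    rw [mem_piF]
    refine ⟨fun p hp => ?_, fun p hp => ?_⟩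
    · simp only [hp, if_true]
      exact hr.1 p (WW_sub hp)
    · simp only [hp, if_false]
  have e3 : ∑ r ∈ T, (if E ⊆ spt W r then D.om N L Q μ V r else 0) ≤
      ∑ s ∈ piF W (fun p => insert .o (D.Lb (AA L Q μ p) p)) .o,
        (N : ℝ) / V * if E ⊆ spt W s then ∏ p ∈ spt W s, 1 / (p : ℝ) else 0 := by
    rw [← sum_fiberwise_of_maps_to hmaps]
    refine sum_le_sum fun s _ => ?_
    have h1 : ∀ r ∈ T.filter (fun r => (fun p => if p ∈ W then r p else .o) = s),
        (if E ⊆ spt W r then D.om N L Q μ V r else 0) =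
        if E ⊆ spt W s then D.om N L Q μ V r else 0 := by
      intro r hr
      have h2 := (mem_filter.1 hr).2
      have h3 : spt W r = spt W s := by
        rw [← h2]
        unfold spt
        refine filter_congr fun p hp => ?_
        simp only [hp, if_true]
      rw [h3]
    rw [sum_congr rfl h1]
    by_cases h : E ⊆ spt W s
    · simp only [h, if_true]
      exact fibre_le D N L Q μ hQ hμ hL hV s
    · simp only [h, if_false, sum_const_zero, mul_zero]
      exact le_refl _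
  rw [e1]
  refine (e2.trans e3).trans ?_
  rw [← mul_sum]
  refine mul_le_mul_of_nonneg_left ?_ hNV
  -- the sum over the labels on `W`
  have h := sum_lab D W (fun p => AA L Q μ p)
    (fun p x => if x = .o then (if p ∈ E then 0 else (1 : ℝ)) else 1 / (p : ℝ))
  have e4 : ∑ s ∈ piF W (fun p => insert .o (D.Lb (AA L Q μ p) p)) .o,
        (if E ⊆ spt W s then ∏ p ∈ spt W s, 1 / (p : ℝ) else 0) ≤
      ∑ s ∈ piF W (fun p => insert .o (D.Lb (AA L Q μ p) p)) .o,
        ∏ p ∈ W, (if s p = .o then (if p ∈ E then 0 else (1 : ℝ)) else 1 / (p : ℝ)) := by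
    refine sum_le_sum fun s _ => ?_
    by_cases hr : E ⊆ spt W s
    · rw [if_pos hr]
      unfold spt
      rw [prod_filter]
      refine le_of_eq (prod_congr rfl fun p _ => ?_)
      by_cases h0 : s p = .o
      · have : p ∉ E := fun hp => (mem_filter.1 (hr hp)).2 h0
        simp [h0, this]
      · simp [h0]
    · rw [if_neg hr]
      refine prod_nonneg fun p _ => ?_
      split_ifs <;> positivity
  refine e4.trans ?_
  rw [h]
  have e5 : ∏ p ∈ E, ((D.K : ℝ) / (p : ℝ)) = ∏ p ∈ W, (if p ∈ E then (D.K : ℝ) / p else 1) := by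
    rw [prod_ite_mem, inter_eq_right.2 hE]
  unfold Pw
  rw [e5, ← prod_mul_distrib]
  refine prod_le_prod (fun p _ => ?_) fun p hp => ?_
  · refine add_nonneg ?_ (sum_nonneg fun a _ => ?_) <;> split_ifs <;> positivity
  · have h6 : ∑ ℓ ∈ D.Lb (AA L Q μ p) p,
        (if ℓ = .o then (if p ∈ E then 0 else (1 : ℝ)) else 1 / (p : ℝ)) =
        (D.Lb (AA L Q μ p) p).card * (1 / (p : ℝ)) := by
      rw [sum_congr rfl (g := fun _ => 1 / (p : ℝ)), sum_const, nsmul_eq_mul]
      intro ℓ hℓ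
      have : ℓ ≠ .o := fun h => o_notMem D _ _ (h ▸ hℓ)
      rw [if_neg this]
    rw [h6, if_pos rfl]
    obtain ⟨hp1, hp2, _, _⟩ := mem_WW hp
    have h1 : ((D.Lb (AA L Q μ p) p).card : ℝ) * (1 / (p : ℝ)) ≤ D.K / p := by
      rw [mul_one_div]
      exact div_le_div_of_nonneg_right (Nat.cast_le.2 (card_Lb_le D _ hp1 hp2))
        (Nat.cast_nonneg p)
    have h2 : 0 ≤ (D.K : ℝ) / (p : ℝ) := by positivity
    by_cases hpE : p ∈ E
    · rw [if_pos hpE, if_pos hpE, zero_add]
      refine h1.trans ?_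
      rw [mul_add, mul_one]
      have := mul_nonneg h2 h2
      linarith
    · rw [if_neg hpE, if_neg hpE, one_mul]
      linarith

variable {c : (ℕ → Lab k) → ℕ → ℕ → ℝ}

private lemma abs_gam_le (hc : ∀ r p x, |c r p x| ≤ 1) (V : ℕ)
    (x : Σ _ : ℕ → Lab k, ℕ → Finset ℕ) :
    |D.gam N L Q μ V c x| ≤ D.om N L Q μ V x.1 * D.hf N L Q μ x.1 := by
  unfold gam
  have h0 : 0 ≤ D.om N L Q μ V x.1 * D.hf N L Q μ x.1 :=
    mul_nonneg (om_nonneg D N L Q μ V x.1) (hf_nonneg D N L Q μ x.1)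
  rw [abs_mul, abs_of_nonneg h0]
  refine mul_le_of_le_one_right h0 ?_
  rw [abs_prod]
  refine prod_le_one (fun _ _ => abs_nonneg _) fun p _ => ?_
  rw [abs_prod]
  exact prod_le_one (fun _ _ => abs_nonneg _) fun a _ => hc _ _ _

theorem sum_gam (hQ : 0 < Q) (hμ : ∀ i, μ i < Q) (hL : 1 ≤ L) {V : ℕ} (hV : 0 < V)
    (hc : ∀ r p x, |c r p x| ≤ 1) (A : Finset (Fin k)) :
    ∑ x ∈ D.Ix N L Q μ A, |D.gam N L Q μ V c x| ≤ (N : ℝ) / V * D.Pw N L Q μ D.K := by
  classical
  have h := mass_le D N L Q μ hQ hμ hL hV (empty_subset (WW L Q μ D.C₀ N))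
  rw [prod_empty, one_mul] at h
  refine le_trans ?_ h
  refine (sum_le_sum fun x _ => abs_gam_le D N L Q μ hc V x).trans ?_
  refine sum_le_sum_of_subset_of_nonneg ?_ fun x _ _ =>
    mul_nonneg (om_nonneg D N L Q μ V x.1) (hf_nonneg D N L Q μ x.1)
  intro x hx
  unfold Ix at hx
  rw [mem_filter] at hx ⊢
  exact ⟨hx.1, empty_subset _⟩

theorem sum_gam_E (hQ : 0 < Q) (hμ : ∀ i, μ i < Q) (hL : 1 ≤ L) {V : ℕ} (hV : 0 < V)
    (hc : ∀ r p x, |c r p x| ≤ 1) (A : Finset (Fin k)) (E : Finset ℕ) :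
    ∑ x ∈ (D.Ix N L Q μ A).filter (fun x => D.Ee N L Q μ A x = E), |D.gam N L Q μ V c x| ≤
      (N : ℝ) / V * ((∏ p ∈ E, ((D.K : ℝ) / p)) * D.Pw N L Q μ D.K) := by
  classical
  by_cases hE : E ⊆ WW L Q μ D.C₀ N
  · refine le_trans ?_ (mass_le D N L Q μ hQ hμ hL hV hE)
    refine (sum_le_sum fun x _ => abs_gam_le D N L Q μ hc V x).trans ?_
    refine sum_le_sum_of_subset_of_nonneg ?_ fun x _ _ =>
      mul_nonneg (om_nonneg D N L Q μ V x.1) (hf_nonneg D N L Q μ x.1)
    intro x hx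
    rw [mem_filter] at hx ⊢
    obtain ⟨hx1, hx2⟩ := hx
    unfold Ix at hx1
    rw [mem_filter] at hx1
    refine ⟨hx1.1, ?_⟩
    rw [← hx2]
    intro p hp
    unfold Ee Dd at hp
    exact (mem_filter.1 (mem_filter.1 hp).1).1
  · have h0 : (D.Ix N L Q μ A).filter (fun x => D.Ee N L Q μ A x = E) = ∅ := by
      refine filter_eq_empty_iff.2 fun x _ hx => hE ?_
      rw [← hx]
      intro p hp
      unfold Ee Dd spt at hp
      exact (mem_filter.1 (mem_filter.1 (mem_filter.1 hp).1).1).1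
    rw [h0, sum_empty]
    unfold Pw
    positivity

end Sys

end Stoll308.TW
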