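import Pool.Agent.Work.MP_308fa9_nt.TW.Bx
import Pool.Agent.Work.MP_308fa9_nt.TW.Mass

set_option autoImplicit false

/-!
The mean square of the nontrivial part over a product of boxes (as `Gen.hh_sq`).
-/

namespace Stoll308.TW

open Finset Stoll308.Gen

variable {k : ℕ}

private lemma WW_spec {L : ℝ} {Q : ℕ} {μ : Fin k → ℕ} {C₀ N p : ℕ} (hp : p ∈ WW L Q μ C₀ N) :
    p.Prime ∧ zz L Q 1 < (p : ℝ) := by
  classical
  unfold WW at hp
  rw [mem_filter] at hp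
  obtain ⟨hp1, hp2⟩ := hp
  unfold PX at hp1
  rw [mem_filter, mem_Icc] at hp1
  exact ⟨hp1.2.1, hp2.1⟩

namespace Sys

variable (D : Sys k) (N : ℕ) (L : ℝ) (Q : ℕ) (μ : Fin k → ℕ)

private lemma sum_two {ι κ : Type*} [DecidableEq κ] (I : Finset ι) (a : ι → ℝ) (E : ι → κ)
    (C X : ℝ) (ha : ∀ i, 0 ≤ a i) (hX : 0 ≤ X) :
    ∑ i ∈ I, ∑ j ∈ I, a i * a j * (if E i = E j then C else X) ≤
      C * ∑ i ∈ I, a i * (∑ j ∈ I.filter (fun j => E j = E i), a j) + X * (∑ i ∈ I, a i) ^ 2 := by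
  have h1 : ∑ i ∈ I, ∑ j ∈ I, a i * a j * (if E i = E j then C else X) ≤
      ∑ i ∈ I, ∑ j ∈ I, (C * (a i * if E j = E i then a j else 0) + X * (a i * a j)) := by
    refine sum_le_sum fun i _ => sum_le_sum fun j _ => ?_
    have h2 : 0 ≤ a i * a j := mul_nonneg (ha i) (ha j)
    by_cases hE : E i = E j
    · rw [if_pos hE, if_pos hE.symm]
      have := mul_nonneg hX h2
      linarith
    · rw [if_neg hE, if_neg (Ne.symm hE)]
      linarith
  refine h1.trans (le_of_eq ?_)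
  simp only [sum_add_distrib]
  congr 1
  · rw [mul_sum]
    refine sum_congr rfl fun i _ => ?_
    rw [← mul_sum, ← mul_sum, sum_filter]
  · rw [pow_two, sum_mul_sum, mul_sum]
    refine sum_congr rfl fun i _ => ?_
    rw [mul_sum]

theorem hh_sq (hQ : 0 < Q) (hμ : ∀ i, μ i < Q) (hL : 1 ≤ L) {V : ℕ} (hV : 0 < V)
    {c : (ℕ → Lab k) → ℕ → ℕ → ℝ} (hc : ∀ r p x, |c r p x| ≤ 1) (A : Finset (Fin k))
    (w : (i : Fin k) → Fin (D.n i) → ℤ) (B : Fin k → ℕ) :
    ∑ g ∈ pbx D.n A w B, D.hh N L Q μ A V c g ^ 2 ≤ (pbx D.n A w B).card *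
      (((N : ℝ) / V) ^ 2 * D.Pw N L Q μ D.K ^ 2 *
          (1 / zz L Q 1 * D.Pw N L Q μ ((D.K : ℝ) ^ 2)) +
        ∑ a ∈ A, (((N : ℝ) / V) ^ 2 * D.Pw N L Q μ D.K ^ 2 * (2 * (D.n a : ℝ)) *
          zz L Q ((μ a : ℝ) - 1 / 2) ^ 2) / (2 * B a + 1)) := by
  classical
  set I := D.Ix N L Q μ A with hI
  set W := WW L Q μ D.C₀ N with hW
  set P : ℝ := D.Pw N L Q μ D.K with hP
  have hP0 : 0 ≤ P := by
    rw [hP]
    unfold Pw
    exact prod_nonneg fun p _ => by positivity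
  have hz : 0 < zz L Q 1 := Real.exp_pos _
  have hsq := pbx_sq A I (D.gam N L Q μ V c) (D.Dd N L Q μ) (D.Ee N L Q μ A) (D.Ff L Q μ)
    (fun a _ => D.n_pos a)
    (fun x _ p hp => by
      unfold Ee at hp
      exact (mem_filter.1 hp).1)
    (fun x _ y _ p hp hp' => Ee_of_Dd hp hp')
    (fun x hx p hp => ((Ix_spec hL hQ hx).2.2.2.2.1 p hp).1)
    (fun x _ p _ g g' hgg => by
      unfold Ff
      refine prod_congr rfl fun y _ => ?_
      exact D.ψ_per _ _ _ _ _ _ fun i _ z => hgg i z)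
    (fun x _ p _ g => by
      unfold Ff
      rw [abs_prod]
      exact prod_le_one (fun _ _ => abs_nonneg _) fun y _ => D.ψ_le _ _ _ _ _)
    (fun x hx p hp => by
      have hp' : p ∈ D.Dd N L Q μ x := by
        unfold Ee at hp
        exact (mem_filter.1 hp).1
      have hA : AA L Q μ p = A := by
        unfold Ee at hp
        exact (mem_filter.1 hp).2
      obtain ⟨h1, h2, _, _, h5, h6, h7⟩ := (Ix_spec hL hQ hx).2.2.2.2.1 p hp'
      rw [hA] at h5 h6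
      obtain ⟨a, ha, h8⟩ := D.nontriv A p (x.1 p) h1 h2 h5 (x.2 p) h6 h7
      refine ⟨a, ha, fun g => ?_⟩
      have h9 := h8 g
      unfold Ff
      rw [hA]
      exact h9)
    (fun a => zz L Q ((μ a : ℝ) - 1 / 2))
    (fun x hx a ha => (Ix_spec hL hQ hx).2.2.2.2.2 a ha) w B
  have hsq' : ∑ g ∈ pbx D.n A w B, D.hh N L Q μ A V c g ^ 2 ≤
      ∑ i ∈ I, ∑ j ∈ I, |D.gam N L Q μ V c i| * |D.gam N L Q μ V c j| *
        (if D.Ee N L Q μ A i = D.Ee N L Q μ A j then ((pbx D.n A w B).card : ℝ) else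
          2 * (pbx D.n A w B).card *
            ∑ a ∈ A, (D.n a : ℝ) * zz L Q ((μ a : ℝ) - 1 / 2) ^ 2 / (2 * B a + 1)) := hsq
  refine hsq'.trans ?_
  set Cd : ℝ := ((pbx D.n A w B).card : ℝ) with hCd
  set X : ℝ := ∑ a ∈ A, (D.n a : ℝ) * zz L Q ((μ a : ℝ) - 1 / 2) ^ 2 / (2 * B a + 1) with hX
  have hX0 : 0 ≤ X := sum_nonneg fun a _ => by positivity
  have hCd0 : 0 ≤ Cd := Nat.cast_nonneg _
  refine (sum_two I (fun x => |D.gam N L Q μ V c x|) (D.Ee N L Q μ A) Cd (2 * Cd * X)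
    (fun x => abs_nonneg _) (by positivity)).trans ?_
  set G : Finset ℕ → ℝ := fun E => ∑ x ∈ I.filter (fun x => D.Ee N L Q μ A x = E),
    |D.gam N L Q μ V c x| with hG
  rw [mul_add]
  refine add_le_add ?_ ?_
  · -- the diagonal
    refine mul_le_mul_of_nonneg_left ?_ hCd0
    have h3 : ∑ x ∈ I, |D.gam N L Q μ V c x| * G (D.Ee N L Q μ A x) =
        ∑ E ∈ W.powerset.erase ∅, G E * G E := by
      rw [← sum_fiberwise_of_maps_to (s := I) (t := W.powerset.erase ∅) (g := D.Ee N L Q μ A)]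
      · refine sum_congr rfl fun E _ => ?_
        rw [hG]
        simp only
        rw [sum_mul]
        refine sum_congr rfl fun x hx => ?_
        rw [(mem_filter.1 hx).2]
      · intro x hx
        rw [mem_erase, mem_powerset]
        refine ⟨nonempty_iff_ne_empty.1 (Ix_spec hL hQ hx).2.2.1, fun p hp => ?_⟩
        unfold Ee at hp
        exact ((Ix_spec hL hQ hx).2.2.2.2.1 p (mem_filter.1 hp).1).2.2.1
    change ∑ x ∈ I, |D.gam N L Q μ V c x| * G (D.Ee N L Q μ A x) ≤ _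
    rw [h3]
    have hGE : ∀ E, G E ≤ (N : ℝ) / V * ((∏ p ∈ E, ((D.K : ℝ) / p)) * P) := fun E =>
      sum_gam_E D N L Q μ hQ hμ hL hV hc A E
    have hG0 : ∀ E, 0 ≤ G E := fun E => sum_nonneg fun x _ => abs_nonneg _
    have h4 : ∀ E ∈ W.powerset.erase ∅, G E * G E ≤
        ((N : ℝ) / V) ^ 2 * P ^ 2 * ((1 / zz L Q 1) * ∏ p ∈ E, ((D.K : ℝ) ^ 2 / p)) := by
      intro E hE
      have h5 := mul_le_mul (hGE E) (hGE E) (hG0 E) ((hG0 E).trans (hGE E))
      refine h5.trans ?_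
      rw [mem_erase, mem_powerset] at hE
      have h6 : (∏ p ∈ E, ((D.K : ℝ) / p)) * (∏ p ∈ E, ((D.K : ℝ) / p)) =
          (∏ p ∈ E, (1 / (p : ℝ))) * ∏ p ∈ E, ((D.K : ℝ) ^ 2 / p) := by
        rw [← prod_mul_distrib, ← prod_mul_distrib]
        refine prod_congr rfl fun p _ => ?_
        ring
      have h7 : ∏ p ∈ E, (1 / (p : ℝ)) ≤ 1 / zz L Q 1 := by
        obtain ⟨q, hq⟩ := nonempty_iff_ne_empty.2 hE.1
        rw [← mul_prod_erase E (fun p => 1 / (p : ℝ)) hq]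
        have hq1 : 1 / (q : ℝ) ≤ 1 / zz L Q 1 :=
          one_div_le_one_div_of_le hz (WW_spec (hE.2 hq)).2.le
        have hq2 : ∏ p ∈ E.erase q, (1 / (p : ℝ)) ≤ 1 := by
          refine prod_le_one (fun p _ => by positivity) fun p hp => ?_
          have : (1 : ℝ) ≤ p := by
            exact_mod_cast (WW_spec (hE.2 (mem_erase.1 hp).2)).1.one_lt.le
          rw [div_le_one (by linarith)]
          exact this
        calc 1 / (q : ℝ) * ∏ p ∈ E.erase q, (1 / (p : ℝ)) ≤ 1 / zz L Q 1 * 1 :=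
              mul_le_mul hq1 hq2 (prod_nonneg fun p _ => by positivity) (by positivity)
          _ = 1 / zz L Q 1 := mul_one _
      have h8 : 0 ≤ ∏ p ∈ E, ((D.K : ℝ) ^ 2 / p) := prod_nonneg fun p _ => by positivity
      calc (N : ℝ) / V * ((∏ p ∈ E, ((D.K : ℝ) / p)) * P) *
            ((N : ℝ) / V * ((∏ p ∈ E, ((D.K : ℝ) / p)) * P)) =
            ((N : ℝ) / V) ^ 2 * P ^ 2 *
              ((∏ p ∈ E, ((D.K : ℝ) / p)) * (∏ p ∈ E, ((D.K : ℝ) / p))) := by ring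
        _ = ((N : ℝ) / V) ^ 2 * P ^ 2 *
              ((∏ p ∈ E, (1 / (p : ℝ))) * ∏ p ∈ E, ((D.K : ℝ) ^ 2 / p)) := by rw [h6]
        _ ≤ _ := mul_le_mul_of_nonneg_left (mul_le_mul_of_nonneg_right h7 h8) (by positivity)
    refine (sum_le_sum h4).trans ?_
    rw [← mul_sum, ← mul_sum]
    refine mul_le_mul_of_nonneg_left ?_ (by positivity)
    refine mul_le_mul_of_nonneg_left ?_ (by positivity)
    unfold Pw
    rw [prod_one_add]
    exact sum_le_sum_of_subset_of_nonneg (erase_subset _ _) fun E _ _ =>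
      prod_nonneg fun p _ => by positivity
  · -- the rest
    have h3 := sum_gam D N L Q μ hQ hμ hL hV hc A
    have h4 : 0 ≤ ∑ x ∈ I, |D.gam N L Q μ V c x| := sum_nonneg fun x _ => abs_nonneg _
    have h5 : (∑ x ∈ I, |D.gam N L Q μ V c x|) ^ 2 ≤ ((N : ℝ) / V * P) ^ 2 :=
      pow_le_pow_left₀ h4 h3 2
    refine (mul_le_mul_of_nonneg_left h5 (by positivity)).trans (le_of_eq ?_)
    rw [hX, mul_sum, sum_mul, mul_sum]
    refine sum_congr rfl fun a _ => ?_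
    ring

end Sys

end Stoll308.TW
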