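import Pool.Agent.Work.MP_308fa9_nt.TW.Cau
import Pool.Agent.Work.MP_308fa9_nt.TW.HSq
import Pool.Agent.Work.MP_308fa9_nt.TW.Fib
import Pool.Agent.Work.MP_308fa9_nt.TW.FibB

set_option autoImplicit false

/-!
The error terms (as `Gen.sum_hh_nat`).
-/

namespace Stoll308.TW

open Finset Stoll308.Gen

variable {k : ℕ}

namespace Sys

variable (D : Sys k) (N : ℕ) (L : ℝ) (Q : ℕ) (μ : Fin k → ℕ)

private lemma err_o_notMem (A : Finset (Fin k)) (p : ℕ) : (Lab.o : Lab k) ∉ D.Lb A p := by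
  unfold Lb Lbl
  rw [mem_union, mem_biUnion]
  rintro (h | ⟨i, _, h⟩)
  · split_ifs at h with hi
    · rw [mem_singleton] at h
      exact nomatch h
    · exact notMem_empty _ h
  · obtain ⟨a, _, ha⟩ := mem_image.1 h
    exact nomatch ha

private lemma err_card_Lb_le (A : Finset (Fin k)) {p : ℕ} (hp : p.Prime) (hC : D.C₀ < p) :
    (D.Lb A p).card ≤ D.K := by
  classical
  refine le_trans ?_ (D.card_le p hp hC)
  unfold Lb Lbl
  refine (card_union_le _ _).trans ?_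
  rw [add_comm]
  refine add_le_add ?_ ?_
  · refine (card_biUnion_le).trans ?_
    refine (sum_le_sum fun i _ => card_image_le).trans ?_
    exact sum_le_sum_of_subset (subset_univ _)
  · split_ifs <;> simp

/-- The sum of the weights of all outer label functions. -/
theorem sum_RF : ∑ r ∈ D.RF N L Q μ, ∏ p ∈ spt (SO L Q μ D.C₀ N) r, 1 / (p : ℝ) ≤
    D.Po N L Q μ := by
  classical
  have hSO : ∀ p ∈ SO L Q μ D.C₀ N, p.Prime ∧ D.C₀ < p := by
    intro p hp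
    unfold SO PX at hp
    rw [mem_filter, mem_filter] at hp
    exact hp.1.2
  have e1 : ∀ r : ℕ → Lab k, ∏ p ∈ spt (SO L Q μ D.C₀ N) r, 1 / (p : ℝ) =
      ∏ p ∈ SO L Q μ D.C₀ N, (if r p ≠ .o then 1 / (p : ℝ) else 1) := by
    intro r
    unfold spt
    rw [prod_filter]
  unfold RF Po
  rw [sum_congr rfl fun r _ => e1 r]
  have h := sum_prod_piF (SO L Q μ D.C₀ N) (fun p => insert .o (D.Lb univ p)) (.o : Lab k)
    (fun p ℓ => if ℓ ≠ .o then 1 / (p : ℝ) else 1)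
  rw [h]
  refine prod_le_prod (fun p _ => sum_nonneg fun ℓ _ => ?_) fun p hp => ?_
  · split_ifs <;> positivity
  · obtain ⟨hp1, hp2⟩ := hSO p hp
    rw [sum_insert (D.err_o_notMem _ _)]
    have h1 : ∑ ℓ ∈ D.Lb univ p, (if ℓ ≠ .o then 1 / (p : ℝ) else 1) =
        ((D.Lb univ p).card : ℝ) * (1 / (p : ℝ)) := by
      rw [← nsmul_eq_mul, ← sum_const]
      refine sum_congr rfl fun ℓ hℓ => ?_
      rw [if_pos]
      rintro rfl
      exact D.err_o_notMem _ _ hℓ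
    rw [h1, if_neg (by simp)]
    have h2 : ((D.Lb univ p).card : ℝ) ≤ D.K := Nat.cast_le.2 (D.err_card_Lb_le _ hp1 hp2)
    have h3 : (0 : ℝ) ≤ 1 / (p : ℝ) := by positivity
    have h4 := mul_le_mul_of_nonneg_right h2 h3
    have h5 : (D.K : ℝ) * (1 / (p : ℝ)) = D.K / p := by ring
    linarith

/-- The sum vanishes unless the components of `A` can be active. -/
theorem hh_eq_zero (hQ : 0 < Q) (hL : 1 ≤ L) {A : Finset (Fin k)} (hA : ¬ A ⊆ Big μ) (V : ℕ)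
    (c : (ℕ → Lab k) → ℕ → ℕ → ℝ) (g : (i : Fin k) → Fin (D.n i) → ℤ) :
    D.hh N L Q μ A V c g = 0 := by
  unfold hh
  have : D.Ix N L Q μ A = ∅ := by
    rw [eq_empty_iff_forall_notMem]
    intro x hx
    exact hA (Ix_spec hL hQ hx).2.2.2.1
  rw [this, sum_empty]

private lemma Rr_nonneg (A : Finset (Fin k)) : 0 ≤ D.Rr N L Q μ A := by
  unfold Rr
  have h1 : ∀ a : ℝ, 0 ≤ a → 0 ≤ D.Pw N L Q μ a := fun a ha =>
    prod_nonneg fun p _ => by positivity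
  have h2 := h1 ((D.K : ℝ) ^ 2) (by positivity)
  have h3 : (0 : ℝ) < zz L Q 1 := Real.exp_pos _
  have h4 : ∀ a : Fin k, 0 < Zc L Q μ a := fun a => Real.exp_pos _
  have h5 : 0 ≤ ∑ a ∈ A, (D.n a : ℝ) * zz L Q ((μ a : ℝ) - 1 / 2) ^ 2 *
      Zc L Q μ a ^ (-(D.n a : ℝ)⁻¹) := sum_nonneg fun a _ => by
    have := h4 a
    positivity
  positivity

/-- One fibre. -/
private lemma fibre_err (hQ : 0 < Q) (hμ : ∀ i, μ i < Q) (hL : 1 ≤ L) {A : Finset (Fin k)}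
    (hA : A ⊆ Big μ) (s : ℤ) (e : Finset (Fin k) → Fin D.m) (S : Finset (ℕ → Lab k))
    (hS : S ⊆ D.RO N L Q μ) {ro : ℕ → Lab k} (hro : ro ∈ S)
    (hsame : ∀ r ∈ S, ∀ r' ∈ S, Same D N L Q μ A r r') :
    ∑ r ∈ S, |D.hh N L Q μ A (D.VV N L Q μ r) (D.cI N L Q μ s e r) (D.go N L Q μ r)| ≤
      N * (2 ^ k * (∏ p ∈ spt (SO L Q μ D.C₀ N) (mask A (Zc L Q μ) ro), 1 / (p : ℝ)) *
        (∏ i, (2 * 3 ^ D.n i : ℝ)) * Real.sqrt (D.Rr N L Q μ A)) := by
  have hVpos : 0 < D.VV N L Q μ ro := VV_pos ro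
  have hVr : (0 : ℝ) < D.VV N L Q μ ro := Nat.cast_pos.2 hVpos
  set V : ℕ := D.VV N L Q μ ro with hV
  set h : ((i : Fin k) → Fin (D.n i) → ℤ) → ℝ := fun g =>
    D.hh N L Q μ A V (D.cI N L Q μ s e ro) g with hh'
  have e1 : ∑ r ∈ S, |D.hh N L Q μ A (D.VV N L Q μ r) (D.cI N L Q μ s e r) (D.go N L Q μ r)| =
      ∑ r ∈ S, |h (D.go N L Q μ r)| := by
    refine sum_congr rfl fun r hr => ?_
    rw [(hsame r hr ro hro).hh hL hQ s e]
  rw [e1]
  have hP0 : ∀ a : ℝ, 0 ≤ a → 0 ≤ D.Pw N L Q μ a := fun a ha =>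
    prod_nonneg fun p _ => by positivity
  have hPq := hP0 ((D.K : ℝ) ^ 2) (by positivity)
  have hz : (0 : ℝ) < zz L Q 1 := Real.exp_pos _
  set α : ℝ := ((N : ℝ) / V) ^ 2 * D.Pw N L Q μ D.K ^ 2 *
          (1 / zz L Q 1 * D.Pw N L Q μ ((D.K : ℝ) ^ 2)) with hα
  set β : Fin k → ℝ := fun a => ((N : ℝ) / V) ^ 2 * D.Pw N L Q μ D.K ^ 2 * (2 * (D.n a : ℝ)) *
          zz L Q ((μ a : ℝ) - 1 / 2) ^ 2 with hβ
  have hα0 : 0 ≤ α := by positivity
  have hβ0 : ∀ a, 0 ≤ β a := fun a => by positivity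
  have hmain := cauchy_fiber (n := D.n) A (fun a _ => D.n_pos a) S (fun r => D.go N L Q μ r)
    (fun r hr r' hr' hrr => (hsame r hr r' hr').inj (hS hr) (hS hr')
      fun a _ => congrFun hrr a)
    (D.go N L Q μ ro) (fun r hr i hi => (hsame r hr ro hro).go hi)
    (fun a => D.jl N L Q μ ro a)
    (fun r hr a ha y => by
      have h1 := go_le (hS hr) a y
      rwa [(hsame r hr ro hro).j a (hA ha)] at h1)
    h hα0 (fun a _ => hβ0 a)
    (fun B => D.hh_sq N L Q μ hQ hμ hL hVpos (fun r p x => D.cf_le _ _ _ _ _ _ _) A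
      (D.go N L Q μ ro) B)
  refine hmain.trans ?_
  have hR0 := D.Rr_nonneg N L Q μ A
  have hroS := hS hro
  -- the square root
  have h1 : α + ∑ a ∈ A, β a * ((2 : ℝ) ^ (D.jl N L Q μ ro a + 1)) ^ (-(D.n a : ℝ)⁻¹) ≤
      ((N : ℝ) / V) ^ 2 * D.Rr N L Q μ A := by
    have h2 : ∀ a ∈ A, β a * ((2 : ℝ) ^ (D.jl N L Q μ ro a + 1)) ^ (-(D.n a : ℝ)⁻¹) ≤
        ((N : ℝ) / V) ^ 2 * (D.Pw N L Q μ D.K ^ 2 * (2 * ((D.n a : ℝ) *
          zz L Q ((μ a : ℝ) - 1 / 2) ^ 2 * Zc L Q μ a ^ (-(D.n a : ℝ)⁻¹)))) := by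
      intro a ha
      have h3 : ((2 : ℝ) ^ (D.jl N L Q μ ro a + 1)) ^ (-(D.n a : ℝ)⁻¹) ≤
          Zc L Q μ a ^ (-(D.n a : ℝ)⁻¹) := by
        refine Real.rpow_le_rpow_of_nonpos (Real.exp_pos _) (Zc_le hroS (hA ha)) ?_
        have : 0 ≤ (D.n a : ℝ)⁻¹ := by positivity
        linarith
      refine (mul_le_mul_of_nonneg_left h3 (hβ0 a)).trans (le_of_eq ?_)
      simp only [hβ]
      ring
    refine (add_le_add_right (sum_le_sum h2) α).trans (le_of_eq ?_)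
    unfold Rr
    rw [← mul_sum, ← mul_sum, ← mul_sum]
    simp only [hα]
    ring
  have h2 : Real.sqrt (α + ∑ a ∈ A, β a *
      ((2 : ℝ) ^ (D.jl N L Q μ ro a + 1)) ^ (-(D.n a : ℝ)⁻¹)) ≤
      (N : ℝ) / V * Real.sqrt (D.Rr N L Q μ A) := by
    refine (Real.sqrt_le_sqrt h1).trans (le_of_eq ?_)
    rw [Real.sqrt_mul (by positivity), Real.sqrt_sq (by positivity)]
  have h3 : ∏ a ∈ A, (2 * 3 ^ D.n a : ℝ) ≤ ∏ i, (2 * 3 ^ D.n i : ℝ) := by
    have hone : ∀ i : Fin k, (1 : ℝ) ≤ 2 * 3 ^ D.n i := fun i => by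
      have : (1 : ℝ) ≤ 3 ^ D.n i := one_le_pow₀ (by norm_num)
      linarith
    rw [← prod_sdiff (subset_univ A)]
    have h0 := prod_le_prod (s := univ \ A) (f := fun _ => (1 : ℝ))
      (g := fun i : Fin k => (2 * 3 ^ D.n i : ℝ)) (fun _ _ => zero_le_one) fun i _ => hone i
    rw [prod_const_one] at h0
    exact le_mul_of_one_le_left (prod_nonneg fun i _ => by positivity) h0
  have h4 := size_le hroS hA
  have hW0 : 0 ≤ ∏ p ∈ spt (SO L Q μ D.C₀ N) (mask A (Zc L Q μ) ro), 1 / (p : ℝ) :=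
    prod_nonneg fun p _ => by positivity
  have h5 : (0 : ℝ) ≤ ∏ a ∈ A, (2 : ℝ) ^ D.jl N L Q μ ro a := prod_nonneg fun a _ => by positivity
  calc (∏ a ∈ A, (2 * 3 ^ D.n a) * (2 : ℝ) ^ D.jl N L Q μ ro a) *
        Real.sqrt (α + ∑ a ∈ A, β a *
          ((2 : ℝ) ^ (D.jl N L Q μ ro a + 1)) ^ (-(D.n a : ℝ)⁻¹)) ≤
        ((∏ i, (2 * 3 ^ D.n i : ℝ)) * ∏ a ∈ A, (2 : ℝ) ^ D.jl N L Q μ ro a) *
          ((N : ℝ) / V * Real.sqrt (D.Rr N L Q μ A)) := by
        rw [prod_mul_distrib]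
        exact mul_le_mul (mul_le_mul_of_nonneg_right h3 h5) h2 (Real.sqrt_nonneg _)
          (mul_nonneg (prod_nonneg fun i _ => by positivity) h5)
    _ = N * ((1 / (V : ℝ) * ∏ a ∈ A, (2 : ℝ) ^ D.jl N L Q μ ro a) *
          (∏ i, (2 * 3 ^ D.n i : ℝ)) * Real.sqrt (D.Rr N L Q μ A)) := by ring
    _ ≤ _ := by
        refine mul_le_mul_of_nonneg_left ?_ (Nat.cast_nonneg _)
        refine mul_le_mul_of_nonneg_right ?_ (Real.sqrt_nonneg _)
        exact mul_le_mul_of_nonneg_right h4 (prod_nonneg fun i _ => by positivity)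

theorem err_le (hQ : 0 < Q) (hμ : ∀ i, μ i < Q) (hL : 1 ≤ L) (A : Finset (Fin k)) (s : ℤ)
    (e : Finset (Fin k) → Fin D.m) :
    ∑ ro ∈ D.RO N L Q μ,
      |D.hh N L Q μ A (D.VV N L Q μ ro) (D.cI N L Q μ s e ro) (D.go N L Q μ ro)| ≤
    N * (2 ^ k * D.Po N L Q μ * ((3 * L) ^ k * (2 * D.K + 1) ^ k) *
      (∏ i, (2 * 3 ^ D.n i : ℝ)) * Real.sqrt (D.Rr N L Q μ A)) := by
  classical
  have hPo0 : 0 ≤ D.Po N L Q μ := prod_nonneg fun p _ => by positivity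
  have hprod0 : (0 : ℝ) ≤ ∏ i, (2 * 3 ^ D.n i : ℝ) := prod_nonneg fun i _ => by positivity
  by_cases hA : A ⊆ Big μ
  swap
  · rw [sum_eq_zero fun ro _ => by rw [D.hh_eq_zero N L Q μ hQ hL hA, abs_zero]]
    have := Real.sqrt_nonneg (D.Rr N L Q μ A)
    positivity
  -- the keys
  set X : ℕ := ⌊3 * L⌋₊ with hX
  have hXL : (X : ℝ) ≤ 3 * L := Nat.floor_le (by linarith)
  have hX3 : 3 ≤ X := Nat.le_floor (by push_cast; linarith)
  set T : Finset ((ℕ → Lab k) × (Fin k → ℕ) × (Fin k → ℤ)) :=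
    D.RF N L Q μ ×ˢ (Fintype.piFinset fun _ : Fin k => range X) ×ˢ
      (Fintype.piFinset fun _ : Fin k => Icc (-(D.K : ℤ)) D.K) with hT
  set key : (ℕ → Lab k) → (ℕ → Lab k) × (Fin k → ℕ) × (Fin k → ℤ) := fun ro =>
    (mask A (Zc L Q μ) ro, fun i => if i ∈ Big μ then D.jl N L Q μ ro i else 0,
      fun i => D.ko N L Q μ ro i) with hkey
  have hmaps : ∀ ro ∈ D.RO N L Q μ, key ro ∈ T := by
    intro ro hro
    have hroF : ro ∈ D.RF N L Q μ := (mem_filter.1 hro).1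
    rw [hT, mem_product, mem_product, Fintype.mem_piFinset, Fintype.mem_piFinset]
    refine ⟨mask_mem hroF A, fun i => ?_, fun i => ko_mem hroF i⟩
    rw [mem_range]
    change (if i ∈ Big μ then D.jl N L Q μ ro i else 0) < X
    by_cases hi : i ∈ Big μ
    · rw [if_pos hi]
      have h1 := jl_le hL hro hi
      have h2 : D.jl N L Q μ ro i + 1 ≤ X := Nat.le_floor (by push_cast; exact h1)
      omega
    · rw [if_neg hi]
      omega
  rw [← sum_fiberwise_of_maps_to hmaps]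
  set W : (ℕ → Lab k) → ℝ := fun m => ∏ p ∈ spt (SO L Q μ D.C₀ N) m, 1 / (p : ℝ) with hW
  have hW0 : ∀ m, 0 ≤ W m := fun m => prod_nonneg fun p _ => by positivity
  set c : ℝ := N * (2 ^ k * (∏ i, (2 * 3 ^ D.n i : ℝ)) * Real.sqrt (D.Rr N L Q μ A)) with hc
  have hc0 : 0 ≤ c := by
    have := Real.sqrt_nonneg (D.Rr N L Q μ A)
    positivity
  have hfib : ∀ t ∈ T, ∑ ro ∈ (D.RO N L Q μ).filter (fun ro => key ro = t),
      |D.hh N L Q μ A (D.VV N L Q μ ro) (D.cI N L Q μ s e ro) (D.go N L Q μ ro)| ≤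
      c * W t.1 := by
    intro t _
    rcases eq_empty_or_nonempty ((D.RO N L Q μ).filter (fun ro => key ro = t)) with hE | ⟨ro, hro⟩
    · rw [hE, sum_empty]
      exact mul_nonneg hc0 (hW0 _)
    · have h1 := D.fibre_err N L Q μ hQ hμ hL hA s e
        ((D.RO N L Q μ).filter (fun ro => key ro = t)) (filter_subset _ _) hro
        (fun r hr r' hr' => by
          have h2 : key r = key r' := (mem_filter.1 hr).2.trans (mem_filter.1 hr').2.symm
          simp only [hkey, Prod.mk.injEq] at h2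
          obtain ⟨h3, h4, h5⟩ := h2
          refine ⟨h3, fun i hi => ?_, fun i => congrFun h5 i⟩
          have h6 := congrFun h4 i
          simpa only [if_pos hi] using h6)
      refine h1.trans (le_of_eq ?_)
      have h2 : t.1 = mask A (Zc L Q μ) ro := by
        rw [← (mem_filter.1 hro).2]
      rw [h2]
      simp only [hc, hW]
      ring
  refine (sum_le_sum hfib).trans ?_
  rw [← mul_sum]
  have hsum : ∑ t ∈ T, W t.1 = (∑ m ∈ D.RF N L Q μ, W m) *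
      (((Fintype.piFinset fun _ : Fin k => range X).card : ℝ) *
        ((Fintype.piFinset fun _ : Fin k => Icc (-(D.K : ℤ)) D.K).card : ℝ)) := by
    rw [hT, sum_product, sum_mul]
    refine sum_congr rfl fun m _ => ?_
    simp only [sum_const, nsmul_eq_mul, card_product]
    push_cast
    ring
  have hc1 : ((Fintype.piFinset fun _ : Fin k => range X).card : ℝ) ≤ (3 * L) ^ k := by
    rw [Fintype.card_piFinset, prod_const, card_range, card_univ, Fintype.card_fin]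
    push_cast
    exact pow_le_pow_left₀ (Nat.cast_nonneg _) hXL k
  have hc2 : ((Fintype.piFinset fun _ : Fin k => Icc (-(D.K : ℤ)) D.K).card : ℝ) =
      (2 * D.K + 1) ^ k := by
    rw [Fintype.card_piFinset, prod_const, card_univ, Fintype.card_fin, Int.card_Icc]
    have : ((D.K : ℤ) + 1 - -(D.K : ℤ)).toNat = 2 * D.K + 1 := by omega
    rw [this]
    push_cast
    rfl
  have hs := D.sum_RF N L Q μ
  have hs0 : 0 ≤ ∑ m ∈ D.RF N L Q μ, W m := sum_nonneg fun m _ => hW0 m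
  have h1 : ∑ t ∈ T, W t.1 ≤ D.Po N L Q μ * ((3 * L) ^ k * (2 * D.K + 1) ^ k) := by
    rw [hsum, hc2]
    refine mul_le_mul hs ?_ (by positivity) hPo0
    exact mul_le_mul_of_nonneg_right hc1 (by positivity)
  refine (mul_le_mul_of_nonneg_left h1 hc0).trans (le_of_eq ?_)
  rw [hc]
  ring

end Sys

end Stoll308.TW
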