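import Pool.Agent.Work.MP_308fa9_nt.TW.Defs

set_option autoImplicit false

/-!
Expansion of the product of the conditions (as `Gen.sum_cond`).
-/

namespace Stoll308.TW

open Finset Stoll308.Gen

variable {k : ℕ}

namespace Sys

variable (D : Sys k) (N : ℕ) (L : ℝ) (Q : ℕ) (μ : Fin k → ℕ)

private lemma cond_expand (c : (ℕ → Lab k) → ℕ → ℕ → ℝ) (ri : ℕ → Lab k)
    (g : (i : Fin k) → Fin (D.n i) → ℤ) :
    D.cond N L Q μ c ri g = ∑ S ∈ D.Ch N L Q μ ri, D.hf N L Q μ ri *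
      ((∏ p ∈ spt (WW L Q μ D.C₀ N) ri, ∏ y ∈ S p, c ri p y) *
        ∏ p ∈ spt (WW L Q μ D.C₀ N) ri, D.Ff L Q μ ⟨ri, S⟩ p g) := by
  have h := sum_prod_piF (spt (WW L Q μ D.C₀ N) ri)
    (fun p => (D.J (AA L Q μ p) p (ri p)).powerset) (∅ : Finset ℕ)
    (fun p S => (1 / 2 : ℝ) ^ (D.J (AA L Q μ p) p (ri p)).card *
      ∏ y ∈ S, (c ri p y * D.ψ (AA L Q μ p) p (ri p) y g))
  unfold cond
  have e : ∏ p ∈ spt (WW L Q μ D.C₀ N) ri, ∏ x ∈ D.J (AA L Q μ p) p (ri p),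
      (1 + c ri p x * D.ψ (AA L Q μ p) p (ri p) x g) / 2 =
      ∏ p ∈ spt (WW L Q μ D.C₀ N) ri, ∑ S ∈ (D.J (AA L Q μ p) p (ri p)).powerset,
        (1 / 2 : ℝ) ^ (D.J (AA L Q μ p) p (ri p)).card *
      ∏ y ∈ S, (c ri p y * D.ψ (AA L Q μ p) p (ri p) y g) := by
    refine prod_congr rfl fun p _ => ?_
    rw [← mul_sum, ← prod_one_add]
    rw [prod_div_distrib, prod_const]
    rw [one_div, inv_pow]
    rw [div_eq_mul_inv, mul_comm]
  rw [e, ← h]
  refine sum_congr rfl fun S _ => ?_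
  unfold hf Ff
  rw [← prod_mul_distrib, ← prod_mul_distrib]
  refine prod_congr rfl fun p _ => ?_
  rw [prod_mul_distrib]

private lemma prod_Dd (x : Σ _ : ℕ → Lab k, ℕ → Finset ℕ) (F : ℕ → Finset ℕ → ℝ)
    (hF : ∀ p, F p ∅ = 1) :
    ∏ p ∈ D.Dd N L Q μ x, F p (x.2 p) = ∏ p ∈ spt (WW L Q μ D.C₀ N) x.1, F p (x.2 p) := by
  unfold Dd
  rw [prod_filter]
  refine prod_congr rfl fun p _ => ?_
  by_cases hA : (x.2 p).Nonempty
  · rw [if_pos hA]
  · rw [if_neg hA]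
    rw [not_nonempty_iff_eq_empty] at hA
    rw [hA, hF]

/-- Expansion: the terms without characters, and the others grouped by the active set of the
largest chosen prime. -/
theorem sum_cond (V : ℕ) (c : (ℕ → Lab k) → ℕ → ℕ → ℝ) (g : (i : Fin k) → Fin (D.n i) → ℤ) :
    ∑ ri ∈ D.RI N L Q μ, D.om N L Q μ V ri * D.cond N L Q μ c ri g =
      ∑ ri ∈ D.RI N L Q μ, D.om N L Q μ V ri * D.hf N L Q μ ri +
        ∑ A : Finset (Fin k), D.hh N L Q μ A V c g := by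
  classical
  set G : (Σ _ : ℕ → Lab k, ℕ → Finset ℕ) → ℝ := fun x =>
    D.gam N L Q μ V c x * ∏ p ∈ D.Dd N L Q μ x, D.Ff L Q μ x p g with hG
  have e1 : ∑ ri ∈ D.RI N L Q μ, D.om N L Q μ V ri * D.cond N L Q μ c ri g =
      ∑ x ∈ (D.RI N L Q μ).sigma fun ri => D.Ch N L Q μ ri, G x := by
    rw [sum_sigma]
    refine sum_congr rfl fun ri _ => ?_
    rw [cond_expand, mul_sum]
    refine sum_congr rfl fun S _ => ?_
    have h1 : ∏ p ∈ D.Dd N L Q μ ⟨ri, S⟩, D.Ff L Q μ ⟨ri, S⟩ p g =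
        ∏ p ∈ spt (WW L Q μ D.C₀ N) ri, D.Ff L Q μ ⟨ri, S⟩ p g :=
      prod_Dd D N L Q μ ⟨ri, S⟩ (fun p S => ∏ y ∈ S, D.ψ (AA L Q μ p) p (ri p) y g)
        (fun p => prod_empty)
    have h2 : ∏ p ∈ D.Dd N L Q μ ⟨ri, S⟩, ∏ y ∈ S p, c ri p y =
        ∏ p ∈ spt (WW L Q μ D.C₀ N) ri, ∏ y ∈ S p, c ri p y :=
      prod_Dd D N L Q μ ⟨ri, S⟩ (fun p S => ∏ y ∈ S, c ri p y) (fun p => prod_empty)
    simp only [hG, gam]
    rw [h1, h2]
    ring
  rw [e1, ← sum_filter_not_add_sum_filter _ (fun x => (D.Dd N L Q μ x).Nonempty)]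
  congr 1
  · -- the choice functions with empty values
    have e2 : ((D.RI N L Q μ).sigma fun ri => D.Ch N L Q μ ri).filter
        (fun x => ¬ (D.Dd N L Q μ x).Nonempty) =
        (D.RI N L Q μ).map ⟨fun ri => (⟨ri, fun _ => ∅⟩ : Σ _ : ℕ → Lab k, ℕ → Finset ℕ),
          fun a b h => by simpa using congrArg Sigma.fst h⟩ := by
      ext x
      rw [mem_filter, mem_sigma, mem_map]
      constructor
      · rintro ⟨⟨h1, h2⟩, h3⟩
        refine ⟨x.1, h1, ?_⟩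
        change (⟨x.1, fun _ => ∅⟩ : Σ _ : ℕ → Lab k, ℕ → Finset ℕ) = x
        have hx2 : x.2 = fun _ => ∅ := by
          funext p
          unfold Ch at h2
          rw [mem_piF] at h2
          by_cases hp : p ∈ spt (WW L Q μ D.C₀ N) x.1
          · by_contra hA
            apply h3
            refine ⟨p, ?_⟩
            unfold Dd
            rw [mem_filter]
            exact ⟨hp, nonempty_iff_ne_empty.2 hA⟩
          · exact h2.2 p hp
        rw [← hx2]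
      · rintro ⟨ri, hri, rfl⟩
        refine ⟨⟨hri, ?_⟩, ?_⟩
        · change (fun _ => ∅) ∈ D.Ch N L Q μ ri
          unfold Ch
          rw [mem_piF]
          exact ⟨fun p _ => empty_mem_powerset _, fun _ _ => rfl⟩
        · rintro ⟨p, hp⟩
          unfold Dd at hp
          rw [mem_filter] at hp
          exact not_nonempty_empty hp.2
    rw [e2, sum_map]
    refine sum_congr rfl fun ri _ => ?_
    change G ⟨ri, fun _ => ∅⟩ = _
    have h1 : D.Dd N L Q μ ⟨ri, fun _ => ∅⟩ = ∅ := by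
      unfold Dd
      exact filter_eq_empty_iff.2 fun p _ h => not_nonempty_empty h
    simp only [hG, gam]
    rw [h1, prod_empty, prod_empty, mul_one, mul_one]
  · have e3 := sum_fiberwise (((D.RI N L Q μ).sigma fun ri => D.Ch N L Q μ ri).filter
        (fun x => (D.Dd N L Q μ x).Nonempty)) (fun x => AA L Q μ ((D.Dd N L Q μ x).sup id)) G
    rw [← e3]
    refine sum_congr rfl fun A _ => ?_
    unfold hh Ix
    rw [filter_filter]

variable {D N L Q μ}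

/-- The properties of the terms in `Ix A`. -/
theorem Ix_spec (hL : 1 ≤ L) (hQ : 0 < Q) {A : Finset (Fin k)}
    {x : Σ _ : ℕ → Lab k, ℕ → Finset ℕ} (hx : x ∈ D.Ix N L Q μ A) :
    x.1 ∈ D.RI N L Q μ ∧ x.2 ∈ D.Ch N L Q μ x.1 ∧ (D.Ee N L Q μ A x).Nonempty ∧ A ⊆ Big μ ∧
      (∀ p ∈ D.Dd N L Q μ x, p.Prime ∧ D.C₀ < p ∧ p ∈ WW L Q μ D.C₀ N ∧ A ⊆ AA L Q μ p ∧
        x.1 p ∈ D.Lb (AA L Q μ p) p ∧ x.2 p ⊆ D.J (AA L Q μ p) p (x.1 p) ∧ (x.2 p).Nonempty) ∧
      ∀ a ∈ A, ∏ p ∈ D.Dd N L Q μ x, (p : ℝ) ≤ zz L Q ((μ a : ℝ) - 1 / 2) := by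
  classical
  unfold Ix at hx
  rw [mem_filter, mem_sigma] at hx
  obtain ⟨⟨hx1, hx2⟩, hx3, hx4⟩ := hx
  obtain ⟨q, hq, hqs⟩ := exists_mem_eq_sup _ hx3 (id : ℕ → ℕ)
  rw [hqs] at hx4
  have hqA : AA L Q μ q = A := hx4
  have hWW : ∀ p ∈ D.Dd N L Q μ x, p ∈ spt (WW L Q μ D.C₀ N) x.1 ∧ (x.2 p).Nonempty := by
    intro p hp
    unfold Dd at hp
    exact mem_filter.1 hp
  have hPX : ∀ p ∈ WW L Q μ D.C₀ N, p.Prime ∧ D.C₀ < p ∧ p ≤ N ∧ InW L Q μ p := by
    intro p hp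
    unfold WW at hp
    rw [mem_filter] at hp
    obtain ⟨hp1, hp2⟩ := hp
    unfold PX at hp1
    rw [mem_filter, mem_Icc] at hp1
    exact ⟨hp1.2.1, hp1.2.2, hp1.1.2, hp2⟩
  have hsub : ∀ p ∈ D.Dd N L Q μ x, A ⊆ AA L Q μ p := by
    intro p hp i hi
    have hpq : p ≤ q := by
      have := le_sup (f := (id : ℕ → ℕ)) hp
      rw [hqs] at this
      exact this
    rw [← hqA] at hi
    unfold AA at hi ⊢
    rw [mem_filter] at hi ⊢
    exact ⟨mem_univ _, le_trans (Nat.cast_le.2 hpq) hi.2⟩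
  have hBig : A ⊆ Big μ := by
    intro i hi
    have h1 := (hPX q (mem_filter.1 (hWW q hq).1).1).2.2.2.1
    have hi2 := hi
    rw [← hqA] at hi2
    unfold AA at hi2
    have h2 := (mem_filter.1 hi2).2
    have h3 : zz L Q 1 < zz L Q ((μ i : ℝ) - 1) := h1.trans_le h2
    unfold Big
    rw [mem_filter]
    refine ⟨mem_univ _, ?_⟩
    by_contra hcon
    have h4 : (μ i : ℝ) - 1 ≤ 1 := by
      have : μ i ≤ 2 := by omega
      have : (μ i : ℝ) ≤ 2 := by exact_mod_cast this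
      linarith
    unfold zz at h3
    rw [Real.exp_lt_exp] at h3
    have hQ' : (0 : ℝ) < Q := Nat.cast_pos.2 hQ
    have h5 : L ^ (((μ i : ℝ) - 1) / (Q : ℝ)) ≤ L ^ ((1 : ℝ) / (Q : ℝ)) :=
      Real.rpow_le_rpow_of_exponent_le hL (div_le_div_of_nonneg_right h4 hQ'.le)
    linarith
  refine ⟨hx1, hx2, ⟨q, ?_⟩, hBig, ?_, ?_⟩
  · unfold Ee
    rw [mem_filter]
    exact ⟨hq, hqA⟩
  · intro p hp
    obtain ⟨h1, h2⟩ := hWW p hp
    have h3 := mem_filter.1 h1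
    obtain ⟨h4, h5, h6, h7⟩ := hPX p h3.1
    refine ⟨h4, h5, h3.1, hsub p hp, ?_, ?_, h2⟩
    · have h8 := hx1
      unfold RI at h8
      rw [mem_filter, mem_piF] at h8
      have h9 : p ∈ SI L Q μ D.C₀ N := by
        unfold SI
        rw [mem_filter]
        refine ⟨?_, Or.inl h3.1⟩
        have := h3.1
        unfold WW at this
        exact (mem_filter.1 this).1
      have h10 := h8.1.1 p h9
      rw [mem_insert] at h10
      rcases h10 with h10 | h10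
      · exact absurd h10 h3.2
      · exact h10
    · have h8 := hx2
      unfold Ch at h8
      rw [mem_piF] at h8
      exact mem_powerset.1 (h8.1 p h1)
  · intro a ha
    have h8 := hx1
    unfold RI at h8
    rw [mem_filter] at h8
    refine le_trans ?_ (h8.2 a (hBig ha))
    have h9 : ∏ p ∈ D.Dd N L Q μ x, p ≤ ∏ p ∈ (spt (WW L Q μ D.C₀ N) x.1).filter
        (fun p : ℕ => (p : ℝ) ≤ zz L Q ((μ a : ℝ) - 1)), p := by
      refine prod_le_prod_of_subset_of_one_le' ?_ fun p hp _ => ?_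
      · intro p hp
        rw [mem_filter]
        refine ⟨(hWW p hp).1, ?_⟩
        have := hsub p hp ha
        unfold AA at this
        exact (mem_filter.1 this).2
      · exact (hPX p (mem_filter.1 (mem_filter.1 hp).1).1).1.one_lt.le
    rw [← Nat.cast_prod, ← Nat.cast_prod]
    exact Nat.cast_le.2 h9

/-- Two terms in `Ix A`: a common chosen prime with active set `A` for one has it for the other. -/
theorem Ee_of_Dd {A : Finset (Fin k)} {x y : Σ _ : ℕ → Lab k, ℕ → Finset ℕ} {p : ℕ}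
    (hp : p ∈ D.Ee N L Q μ A x) (hp' : p ∈ D.Dd N L Q μ y) : p ∈ D.Ee N L Q μ A y := by
  unfold Ee at hp ⊢
  rw [mem_filter] at hp ⊢
  exact ⟨hp', hp.2⟩

end Sys

end Stoll308.TW
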