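import Pool.Agent.Work.MP_308fa9_nt.TW.UpE
import Pool.Agent.Work.MP_308fa9_nt.TW.Block

set_option autoImplicit false

/-!
Even degree: the number of twists with a datum.
-/

namespace Stoll308.TW

open Finset Stoll308.Gen

variable {k : ℕ}

namespace Sys

variable (D : Sys k)

/-- The primes `> C₀` dividing `t` are labelled by the components. -/
private lemma prod_big_eq (hi : D.inf = false) {t : ℤ} {r : ℕ → Lab k} (hr : D.Dt t r) :
    ∏ p ∈ bigPrimes D.C₀ t, p = ∏ i, D.XX t r i := by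
  classical
  unfold Sys.XX
  rw [← prod_biUnion]
  · refine prod_congr ?_ fun _ _ => rfl
    ext p
    rw [mem_biUnion]
    constructor
    · intro hp
      have h1 : r p ≠ .o := (hr.1 p).2 hp
      have h2 : r p ∈ D.Lb univ p := (hr.2.1 p).resolve_left h1
      unfold Lb Lbl at h2
      rw [hi, if_neg (by decide), empty_union, mem_biUnion] at h2
      obtain ⟨i, _, h3⟩ := h2
      obtain ⟨a, _, h4⟩ := mem_image.1 h3
      refine ⟨i, mem_univ _, mem_filter.2 ⟨hp, ?_⟩⟩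
      rw [← h4]
      rfl
    · rintro ⟨i, _, hp⟩
      exact (mem_filter.1 hp).1
  · intro i _ j _ hij
    rw [Function.onFun, disjoint_left]
    intro p hp hp'
    have h1 := (mem_filter.1 hp).2
    have h2 := (mem_filter.1 hp').2
    rw [h1] at h2
    injection h2 with h3
    exact hij h3

/-- The elements all of whose products `XX` are small. -/
private lemma natAbs_le_of_XX (hi : D.inf = false) {t : ℤ} (ht : Squarefree t) {r : ℕ → Lab k}
    (hr : D.Dt t r) {y : ℝ} (hy : ∀ i, (D.XX t r i : ℝ) ≤ Real.exp y) :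
    (t.natAbs : ℝ) ≤ P0 D.C₀ * Real.exp (k * y) := by
  have h1 : ((∏ p ∈ bigPrimes D.C₀ t, p : ℕ) : ℝ) ≤ Real.exp (k * y) := by
    rw [D.prod_big_eq hi hr, Nat.cast_prod, Real.exp_nat_mul]
    calc ∏ i, (D.XX t r i : ℝ) ≤ ∏ _i : Fin k, Real.exp y :=
          prod_le_prod (fun _ _ => Nat.cast_nonneg _) fun i _ => hy i
      _ = Real.exp y ^ k := by rw [prod_const, card_univ, Fintype.card_fin]
  have h2 : t.natAbs = (∏ p ∈ bigPrimes D.C₀ t, p) * (sp D.C₀ t).natAbs := by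
    rw [sp_natAbs D.C₀ ht]
    exact natAbs_eq D.C₀ ht
  have h3 : (sp D.C₀ t).natAbs ≤ P0 D.C₀ := by
    have := sp_mem D.C₀ ht
    rw [mem_Icc] at this
    omega
  rw [h2, Nat.cast_mul, mul_comm]
  exact mul_le_mul (by exact_mod_cast h3) h1 (Nat.cast_nonneg _) (Nat.cast_nonneg _)

open Classical in
/-- The number of the elements all of whose products `XX` are small. -/
lemma card_small (hi : D.inf = false) (N : ℕ) (y : ℝ) :
    (((Icc (-(N : ℤ)) N).filter fun t => Squarefree t ∧ ∃ r, D.Dt t r ∧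
      ∀ i, (D.XX t r i : ℝ) ≤ Real.exp y).card : ℝ) ≤
      2 * (P0 D.C₀ * Real.exp (k * y)) + 1 := by
  set m : ℕ := ⌊(P0 D.C₀ : ℝ) * Real.exp (k * y)⌋₊ with hm
  have hsub : ((Icc (-(N : ℤ)) N).filter fun t => Squarefree t ∧ ∃ r, D.Dt t r ∧
      ∀ i, (D.XX t r i : ℝ) ≤ Real.exp y) ⊆ Icc (-(m : ℤ)) m := by
    intro t ht
    obtain ⟨_, hsq, r, hr, hy⟩ := mem_filter.1 ht
    have h1 := D.natAbs_le_of_XX hi hsq hr hy
    have h2 : t.natAbs ≤ m := Nat.le_floor h1
    rw [mem_Icc]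
    omega
  have h3 := card_le_card hsub
  rw [Int.card_Icc] at h3
  have h4 : ((m : ℤ) + 1 - -(m : ℤ)).toNat = 2 * m + 1 := by omega
  rw [h4] at h3
  have h5 : (m : ℝ) ≤ (P0 D.C₀ : ℝ) * Real.exp (k * y) := Nat.floor_le (by positivity)
  calc _ ≤ ((2 * m + 1 : ℕ) : ℝ) := by exact_mod_cast h3
    _ = 2 * (m : ℝ) + 1 := by push_cast; ring
    _ ≤ _ := by linarith

/-- The comparison of the number of small elements. -/
lemma small_le (P : ℝ) (hP : 0 ≤ P) (k Q : ℕ) (hQ : 4 ≤ Q) : ∃ x₀ : ℝ, 1 ≤ x₀ ∧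
    ∀ x : ℝ, x₀ ≤ x → 2 * (P * Real.exp (k * x ^ (((Q : ℝ) - 1) / Q))) + 1 ≤
      Real.exp x * x ^ (-(2 : ℝ)) := by
  have hQ' : (4 : ℝ) ≤ Q := by exact_mod_cast hQ
  have h1 : (fun x : ℝ => (k : ℝ) * x ^ (((Q : ℝ) - 1) / Q)) =o[Filter.atTop]
      (fun x : ℝ => x) := by
    have hθ : 0 < 1 - ((Q : ℝ) - 1) / Q := by
      rw [sub_pos, div_lt_one (by linarith)]
      linarith
    have h0 : Filter.Tendsto (fun x : ℝ => x ^ (-(1 - ((Q : ℝ) - 1) / Q))) Filter.atTop (nhds 0) :=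
      tendsto_rpow_neg_atTop hθ
    refine Asymptotics.IsLittleO.const_mul_left ?_ _
    refine (Asymptotics.isLittleO_iff_tendsto' ?_).2 (h0.congr' ?_)
    · filter_upwards [Filter.eventually_gt_atTop (0 : ℝ)] with x hx h
      exact absurd h hx.ne'
    · filter_upwards [Filter.eventually_gt_atTop (0 : ℝ)] with x hx
      rw [eq_div_iff hx.ne', ← Real.rpow_add_one hx.ne']
      congr 1
      ring
  have h2 : (fun x : ℝ => 2 * Real.log x) =o[Filter.atTop] (fun x : ℝ => x) :=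
    Real.isLittleO_log_id_atTop.const_mul_left _
  have h3 : (fun _ : ℝ => Real.log (2 * P + 1)) =o[Filter.atTop] (fun x : ℝ => x) :=
    Asymptotics.isLittleO_const_id_atTop _
  have h4 := ((h1.add h2).add h3).def one_pos
  obtain ⟨x₀, hx₀⟩ := Filter.eventually_atTop.1 h4
  refine ⟨max x₀ 1, le_max_right _ _, fun x hx => ?_⟩
  have hx1 : 1 ≤ x := (le_max_right _ _).trans hx
  have hx0 : 0 < x := by linarith
  have h5 := hx₀ x ((le_max_left _ _).trans hx)
  rw [Real.norm_of_nonneg hx0.le, one_mul, Real.norm_eq_abs] at h5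
  have h6 := (le_abs_self _).trans h5
  have hk0 : 0 ≤ (k : ℝ) * x ^ (((Q : ℝ) - 1) / Q) := by positivity
  have hP1 : 0 < 2 * P + 1 := by linarith
  have e1 : Real.exp x * x ^ (-(2 : ℝ)) = Real.exp (x - 2 * Real.log x) := by
    rw [Real.rpow_def_of_pos hx0, ← Real.exp_add]
    congr 1
    ring
  rw [e1]
  calc 2 * (P * Real.exp (k * x ^ (((Q : ℝ) - 1) / Q))) + 1 ≤
        (2 * P + 1) * Real.exp (k * x ^ (((Q : ℝ) - 1) / Q)) := by
        have : 1 ≤ Real.exp (k * x ^ (((Q : ℝ) - 1) / Q)) := Real.one_le_exp hk0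
        nlinarith
    _ = Real.exp (Real.log (2 * P + 1) + k * x ^ (((Q : ℝ) - 1) / Q)) := by
        rw [Real.exp_add, Real.exp_log hP1]
    _ ≤ _ := Real.exp_le_exp.2 (by linarith)

open Classical in
/-- The number of squarefree `t`, `|t| ≤ N`, with a datum: deduction from the bound for the main
term. -/
theorem total_of_main (f : Polynomial ℤ) (_hk : 0 < k) (hi : D.inf = false)
    (hmain : ∃ (Q : ℕ) (c C : ℝ) (N₀ : ℕ), 4 ≤ Q ∧ 0 < c ∧ 0 ≤ C ∧ 3 ≤ N₀ ∧ ∀ N : ℕ, N₀ ≤ N →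
      ∀ μ ∈ Lv k Q, ∑ n ∈ Icc 1 (2 ^ k * N), HT.hf (D.HH (Real.log N) Q μ) n ≤
        C * (N * Real.log N ^ (-1 - c)) * ∏ p ∈ rootPrimes f N, (1 + 1 / (p : ℝ))) :
    ∃ c C : ℝ, 0 < c ∧ ∀ N : ℕ, 3 ≤ N →
      (((Icc (-(N : ℤ)) N).filter fun t => Squarefree t ∧ ∃ r, D.Dt t r).card : ℝ) ≤
        C * N * Real.log N ^ (-1 - c) * ∏ p ∈ rootPrimes f N, (1 + 1 / (p : ℝ)) := by
  obtain ⟨Q, c₀, C₁, N₁, hQ, hc₀, hC₁, hN₁, hm⟩ := hmain
  obtain ⟨C₂, L₂, hC₂, hL₂, hb⟩ := D.block_le Q hQ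
  obtain ⟨x₀, hx₀, hsm⟩ := small_le (P0 D.C₀) (Nat.cast_nonneg _) k Q hQ
  set c : ℝ := min c₀ 1 with hc
  have hc0 : 0 < c := lt_min hc₀ one_pos
  set N₂ : ℕ := max N₁ ⌈Real.exp (max L₂ x₀)⌉₊ with hN₂
  have hN₂3 : 3 ≤ N₂ := hN₁.trans (le_max_left _ _)
  set K : ℝ := C₂ * (((Lv k Q).card : ℝ) * C₁ + 1) + 1 with hK
  set K' : ℝ := 3 * Real.log N₂ ^ (1 + c) with hK'
  have hK0 : 0 ≤ K := by positivity
  have hlog2 : 0 < Real.log N₂ := Real.log_pos (by exact_mod_cast (by omega : 1 < N₂))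
  have hK'0 : 0 ≤ K' := by positivity
  have hPr : ∀ N : ℕ, 1 ≤ ∏ p ∈ rootPrimes f N, (1 + 1 / (p : ℝ)) := fun N => by
    refine one_le_prod fun p _ => ?_
    have : (0 : ℝ) ≤ 1 / p := by positivity
    linarith
  refine ⟨c, max K K', hc0, fun N hN => ?_⟩
  have hN0 : (0 : ℝ) < N := by exact_mod_cast (by omega : 0 < N)
  have hlog1 : 1 ≤ Real.log N := by
    rw [Real.le_log_iff_exp_le hN0]
    have h3 : (3 : ℝ) ≤ N := by exact_mod_cast hN
    have := Real.exp_one_lt_d9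
    linarith
  have hlog0 : 0 < Real.log N := by linarith
  have hcard : (((Icc (-(N : ℤ)) N).filter fun t => Squarefree t ∧ ∃ r, D.Dt t r).card : ℝ) ≤
      max K K' * N * Real.log N ^ (-1 - c) * 1 →
      (((Icc (-(N : ℤ)) N).filter fun t => Squarefree t ∧ ∃ r, D.Dt t r).card : ℝ) ≤
        max K K' * N * Real.log N ^ (-1 - c) * ∏ p ∈ rootPrimes f N, (1 + 1 / (p : ℝ)) := by
    intro h
    refine h.trans (mul_le_mul_of_nonneg_left (hPr N) ?_)
    have : 0 ≤ max K K' := hK0.trans (le_max_left _ _)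
    positivity
  rcases lt_or_ge N N₂ with hlt | hge
  · -- small `N`
    apply hcard
    have h1 : (((Icc (-(N : ℤ)) N).filter fun t => Squarefree t ∧ ∃ r, D.Dt t r).card : ℝ) ≤
        3 * N := by
      have h2 := card_le_card (filter_subset (fun t => Squarefree t ∧ ∃ r, D.Dt t r)
        (Icc (-(N : ℤ)) N))
      rw [Int.card_Icc] at h2
      have h4 : ((N : ℤ) + 1 - -(N : ℤ)).toNat = 2 * N + 1 := by omega
      rw [h4] at h2
      have h5 : 2 * N + 1 ≤ 3 * N := by omega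
      exact_mod_cast h2.trans h5
    refine h1.trans ?_
    have h6 : 1 ≤ Real.log N₂ ^ (1 + c) * Real.log N ^ (-1 - c) := by
      have e : Real.log N ^ (-1 - c) = (Real.log N ^ (1 + c))⁻¹ := by
        rw [← Real.rpow_neg hlog0.le]
        congr 1
        ring
      rw [e, ← div_eq_mul_inv, one_le_div (by positivity)]
      refine Real.rpow_le_rpow hlog0.le ?_ (by linarith)
      exact Real.log_le_log hN0 (by exact_mod_cast hlt.le)
    calc 3 * (N : ℝ) ≤ 3 * N * (Real.log N₂ ^ (1 + c) * Real.log N ^ (-1 - c)) :=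
          le_mul_of_one_le_right (by positivity) h6
      _ = K' * N * Real.log N ^ (-1 - c) * 1 := by
          rw [hK']
          ring
      _ ≤ _ := by
          have := le_max_right K K'
          gcongr
  · -- large `N`
    have hN1 : N₁ ≤ N := (le_max_left _ _).trans hge
    have hNe : Real.exp (max L₂ x₀) ≤ N :=
      (Nat.le_ceil _).trans (by exact_mod_cast (le_max_right _ _).trans hge)
    have hLx : max L₂ x₀ ≤ Real.log N := (Real.le_log_iff_exp_le hN0).2 hNe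
    have hsub : ((Icc (-(N : ℤ)) N).filter fun t => Squarefree t ∧ ∃ r, D.Dt t r) ⊆
        D.Bl N (Real.log N) Q ∪ (Icc (-(N : ℤ)) N).filter fun t => Squarefree t ∧
          ∃ r, D.Dt t r ∧ ∀ i, (D.XX t r i : ℝ) ≤
            Real.exp (Real.log N ^ (((Q : ℝ) - 1) / Q)) := by
      intro t ht
      obtain ⟨htN, hsq, r, hr⟩ := mem_filter.1 ht
      rw [mem_union]
      by_cases h : ∃ i, zz (Real.log N) Q ((Q : ℝ) - 1) ≤ (D.XX t r i : ℝ)
      · left
        unfold Bl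
        rw [mem_filter]
        refine ⟨htN, hsq, r, hr, fun i => ?_, h⟩
        rw [Real.exp_log hN0]
        unfold Sys.XX
        have h1 : ∏ p ∈ cpt i (bigPrimes D.C₀ t) r, p ≤ ∏ p ∈ bigPrimes D.C₀ t, p :=
          prod_le_prod_of_subset_of_one_le' (filter_subset _ _) fun p hp _ =>
            (Nat.prime_of_mem_primeFactors (mem_filter.1 hp).1).one_lt.le
        have h2 : (∏ p ∈ bigPrimes D.C₀ t, p) ≤ t.natAbs := by
          rw [natAbs_eq D.C₀ hsq]
          refine Nat.le_mul_of_pos_right _ ?_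
          exact prod_pos fun _ hp => (Nat.prime_of_mem_primeFactors (mem_filter.1 hp).1).pos
        have h3 : t.natAbs ≤ N := by
          rw [mem_Icc] at htN
          omega
        exact_mod_cast h1.trans (h2.trans h3)
      · right
        push Not at h
        exact mem_filter.2 ⟨htN, hsq, r, hr, fun i => (h i).le⟩
    have h1 := (card_le_card hsub).trans (card_union_le _ _)
    have h2 : (((Icc (-(N : ℤ)) N).filter fun t => Squarefree t ∧ ∃ r, D.Dt t r).card : ℝ) ≤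
        ((D.Bl N (Real.log N) Q).card : ℝ) +
        (((Icc (-(N : ℤ)) N).filter fun t => Squarefree t ∧ ∃ r, D.Dt t r ∧
          ∀ i, (D.XX t r i : ℝ) ≤
            Real.exp (Real.log N ^ (((Q : ℝ) - 1) / Q))).card : ℝ) := by
      exact_mod_cast h1
    have h3 := D.card_small hi N (Real.log N ^ (((Q : ℝ) - 1) / Q))
    have h4 := hsm (Real.log N) ((le_max_right _ _).trans hLx)
    rw [Real.exp_log hN0] at h4
    have h5 := hb N (Real.log N) ((le_max_left _ _).trans hLx) (Real.exp_log hN0).le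
    set P : ℝ := ∏ p ∈ rootPrimes f N, (1 + 1 / (p : ℝ)) with hPdef
    have hP1 : 1 ≤ P := hPr N
    have h6 : ∑ μ ∈ Lv k Q, ∑ n ∈ Icc 1 (2 ^ k * N), HT.hf (D.HH (Real.log N) Q μ) n ≤
        ((Lv k Q).card : ℝ) * (C₁ * (N * Real.log N ^ (-1 - c)) * P) := by
      rw [← nsmul_eq_mul]
      refine sum_le_card_nsmul _ _ _ fun μ hμ => ?_
      refine (hm N hN1 μ hμ).trans ?_
      refine mul_le_mul_of_nonneg_right ?_ (by linarith)
      refine mul_le_mul_of_nonneg_left ?_ hC₁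
      refine mul_le_mul_of_nonneg_left ?_ hN0.le
      exact Real.rpow_le_rpow_of_exponent_le hlog1 (by
        have := min_le_left c₀ (1 : ℝ)
        linarith)
    have h7 : (N : ℝ) * Real.log N ^ (-(2 : ℝ)) ≤ N * Real.log N ^ (-1 - c) * P := by
      have h8 : (N : ℝ) * Real.log N ^ (-(2 : ℝ)) ≤ N * Real.log N ^ (-1 - c) := by
        refine mul_le_mul_of_nonneg_left ?_ hN0.le
        exact Real.rpow_le_rpow_of_exponent_le hlog1 (by
          have := min_le_right c₀ (1 : ℝ)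
          linarith)
      exact h8.trans (le_mul_of_one_le_right (by positivity) hP1)
    calc (((Icc (-(N : ℤ)) N).filter fun t => Squarefree t ∧ ∃ r, D.Dt t r).card : ℝ) ≤
          C₂ * (∑ μ ∈ Lv k Q, ∑ n ∈ Icc 1 (2 ^ k * N), HT.hf (D.HH (Real.log N) Q μ) n +
            N * Real.log N ^ (-(2 : ℝ))) + N * Real.log N ^ (-(2 : ℝ)) :=
          h2.trans (add_le_add h5 (h3.trans h4))
      _ ≤ C₂ * (((Lv k Q).card : ℝ) * (C₁ * (N * Real.log N ^ (-1 - c)) * P) +
            N * Real.log N ^ (-1 - c) * P) + N * Real.log N ^ (-1 - c) * P :=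
          add_le_add (mul_le_mul_of_nonneg_left (add_le_add h6 h7) hC₂) h7
      _ = K * (N * Real.log N ^ (-1 - c) * P) := by
          rw [hK]
          ring
      _ ≤ max K K' * (N * Real.log N ^ (-1 - c) * P) := by
          refine mul_le_mul_of_nonneg_right (le_max_left _ _) ?_
          positivity
      _ = _ := by ring

open Classical in
/-- The number of squarefree `t`, `|t| ≤ N`, with a datum. -/
theorem total_even (f : Polynomial ℤ) (Sp : ℕ → Prop) (hS : LowMert Sp) (hi : D.inf = false)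
    (hk : 0 < k)
    (hw : ∀ A p, p.Prime → D.C₀ < p → A.Nonempty →
      D.wt A p ≤ if (R f p).Nonempty then 1 else 0)
    (hs : ∀ A p, p.Prime → D.C₀ < p → A.Nonempty → Sp p → (R f p).Nonempty ∧
      D.wt A p ≤ 7 / 8) :
    ∃ c C : ℝ, 0 < c ∧ ∀ N : ℕ, 3 ≤ N →
      (((Icc (-(N : ℤ)) N).filter fun t => Squarefree t ∧ ∃ r, D.Dt t r).card : ℝ) ≤
        C * N * Real.log N ^ (-1 - c) * ∏ p ∈ rootPrimes f N, (1 + 1 / (p : ℝ)) := by
  exact D.total_of_main f hk hi (D.main_even f Sp hS hi hw hs)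

end Sys

end Stoll308.TW
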