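import Pool.Agent.Work.MP_308fa9_nt.TW.ASys
import Pool.Agent.Work.MP_308fa9_nt.TW.AFac
import Pool.Agent.Work.MP_308fa9_nt.TW.TotE
import Pool.Agent.Work.MP_308fa9_nt.Gen.LowG

set_option autoImplicit false

/-!
Quadratic twists of a hyperelliptic curve of genus at least two over `ℚ` without Weierstrass points
of degree `≤ 2`: 100 percent of the everywhere locally soluble ones have an empty fake `2`-Selmer
set and no rational point.
-/

namespace Stoll308.TW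

open Polynomial Finset Stoll308.Irr

private lemma lowMert_of_sep (f : ℤ[X]) (hf : f.Monic)
    (hsep : (f.map (Int.castRingHom ℚ)).Separable) :
    LowMert fun p => (Stoll308.Gen.R f p).card = f.natDegree := by
  classical
  obtain ⟨κ, B, hκ, h⟩ := Stoll308.Cheb.splitMert f hf hsep
  refine ⟨κ, B, hκ, fun x y hx hxy => (h x y hx hxy).trans (le_of_eq ?_)⟩
  refine sum_congr ?_ fun _ _ => rfl
  ext p
  simp only [mem_filter]

/-- The upper bound in the monic case. -/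
private lemma upper_monic (F : ℤ[X]) (hm : F.Monic)
    (hsep : (F.map (Int.castRingHom ℚ)).Separable)
    (h3 : ∀ g : ℚ[X], Irreducible g → g ∣ F.map (Int.castRingHom ℚ) → 3 ≤ g.natDegree)
    (hev : Even F.natDegree) (h6 : 6 ≤ F.natDegree) :
    ∃ c C : ℝ, 0 < c ∧ ∃ X₀ : ℕ, ∀ X : ℕ, X₀ ≤ X →
      (cnt (Stoll308.Gen.Sel F) X : ℝ) ≤ C * X * Real.log X ^ (-1 - c) * VV F X := by
  classical
  obtain ⟨k, f, hk, hfm, hfi, hfd, hF⟩ := exists_fac 3 F hm (by omega) hsep h3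
  have hdeg : F.natDegree = ∑ i, (f i).natDegree := by
    rw [hF]
    exact natDegree_FF hfm
  obtain ⟨B, hB⟩ := exists_GB hfm hfi (fun i => le_trans (by norm_num) (hfd i))
    (hdeg ▸ hev) (hdeg ▸ h6) (hF ▸ hsep)
  have hG := hB B le_rfl
  obtain ⟨D, hC, hinf, -, hwt, hDt⟩ := exists_sys hG
  have hA : ∀ A : Finset (Fin k), A.Nonempty → 3 ≤ ∑ i ∈ A, (f i).natDegree := by
    rintro A ⟨i, hi⟩
    exact (hfd i).trans (single_le_sum (f := fun i => (f i).natDegree)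
      (fun _ _ => Nat.zero_le _) hi)
  obtain ⟨c, C, hc, h⟩ := Sys.total_even D F
    (fun p => (Stoll308.Gen.R F p).card = F.natDegree) (lowMert_of_sep F hm hsep) hinf hk
    (fun A p hp hpC hne => by
      rw [hwt, hF]
      exact wA_le hG A (hA A hne) hp (hC ▸ hpC))
    (fun A p hp hpC hne hs => by
      rw [hwt, hF]
      rw [hF] at hs
      exact wA_split hG (hA A hne) hp (hC ▸ hpC) hs)
  refine ⟨c, C, hc, 3, fun X hX => ?_⟩
  refine le_trans ?_ (h X hX)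
  unfold cnt
  have h1 : ((Icc (-(X : ℤ)) X).filter fun t => Squarefree t ∧ Stoll308.Gen.Sel F t) ⊆
      ((Icc (-(X : ℤ)) X).filter fun t => Squarefree t ∧ ∃ r, D.Dt t r) := by
    intro t ht
    rw [mem_filter] at ht ⊢
    refine ⟨ht.1, ht.2.1, hDt t ht.2.1 ?_⟩
    rw [← hF]
    exact ht.2.2
  have h2 : ((Icc (-(X : ℤ)) X).filter fun t => Squarefree t ∧ Stoll308.Gen.Sel F t).card ≤
      ((Icc (-(X : ℤ)) X).filter fun t => Squarefree t ∧ ∃ r, D.Dt t r).card := card_le_card h1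
  exact_mod_cast h2

theorem main (F : ℤ[X]) (hsep : (F.map (Int.castRingHom ℚ)).Separable)
    (h3 : ∀ g : ℚ[X], Irreducible g → g ∣ F.map (Int.castRingHom ℚ) → 3 ≤ g.natDegree)
    (hev : Even F.natDegree) (h6 : 6 ≤ F.natDegree) :
    (∃ c : ℝ, 0 < c ∧ ∃ X₀ : ℕ, ∀ X : ℕ, X₀ ≤ X →
      c * X / Real.log X ≤ (cnt (ELS F) X : ℝ)) ∧
    (∃ c C : ℝ, 0 < c ∧ ∃ X₀ : ℕ, ∀ X : ℕ, X₀ ≤ X →
      (cnt (fun t => FakeSel F t ∨ HasPoint F t ℚ) X : ℝ) ≤
        C * Real.log X ^ (-c) * cnt (ELS F) X) := by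
  classical
  have hn : 1 ≤ F.natDegree := by omega
  have hF0 : F ≠ 0 := by
    rintro rfl
    simp at hn
  have hm : (mon F).Monic := monic_integralNormalization hF0
  have hd : (mon F).natDegree = F.natDegree := natDegree_integralNormalization
  obtain ⟨hsep', h3'⟩ := mon_hyp 3 F hn hsep h3
  have hU := upper_monic (mon F) hm hsep' h3' (hd ▸ hev) (hd ▸ h6)
  have hL : ∃ c : ℝ, 0 < c ∧ ∃ X₀ : ℕ, ∀ X : ℕ, X₀ ≤ X →
      c * X / Real.log X * VV (mon F) X ≤ (cnt (Stoll308.Gen.ELS (mon F)) X : ℝ) := by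
    obtain ⟨c, hc, X₀, h⟩ := Stoll308.Gen.els_lower_nat (mon F) hm hsep' (hd ▸ hev) (by omega)
    exact ⟨c, hc, X₀, fun X hX => h X hX⟩
  obtain ⟨h1, h2⟩ := card_of_monic F hev hn hU hL
  refine ⟨h1, card_or_pt F hF0 ?_ h1 h2⟩
  intro z hz
  have h4 := h3 (X - C z) (irreducible_X_sub_C z) (dvd_iff_isRoot.2 hz)
  rw [natDegree_X_sub_C] at h4
  omega

end Stoll308.TW
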