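import Pool.Agent.Work.MP_308fa9_nt.TW.UpE2
import Pool.Agent.Work.MP_308fa9_nt.TW.Bad2
import Pool.Agent.Work.MP_308fa9_nt.TW.Block2
import Pool.Agent.Work.MP_308fa9_nt.TW.TotE

set_option autoImplicit false

/-!
Even degree, with exceptional components: the number of twists with a datum.
-/

namespace Stoll308.TW

open Finset Stoll308.Gen Polynomial

variable {k : ℕ}

private lemma one_le_log {N : ℕ} (hN : 3 ≤ N) : 1 ≤ Real.log N := by
  have hN0 : (0 : ℝ) < N := by exact_mod_cast (by omega : 0 < N)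
  rw [Real.le_log_iff_exp_le hN0]
  have h3 : (3 : ℝ) ≤ N := by exact_mod_cast hN
  have := Real.exp_one_lt_d9
  linarith

private lemma bound_mono {N : ℕ} (hN : 3 ≤ N) {C C' c c' P : ℝ} (hC : 0 ≤ C) (hCC : C ≤ C')
    (hc : c' ≤ c) (hP : 0 ≤ P) :
    C * (N * Real.log N ^ (-1 - c)) * P ≤ C' * (N * Real.log N ^ (-1 - c')) * P := by
  have hlog1 := one_le_log hN
  have hlog0 : 0 < Real.log N := by linarith
  have h1 : Real.log N ^ (-1 - c) ≤ Real.log N ^ (-1 - c') :=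
    Real.rpow_le_rpow_of_exponent_le hlog1 (by linarith)
  have h2 : (N : ℝ) * Real.log N ^ (-1 - c) ≤ N * Real.log N ^ (-1 - c') :=
    mul_le_mul_of_nonneg_left h1 (Nat.cast_nonneg _)
  have h3 : 0 ≤ (N : ℝ) * Real.log N ^ (-1 - c) := by positivity
  exact mul_le_mul_of_nonneg_right (mul_le_mul hCC h2 h3 (hC.trans hCC)) hP

/-- Uniform constants for a finite sum. -/
private lemma sum_unif {ι : Type*} (E : Finset ι) (F : ι → ℕ → ℝ) (P : ℕ → ℝ)
    (hP : ∀ N, 0 ≤ P N) (h : ∀ i ∈ E, ∃ (c C : ℝ) (N₀ : ℕ), 0 < c ∧ 0 ≤ C ∧ 3 ≤ N₀ ∧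
      ∀ N : ℕ, N₀ ≤ N → F i N ≤ C * (N * Real.log N ^ (-1 - c)) * P N) :
    ∃ (c C : ℝ) (N₀ : ℕ), 0 < c ∧ 0 ≤ C ∧ 3 ≤ N₀ ∧
      ∀ N : ℕ, N₀ ≤ N → ∑ i ∈ E, F i N ≤ C * (N * Real.log N ^ (-1 - c)) * P N := by
  classical
  induction E using Finset.induction_on with
  | empty =>
    refine ⟨1, 0, 3, one_pos, le_rfl, le_rfl, fun N _ => ?_⟩
    simp
  | insert a E ha ih =>
    obtain ⟨c₁, C₁, N₁, hc₁, hC₁, hN₁, h₁⟩ := h a (mem_insert_self _ _)
    obtain ⟨c₂, C₂, N₂, hc₂, hC₂, hN₂, h₂⟩ := ih fun i hi => h i (mem_insert_of_mem hi)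
    refine ⟨min c₁ c₂, C₁ + C₂, max N₁ N₂, lt_min hc₁ hc₂, by positivity,
      hN₁.trans (le_max_left _ _), fun N hN => ?_⟩
    have hN1 : N₁ ≤ N := (le_max_left _ _).trans hN
    have hN2 : N₂ ≤ N := (le_max_right _ _).trans hN
    have hN3 : 3 ≤ N := hN₁.trans hN1
    rw [sum_insert ha]
    have e1 := (h₁ N hN1).trans (bound_mono hN3 hC₁ le_rfl (min_le_left c₁ c₂) (hP N))
    have e2 := (h₂ N hN2).trans (bound_mono hN3 hC₂ le_rfl (min_le_right c₁ c₂) (hP N))
    refine (add_le_add e1 e2).trans (le_of_eq ?_)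
    ring

private lemma one_le_P (f : ℤ[X]) (N : ℕ) : 1 ≤ ∏ p ∈ rootPrimes f N, (1 + 1 / (p : ℝ)) := by
  refine one_le_prod fun p _ => ?_
  have : (0 : ℝ) ≤ 1 / p := by positivity
  linarith

namespace Sys

variable (D : Sys k)

open Classical in
/-- From the blocks to all the twists (the last part of the proof of `total_even`). -/
theorem total_of_block (f : ℤ[X]) (hi : D.inf = false) (hk : 0 < k)
    (hb : ∃ (Q : ℕ) (c C : ℝ) (N₀ : ℕ), 4 ≤ Q ∧ 0 < c ∧ 0 ≤ C ∧ ∀ N : ℕ, N₀ ≤ N →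
      ((D.Bl N (Real.log N) Q).card : ℝ) ≤
        C * (N * Real.log N ^ (-1 - c)) * ∏ p ∈ rootPrimes f N, (1 + 1 / (p : ℝ))) :
    ∃ c C : ℝ, 0 < c ∧ ∀ N : ℕ, 3 ≤ N →
      (((Icc (-(N : ℤ)) N).filter fun t => Squarefree t ∧ ∃ r, D.Dt t r).card : ℝ) ≤
        C * N * Real.log N ^ (-1 - c) * ∏ p ∈ rootPrimes f N, (1 + 1 / (p : ℝ)) := by
  obtain ⟨Q, c₀, C₁, N₁, hQ, hc₀, hC₁, hm⟩ := hb
  obtain ⟨x₀, hx₀, hsm⟩ := small_le (P0 D.C₀) (Nat.cast_nonneg _) k Q hQ
  set c : ℝ := min c₀ 1 with hc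
  have hc0 : 0 < c := lt_min hc₀ one_pos
  set N₂ : ℕ := max (max N₁ 3) ⌈Real.exp x₀⌉₊ with hN₂
  have hN₂3 : 3 ≤ N₂ := (le_max_right _ _).trans (le_max_left _ _)
  set K : ℝ := C₁ + 1 with hK
  set K' : ℝ := 3 * Real.log N₂ ^ (1 + c) with hK'
  have hK0 : 0 ≤ K := by positivity
  have hlog2 : 0 < Real.log N₂ := Real.log_pos (by exact_mod_cast (by omega : 1 < N₂))
  have hK'0 : 0 ≤ K' := by positivity
  refine ⟨c, max K K', hc0, fun N hN => ?_⟩
  have hN0 : (0 : ℝ) < N := by exact_mod_cast (by omega : 0 < N)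
  have hlog1 : 1 ≤ Real.log N := one_le_log hN
  have hlog0 : 0 < Real.log N := by linarith
  rcases lt_or_ge N N₂ with hlt | hge
  · -- small `N`
    have h1 : (((Icc (-(N : ℤ)) N).filter fun t => Squarefree t ∧ ∃ r, D.Dt t r).card : ℝ) ≤
        3 * N := by
      have h2 := card_le_card (filter_subset (fun t => Squarefree t ∧ ∃ r, D.Dt t r)
        (Icc (-(N : ℤ)) N))
      rw [Int.card_Icc] at h2
      have h4 : ((N : ℤ) + 1 - -(N : ℤ)).toNat = 2 * N + 1 := by omega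
      rw [h4] at h2
      have h5 : 2 * N + 1 ≤ 3 * N := by omega
      exact_mod_cast h2.trans h5
    refine h1.trans ?_
    have h6 : 1 ≤ Real.log N₂ ^ (1 + c) * Real.log N ^ (-1 - c) := by
      have e : Real.log N ^ (-1 - c) = (Real.log N ^ (1 + c))⁻¹ := by
        rw [← Real.rpow_neg hlog0.le]
        congr 1
        ring
      rw [e, ← div_eq_mul_inv, one_le_div (by positivity)]
      refine Real.rpow_le_rpow hlog0.le ?_ (by linarith)
      exact Real.log_le_log hN0 (by exact_mod_cast hlt.le)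
    have h7 : 3 * (N : ℝ) ≤ max K K' * N * Real.log N ^ (-1 - c) := by
      calc 3 * (N : ℝ) ≤ 3 * N * (Real.log N₂ ^ (1 + c) * Real.log N ^ (-1 - c)) :=
            le_mul_of_one_le_right (by positivity) h6
        _ = K' * N * Real.log N ^ (-1 - c) := by
            rw [hK']
            ring
        _ ≤ _ := by
            have := le_max_right K K'
            gcongr
    exact h7.trans (le_mul_of_one_le_right (by positivity) (one_le_P f N))
  · -- large `N`
    have hN1 : N₁ ≤ N := ((le_max_left _ _).trans (le_max_left _ _)).trans hge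
    have hNe : Real.exp x₀ ≤ N :=
      (Nat.le_ceil _).trans (by exact_mod_cast (le_max_right _ _).trans hge)
    have hLx : x₀ ≤ Real.log N := (Real.le_log_iff_exp_le hN0).2 hNe
    have hsub : ((Icc (-(N : ℤ)) N).filter fun t => Squarefree t ∧ ∃ r, D.Dt t r) ⊆
        D.Bl N (Real.log N) Q ∪ (Icc (-(N : ℤ)) N).filter fun t => Squarefree t ∧
          ∃ r, D.Dt t r ∧ ∀ i, (D.XX t r i : ℝ) ≤
            Real.exp (Real.log N ^ (((Q : ℝ) - 1) / Q)) := by
      intro t ht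
      obtain ⟨htN, hsq, r, hr⟩ := mem_filter.1 ht
      rw [mem_union]
      by_cases h : ∃ i, zz (Real.log N) Q ((Q : ℝ) - 1) ≤ (D.XX t r i : ℝ)
      · left
        unfold Bl
        rw [mem_filter]
        refine ⟨htN, hsq, r, hr, fun i => ?_, h⟩
        rw [Real.exp_log hN0]
        unfold Sys.XX
        have h1 : ∏ p ∈ cpt i (bigPrimes D.C₀ t) r, p ≤ ∏ p ∈ bigPrimes D.C₀ t, p :=
          prod_le_prod_of_subset_of_one_le' (filter_subset _ _) fun p hp _ =>
            (Nat.prime_of_mem_primeFactors (mem_filter.1 hp).1).one_lt.le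
        have h2 : (∏ p ∈ bigPrimes D.C₀ t, p) ≤ t.natAbs := by
          rw [natAbs_eq D.C₀ hsq]
          refine Nat.le_mul_of_pos_right _ ?_
          exact prod_pos fun _ hp => (Nat.prime_of_mem_primeFactors (mem_filter.1 hp).1).pos
        have h3 : t.natAbs ≤ N := by
          rw [mem_Icc] at htN
          omega
        exact_mod_cast h1.trans (h2.trans h3)
      · right
        push Not at h
        exact mem_filter.2 ⟨htN, hsq, r, hr, fun i => (h i).le⟩
    have h1 := (card_le_card hsub).trans (card_union_le _ _)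
    have h2 : (((Icc (-(N : ℤ)) N).filter fun t => Squarefree t ∧ ∃ r, D.Dt t r).card : ℝ) ≤
        ((D.Bl N (Real.log N) Q).card : ℝ) +
        (((Icc (-(N : ℤ)) N).filter fun t => Squarefree t ∧ ∃ r, D.Dt t r ∧
          ∀ i, (D.XX t r i : ℝ) ≤
            Real.exp (Real.log N ^ (((Q : ℝ) - 1) / Q))).card : ℝ) := by
      exact_mod_cast h1
    have h3 := D.card_small hi N (Real.log N ^ (((Q : ℝ) - 1) / Q))
    have h4 := hsm (Real.log N) hLx
    rw [Real.exp_log hN0] at h4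
    have h5 := hm N hN1
    set P : ℝ := ∏ p ∈ rootPrimes f N, (1 + 1 / (p : ℝ)) with hPdef
    have hP1 : 1 ≤ P := one_le_P f N
    have h6 : C₁ * (N * Real.log N ^ (-1 - c₀)) * P ≤ C₁ * (N * Real.log N ^ (-1 - c)) * P :=
      bound_mono hN hC₁ le_rfl (min_le_left _ _) (by linarith)
    have h7 : (N : ℝ) * Real.log N ^ (-(2 : ℝ)) ≤ N * Real.log N ^ (-1 - c) * P := by
      have h8 : (N : ℝ) * Real.log N ^ (-(2 : ℝ)) ≤ N * Real.log N ^ (-1 - c) := by
        refine mul_le_mul_of_nonneg_left ?_ hN0.le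
        exact Real.rpow_le_rpow_of_exponent_le hlog1 (by
          have := min_le_right c₀ (1 : ℝ)
          linarith)
      exact h8.trans (le_mul_of_one_le_right (by positivity) hP1)
    calc (((Icc (-(N : ℤ)) N).filter fun t => Squarefree t ∧ ∃ r, D.Dt t r).card : ℝ) ≤
          C₁ * (N * Real.log N ^ (-1 - c)) * P + N * Real.log N ^ (-1 - c) * P :=
          h2.trans (add_le_add (h5.trans h6) ((h3.trans h4).trans h7))
      _ = K * (N * Real.log N ^ (-1 - c) * P) := by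
          rw [hK]
          ring
      _ ≤ max K K' * (N * Real.log N ^ (-1 - c) * P) := by
          refine mul_le_mul_of_nonneg_right (le_max_left _ _) ?_
          positivity
      _ = _ := by ring

open Classical in
/-- The number of squarefree `t`, `|t| ≤ N`, with a datum. -/
theorem total_even2 (f : ℤ[X]) (g : Fin k → ℤ[X]) (E : Finset (Fin k)) (Sp : ℕ → Prop)
    (hS : LowMert Sp) (hi : D.inf = false) (hk : 0 < k) (hR : ∀ i p, D.Rt i p = R (g i) p)
    (hgf : ∀ i, ∀ p : ℕ, p.Prime → D.C₀ < p → (R (g i) p).Nonempty → (R f p).Nonempty)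
    (hE : ∀ i ∈ E, LowMert fun p => (R f p).Nonempty ∧ ¬ (R (g i) p).Nonempty)
    (hw : ∀ A p, p.Prime → D.C₀ < p → A.Nonempty → (∀ i ∈ E, A ≠ {i}) →
      D.wt A p ≤ if (R f p).Nonempty then 1 else 0)
    (hs : ∀ A p, p.Prime → D.C₀ < p → A.Nonempty → (∀ i ∈ E, A ≠ {i}) → Sp p →
      (R f p).Nonempty ∧ D.wt A p ≤ 7 / 8) :
    ∃ c C : ℝ, 0 < c ∧ ∀ N : ℕ, 3 ≤ N →
      (((Icc (-(N : ℤ)) N).filter fun t => Squarefree t ∧ ∃ r, D.Dt t r).card : ℝ) ≤
        C * N * Real.log N ^ (-1 - c) * ∏ p ∈ rootPrimes f N, (1 + 1 / (p : ℝ)) := by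
  refine D.total_of_block f hi hk ?_
  obtain ⟨Q₁, c₁, hQ₁, hc₁, hmain⟩ := D.main_even2 f E Sp hS hi hw hs
  set Q : ℕ := max Q₁ ⌈2 / c₁⌉₊ with hQdef
  have hQ4 : 4 ≤ Q := hQ₁.trans (le_max_left _ _)
  have hQc : ((2 : ℕ) : ℝ) ≤ c₁ * Q := by
    have h1 : 2 / c₁ ≤ Q := (Nat.le_ceil _).trans (by exact_mod_cast le_max_right _ _)
    rw [div_le_iff₀ hc₁] at h1
    push_cast
    linarith
  obtain ⟨c₂, C₂, N₂, hc₂, hC₂, hN₂, hgood⟩ := hmain Q 2 (le_max_left _ _) (by omega) hQc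
  obtain ⟨C₃, L₃, hC₃, hL₃, hbl⟩ := D.block_le2 Q hQ4
  set F : Fin k → ℕ → ℝ := fun i N =>
    (((Icc (-(N : ℤ)) N).filter fun t => Squarefree t ∧
        (∀ p ∈ bigPrimes D.C₀ t, (R f p).Nonempty) ∧
        ∀ p ∈ bigPrimes D.C₀ t, zz (Real.log N) Q ((Q : ℝ) - (2 : ℕ) + 1) < (p : ℝ) →
          (R (g i) p).Nonempty).card : ℝ) with hF
  set P : ℕ → ℝ := fun N => ∏ p ∈ rootPrimes f N, (1 + 1 / (p : ℝ)) with hP
  have hP1 : ∀ N, 1 ≤ P N := fun N => one_le_P f N
  obtain ⟨c₄, C₄, N₄, hc₄, hC₄, hN₄, hbad⟩ := sum_unif E F P (fun N => by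
    have := hP1 N
    linarith) (fun i hiE => card_bad f (g i) D.C₀ (hE i hiE) (hgf i) Q 2 le_rfl (by omega))
  have hF0 : ∀ i N, 0 ≤ F i N := fun i N => Nat.cast_nonneg _
  set c : ℝ := min (min c₂ 1) c₄ with hc
  have hc0 : 0 < c := lt_min (lt_min hc₂ one_pos) hc₄
  refine ⟨Q, c, C₃ * ((Lv k Q).card * C₂ + 1) + (Lv k Q).card * C₄,
    max (max N₂ N₄) ⌈Real.exp L₃⌉₊, hQ4, hc0, by positivity, fun N hN => ?_⟩
  have hN2 : N₂ ≤ N := ((le_max_left _ _).trans (le_max_left _ _)).trans hN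
  have hN4 : N₄ ≤ N := ((le_max_right _ _).trans (le_max_left _ _)).trans hN
  have hN3 : 3 ≤ N := hN₂.trans hN2
  have hN0 : (0 : ℝ) < N := by exact_mod_cast (by omega : 0 < N)
  have hNe : Real.exp L₃ ≤ N :=
    (Nat.le_ceil _).trans (by exact_mod_cast (le_max_right _ _).trans hN)
  have hLL : L₃ ≤ Real.log N := (Real.le_log_iff_exp_le hN0).2 hNe
  have hlog1 : 1 ≤ Real.log N := one_le_log hN3
  have hlog0 : 0 < Real.log N := by linarith
  have h1 := hbl N (Real.log N) hLL (Real.exp_log hN0).le (GoodV E 2 Q)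
  have hPN : 1 ≤ P N := hP1 N
  have hPN0 : 0 ≤ P N := by linarith
  have hM : (0 : ℝ) ≤ (Lv k Q).card := Nat.cast_nonneg _
  -- the good level vectors
  have h2 : ∑ μ ∈ (Lv k Q).filter (GoodV E 2 Q),
      ∑ n ∈ Icc 1 (2 ^ k * N), HT.hf (D.HH (Real.log N) Q μ) n ≤
      (Lv k Q).card * (C₂ * (N * Real.log N ^ (-1 - c)) * P N) := by
    have h3 : ∀ μ ∈ (Lv k Q).filter (GoodV E 2 Q),
        ∑ n ∈ Icc 1 (2 ^ k * N), HT.hf (D.HH (Real.log N) Q μ) n ≤
        C₂ * (N * Real.log N ^ (-1 - c)) * P N := by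
      intro μ hμ
      rw [mem_filter] at hμ
      refine (hgood N hN2 μ hμ.1 hμ.2).trans ?_
      exact bound_mono hN3 hC₂ le_rfl ((min_le_left _ _).trans (min_le_left _ _)) hPN0
    refine (sum_le_card_nsmul _ _ _ h3).trans ?_
    rw [nsmul_eq_mul]
    refine mul_le_mul_of_nonneg_right ?_ (by positivity)
    exact Nat.cast_le.2 (card_le_card (filter_subset _ _))
  have h4 : (N : ℝ) * Real.log N ^ (-(2 : ℝ)) ≤ N * Real.log N ^ (-1 - c) * P N := by
    have h8 : (N : ℝ) * Real.log N ^ (-(2 : ℝ)) ≤ N * Real.log N ^ (-1 - c) := by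
      refine mul_le_mul_of_nonneg_left ?_ hN0.le
      exact Real.rpow_le_rpow_of_exponent_le hlog1 (by
        have : c ≤ 1 := (min_le_left _ _).trans (min_le_right _ _)
        linarith)
    exact h8.trans (le_mul_of_one_le_right (by positivity) hPN)
  -- the bad level vectors
  have h5 : ∑ μ ∈ (Lv k Q).filter (fun μ => ¬ GoodV E 2 Q μ),
        (((Icc (-(N : ℤ)) N).filter fun t => Squarefree t ∧
          ∃ r, D.Cls (Real.log N) Q μ t r).card : ℝ) ≤
      (Lv k Q).card * (C₄ * (N * Real.log N ^ (-1 - c)) * P N) := by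
    have h6 : ∀ μ ∈ (Lv k Q).filter (fun μ => ¬ GoodV E 2 Q μ),
        (((Icc (-(N : ℤ)) N).filter fun t => Squarefree t ∧
          ∃ r, D.Cls (Real.log N) Q μ t r).card : ℝ) ≤
        C₄ * (N * Real.log N ^ (-1 - c)) * P N := by
      intro μ hμ
      rw [mem_filter] at hμ
      have h7 := hμ.2
      unfold GoodV at h7
      push Not at h7
      obtain ⟨i, hiE, hiQ, hj⟩ := h7
      have h8 : (((Icc (-(N : ℤ)) N).filter fun t => Squarefree t ∧
          ∃ r, D.Cls (Real.log N) Q μ t r).card : ℝ) ≤ F i N := by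
        refine Nat.cast_le.2 (card_le_card ?_)
        intro t ht
        obtain ⟨htN, hsq, r, hr⟩ := mem_filter.1 ht
        refine mem_filter.2 ⟨htN, hsq, fun p hp => ?_, fun p hp hpz => ?_⟩
        · have g1 : r p ≠ .o := (hr.1.1 p).2 hp
          have g2 : r p ∈ D.Lb univ p := (hr.1.2.1 p).resolve_left g1
          unfold Lb Lbl at g2
          rw [hi, if_neg (by decide), empty_union, mem_biUnion] at g2
          obtain ⟨j, _, g3⟩ := g2
          obtain ⟨a, ha, _⟩ := mem_image.1 g3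
          rw [hR] at ha
          exact hgf j p (Nat.prime_of_mem_primeFactors (mem_filter.1 hp).1) (mem_filter.1 hp).2
            ⟨a, ha⟩
        · rw [← hR]
          exact D.bad_cls hi hlog1 le_rfl (by omega) hr (fun j hji => hj j hji) hp hpz
      have h9 : F i N ≤ ∑ i ∈ E, F i N := single_le_sum (fun i _ => hF0 i N) hiE
      refine (h8.trans h9).trans ((hbad N hN4).trans ?_)
      exact bound_mono hN3 hC₄ le_rfl (min_le_right _ _) hPN0
    refine (sum_le_card_nsmul _ _ _ h6).trans ?_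
    rw [nsmul_eq_mul]
    refine mul_le_mul_of_nonneg_right ?_ (by positivity)
    exact Nat.cast_le.2 (card_le_card (filter_subset _ _))
  refine h1.trans ?_
  have h10 := mul_le_mul_of_nonneg_left (add_le_add h2 h4) hC₃
  refine (add_le_add h10 h5).trans (le_of_eq ?_)
  change _ = _ * P N
  ring

end Sys

end Stoll308.TW
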