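import Pool.Agent.Work.MP_308fa9_nt.TW.ASys
import Pool.Agent.Work.MP_308fa9_nt.TW.AFac
import Pool.Agent.Work.MP_308fa9_nt.TW.TotE2
import Pool.Agent.Work.MP_308fa9_nt.TW.Cheb2
import Pool.Agent.Work.MP_308fa9_nt.Gen.LowG

set_option autoImplicit false

/-!
Quadratic twists of a hyperelliptic curve of genus at least two over `ℚ` without rational
Weierstrass points: 100 percent of the everywhere locally soluble ones have an empty fake
`2`-Selmer set and no rational point.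
-/

namespace Stoll308.TW

open Polynomial Finset Stoll308.Irr

/-- Every quadratic factor `q` of `F` has no root in the stem field of some factor of `F`. -/
def QuadOK (F : ℤ[X]) : Prop :=
  ∀ q : ℚ[X], Irreducible q → q ∣ F.map (Int.castRingHom ℚ) → q.natDegree = 2 →
    ∃ g : ℚ[X], Irreducible g ∧ g ∣ F.map (Int.castRingHom ℚ) ∧
      ∀ z : AdjoinRoot g, aeval z q ≠ 0

/-- Substituting a multiple of the variable preserves irreducibility. -/
private lemma irreducible_comp {c : ℚ} (hc : c ≠ 0) {g : ℚ[X]} (hg : Irreducible g) :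
    Irreducible (g.comp (C c * X)) := by
  have h1 : ∀ (a b : ℚ), a * b = 1 → ∀ q : ℚ[X], (q.comp (C a * X)).comp (C b * X) = q := by
    intro a b hab q
    rw [comp_assoc]
    have : (C a * X : ℚ[X]).comp (C b * X) = X := by
      rw [mul_comp, C_comp, X_comp, ← mul_assoc, ← C_mul, hab, C_1, one_mul]
    rw [this, comp_X]
  let e : ℚ[X] ≃+* ℚ[X] := RingEquiv.ofRingHom
    (compRingHom (C c * X)) (compRingHom (C c⁻¹ * X))
    (by
      apply RingHom.ext
      intro q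
      exact h1 _ _ (inv_mul_cancel₀ hc) q)
    (by
      apply RingHom.ext
      intro q
      exact h1 _ _ (mul_inv_cancel₀ hc) q)
  exact (MulEquiv.irreducible_iff e.toMulEquiv).2 hg

private lemma natDegree_comp_mul {c : ℚ} (hc : c ≠ 0) (g : ℚ[X]) :
    (g.comp (C c * X)).natDegree = g.natDegree := by
  rw [natDegree_comp, natDegree_C_mul_X _ hc, mul_one]

/-- `QuadOK` passes to the monic version. -/
theorem quadOK_mon (F : ℤ[X]) (hn : 1 ≤ F.natDegree) (h : QuadOK F) : QuadOK (mon F) := by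
  have hc := Stoll308.Irr.lc_ne (K := ℚ) hn
  intro q hq hqd hq2
  have h1 := map_dvd (compRingHom (C (F.leadingCoeff : ℚ) * X)) hqd
  simp only [coe_compRingHom_apply] at h1
  rw [Stoll308.Irr.mon_map_comp hn] at h1
  have hu : IsUnit (C ((F.leadingCoeff : ℚ) ^ (F.natDegree - 1)) : ℚ[X]) := by
    rw [Polynomial.isUnit_C, isUnit_iff_ne_zero]
    exact pow_ne_zero _ hc
  obtain ⟨g, hg, hgd, hno⟩ := h (q.comp (C (F.leadingCoeff : ℚ) * X)) (irreducible_comp hc hq)
    ((hu.dvd_mul_left).1 h1) (by rw [natDegree_comp_mul hc, hq2])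
  refine ⟨g.comp (C (F.leadingCoeff : ℚ)⁻¹ * X), irreducible_comp (inv_ne_zero hc) hg, ?_, ?_⟩
  · have h2 := map_dvd (compRingHom (C (F.leadingCoeff : ℚ)⁻¹ * X)) hgd
    simp only [coe_compRingHom_apply] at h2
    rw [Stoll308.Irr.map_comp_inv hn] at h2
    have hu' : IsUnit (C ((F.leadingCoeff : ℚ) ^ (F.natDegree - 1))⁻¹ : ℚ[X]) := by
      rw [Polynomial.isUnit_C, isUnit_iff_ne_zero]
      exact inv_ne_zero (pow_ne_zero _ hc)
    exact (hu'.dvd_mul_left).1 h2
  · intro z hz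
    have h3 : aeval (algebraMap ℚ (AdjoinRoot g) (F.leadingCoeff : ℚ) * AdjoinRoot.root g)
        (g.comp (C (F.leadingCoeff : ℚ)⁻¹ * X)) = 0 := by
      rw [aeval_comp, map_mul, aeval_C, aeval_X, ← mul_assoc, ← map_mul, inv_mul_cancel₀ hc,
        map_one, one_mul, AdjoinRoot.aeval_eq, AdjoinRoot.mk_self]
    let φ : AdjoinRoot (g.comp (C (F.leadingCoeff : ℚ)⁻¹ * X)) →ₐ[ℚ] AdjoinRoot g :=
      AdjoinRoot.liftAlgHom _ (Algebra.ofId ℚ _)
        (algebraMap ℚ (AdjoinRoot g) (F.leadingCoeff : ℚ) * AdjoinRoot.root g) h3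
    apply hno (algebraMap ℚ (AdjoinRoot g) (F.leadingCoeff : ℚ)⁻¹ * φ z)
    rw [aeval_comp, map_mul, aeval_C, aeval_X, ← mul_assoc, ← map_mul, mul_inv_cancel₀ hc,
      map_one, one_mul, aeval_algHom_apply, hz, map_zero]

private lemma lowMert_of_sep2 (f : ℤ[X]) (hf : f.Monic)
    (hsep : (f.map (Int.castRingHom ℚ)).Separable) :
    LowMert fun p => (Stoll308.Gen.R f p).card = f.natDegree := by
  classical
  obtain ⟨κ, B, hκ, h⟩ := Stoll308.Cheb.splitMert f hf hsep
  refine ⟨κ, B, hκ, fun x y hx hxy => (h x y hx hxy).trans (le_of_eq ?_)⟩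
  refine sum_congr ?_ fun _ _ => rfl
  ext p
  simp only [mem_filter]

/-- The upper bound in the monic case. -/
private lemma upper_monic2 (F : ℤ[X]) (hm : F.Monic)
    (hsep : (F.map (Int.castRingHom ℚ)).Separable)
    (h2 : ∀ g : ℚ[X], Irreducible g → g ∣ F.map (Int.castRingHom ℚ) → 2 ≤ g.natDegree)
    (hq : QuadOK F) (hev : Even F.natDegree) (h6 : 6 ≤ F.natDegree) :
    ∃ c C : ℝ, 0 < c ∧ ∃ X₀ : ℕ, ∀ X : ℕ, X₀ ≤ X →
      (cnt (Stoll308.Gen.Sel F) X : ℝ) ≤ C * X * Real.log X ^ (-1 - c) * VV F X := by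
  classical
  obtain ⟨k, f, hk, hfm, hfi, hfd, hF⟩ := exists_fac 2 F hm (by omega) hsep h2
  have hdeg : F.natDegree = ∑ i, (f i).natDegree := by
    rw [hF]
    exact natDegree_FF hfm
  obtain ⟨B, hB⟩ := exists_GB hfm hfi hfd (hdeg ▸ hev) (hdeg ▸ h6) (hF ▸ hsep)
  have hG := hB B le_rfl
  obtain ⟨D, hC, hinf, hRt, hwt, hDt⟩ := exists_sys hG
  have hfF : ∀ i, f i ∣ F := by
    intro i
    rw [hF]
    exact dvd_prod_of_mem _ (mem_univ i)
  obtain ⟨E, hE⟩ : ∃ E : Finset (Fin k), E = univ.filter fun i => (f i).natDegree = 2 :=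
    ⟨_, rfl⟩
  have hA : ∀ A : Finset (Fin k), A.Nonempty → (∀ i ∈ E, A ≠ {i}) →
      3 ≤ ∑ i ∈ A, (f i).natDegree := by
    rintro A ⟨i, hi⟩ hAE
    by_cases h1 : ∃ j ∈ A, j ≠ i
    · obtain ⟨j, hj, hji⟩ := h1
      have h3 : ∑ l ∈ ({i, j} : Finset (Fin k)), (f l).natDegree ≤
          ∑ l ∈ A, (f l).natDegree := by
        refine sum_le_sum_of_subset ?_
        intro l hl
        rw [mem_insert, mem_singleton] at hl
        rcases hl with rfl | rfl
        · exact hi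
        · exact hj
      rw [sum_pair hji.symm] at h3
      have := hfd i
      have := hfd j
      omega
    · push Not at h1
      have h3 : A = {i} := by
        ext j
        rw [mem_singleton]
        exact ⟨fun hj => h1 j hj, fun hj => hj ▸ hi⟩
      have h4 : i ∉ E := fun h => hAE i h h3
      rw [hE, mem_filter] at h4
      have h5 : (f i).natDegree ≠ 2 := fun h => h4 ⟨mem_univ _, h⟩
      rw [h3, sum_singleton]
      have := hfd i
      omega
  obtain ⟨c, C, hc, h⟩ := Sys.total_even2 D F f E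
    (fun p => (Stoll308.Gen.R F p).card = F.natDegree) (lowMert_of_sep2 F hm hsep) hinf hk hRt
    (fun i p hp _ hne => by
      obtain ⟨a, ha⟩ := hne
      refine ⟨a, ?_⟩
      rw [hF]
      exact (hG.mem_R hp).2 ⟨i, ha⟩)
    (fun i hi => by
      rw [hE, mem_filter] at hi
      have hirr := hfi i
      rw [(hfm i).irreducible_iff_irreducible_map_fraction_map (K := ℚ)] at hirr
      have hirr' : Irreducible ((f i).map (Int.castRingHom ℚ)) := hirr
      have hdvd : (f i).map (Int.castRingHom ℚ) ∣ F.map (Int.castRingHom ℚ) :=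
        Polynomial.map_dvd _ (hfF i)
      obtain ⟨g, hg, hgF, hno⟩ := hq _ hirr' hdvd (by
        rw [natDegree_map_eq_of_injective Int.cast_injective]
        exact hi.2)
      exact lowMert_quad F (f i) hm hsep (hfm i) hi.2 hirr' (hfF i) hg hgF hno)
    (fun A p hp hpC hne hAE => by
      rw [hwt, hF]
      exact wA_le hG A (hA A hne hAE) hp (hC ▸ hpC))
    (fun A p hp hpC hne hAE hs => by
      rw [hwt, hF]
      rw [hF] at hs
      exact wA_split hG (hA A hne hAE) hp (hC ▸ hpC) hs)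
  refine ⟨c, C, hc, 3, fun X hX => ?_⟩
  refine le_trans ?_ (h X hX)
  unfold cnt
  have h1 : ((Icc (-(X : ℤ)) X).filter fun t => Squarefree t ∧ Stoll308.Gen.Sel F t) ⊆
      ((Icc (-(X : ℤ)) X).filter fun t => Squarefree t ∧ ∃ r, D.Dt t r) := by
    intro t ht
    rw [mem_filter] at ht ⊢
    refine ⟨ht.1, ht.2.1, hDt t ht.2.1 ?_⟩
    rw [← hF]
    exact ht.2.2
  have h2 : ((Icc (-(X : ℤ)) X).filter fun t => Squarefree t ∧ Stoll308.Gen.Sel F t).card ≤
      ((Icc (-(X : ℤ)) X).filter fun t => Squarefree t ∧ ∃ r, D.Dt t r).card := card_le_card h1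
  exact_mod_cast h2

theorem main2 (F : ℤ[X]) (hsep : (F.map (Int.castRingHom ℚ)).Separable)
    (h2 : ∀ g : ℚ[X], Irreducible g → g ∣ F.map (Int.castRingHom ℚ) → 2 ≤ g.natDegree)
    (hq : QuadOK F) (hev : Even F.natDegree) (h6 : 6 ≤ F.natDegree) :
    (∃ c : ℝ, 0 < c ∧ ∃ X₀ : ℕ, ∀ X : ℕ, X₀ ≤ X →
      c * X / Real.log X ≤ (cnt (ELS F) X : ℝ)) ∧
    (∃ c C : ℝ, 0 < c ∧ ∃ X₀ : ℕ, ∀ X : ℕ, X₀ ≤ X →
      (cnt (fun t => FakeSel F t ∨ HasPoint F t ℚ) X : ℝ) ≤
        C * Real.log X ^ (-c) * cnt (ELS F) X) := by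
  classical
  have hn : 1 ≤ F.natDegree := by omega
  have hF0 : F ≠ 0 := by
    rintro rfl
    simp at hn
  have hm : (mon F).Monic := monic_integralNormalization hF0
  have hd : (mon F).natDegree = F.natDegree := natDegree_integralNormalization
  obtain ⟨hsep', h2'⟩ := mon_hyp 2 F hn hsep h2
  have hU := upper_monic2 (mon F) hm hsep' h2' (quadOK_mon F hn hq) (hd ▸ hev) (hd ▸ h6)
  have hL : ∃ c : ℝ, 0 < c ∧ ∃ X₀ : ℕ, ∀ X : ℕ, X₀ ≤ X →
      c * X / Real.log X * VV (mon F) X ≤ (cnt (Stoll308.Gen.ELS (mon F)) X : ℝ) := by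
    obtain ⟨c, hc, X₀, h⟩ := Stoll308.Gen.els_lower_nat (mon F) hm hsep' (hd ▸ hev) (by omega)
    exact ⟨c, hc, X₀, fun X hX => h X hX⟩
  obtain ⟨h1, h3⟩ := card_of_monic F hev hn hU hL
  refine ⟨h1, card_or_pt F hF0 ?_ h1 h3⟩
  intro z hz
  have h4 := h2 (X - C z) (irreducible_X_sub_C z) (dvd_iff_isRoot.2 hz)
  rw [natDegree_X_sub_C] at h4
  omega

end Stoll308.TW
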