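import Pool.Agent.Work.MP_308fa9_nt.TW.UpO
import Pool.Agent.Work.MP_308fa9_nt.TW.Block

set_option autoImplicit false

/-!
Odd degree: the sum over the blocks.
-/

namespace Stoll308.TW

open Finset Stoll308.Gen

variable {k : ℕ}

namespace Sys

variable (D : Sys k)

/-- The product of the primes labelled by a component is at most `|t|`. -/
private lemma XX_le {t : ℤ} (ht : Squarefree t) {N : ℕ} (htN : t ∈ Icc (-(N : ℤ)) N)
    (r : ℕ → Lab k) (i : Fin k) : D.XX t r i ≤ N := by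
  unfold Sys.XX
  have h1 : ∏ p ∈ cpt i (bigPrimes D.C₀ t) r, p ≤ ∏ p ∈ bigPrimes D.C₀ t, p :=
    prod_le_prod_of_subset_of_one_le' (filter_subset _ _) fun p hp _ =>
      (Nat.prime_of_mem_primeFactors (mem_filter.1 hp).1).one_lt.le
  have h2 : (∏ p ∈ bigPrimes D.C₀ t, p) ≤ t.natAbs := by
    rw [natAbs_eq D.C₀ ht]
    refine Nat.le_mul_of_pos_right _ ?_
    exact prod_pos fun _ hp => (Nat.prime_of_mem_primeFactors (mem_filter.1 hp).1).pos
  have h3 : t.natAbs ≤ N := by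
    rw [mem_Icc] at htN
    omega
  exact h1.trans (h2.trans h3)

/-- The scales. -/
private noncomputable def Ls (A : ℝ) (Q : ℕ) (j : ℕ) : ℝ := A ^ (((Q : ℝ) / (Q - 1)) ^ j)

private lemma Ls_zero (A : ℝ) (Q : ℕ) : Ls A Q 0 = A := by
  unfold Ls
  rw [pow_zero, Real.rpow_one]

private lemma Ls_rpow {A : ℝ} (hA : 0 ≤ A) {Q : ℕ} (hQ : 4 ≤ Q) (j : ℕ) :
    Ls A Q (j + 1) ^ (((Q : ℝ) - 1) / Q) = Ls A Q j := by
  unfold Ls
  have hQ' : (4 : ℝ) ≤ Q := by exact_mod_cast hQ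
  rw [← Real.rpow_mul hA, pow_succ, mul_assoc]
  congr 1
  have h1 : (Q : ℝ) ≠ 0 := by positivity
  have h2 : (Q : ℝ) - 1 ≠ 0 := by
    intro h
    linarith
  have h3 : (Q : ℝ) / (Q - 1) * ((Q - 1) / Q) = 1 := by
    field_simp
  rw [h3, mul_one]

private lemma le_Ls {A : ℝ} (hA : 1 ≤ A) {Q : ℕ} (hQ : 4 ≤ Q) (j : ℕ) :
    A * (A ^ (((Q : ℝ) - 1)⁻¹)) ^ j ≤ Ls A Q j := by
  unfold Ls
  have hQ' : (4 : ℝ) ≤ Q := by exact_mod_cast hQ
  have hA0 : 0 < A := by linarith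
  have h2 : (0 : ℝ) < (Q : ℝ) - 1 := by linarith
  have e : (Q : ℝ) / (Q - 1) = 1 + ((Q : ℝ) - 1)⁻¹ := by
    field_simp
    ring
  have h4 := one_add_mul_le_pow (a := ((Q : ℝ) - 1)⁻¹) (by
    have : 0 < ((Q : ℝ) - 1)⁻¹ := inv_pos.2 h2
    linarith) j
  rw [← e] at h4
  calc A * (A ^ (((Q : ℝ) - 1)⁻¹)) ^ j = A ^ (1 + (j : ℝ) * ((Q : ℝ) - 1)⁻¹) := by
        rw [Real.rpow_add hA0, Real.rpow_one, ← Real.rpow_natCast, ← Real.rpow_mul hA0.le,
          mul_comm (j : ℝ)]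
    _ ≤ _ := Real.rpow_le_rpow_of_exponent_le hA h4

private lemma mem_Bl_of {N Q : ℕ} {L : ℝ} {t : ℤ} {r : ℕ → Lab k} (ht : Squarefree t)
    (htN : t ∈ Icc (-(N : ℤ)) N) (hr : D.Dt t r) (i₀ : Fin k)
    (hmax : ∀ i, D.XX t r i ≤ D.XX t r i₀) (h1 : (D.XX t r i₀ : ℝ) ≤ Real.exp L)
    (h2 : zz L Q ((Q : ℝ) - 1) ≤ (D.XX t r i₀ : ℝ)) : t ∈ D.Bl N L Q := by
  classical
  unfold Bl
  rw [mem_filter]
  refine ⟨htN, ht, r, hr, fun i => ?_, i₀, h2⟩
  exact le_trans (by exact_mod_cast hmax i) h1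

/-- The cover by blocks. -/
private lemma cover {A : ℝ} (hA : 1 ≤ A) {Q : ℕ} (hQ : 4 ≤ Q)
    (hA2 : 2 ≤ A ^ (((Q : ℝ) - 1)⁻¹)) {N : ℕ} {t : ℤ} {r : ℕ → Lab k}
    (ht : Squarefree t) (htN : t ∈ Icc (-(N : ℤ)) N) (hr : D.Dt t r)
    (hi : ∃ i, Real.exp A ≤ (D.XX t r i : ℝ)) :
    t ∈ D.Bl N (Real.log N) Q ∨ ∃ j, Ls A Q (j + 1) ≤ Real.log N ∧
      t ∈ D.Bl N (Ls A Q (j + 1)) Q := by
  classical
  obtain ⟨i, hi⟩ := hi
  obtain ⟨i₀, _, hmax⟩ := exists_max_image (univ : Finset (Fin k)) (fun i => D.XX t r i)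
    ⟨i, mem_univ _⟩
  have hmax' : ∀ i, D.XX t r i ≤ D.XX t r i₀ := fun i => hmax i (mem_univ _)
  have hY : Real.exp A ≤ (D.XX t r i₀ : ℝ) := hi.trans (by exact_mod_cast hmax' i)
  have hYN : (D.XX t r i₀ : ℝ) ≤ N := by exact_mod_cast D.XX_le ht htN r i₀
  have hY0 : (0 : ℝ) < (D.XX t r i₀ : ℝ) := (Real.exp_pos A).trans_le hY
  have hN0 : (0 : ℝ) < N := hY0.trans_le hYN
  have hl1 : A ≤ Real.log (D.XX t r i₀) := by
    rw [Real.le_log_iff_exp_le hY0]
    exact hY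
  have hl2 : Real.log (D.XX t r i₀) ≤ Real.log N := Real.log_le_log hY0 hYN
  have hA0 : 0 ≤ A := by linarith
  have hQ' : (4 : ℝ) ≤ Q := by exact_mod_cast hQ
  have hqe : 0 ≤ ((Q : ℝ) - 1) / Q := div_nonneg (by linarith) (by linarith)
  -- the index
  have hex : ∃ j, Real.log (D.XX t r i₀) < Ls A Q (j + 1) := by
    obtain ⟨n, hn⟩ := pow_unbounded_of_one_lt (Real.log (D.XX t r i₀)) one_lt_two
    refine ⟨n, hn.trans_le ((?_ : (2 : ℝ) ^ n ≤ _).trans (le_Ls hA hQ (n + 1)))⟩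
    calc (2 : ℝ) ^ n ≤ 2 ^ (n + 1) := pow_le_pow_right₀ one_le_two n.le_succ
      _ ≤ (A ^ (((Q : ℝ) - 1)⁻¹)) ^ (n + 1) := pow_le_pow_left₀ (by norm_num) hA2 _
      _ ≤ A * (A ^ (((Q : ℝ) - 1)⁻¹)) ^ (n + 1) :=
        le_mul_of_one_le_left (pow_nonneg (by linarith) _) hA
  obtain ⟨j, hj, hjmin⟩ : ∃ j, Real.log (D.XX t r i₀) < Ls A Q (j + 1) ∧
      ∀ i < j, ¬ Real.log (D.XX t r i₀) < Ls A Q (i + 1) :=
    ⟨Nat.find hex, Nat.find_spec hex, fun i hi => Nat.find_min hex hi⟩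
  have hlow : Ls A Q j ≤ Real.log (D.XX t r i₀) := by
    rcases Nat.eq_zero_or_pos j with rfl | hj0
    · rw [Ls_zero]
      exact hl1
    · have := hjmin (j - 1) (by omega)
      rw [Nat.sub_add_cancel hj0] at this
      exact not_lt.1 this
  have hzz : ∀ L : ℝ, 0 ≤ L → L ≤ Ls A Q (j + 1) → zz L Q ((Q : ℝ) - 1) ≤ (D.XX t r i₀ : ℝ) := by
    intro L hL0 hL
    unfold zz
    rw [← Real.le_log_iff_exp_le hY0]
    refine (Real.rpow_le_rpow hL0 hL hqe).trans ?_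
    rw [Ls_rpow hA0 hQ]
    exact hlow
  rcases le_total (Ls A Q (j + 1)) (Real.log N) with h | h
  · refine Or.inr ⟨j, h, D.mem_Bl_of ht htN hr i₀ hmax' ?_ ?_⟩
    · rw [← Real.log_le_iff_le_exp hY0]
      exact hj.le
    · refine hzz _ ?_ le_rfl
      unfold Ls
      exact Real.rpow_nonneg hA0 _
  · refine Or.inl (D.mem_Bl_of ht htN hr i₀ hmax' ?_ ?_)
    · rw [Real.exp_log hN0]
      exact hYN
    · exact hzz _ (hA0.trans (hl1.trans hl2)) h

open Classical in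
/-- The number of squarefree `t`, `|t| ≤ N`, with a datum such that one of the products `XX` is
large. -/
theorem total_odd (Sp : ℕ → Prop) (hS : LowMert Sp)
    (hw : ∀ A p, p.Prime → D.C₀ < p → A.Nonempty → D.wt A p ≤ 1)
    (hs : ∀ A p, p.Prime → D.C₀ < p → A.Nonempty → Sp p → D.wt A p ≤ 7 / 8) (ε : ℝ)
    (hε : 0 < ε) : ∃ M : ℝ, ∀ N : ℕ,
      (((Icc (-(N : ℤ)) N).filter fun t => Squarefree t ∧ ∃ r, D.Dt t r ∧
        ∃ i, M ≤ (D.XX t r i : ℝ)).card : ℝ) ≤ ε * N := by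
  obtain ⟨Q, c, C, L₁, hQ, hc, hC, hL₁, hm⟩ := D.main_odd Sp hS hw hs
  obtain ⟨C', L₂, hC', hL₂, hb⟩ := D.block_le Q hQ
  have hQ' : (4 : ℝ) ≤ Q := by exact_mod_cast hQ
  have hQ1 : (0 : ℝ) < (Q : ℝ) - 1 := by linarith
  set c' : ℝ := min c 2 with hc'
  have hc'0 : 0 < c' := lt_min hc two_pos
  set K : ℝ := C' * (((Lv k Q).card : ℝ) * C + 1) with hK
  have hK0 : 0 ≤ K := by positivity
  -- the bound for one block
  have hblock : ∀ (N : ℕ) (L : ℝ), max L₁ L₂ ≤ L → Real.exp L ≤ N →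
      ((D.Bl N L Q).card : ℝ) ≤ K * N * L ^ (-c') := by
    intro N L hL hLN
    have hL1 : 1 ≤ L := hL₁.trans ((le_max_left _ _).trans hL)
    refine (hb N L ((le_max_right _ _).trans hL) hLN).trans ?_
    have h1 : ∑ μ ∈ Lv k Q, ∑ n ∈ Icc 1 (2 ^ k * N), HT.hf (D.HH L Q μ) n ≤
        ((Lv k Q).card : ℝ) * (C * N * L ^ (-c')) := by
      rw [← nsmul_eq_mul]
      refine sum_le_card_nsmul _ _ _ fun μ hμ => ?_
      refine (hm N L ((le_max_left _ _).trans hL) hLN μ hμ).trans ?_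
      refine mul_le_mul_of_nonneg_left ?_ (by positivity)
      exact Real.rpow_le_rpow_of_exponent_le hL1 (neg_le_neg (min_le_left _ _))
    have h2 : (N : ℝ) * L ^ (-(2 : ℝ)) ≤ N * L ^ (-c') := by
      refine mul_le_mul_of_nonneg_left ?_ (by positivity)
      exact Real.rpow_le_rpow_of_exponent_le hL1 (neg_le_neg (min_le_right _ _))
    calc C' * (∑ μ ∈ Lv k Q, ∑ n ∈ Icc 1 (2 ^ k * N), HT.hf (D.HH L Q μ) n +
          N * L ^ (-(2 : ℝ))) ≤
        C' * (((Lv k Q).card : ℝ) * (C * N * L ^ (-c')) + N * L ^ (-c')) :=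
          mul_le_mul_of_nonneg_left (add_le_add h1 h2) hC'
      _ = K * N * L ^ (-c') := by
        rw [hK]
        ring
  -- the choice of `A`
  obtain ⟨A, hA1, hA2, hA3, hA4⟩ : ∃ A : ℝ, 1 ≤ A ∧ max L₁ L₂ ≤ A ∧
      2 ≤ (A ^ (((Q : ℝ) - 1)⁻¹)) ^ min c' 1 ∧ 2 * K * A ^ (-c') ≤ ε := by
    have t1 : Filter.Tendsto (fun A : ℝ => (A ^ (((Q : ℝ) - 1)⁻¹)) ^ min c' 1) Filter.atTop
        Filter.atTop :=
      (tendsto_rpow_atTop (lt_min hc'0 one_pos)).comp (tendsto_rpow_atTop (inv_pos.2 hQ1))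
    have t2 : Filter.Tendsto (fun A : ℝ => 2 * K * A ^ (-c')) Filter.atTop (nhds (2 * K * 0)) :=
      (tendsto_rpow_neg_atTop hc'0).const_mul _
    rw [mul_zero] at t2
    obtain ⟨A, h1, h2, h3, h4⟩ := ((Filter.eventually_ge_atTop (1 : ℝ)).and
      ((Filter.eventually_ge_atTop (max L₁ L₂)).and ((t1.eventually_ge_atTop 2).and
      (t2.eventually (Iic_mem_nhds hε))))).exists
    exact ⟨A, h1, h2, h3, h4⟩
  have hA0 : 0 < A := by linarith
  set B : ℝ := A ^ (((Q : ℝ) - 1)⁻¹) with hB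
  have hB1 : 1 ≤ B := Real.one_le_rpow hA1 (inv_pos.2 hQ1).le
  have hB2 : 2 ≤ B := by
    refine hA3.trans ?_
    calc B ^ min c' 1 ≤ B ^ (1 : ℝ) :=
          Real.rpow_le_rpow_of_exponent_le hB1 (min_le_right _ _)
      _ = B := Real.rpow_one B
  have hB3 : B ^ (-c') ≤ 1 / 2 := by
    have : 2 ≤ B ^ c' := hA3.trans (Real.rpow_le_rpow_of_exponent_le hB1 (min_le_left _ _))
    rw [Real.rpow_neg (by linarith), one_div]
    exact inv_anti₀ two_pos this
  refine ⟨Real.exp A, fun N => ?_⟩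
  rcases lt_or_ge (N : ℝ) (Real.exp A) with hN | hN
  · -- the set is empty
    have : (Icc (-(N : ℤ)) N).filter (fun t => Squarefree t ∧ ∃ r, D.Dt t r ∧
        ∃ i, Real.exp A ≤ (D.XX t r i : ℝ)) = ∅ := by
      refine filter_eq_empty_iff.2 ?_
      rintro t ht ⟨hsq, r, hr, i, hi⟩
      have h1 : (D.XX t r i : ℝ) ≤ N := by exact_mod_cast D.XX_le hsq ht r i
      linarith
    rw [this, card_empty, Nat.cast_zero]
    positivity
  · have hN0 : (0 : ℝ) < N := (Real.exp_pos A).trans_le hN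
    have hAN : A ≤ Real.log N := (Real.le_log_iff_exp_le hN0).2 hN
    -- the number of scales
    obtain ⟨n, hn⟩ := pow_unbounded_of_one_lt (Real.log N) one_lt_two
    set S : Finset ℕ := (range n).filter fun j => Ls A Q (j + 1) ≤ Real.log N with hSdef
    have hge : ∀ j, A * B ^ j ≤ Ls A Q j := fun j => le_Ls hA1 hQ j
    have hsub : (Icc (-(N : ℤ)) N).filter (fun t => Squarefree t ∧ ∃ r, D.Dt t r ∧
        ∃ i, Real.exp A ≤ (D.XX t r i : ℝ)) ⊆
        D.Bl N (Real.log N) Q ∪ S.biUnion fun j => D.Bl N (Ls A Q (j + 1)) Q := by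
      intro t ht
      obtain ⟨htN, hsq, r, hr, hi⟩ := mem_filter.1 ht
      rcases D.cover hA1 hQ hB2 hsq htN hr hi with h | ⟨j, hj, h⟩
      · exact mem_union_left _ h
      · refine mem_union_right _ (mem_biUnion.2 ⟨j, mem_filter.2 ⟨mem_range.2 ?_, hj⟩, h⟩)
        by_contra hcon
        have h1 : (2 : ℝ) ^ n ≤ Ls A Q (j + 1) := by
          calc (2 : ℝ) ^ n ≤ 2 ^ (j + 1) := pow_le_pow_right₀ one_le_two (by omega)
            _ ≤ B ^ (j + 1) := pow_le_pow_left₀ (by norm_num) hB2 _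
            _ ≤ A * B ^ (j + 1) := le_mul_of_one_le_left (pow_nonneg (by linarith) _) hA1
            _ ≤ _ := hge _
        linarith
    have hcard : (((Icc (-(N : ℤ)) N).filter fun t => Squarefree t ∧ ∃ r, D.Dt t r ∧
        ∃ i, Real.exp A ≤ (D.XX t r i : ℝ)).card : ℝ) ≤
        (D.Bl N (Real.log N) Q).card + ∑ j ∈ S, ((D.Bl N (Ls A Q (j + 1)) Q).card : ℝ) := by
      have h1 := (card_le_card hsub).trans (card_union_le _ _)
      have h2 := card_biUnion_le (s := S) (t := fun j => D.Bl N (Ls A Q (j + 1)) Q)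
      have h3 := h1.trans (Nat.add_le_add_left h2 _)
      exact_mod_cast h3
    refine hcard.trans ?_
    have hAe : ∀ x, A ≤ x → x ^ (-c') ≤ A ^ (-c') := fun x hx =>
      Real.rpow_le_rpow_of_nonpos hA0 hx (neg_nonpos.2 hc'0.le)
    have htop : ((D.Bl N (Real.log N) Q).card : ℝ) ≤ K * N * A ^ (-c') := by
      refine (hblock N (Real.log N) (hA2.trans hAN) (Real.exp_log hN0).le).trans ?_
      exact mul_le_mul_of_nonneg_left (hAe _ hAN) (by positivity)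
    have hone : ∀ j ∈ S, ((D.Bl N (Ls A Q (j + 1)) Q).card : ℝ) ≤
        K * N * A ^ (-c') * (1 / 2) ^ (j + 1) := by
      intro j hj
      have hjN := (mem_filter.1 hj).2
      have hALs : A ≤ Ls A Q (j + 1) :=
        (le_mul_of_one_le_right hA0.le (one_le_pow₀ hB1)).trans (hge (j + 1))
      refine (hblock N (Ls A Q (j + 1)) (hA2.trans hALs) ?_).trans ?_
      · rw [← Real.le_log_iff_exp_le hN0]
        exact hjN
      · rw [mul_assoc (K * N)]
        refine mul_le_mul_of_nonneg_left ?_ (by positivity)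
        have hpos : 0 < A * B ^ (j + 1) := by positivity
        calc Ls A Q (j + 1) ^ (-c') ≤ (A * B ^ (j + 1)) ^ (-c') :=
              Real.rpow_le_rpow_of_nonpos hpos (hge _) (neg_nonpos.2 hc'0.le)
          _ = A ^ (-c') * (B ^ (-c')) ^ (j + 1) := by
              rw [Real.mul_rpow hA0.le (by positivity), ← Real.rpow_natCast B,
                ← Real.rpow_mul (by linarith), mul_comm ((j + 1 : ℕ) : ℝ),
                Real.rpow_mul (by linarith), Real.rpow_natCast]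
          _ ≤ A ^ (-c') * (1 / 2) ^ (j + 1) := by
              refine mul_le_mul_of_nonneg_left ?_ (by positivity)
              exact pow_le_pow_left₀ (Real.rpow_nonneg (by linarith) _) hB3 _
    have hsum : ∑ j ∈ S, ((D.Bl N (Ls A Q (j + 1)) Q).card : ℝ) ≤ K * N * A ^ (-c') := by
      refine (sum_le_sum hone).trans ?_
      rw [← mul_sum]
      refine mul_le_of_le_one_right (by positivity) ?_
      calc ∑ j ∈ S, (1 / 2 : ℝ) ^ (j + 1) ≤ ∑ j ∈ range n, (1 / 2 : ℝ) ^ (j + 1) :=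
            sum_le_sum_of_subset_of_nonneg (filter_subset _ _) fun _ _ _ => by positivity
        _ = 1 - (1 / 2) ^ n := by
            clear * -
            induction n with
            | zero => simp
            | succ n ih =>
              rw [sum_range_succ, ih]
              ring
        _ ≤ 1 := by
            have : (0 : ℝ) ≤ (1 / 2) ^ n := by positivity
            linarith
    calc _ ≤ K * N * A ^ (-c') + K * N * A ^ (-c') := add_le_add htop hsum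
      _ = 2 * K * A ^ (-c') * N := by ring
      _ ≤ ε * N := mul_le_mul_of_nonneg_right hA4 hN0.le

end Sys

end Stoll308.TW
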