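import Pool.Agent.Work.MP_308fa9_nt.TW.Scale

set_option autoImplicit false

/-!
The main term, odd degree: the label `u` is admissible.
-/

namespace Stoll308.TW

open Finset Stoll308.Gen

variable {k : ℕ}

namespace Sys

variable (D : Sys k)

lemma upx_wt_nonneg (A : Finset (Fin k)) (p : ℕ) : 0 ≤ D.wt A p := by
  unfold wt
  exact sum_nonneg fun _ _ => by positivity

lemma upx_zz_self (L : ℝ) {Q : ℕ} (hQ : 0 < Q) : zz L Q Q = Real.exp L := by
  unfold zz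
  rw [div_self (by exact_mod_cast hQ.ne' : (Q : ℝ) ≠ 0), Real.rpow_one]

lemma upx_HH_nonneg (L : ℝ) (Q : ℕ) (μ : Fin k → ℕ) (p : ℕ) : 0 ≤ D.HH L Q μ p := by
  unfold HH
  split_ifs
  · exact le_rfl
  · exact D.upx_wt_nonneg _ _
  · exact Nat.cast_nonneg _
  · exact zero_le_one
  · exact le_rfl

lemma upx_HH_le (L : ℝ) (Q : ℕ) {μ : Fin k → ℕ} (hμ : μ ∈ Lv k Q)
    (hw : ∀ A p, p.Prime → D.C₀ < p → A.Nonempty → D.wt A p ≤ 1) (p : ℕ) (hp : p.Prime) :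
    D.HH L Q μ p ≤ (D.K : ℝ) + 1 := by
  have hK : (0 : ℝ) ≤ D.K := Nat.cast_nonneg _
  unfold HH
  split_ifs with h1 h2 h3 h4
  · linarith
  · have := hw _ p hp (not_le.1 h1) (AA_nonempty hμ h2)
    linarith
  · linarith
  · linarith
  · linarith

open Classical in
/-- The sum of the weights over the primes up to `exp L`. -/
lemma upx_core (Sp : ℕ → Prop) (hS : LowMert Sp) (ρ : ℕ → ℝ) (hρ : ∀ p, 0 ≤ ρ p)
    (hw : ∀ A p, p.Prime → D.C₀ < p → A.Nonempty → D.wt A p ≤ ρ p)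
    (hs : ∀ A p, p.Prime → D.C₀ < p → A.Nonempty → Sp p → D.wt A p ≤ ρ p - 1 / 8) :
    ∃ (Q : ℕ) (c C L₀ : ℝ), 4 ≤ Q ∧ 0 < c ∧ 0 ≤ C ∧ 1 ≤ L₀ ∧ ∀ L : ℝ, L₀ ≤ L →
      ∀ μ ∈ Lv k Q, ∑ p ∈ (Icc 1 ⌊Real.exp L⌋₊).filter Nat.Prime, D.HH L Q μ p / (p : ℝ) ≤
        ∑ p ∈ (Icc 1 ⌊Real.exp L⌋₊).filter Nat.Prime, ρ p / (p : ℝ) - c * Real.log L + C := by
  obtain ⟨κ, hκ0, hκ1, hused⟩ := sum_used (k := k) Sp hS
  have hK : (0 : ℝ) ≤ D.K := Nat.cast_nonneg _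
  have hk : (0 : ℝ) ≤ k := Nat.cast_nonneg _
  set T : ℝ := 16 * ((2 * k + 2) / 8 + D.K * (2 * k + 1)) / κ with hT
  have hT0 : 0 ≤ T := by positivity
  set Q : ℕ := max 4 ⌈T⌉₊ with hQ
  have hQ4 : 4 ≤ Q := le_max_left _ _
  have hQT : T ≤ Q := (Nat.le_ceil T).trans (by exact_mod_cast le_max_right _ _)
  have hQ0 : (0 : ℝ) < Q := by
    have : 0 < Q := by omega
    exact_mod_cast this
  obtain ⟨C₁, L₁, hL₁, h1⟩ := sum_unused (k := k) Q hQ4
  obtain ⟨C₂, L₂, hL₂, h2⟩ := hused Q hQ4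
  refine ⟨Q, κ / 16, |D.K * C₁ + C₂ / 8| + D.C₀, max L₁ L₂, hQ4, by positivity, by positivity,
    hL₁.trans (le_max_left _ _), fun L hL μ hμ => ?_⟩
  have hLa : L₁ ≤ L := (le_max_left _ _).trans hL
  have hLb : L₂ ≤ L := (le_max_right _ _).trans hL
  have hL1 : 1 ≤ L := hL₁.trans hLa
  have hlL : 0 ≤ Real.log L := Real.log_nonneg hL1
  have hA := h1 L hLa μ hμ
  have hB := h2 L hLb μ hμ
  have hzz : zz L Q Q = Real.exp L := upx_zz_self L (by omega)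
  set P : Finset ℕ := (Icc 1 ⌊Real.exp L⌋₊).filter Nat.Prime with hP
  have hpt : ∀ p ∈ P, D.HH L Q μ p / (p : ℝ) ≤ ρ p / (p : ℝ) -
      1 / 8 * (if InW L Q μ p ∧ Sp p then 1 / (p : ℝ) else 0) +
      D.K * (if ¬ InW L Q μ p then 1 / (p : ℝ) else 0) +
      (if p ≤ D.C₀ then 1 / (p : ℝ) else 0) := by
    intro p hp
    rw [hP, mem_filter, mem_Icc] at hp
    have hp0 : (0 : ℝ) < p := by exact_mod_cast hp.2.pos
    have hinv : 0 < 1 / (p : ℝ) := by positivity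
    have hpe : (p : ℝ) ≤ Real.exp L := (Nat.le_floor_iff (Real.exp_pos L).le).1 hp.1.2
    have hρp : 0 ≤ ρ p / (p : ℝ) := div_nonneg (hρ p) hp0.le
    have e1 : (0 : ℝ) ≤ if InW L Q μ p ∧ Sp p then 1 / (p : ℝ) else 0 := by
      split_ifs <;> positivity
    have e2 : (if InW L Q μ p ∧ Sp p then 1 / (p : ℝ) else 0) ≤ 1 / (p : ℝ) := by
      split_ifs
      · exact le_rfl
      · exact hinv.le
    have e3 : (0 : ℝ) ≤ D.K * (if ¬ InW L Q μ p then 1 / (p : ℝ) else 0) := by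
      refine mul_nonneg hK ?_
      split_ifs <;> positivity
    unfold HH
    by_cases hC : p ≤ D.C₀
    · rw [if_pos hC, if_pos hC, zero_div]
      linarith
    · rw [if_neg hC, if_neg hC]
      by_cases hW : InW L Q μ p
      · rw [if_pos hW]
        have hne := AA_nonempty hμ hW
        by_cases hSp : Sp p
        · have h3 := hs _ p hp.2 (not_le.1 hC) hne hSp
          have h4 := div_le_div_of_nonneg_right h3 hp0.le
          rw [if_pos ⟨hW, hSp⟩, if_neg (not_not.2 hW)]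
          refine h4.trans (le_of_eq ?_)
          ring
        · have h3 := hw _ p hp.2 (not_le.1 hC) hne
          have h4 := div_le_div_of_nonneg_right h3 hp0.le
          rw [if_neg (fun h => hSp h.2), if_neg (not_not.2 hW)]
          linarith
      · rw [if_neg hW, if_pos (hzz ▸ hpe), if_neg (fun h => hW h.1), if_pos hW]
        have : (D.K : ℝ) / p = D.K * (1 / p) := by ring
        linarith
  have hsum := sum_le_sum hpt
  rw [sum_add_distrib, sum_add_distrib, sum_sub_distrib, ← mul_sum, ← mul_sum] at hsum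
  have s1 : ∑ p ∈ P, (if InW L Q μ p ∧ Sp p then 1 / (p : ℝ) else 0) =
      ∑ p ∈ (Icc 1 ⌊Real.exp L⌋₊).filter (fun p : ℕ => p.Prime ∧ InW L Q μ p ∧ Sp p),
        1 / (p : ℝ) := by
    rw [← sum_filter, hP, filter_filter]
  have s2 : ∑ p ∈ P, (if ¬ InW L Q μ p then 1 / (p : ℝ) else 0) =
      ∑ p ∈ (Icc 1 ⌊Real.exp L⌋₊).filter (fun p : ℕ => p.Prime ∧ ¬ InW L Q μ p),
        1 / (p : ℝ) := by
    rw [← sum_filter, hP, filter_filter]
  have s3 : ∑ p ∈ P, (if p ≤ D.C₀ then 1 / (p : ℝ) else 0) ≤ D.C₀ := by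
    rw [← sum_filter]
    have h5 : ∑ p ∈ P.filter (fun p => p ≤ D.C₀), 1 / (p : ℝ) ≤
        ∑ p ∈ P.filter (fun p => p ≤ D.C₀), (1 : ℝ) := by
      refine sum_le_sum fun p hp => ?_
      rw [mem_filter, hP, mem_filter] at hp
      have hp1 : (1 : ℝ) ≤ p := by exact_mod_cast hp.1.2.one_le
      rw [div_le_one (by linarith)]
      exact hp1
    refine h5.trans ?_
    rw [sum_const, nsmul_eq_mul, mul_one]
    have h6 : P.filter (fun p => p ≤ D.C₀) ⊆ Icc 1 D.C₀ := by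
      intro p hp
      rw [mem_filter, hP, mem_filter] at hp
      rw [mem_Icc]
      exact ⟨hp.1.2.one_le, hp.2⟩
    have h7 := card_le_card h6
    rw [Nat.card_Icc, Nat.add_sub_cancel] at h7
    exact_mod_cast h7
  rw [s1, s2] at hsum
  have k1 : 1 / 8 * ((2 * k + 2) / Q) + D.K * ((2 * k + 1) / Q) ≤ κ / 16 := by
    have h8 : 16 * ((2 * k + 2) / 8 + D.K * (2 * k + 1)) ≤ Q * κ := by
      rw [hT, div_le_iff₀ hκ0] at hQT
      exact hQT
    have h9 : 1 / 8 * ((2 * (k : ℝ) + 2) / Q) + D.K * ((2 * k + 1) / Q) =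
        ((2 * k + 2) / 8 + D.K * (2 * k + 1)) / Q := by ring
    rw [h9, div_le_iff₀ hQ0]
    linarith
  have k2 := mul_le_mul_of_nonneg_right k1 hlL
  have k3 := mul_le_mul_of_nonneg_left hA hK
  have k4 := le_abs_self (D.K * C₁ + C₂ / 8)
  have k5 : (0 : ℝ) ≤ κ * Real.log L := by positivity
  have k6 : (κ - (2 * (k : ℝ) + 2) / Q) * Real.log L =
      κ * Real.log L - (2 * k + 2) / Q * Real.log L := by ring
  have k7 : (D.K : ℝ) * ((2 * k + 1) / Q * Real.log L + C₁) =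
      D.K * ((2 * k + 1) / Q) * Real.log L + D.K * C₁ := by ring
  have k8 : (1 / 8 * ((2 * (k : ℝ) + 2) / Q) + D.K * ((2 * k + 1) / Q)) * Real.log L =
      1 / 8 * ((2 * k + 2) / Q * Real.log L) + D.K * ((2 * k + 1) / Q) * Real.log L := by ring
  rw [k6] at hB
  rw [k7] at k3
  rw [k8] at k2
  have k9 : κ / 16 * Real.log L = 1 / 16 * (κ * Real.log L) := by ring
  rw [k9] at k2 ⊢
  linarith

theorem main_odd (Sp : ℕ → Prop) (hS : LowMert Sp)
    (hw : ∀ A p, p.Prime → D.C₀ < p → A.Nonempty → D.wt A p ≤ 1)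
    (hs : ∀ A p, p.Prime → D.C₀ < p → A.Nonempty → Sp p → D.wt A p ≤ 7 / 8) :
    ∃ (Q : ℕ) (c C L₀ : ℝ), 4 ≤ Q ∧ 0 < c ∧ 0 ≤ C ∧ 1 ≤ L₀ ∧ ∀ (N : ℕ) (L : ℝ), L₀ ≤ L →
      Real.exp L ≤ N → ∀ μ ∈ Lv k Q, ∑ n ∈ Icc 1 (2 ^ k * N), HT.hf (D.HH L Q μ) n ≤
        C * N * L ^ (-c) := by
  classical
  obtain ⟨Q, c, C₃, L₀, hQ4, hc, hC₃, hL₀, h⟩ := D.upx_core Sp hS (fun _ => 1)
    (fun _ => zero_le_one) hw (fun A p hp hC hA hSp => (hs A p hp hC hA hSp).trans (by norm_num))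
  obtain ⟨C₄, hC₄, hM⟩ := mertens_real
  have hK : (0 : ℝ) ≤ D.K := Nat.cast_nonneg _
  refine ⟨Q, c, (2 * ((D.K : ℝ) + 1) + 1) * 2 ^ k * Real.exp (C₃ + C₄), L₀, hQ4, hc,
    by positivity, hL₀, fun N L hL hN μ hμ => ?_⟩
  have hL1 : 1 ≤ L := hL₀.trans hL
  have hL0 : 0 < L := by linarith
  have he : (2 : ℝ) < N := by
    have h1 := Real.exp_one_gt_d9
    have h2 := Real.exp_le_exp.2 hL1
    linarith
  have hN3 : 3 ≤ N := by
    have : 2 < N := by exact_mod_cast he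
    omega
  set X : ℕ := 2 ^ k * N with hX
  have hNX : N ≤ X := Nat.le_mul_of_pos_left N (by positivity)
  have hX3 : 3 ≤ X := hN3.trans hNX
  have hXr : (3 : ℝ) ≤ X := by exact_mod_cast hX3
  have hNXr : (N : ℝ) ≤ X := by exact_mod_cast hNX
  have hlX : 0 < Real.log X := Real.log_pos (by linarith)
  have h1 := sum_hf_le_prod (H := D.HH L Q μ) (K := (D.K : ℝ) + 1)
    (fun p _ => D.upx_HH_nonneg L Q μ p) (fun p hp => D.upx_HH_le L Q hμ hw p hp)
    (X := X) (by omega)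
  have h2 := Gen.prod_le_exp ((Icc 1 X).filter Nat.Prime) (D.HH L Q μ)
    (fun p _ => D.upx_HH_nonneg L Q μ p)
  have hfl : ⌊Real.exp L⌋₊ ≤ X := by
    refine le_trans ?_ hNX
    exact_mod_cast (Nat.floor_le (Real.exp_pos L).le).trans hN
  have hsub : (Icc 1 ⌊Real.exp L⌋₊).filter Nat.Prime ⊆ (Icc 1 X).filter Nat.Prime := by
    intro p hp
    rw [mem_filter, mem_Icc] at hp ⊢
    exact ⟨⟨hp.1.1, hp.1.2.trans hfl⟩, hp.2⟩
  have h3 : ∑ p ∈ (Icc 1 X).filter Nat.Prime, D.HH L Q μ p / (p : ℝ) ≤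
      ∑ p ∈ (Icc 1 X).filter Nat.Prime, 1 / (p : ℝ) - c * Real.log L + C₃ := by
    have h4 := h L hL μ hμ
    rw [← sum_sdiff hsub, ← sum_sdiff (s₁ := (Icc 1 ⌊Real.exp L⌋₊).filter Nat.Prime)
      (s₂ := (Icc 1 X).filter Nat.Prime) (f := fun p : ℕ => 1 / (p : ℝ)) hsub]
    have h5 : ∑ p ∈ (Icc 1 X).filter Nat.Prime \ (Icc 1 ⌊Real.exp L⌋₊).filter Nat.Prime,
        D.HH L Q μ p / (p : ℝ) ≤
        ∑ p ∈ (Icc 1 X).filter Nat.Prime \ (Icc 1 ⌊Real.exp L⌋₊).filter Nat.Prime,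
        1 / (p : ℝ) := by
      refine sum_le_sum fun p hp => ?_
      rw [mem_sdiff, mem_filter, mem_filter, mem_Icc, mem_Icc] at hp
      have hgt : Real.exp L < (p : ℝ) := by
        by_contra hcon
        push Not at hcon
        exact hp.2 ⟨⟨hp.1.1.1, Nat.le_floor hcon⟩, hp.1.2⟩
      have hzz : zz L Q Q = Real.exp L := upx_zz_self L (by omega)
      refine div_le_div_of_nonneg_right ?_ (Nat.cast_nonneg p)
      unfold HH
      have hnW : ¬ InW L Q μ p := by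
        intro hW
        have := hW.2.1
        rw [hzz] at this
        linarith
      have hnz : ¬ ((p : ℝ) ≤ zz L Q Q) := by
        rw [hzz]
        exact not_le.2 hgt
      rw [if_neg hnW, if_neg hnz]
      split_ifs <;> norm_num
    linarith
  have h4 := (abs_le.1 (hM X hXr)).2
  rw [Nat.floor_natCast] at h4
  have h4' : ∑ p ∈ (Icc 1 X).filter Nat.Prime, 1 / (p : ℝ) ≤ Real.log (Real.log X) + C₄ := by
    have h5 : ∑ p ∈ (Icc 1 X).filter Nat.Prime, 1 / (p : ℝ) =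
      ∑ p ∈ MeanSum.PR X, 1 / (p : ℝ) := rfl
    linarith
  have h5 : ∏ p ∈ (Icc 1 X).filter Nat.Prime, (1 + D.HH L Q μ p / (p : ℝ)) ≤
      Real.exp (C₃ + C₄) * L ^ (-c) * Real.log X := by
    refine h2.trans ?_
    have e1 : Real.exp (C₃ + C₄) * L ^ (-c) * Real.log X =
        Real.exp (C₃ + C₄ + Real.log L * (-c) + Real.log (Real.log X)) := by
      rw [Real.exp_add (C₃ + C₄ + Real.log L * (-c)), Real.exp_add (C₃ + C₄) (Real.log L * (-c)),
        Real.exp_log hlX, Real.rpow_def_of_pos hL0]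
    rw [e1]
    refine Real.exp_le_exp.2 ?_
    linarith
  refine h1.trans ?_
  calc (2 * ((D.K : ℝ) + 1) + 1) * (X / Real.log X) *
        ∏ p ∈ (Icc 1 X).filter Nat.Prime, (1 + D.HH L Q μ p / (p : ℝ)) ≤
        (2 * ((D.K : ℝ) + 1) + 1) * (X / Real.log X) *
          (Real.exp (C₃ + C₄) * L ^ (-c) * Real.log X) :=
        mul_le_mul_of_nonneg_left h5 (by positivity)
    _ = (2 * ((D.K : ℝ) + 1) + 1) * X * Real.exp (C₃ + C₄) * L ^ (-c) *
          (Real.log X / Real.log X) := by ring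
    _ = _ := by
        rw [div_self hlX.ne', hX]
        push_cast
        ring

end Sys

end Stoll308.TW
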