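import Pool.Agent.Work.MP_308fa9_nt.TW.Scale
import Pool.Agent.Work.MP_308fa9_nt.TW.UpO

set_option autoImplicit false

/-!
The main term, even degree: the label `u` is not admissible.
-/

namespace Stoll308.TW

open Finset Stoll308.Gen

variable {k : ℕ}

namespace Sys

variable (D : Sys k)

theorem main_even (f : Polynomial ℤ) (Sp : ℕ → Prop) (hS : LowMert Sp) (hi : D.inf = false)
    (hw : ∀ A p, p.Prime → D.C₀ < p → A.Nonempty →
      D.wt A p ≤ if (R f p).Nonempty then 1 else 0)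
    (hs : ∀ A p, p.Prime → D.C₀ < p → A.Nonempty → Sp p → (R f p).Nonempty ∧
      D.wt A p ≤ 7 / 8) :
    ∃ (Q : ℕ) (c C : ℝ) (N₀ : ℕ), 4 ≤ Q ∧ 0 < c ∧ 0 ≤ C ∧ 3 ≤ N₀ ∧ ∀ N : ℕ, N₀ ≤ N →
      ∀ μ ∈ Lv k Q, ∑ n ∈ Icc 1 (2 ^ k * N), HT.hf (D.HH (Real.log N) Q μ) n ≤
        C * (N * Real.log N ^ (-1 - c)) * ∏ p ∈ rootPrimes f N, (1 + 1 / (p : ℝ)) := by
  classical
  have hρ0 : ∀ p : ℕ, (0 : ℝ) ≤ if (R f p).Nonempty then (1 : ℝ) else 0 := by
    intro p
    split_ifs <;> norm_num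
  have hρ1 : ∀ p : ℕ, (if (R f p).Nonempty then (1 : ℝ) else 0) ≤ 1 := by
    intro p
    split_ifs <;> norm_num
  obtain ⟨Q, c, C₃, L₀, hQ4, hc, hC₃, hL₀, h⟩ := D.upx_core Sp hS
    (fun p => if (R f p).Nonempty then 1 else 0) hρ0 hw (fun A p hp hC hA hSp => by
      obtain ⟨h1, h2⟩ := hs A p hp hC hA hSp
      rw [if_pos h1]
      exact h2.trans (by norm_num))
  have hK : (0 : ℝ) ≤ D.K := Nat.cast_nonneg _
  refine ⟨Q, c, (2 * ((D.K : ℝ) + 1) + 1) * 2 ^ k * Real.exp (C₃ + 1), max 3 ⌈Real.exp L₀⌉₊, hQ4,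
    hc, by positivity, le_max_left _ _, fun N hN μ hμ => ?_⟩
  have hN3 : 3 ≤ N := (le_max_left _ _).trans hN
  have hNr : (3 : ℝ) ≤ N := by exact_mod_cast hN3
  have hN0 : (0 : ℝ) < N := by linarith
  have hNe : Real.exp L₀ ≤ N := (Nat.le_ceil _).trans (by exact_mod_cast (le_max_right _ _).trans hN)
  set L : ℝ := Real.log N with hL
  have hLL : L₀ ≤ L := (Real.le_log_iff_exp_le hN0).2 hNe
  have hL1 : 1 ≤ L := hL₀.trans hLL
  have hL0 : 0 < L := by linarith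
  have hexp : Real.exp L = N := Real.exp_log hN0
  set X : ℕ := 2 ^ k * N with hX
  have hNX : N ≤ X := Nat.le_mul_of_pos_left N (by positivity)
  have hX3 : 3 ≤ X := hN3.trans hNX
  have hXr : (3 : ℝ) ≤ X := by exact_mod_cast hX3
  have hNXr : (N : ℝ) ≤ X := by exact_mod_cast hNX
  have hlX : L ≤ Real.log X := Real.log_le_log hN0 hNXr
  have h1 := sum_hf_le_prod (H := D.HH L Q μ) (K := (D.K : ℝ) + 1)
    (fun p _ => D.upx_HH_nonneg L Q μ p)
    (fun p hp => D.upx_HH_le L Q hμ (fun A p hp hC hA => (hw A p hp hC hA).trans (hρ1 p)) p hp)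
    (X := X) (by omega)
  have h2 := Gen.prod_le_exp ((Icc 1 X).filter Nat.Prime) (D.HH L Q μ)
    (fun p _ => D.upx_HH_nonneg L Q μ p)
  have hsub : (Icc 1 N).filter Nat.Prime ⊆ (Icc 1 X).filter Nat.Prime := by
    intro p hp
    rw [mem_filter, mem_Icc] at hp ⊢
    exact ⟨⟨hp.1.1, hp.1.2.trans hNX⟩, hp.2⟩
  have hzz : zz L Q Q = N := by rw [upx_zz_self L (by omega), hexp]
  have h3 : ∑ p ∈ (Icc 1 X).filter Nat.Prime, D.HH L Q μ p / (p : ℝ) =
      ∑ p ∈ (Icc 1 N).filter Nat.Prime, D.HH L Q μ p / (p : ℝ) := by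
    symm
    refine sum_subset hsub fun p hp hpN => ?_
    have hgt : (N : ℝ) < (p : ℝ) := by
      rw [mem_filter, mem_Icc] at hp hpN
      by_contra hcon
      push Not at hcon
      exact hpN ⟨⟨hp.1.1, by exact_mod_cast hcon⟩, hp.2⟩
    have hnW : ¬ InW L Q μ p := by
      intro hW
      have := hW.2.1
      rw [hzz] at this
      linarith
    have hnz : ¬ ((p : ℝ) ≤ zz L Q Q) := by
      rw [hzz]
      exact not_le.2 hgt
    unfold HH
    rw [if_neg hnW, if_neg hnz, hi]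
    simp
  have h4 := h L hLL μ hμ
  rw [hexp, Nat.floor_natCast] at h4
  have h5 : ∑ p ∈ (Icc 1 N).filter Nat.Prime, (if (R f p).Nonempty then (1 : ℝ) else 0) / (p : ℝ) =
      ∑ p ∈ rootPrimes f N, 1 / (p : ℝ) := by
    unfold rootPrimes
    rw [← filter_filter, sum_filter _ (fun p : ℕ => 1 / (p : ℝ))]
    refine sum_congr rfl fun p _ => ?_
    split_ifs
    · rfl
    · rw [zero_div]
  rw [h5] at h4
  have hge := Gen.prod_ge_exp (rootPrimes f N) (fun p hp => by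
    unfold rootPrimes at hp
    rw [mem_filter] at hp
    exact hp.2.1)
  set Rp : ℝ := ∏ p ∈ rootPrimes f N, (1 + 1 / (p : ℝ)) with hRp
  have h6 : ∏ p ∈ (Icc 1 X).filter Nat.Prime, (1 + D.HH L Q μ p / (p : ℝ)) ≤
      Real.exp (C₃ + 1) * L ^ (-c) * Rp := by
    refine h2.trans ?_
    rw [h3]
    refine le_trans ?_ (mul_le_mul_of_nonneg_left hge (by positivity))
    rw [Real.rpow_def_of_pos hL0, ← Real.exp_add, ← Real.exp_add]
    refine Real.exp_le_exp.2 ?_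
    linarith
  have h7 : (X : ℝ) / Real.log X ≤ 2 ^ k * (N * L ^ (-1 : ℝ)) := by
    have e1 : (X : ℝ) / Real.log X ≤ X / L := div_le_div_of_nonneg_left (by positivity) hL0 hlX
    refine e1.trans (le_of_eq ?_)
    rw [Real.rpow_neg_one, hX]
    push_cast
    ring
  have hLc : L ^ (-1 - c) = L ^ (-1 : ℝ) * L ^ (-c) := by
    rw [← Real.rpow_add hL0]
    congr 1
  have hRp0 : 0 ≤ Rp := prod_nonneg fun p _ => by positivity
  have hprod0 : 0 ≤ ∏ p ∈ (Icc 1 X).filter Nat.Prime, (1 + D.HH L Q μ p / (p : ℝ)) :=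
    prod_nonneg fun p _ => by
      have := D.upx_HH_nonneg L Q μ p
      positivity
  refine h1.trans ?_
  rw [hLc]
  calc (2 * ((D.K : ℝ) + 1) + 1) * (X / Real.log X) *
        ∏ p ∈ (Icc 1 X).filter Nat.Prime, (1 + D.HH L Q μ p / (p : ℝ)) ≤
        (2 * ((D.K : ℝ) + 1) + 1) * (2 ^ k * (N * L ^ (-1 : ℝ))) *
          (Real.exp (C₃ + 1) * L ^ (-c) * Rp) := by
        refine mul_le_mul (mul_le_mul_of_nonneg_left h7 (by positivity)) h6 hprod0 (by positivity)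
    _ = _ := by ring

end Sys

end Stoll308.TW
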