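import Pool.Agent.Work.MP_308fa9_nt.TW.UpE
import Pool.Agent.Work.MP_308fa9_nt.TW.Defs2

set_option autoImplicit false

/-!
The main term with exceptional components (as `main_even`).
-/

namespace Stoll308.TW

open Finset Stoll308.Gen

variable {k : ℕ}

namespace Sys

variable (D : Sys k)

private lemma wt_le_K (A : Finset (Fin k)) {p : ℕ} (hp : p.Prime) (hp0 : D.C₀ < p) :
    D.wt A p ≤ D.K := by
  classical
  have h1 : (D.Lb A p).card ≤ D.K := by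
    refine le_trans ?_ (D.card_le p hp hp0)
    unfold Lb Lbl
    refine (card_union_le _ _).trans ?_
    rw [add_comm]
    refine add_le_add ?_ ?_
    · refine card_biUnion_le.trans ?_
      refine (sum_le_sum fun i _ => card_image_le).trans ?_
      exact sum_le_sum_of_subset (subset_univ _)
    · split_ifs <;> simp
  unfold wt
  refine (sum_le_sum (g := fun _ => (1 : ℝ)) fun ℓ _ => ?_).trans ?_
  · exact pow_le_one₀ (by norm_num) (by norm_num)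
  · rw [sum_const, nsmul_eq_mul, mul_one]
    exact_mod_cast h1

private lemma HH_le_K (L : ℝ) (Q : ℕ) (μ : Fin k → ℕ) (p : ℕ) (hp : p.Prime) :
    D.HH L Q μ p ≤ (D.K : ℝ) + 1 := by
  have hK : (0 : ℝ) ≤ D.K := Nat.cast_nonneg _
  unfold HH
  split_ifs with h1 h2 h3 h4
  · linarith
  · have := D.wt_le_K (AA L Q μ p) hp (not_le.1 h1)
    linarith
  · linarith
  · linarith
  · linarith

open Classical in
/-- The sum of the weights (as `upx_core`). -/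
theorem core2 (E : Finset (Fin k)) (Sp : ℕ → Prop) (hS : LowMert Sp) (ρ : ℕ → ℝ)
    (hρ : ∀ p, 0 ≤ ρ p)
    (hw : ∀ A p, p.Prime → D.C₀ < p → A.Nonempty → (∀ i ∈ E, A ≠ {i}) → D.wt A p ≤ ρ p)
    (hs : ∀ A p, p.Prime → D.C₀ < p → A.Nonempty → (∀ i ∈ E, A ≠ {i}) → Sp p →
      D.wt A p ≤ ρ p - 1 / 8) :
    ∃ (Q₁ : ℕ) (c₁ : ℝ), 4 ≤ Q₁ ∧ 0 < c₁ ∧ ∀ Q h : ℕ, Q₁ ≤ Q → h + 1 ≤ Q → (h : ℝ) ≤ c₁ * Q →
      ∃ (c C L₀ : ℝ), 0 < c ∧ 0 ≤ C ∧ 1 ≤ L₀ ∧ ∀ L : ℝ, L₀ ≤ L → ∀ μ ∈ Lv k Q, GoodV E h Q μ →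
        ∑ p ∈ (Icc 1 ⌊Real.exp L⌋₊).filter Nat.Prime, D.HH L Q μ p / (p : ℝ) ≤
          ∑ p ∈ (Icc 1 ⌊Real.exp L⌋₊).filter Nat.Prime, ρ p / (p : ℝ) - c * Real.log L + C := by
  obtain ⟨κ, hκ0, hκ1, hused⟩ := sum_used (k := k) Sp hS
  have hK : (0 : ℝ) ≤ D.K := Nat.cast_nonneg _
  have hk : (0 : ℝ) ≤ k := Nat.cast_nonneg _
  set T : ℝ := 16 * ((2 * k + 2) / 8 + D.K * (2 * k + 1)) / κ with hT
  have hT0 : 0 ≤ T := by positivity
  refine ⟨max 4 ⌈T⌉₊, κ / (32 * (D.K + 1)), le_max_left _ _, by positivity,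
    fun Q h hQ₁ hhQ hh => ?_⟩
  have hQ4 : 4 ≤ Q := (le_max_left _ _).trans hQ₁
  have hQT : T ≤ Q := (Nat.le_ceil T).trans (by exact_mod_cast (le_max_right _ _).trans hQ₁)
  have hQ0 : (0 : ℝ) < Q := by
    have : 0 < Q := by omega
    exact_mod_cast this
  obtain ⟨C₁, L₁, hL₁, h1⟩ := sum_unused (k := k) Q hQ4
  obtain ⟨C₂, L₂, hL₂, h2⟩ := hused Q hQ4
  obtain ⟨C₅, L₅, hL₅, h5⟩ := sum_exc E h Q hQ4 hhQ
  refine ⟨κ / 32, |D.K * C₁ + C₂ / 8 + (D.K + 1) * C₅| + D.C₀, max (max L₁ L₂) L₅, by positivity,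
    by positivity, hL₁.trans ((le_max_left _ _).trans (le_max_left _ _)), fun L hL μ hμ hg => ?_⟩
  have hLa : L₁ ≤ L := ((le_max_left _ _).trans (le_max_left _ _)).trans hL
  have hLb : L₂ ≤ L := ((le_max_right _ _).trans (le_max_left _ _)).trans hL
  have hLc : L₅ ≤ L := (le_max_right _ _).trans hL
  have hL1 : 1 ≤ L := hL₁.trans hLa
  have hlL : 0 ≤ Real.log L := Real.log_nonneg hL1
  have hA := h1 L hLa μ hμ
  have hB := h2 L hLb μ hμ
  have hX := h5 L hLc μ hμ hg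
  have hzz : zz L Q Q = Real.exp L := upx_zz_self L (by omega)
  set P : Finset ℕ := (Icc 1 ⌊Real.exp L⌋₊).filter Nat.Prime with hP
  have hpt : ∀ p ∈ P, D.HH L Q μ p / (p : ℝ) ≤ ρ p / (p : ℝ) -
      1 / 8 * (if InW L Q μ p ∧ Sp p then 1 / (p : ℝ) else 0) +
      D.K * (if ¬ InW L Q μ p then 1 / (p : ℝ) else 0) +
      (D.K + 1) * (if InW L Q μ p ∧ ∃ i ∈ E, AA L Q μ p = {i} then 1 / (p : ℝ) else 0) +
      (if p ≤ D.C₀ then 1 / (p : ℝ) else 0) := by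
    intro p hp
    rw [hP, mem_filter, mem_Icc] at hp
    have hp0 : (0 : ℝ) < p := by exact_mod_cast hp.2.pos
    have hinv : 0 < 1 / (p : ℝ) := by positivity
    have hpe : (p : ℝ) ≤ Real.exp L := (Nat.le_floor_iff (Real.exp_pos L).le).1 hp.1.2
    have hρp : 0 ≤ ρ p / (p : ℝ) := div_nonneg (hρ p) hp0.le
    have e1 : (0 : ℝ) ≤ if InW L Q μ p ∧ Sp p then 1 / (p : ℝ) else 0 := by
      split_ifs <;> positivity
    have e2 : (if InW L Q μ p ∧ Sp p then 1 / (p : ℝ) else 0) ≤ 1 / (p : ℝ) := by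
      split_ifs
      · exact le_rfl
      · exact hinv.le
    have e3 : (0 : ℝ) ≤ D.K * (if ¬ InW L Q μ p then 1 / (p : ℝ) else 0) := by
      refine mul_nonneg hK ?_
      split_ifs <;> positivity
    have e4 : (0 : ℝ) ≤ (D.K + 1) *
        (if InW L Q μ p ∧ ∃ i ∈ E, AA L Q μ p = {i} then 1 / (p : ℝ) else 0) := by
      refine mul_nonneg (by positivity) ?_
      split_ifs <;> positivity
    unfold HH
    by_cases hC : p ≤ D.C₀
    · rw [if_pos hC, if_pos hC, zero_div]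
      linarith
    · rw [if_neg hC, if_neg hC]
      by_cases hW : InW L Q μ p
      · rw [if_pos hW]
        have hne := AA_nonempty hμ hW
        by_cases hex : ∃ i ∈ E, AA L Q μ p = {i}
        · have h3 := D.wt_le_K (AA L Q μ p) hp.2 (not_le.1 hC)
          have h4 := div_le_div_of_nonneg_right h3 hp0.le
          rw [if_pos (⟨hW, hex⟩ : InW L Q μ p ∧ ∃ i ∈ E, AA L Q μ p = {i}),
            if_neg (not_not.2 hW)]
          have : (D.K : ℝ) / p = D.K * (1 / p) := by ring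
          have h6 : ((D.K : ℝ) + 1) * (1 / p) = D.K * (1 / p) + 1 / p := by ring
          rw [h6]
          linarith
        · have hne' : ∀ i ∈ E, AA L Q μ p ≠ {i} := fun i hi hA => hex ⟨i, hi, hA⟩
          rw [if_neg (not_not.2 hW),
            if_neg (fun h => hex h.2 : ¬ (InW L Q μ p ∧ ∃ i ∈ E, AA L Q μ p = {i}))]
          by_cases hSp : Sp p
          · have h3 := hs _ p hp.2 (not_le.1 hC) hne hne' hSp
            have h4 := div_le_div_of_nonneg_right h3 hp0.le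
            rw [if_pos (⟨hW, hSp⟩ : InW L Q μ p ∧ Sp p)]
            refine h4.trans (le_of_eq ?_)
            ring
          · have h3 := hw _ p hp.2 (not_le.1 hC) hne hne'
            have h4 := div_le_div_of_nonneg_right h3 hp0.le
            rw [if_neg (fun h => hSp h.2 : ¬ (InW L Q μ p ∧ Sp p))]
            linarith
      · rw [if_neg hW, if_pos (hzz ▸ hpe),
          if_neg (fun h => hW h.1 : ¬ (InW L Q μ p ∧ Sp p)), if_pos hW,
          if_neg (fun h => hW h.1 : ¬ (InW L Q μ p ∧ ∃ i ∈ E, AA L Q μ p = {i}))]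
        have : (D.K : ℝ) / p = D.K * (1 / p) := by ring
        linarith
  have hsum := sum_le_sum hpt
  rw [sum_add_distrib, sum_add_distrib, sum_add_distrib, sum_sub_distrib, ← mul_sum, ← mul_sum,
    ← mul_sum] at hsum
  have s1 : ∑ p ∈ P, (if InW L Q μ p ∧ Sp p then 1 / (p : ℝ) else 0) =
      ∑ p ∈ (Icc 1 ⌊Real.exp L⌋₊).filter (fun p : ℕ => p.Prime ∧ InW L Q μ p ∧ Sp p),
        1 / (p : ℝ) := by
    rw [← sum_filter, hP, filter_filter]
  have s2 : ∑ p ∈ P, (if ¬ InW L Q μ p then 1 / (p : ℝ) else 0) =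
      ∑ p ∈ (Icc 1 ⌊Real.exp L⌋₊).filter (fun p : ℕ => p.Prime ∧ ¬ InW L Q μ p),
        1 / (p : ℝ) := by
    rw [← sum_filter, hP, filter_filter]
  have s4 : ∑ p ∈ P, (if InW L Q μ p ∧ ∃ i ∈ E, AA L Q μ p = {i} then 1 / (p : ℝ) else 0) =
      ∑ p ∈ (Icc 1 ⌊Real.exp L⌋₊).filter
        (fun p : ℕ => p.Prime ∧ InW L Q μ p ∧ ∃ i ∈ E, AA L Q μ p = {i}), 1 / (p : ℝ) := by
    rw [← sum_filter, hP, filter_filter]
  have s3 : ∑ p ∈ P, (if p ≤ D.C₀ then 1 / (p : ℝ) else 0) ≤ D.C₀ := by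
    rw [← sum_filter]
    have h5 : ∑ p ∈ P.filter (fun p => p ≤ D.C₀), 1 / (p : ℝ) ≤
        ∑ p ∈ P.filter (fun p => p ≤ D.C₀), (1 : ℝ) := by
      refine sum_le_sum fun p hp => ?_
      rw [mem_filter, hP, mem_filter] at hp
      have hp1 : (1 : ℝ) ≤ p := by exact_mod_cast hp.1.2.one_le
      rw [div_le_one (by linarith)]
      exact hp1
    refine h5.trans ?_
    rw [sum_const, nsmul_eq_mul, mul_one]
    have h6 : P.filter (fun p => p ≤ D.C₀) ⊆ Icc 1 D.C₀ := by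
      intro p hp
      rw [mem_filter, hP, mem_filter] at hp
      rw [mem_Icc]
      exact ⟨hp.1.2.one_le, hp.2⟩
    have h7 := card_le_card h6
    rw [Nat.card_Icc, Nat.add_sub_cancel] at h7
    exact_mod_cast h7
  rw [s1, s2, s4] at hsum
  have k1 : 1 / 8 * ((2 * k + 2) / Q) + D.K * ((2 * k + 1) / Q) ≤ κ / 16 := by
    have h8 : 16 * ((2 * k + 2) / 8 + D.K * (2 * k + 1)) ≤ Q * κ := by
      rw [hT, div_le_iff₀ hκ0] at hQT
      exact hQT
    have h9 : 1 / 8 * ((2 * (k : ℝ) + 2) / Q) + D.K * ((2 * k + 1) / Q) =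
        ((2 * k + 2) / 8 + D.K * (2 * k + 1)) / Q := by ring
    rw [h9, div_le_iff₀ hQ0]
    linarith
  have k0 : (D.K + 1) * ((h : ℝ) / Q) ≤ κ / 32 := by
    rw [← mul_div_assoc, div_le_iff₀ hQ0]
    have h8 := mul_le_mul_of_nonneg_left hh (by positivity : (0 : ℝ) ≤ D.K + 1)
    refine h8.trans (le_of_eq ?_)
    field_simp
  have k2 := mul_le_mul_of_nonneg_right k1 hlL
  have k0' := mul_le_mul_of_nonneg_right k0 hlL
  have k3 := mul_le_mul_of_nonneg_left hA hK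
  have k3' := mul_le_mul_of_nonneg_left hX (by positivity : (0 : ℝ) ≤ D.K + 1)
  have k4 := le_abs_self (D.K * C₁ + C₂ / 8 + (D.K + 1) * C₅)
  have k5 : (0 : ℝ) ≤ κ * Real.log L := by positivity
  have k6 : (κ - (2 * (k : ℝ) + 2) / Q) * Real.log L =
      κ * Real.log L - (2 * k + 2) / Q * Real.log L := by ring
  have k7 : (D.K : ℝ) * ((2 * k + 1) / Q * Real.log L + C₁) =
      D.K * ((2 * k + 1) / Q) * Real.log L + D.K * C₁ := by ring
  have k7' : ((D.K : ℝ) + 1) * ((h : ℝ) / Q * Real.log L + C₅) =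
      (D.K + 1) * ((h : ℝ) / Q) * Real.log L + (D.K + 1) * C₅ := by ring
  have k8 : (1 / 8 * ((2 * (k : ℝ) + 2) / Q) + D.K * ((2 * k + 1) / Q)) * Real.log L =
      1 / 8 * ((2 * k + 2) / Q * Real.log L) + D.K * ((2 * k + 1) / Q) * Real.log L := by ring
  rw [k6] at hB
  rw [k7] at k3
  rw [k7'] at k3'
  rw [k8] at k2
  have k9 : κ / 16 * Real.log L = 1 / 16 * (κ * Real.log L) := by ring
  have k10 : κ / 32 * Real.log L = 1 / 32 * (κ * Real.log L) := by ring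
  rw [k9] at k2
  rw [k10] at k0' ⊢
  linarith

theorem main_even2 (f : Polynomial ℤ) (E : Finset (Fin k)) (Sp : ℕ → Prop) (hS : LowMert Sp)
    (hi : D.inf = false)
    (hw : ∀ A p, p.Prime → D.C₀ < p → A.Nonempty → (∀ i ∈ E, A ≠ {i}) →
      D.wt A p ≤ if (R f p).Nonempty then 1 else 0)
    (hs : ∀ A p, p.Prime → D.C₀ < p → A.Nonempty → (∀ i ∈ E, A ≠ {i}) → Sp p →
      (R f p).Nonempty ∧ D.wt A p ≤ 7 / 8) :
    ∃ (Q₁ : ℕ) (c₁ : ℝ), 4 ≤ Q₁ ∧ 0 < c₁ ∧ ∀ Q h : ℕ, Q₁ ≤ Q → h + 1 ≤ Q → (h : ℝ) ≤ c₁ * Q →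
      ∃ (c C : ℝ) (N₀ : ℕ), 0 < c ∧ 0 ≤ C ∧ 3 ≤ N₀ ∧ ∀ N : ℕ, N₀ ≤ N →
        ∀ μ ∈ Lv k Q, GoodV E h Q μ →
          ∑ n ∈ Icc 1 (2 ^ k * N), HT.hf (D.HH (Real.log N) Q μ) n ≤
            C * (N * Real.log N ^ (-1 - c)) * ∏ p ∈ rootPrimes f N, (1 + 1 / (p : ℝ)) := by
  classical
  have hρ0 : ∀ p : ℕ, (0 : ℝ) ≤ if (R f p).Nonempty then (1 : ℝ) else 0 := by
    intro p
    split_ifs <;> norm_num
  obtain ⟨Q₁, c₁, hQ₁, hc₁, hcore⟩ := D.core2 E Sp hS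
    (fun p => if (R f p).Nonempty then 1 else 0) hρ0 hw (fun A p hp hC hA hE hSp => by
      obtain ⟨h1, h2⟩ := hs A p hp hC hA hE hSp
      rw [if_pos h1]
      exact h2.trans (by norm_num))
  have hK : (0 : ℝ) ≤ D.K := Nat.cast_nonneg _
  refine ⟨Q₁, c₁, hQ₁, hc₁, fun Q hh hQQ hhQ hhc => ?_⟩
  have hQ4 : 4 ≤ Q := hQ₁.trans hQQ
  obtain ⟨c, C₃, L₀, hc, hC₃, hL₀, h⟩ := hcore Q hh hQQ hhQ hhc
  refine ⟨c, (2 * ((D.K : ℝ) + 1) + 1) * 2 ^ k * Real.exp (C₃ + 1), max 3 ⌈Real.exp L₀⌉₊,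
    hc, by positivity, le_max_left _ _, fun N hN μ hμ hg => ?_⟩
  have hN3 : 3 ≤ N := (le_max_left _ _).trans hN
  have hNr : (3 : ℝ) ≤ N := by exact_mod_cast hN3
  have hN0 : (0 : ℝ) < N := by linarith
  have hNe : Real.exp L₀ ≤ N := (Nat.le_ceil _).trans (by exact_mod_cast (le_max_right _ _).trans hN)
  set L : ℝ := Real.log N with hL
  have hLL : L₀ ≤ L := (Real.le_log_iff_exp_le hN0).2 hNe
  have hL1 : 1 ≤ L := hL₀.trans hLL
  have hL0 : 0 < L := by linarith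
  have hexp : Real.exp L = N := Real.exp_log hN0
  set X : ℕ := 2 ^ k * N with hX
  have hNX : N ≤ X := Nat.le_mul_of_pos_left N (by positivity)
  have hX3 : 3 ≤ X := hN3.trans hNX
  have hXr : (3 : ℝ) ≤ X := by exact_mod_cast hX3
  have hNXr : (N : ℝ) ≤ X := by exact_mod_cast hNX
  have hlX : L ≤ Real.log X := Real.log_le_log hN0 hNXr
  have h1 := sum_hf_le_prod (H := D.HH L Q μ) (K := (D.K : ℝ) + 1)
    (fun p _ => D.upx_HH_nonneg L Q μ p)
    (fun p hp => D.HH_le_K L Q μ p hp)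
    (X := X) (by omega)
  have h2 := Gen.prod_le_exp ((Icc 1 X).filter Nat.Prime) (D.HH L Q μ)
    (fun p _ => D.upx_HH_nonneg L Q μ p)
  have hsub : (Icc 1 N).filter Nat.Prime ⊆ (Icc 1 X).filter Nat.Prime := by
    intro p hp
    rw [mem_filter, mem_Icc] at hp ⊢
    exact ⟨⟨hp.1.1, hp.1.2.trans hNX⟩, hp.2⟩
  have hzz : zz L Q Q = N := by rw [upx_zz_self L (by omega), hexp]
  have h3 : ∑ p ∈ (Icc 1 X).filter Nat.Prime, D.HH L Q μ p / (p : ℝ) =
      ∑ p ∈ (Icc 1 N).filter Nat.Prime, D.HH L Q μ p / (p : ℝ) := by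
    symm
    refine sum_subset hsub fun p hp hpN => ?_
    have hgt : (N : ℝ) < (p : ℝ) := by
      rw [mem_filter, mem_Icc] at hp hpN
      by_contra hcon
      push Not at hcon
      exact hpN ⟨⟨hp.1.1, by exact_mod_cast hcon⟩, hp.2⟩
    have hnW : ¬ InW L Q μ p := by
      intro hW
      have := hW.2.1
      rw [hzz] at this
      linarith
    have hnz : ¬ ((p : ℝ) ≤ zz L Q Q) := by
      rw [hzz]
      exact not_le.2 hgt
    unfold HH
    rw [if_neg hnW, if_neg hnz, hi]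
    simp
  have h4 := h L hLL μ hμ hg
  rw [hexp, Nat.floor_natCast] at h4
  have h5 : ∑ p ∈ (Icc 1 N).filter Nat.Prime, (if (R f p).Nonempty then (1 : ℝ) else 0) / (p : ℝ) =
      ∑ p ∈ rootPrimes f N, 1 / (p : ℝ) := by
    unfold rootPrimes
    rw [← filter_filter, sum_filter _ (fun p : ℕ => 1 / (p : ℝ))]
    refine sum_congr rfl fun p _ => ?_
    split_ifs
    · rfl
    · rw [zero_div]
  rw [h5] at h4
  have hge := Gen.prod_ge_exp (rootPrimes f N) (fun p hp => by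
    unfold rootPrimes at hp
    rw [mem_filter] at hp
    exact hp.2.1)
  set Rp : ℝ := ∏ p ∈ rootPrimes f N, (1 + 1 / (p : ℝ)) with hRp
  have h6 : ∏ p ∈ (Icc 1 X).filter Nat.Prime, (1 + D.HH L Q μ p / (p : ℝ)) ≤
      Real.exp (C₃ + 1) * L ^ (-c) * Rp := by
    refine h2.trans ?_
    rw [h3]
    refine le_trans ?_ (mul_le_mul_of_nonneg_left hge (by positivity))
    rw [Real.rpow_def_of_pos hL0, ← Real.exp_add, ← Real.exp_add]
    refine Real.exp_le_exp.2 ?_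
    linarith
  have h7 : (X : ℝ) / Real.log X ≤ 2 ^ k * (N * L ^ (-1 : ℝ)) := by
    have e1 : (X : ℝ) / Real.log X ≤ X / L := div_le_div_of_nonneg_left (by positivity) hL0 hlX
    refine e1.trans (le_of_eq ?_)
    rw [Real.rpow_neg_one, hX]
    push_cast
    ring
  have hLc : L ^ (-1 - c) = L ^ (-1 : ℝ) * L ^ (-c) := by
    rw [← Real.rpow_add hL0]
    congr 1
  have hRp0 : 0 ≤ Rp := prod_nonneg fun p _ => by positivity
  have hprod0 : 0 ≤ ∏ p ∈ (Icc 1 X).filter Nat.Prime, (1 + D.HH L Q μ p / (p : ℝ)) :=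
    prod_nonneg fun p _ => by
      have := D.upx_HH_nonneg L Q μ p
      positivity
  refine h1.trans ?_
  rw [hLc]
  calc (2 * ((D.K : ℝ) + 1) + 1) * (X / Real.log X) *
        ∏ p ∈ (Icc 1 X).filter Nat.Prime, (1 + D.HH L Q μ p / (p : ℝ)) ≤
        (2 * ((D.K : ℝ) + 1) + 1) * (2 ^ k * (N * L ^ (-1 : ℝ))) *
          (Real.exp (C₃ + 1) * L ^ (-c) * Rp) := by
        refine mul_le_mul (mul_le_mul_of_nonneg_left h7 (by positivity)) h6 hprod0 (by positivity)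
    _ = _ := by ring

end Sys

end Stoll308.TW
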